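import Mathlib

/-!
# SPT: series-parallel twist patterns

`V` is a vector space over the field with two elements.
-/

set_option autoImplicit false

open Submodule

namespace Pool.Agent.SPT

/-- The matroid of the vectors in the finite set `X`, after contraction of the subspace `K`, is
series-parallel: it is reduced to the empty matroid by the following steps.

* `loop`: remove a vector of `K`;
* `coloop`: contract a vector which is not in the span of `K` and the other vectors;
* `parallel`: remove a vector `v` which is equal to another vector `w` modulo `K`;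
* `series`: contract a vector `v` such that some other vector `w` forms a two-element cut with `v`
  (`v` is not in the span of `K` and of the vectors other than `v` and `w`, but `v + w` is). -/
inductive SeriesParallel {V : Type} [AddCommGroup V] [Module (ZMod 2) V] [DecidableEq V] :
    Finset V → Submodule (ZMod 2) V → Prop
  | empty (K : Submodule (ZMod 2) V) : SeriesParallel ∅ K
  | loop (X : Finset V) (K : Submodule (ZMod 2) V) (v : V) : v ∈ K → SeriesParallel X K →
      SeriesParallel (insert v X) K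
  | coloop (X : Finset V) (K : Submodule (ZMod 2) V) (v : V) :
      v ∉ K ⊔ span (ZMod 2) (X : Set V) →
      SeriesParallel X (K ⊔ span (ZMod 2) {v}) → SeriesParallel (insert v X) K
  | parallel (X : Finset V) (K : Submodule (ZMod 2) V) (v w : V) : w ∈ X → v + w ∈ K →
      SeriesParallel X K → SeriesParallel (insert v X) K
  | series (X : Finset V) (K : Submodule (ZMod 2) V) (v w : V) : v ≠ w →
      v ∉ K ⊔ span (ZMod 2) (X : Set V) → v + w ∈ K ⊔ span (ZMod 2) (X : Set V) →
      SeriesParallel (insert w X) (K ⊔ span (ZMod 2) {v}) →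
      SeriesParallel (insert v (insert w X)) K

/-- the spanning sets of the matroid of `X` after contraction of `K` -/
def Spans {V : Type} [AddCommGroup V] [Module (ZMod 2) V] (K : Submodule (ZMod 2) V)
    (X W : Finset V) : Prop :=
  K ⊔ span (ZMod 2) (W : Set V) = K ⊔ span (ZMod 2) (X : Set V)

open Classical in
/-- the polynomial of the spanning sets of the matroid of `X` after contraction of `K` -/
noncomputable def PP {V : Type} [AddCommGroup V] [Module (ZMod 2) V]
    (X : Finset V) (K : Submodule (ZMod 2) V) (x : V → ℂ) : ℂ :=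
  ∑ W ∈ X.powerset, if Spans K X W then ∏ v ∈ W, (x v - 1) else 0

/-- the weights for which the polynomial is not zero -/
def Good {V : Type} [AddCommGroup V] [Module (ZMod 2) V]
    (X : Finset V) (K : Submodule (ZMod 2) V) (x : V → ℂ) : Prop :=
  (∀ v ∈ X, ‖x v‖ ≤ 1) ∧ (∀ v ∈ X, v ∈ K → x v ≠ 0) ∧
    (∀ v ∈ X, v ∈ K ⊔ span (ZMod 2) {w | w ∈ X ∧ x w ≠ 1}) ∧
    ∀ v ∈ X, ∀ w ∈ X, v ≠ w → v ∉ K → v + w ∈ K → x v = 1 ∨ x w = 1 ∨ ‖x v‖ < 1 ∨ ‖x w‖ < 1

/-- **Module A** -/
def St_Ne : Prop :=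
  ∀ (V : Type) [AddCommGroup V] [Module (ZMod 2) V] [DecidableEq V]
    (X : Finset V) (K : Submodule (ZMod 2) V), SeriesParallel X K →
    ∀ x : V → ℂ, Good X K x → PP X K x ≠ 0

/-- **Module B** -/
def St_Lower : Prop :=
  ∀ (k : ℕ) (η : ℝ), 0 < η → ∃ c : ℝ, 0 < c ∧
    ∀ (V : Type) [AddCommGroup V] [Module (ZMod 2) V] [DecidableEq V]
      (X L : Finset V), X.card ≤ k → SeriesParallel X ⊥ → L ⊆ X →
      span (ZMod 2) (L : Set V) = span (ZMod 2) (X : Set V) →
      ∀ x : V → ℂ, (∀ v ∈ X, ‖x v‖ = 1) → (∀ v ∈ L, η ≤ ‖x v - 1‖) → c ≤ ‖PP X ⊥ x‖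

/-- **Module C** -/
def St_Theta : Prop :=
  ∀ k : ℕ, ∃ η : ℝ, 0 < η ∧ ∀ (s : Finset ℤ), s.card ≤ k → ∀ (t l : ℝ),
    (∀ a ∈ s, Real.pi ≤ l * |(a : ℝ)|) → 0 < l →
    ∃ θ : ℝ, t ≤ θ ∧ θ ≤ t + l ∧ ∀ a ∈ s, η ≤ ‖Complex.exp (((a * θ : ℝ) : ℂ) * Complex.I) - 1‖

/-- the value of `A` -/
noncomputable def Aθ (θ : ℝ) : ℂ := Complex.exp ((((Real.pi + θ) / 4 : ℝ) : ℂ) * Complex.I)

/-- The number of the crossings in `S` at which `σ` is the `A`-smoothing, minus the number of those
at which it is the `B`-smoothing. -/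
def signedCount {E : Type} (σ : E → Bool) (S : Finset E) : ℤ := ∑ c ∈ S, if σ c then 1 else -1

open Classical in
/-- **Module D** -/
def St_Eval : Prop :=
  ∀ (E : Type) [Fintype E] [DecidableEq E] (M : Matrix E E (ZMod 2)), (∀ i j, M i j = M j i) →
    ∀ (σ : E → Bool) (θ : ℝ), 0 < θ → θ < 1 →
    ‖PP (Finset.univ.image M) ⊥ (fun v => Complex.exp (((
        signedCount σ (Finset.univ.filter fun c => M c = v) * θ : ℝ) : ℂ) * Complex.I))‖ -
      3 ^ (Finset.univ.image M).card * θ ≤
    θ ^ M.rank * ‖∑ s : E → Bool, (∏ c, if s c then Aθ θ else (Aθ θ)⁻¹) *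
      (-(Aθ θ) ^ 2 - ((Aθ θ)⁻¹) ^ 2) ^
        (Module.finrank (ZMod 2) (LinearMap.ker
          (M + Matrix.diagonal fun c => if s c = σ c then (0 : ZMod 2) else 1).mulVecLin))‖

end Pool.Agent.SPT
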