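import Mathlib
import Pool.Agent.SPT.Defs
import Pool.Agent.UNI.KDefs
import Pool.Agent.UNI.GDefs

/-!
# SPT: the statements
-/

set_option autoImplicit false

open Submodule LaurentPolynomial

namespace Pool.Agent.SPT

variable {n : ℕ}

open Classical in
/-- the row `c` of the relation `R` on the crossings -/
noncomputable def row (R : Fin n → Fin n → Prop) (c : Fin n) : Fin n → ZMod 2 :=
  fun e => if R c e then 1 else 0

open Classical in
/-- the set of the different rows -/
noncomputable def rows (R : Fin n → Fin n → Prop) : Finset (Fin n → ZMod 2) :=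
  Finset.univ.image (row R)

open Classical in
/-- the number of the crossings with row `v` at which `σ` is the `A`-smoothing, minus the number of
those at which it is the `B`-smoothing -/
noncomputable def twist (R : Fin n → Fin n → Prop) (σ : Fin n → Bool) (v : Fin n → ZMod 2) : ℤ :=
  ∑ c with row R c = v, if σ c then 1 else -1

/-- There are at most `k` different rows, not all zero, their matroid is series-parallel, and the
rows `v` with `|twist v| ≥ N` span all rows. -/
def LongTwists (R : Fin n → Fin n → Prop) (σ : Fin n → Bool) (k N : ℕ) : Prop :=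
  (∃ c d, R c d) ∧ (rows R).card ≤ k ∧ SeriesParallel (rows R) ⊥ ∧
    span (ZMod 2) {v | v ∈ rows R ∧ (N : ℤ) ≤ |twist R σ v|} = span (ZMod 2) (rows R : Set _)

/-- the sum of the absolute values of the coefficients -/
noncomputable def coeffSum (f : ℤ[T;T⁻¹]) : ℤ := ∑ i ∈ f.coeff.support, |f.coeff i|

/-- **knotoid diagrams** -/
def St_Knotoid : Prop :=
  ∀ k B : ℕ, ∃ N : ℕ, ∀ (n : ℕ) (D : Helper16.Knotoid.GaussDiagram n) (σ : Fin n → Bool),
    LongTwists (D.Cut σ) σ k N → (B : ℤ) < coeffSum D.normalizedBracket

/-- **knot diagrams** -/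
def St_Knot : Prop :=
  ∀ k B : ℕ, ∃ N : ℕ, ∀ (n : ℕ) (g : GaussJones.Code n) (e σ : Fin n → Bool),
    LongTwists (GaussJones.Cut g e σ) σ k N → (B : ℤ) < coeffSum (GaussJones.fPoly g e)

end Pool.Agent.SPT
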