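import Mathlib
import Pool.Agent.SPT.Stmt

/-!
# SPT: the general form, for all patterns with a nonvanishing polynomial

`V` is a vector space over the field with two elements, `X` a finite set of vectors.
-/

set_option autoImplicit false

open Submodule LaurentPolynomial

namespace Pool.Agent.SPT

/-- **Nonvanishing**: if the vectors `v ≠ 0` of `X` are given weights `z ^ u v`, `u v` nonzero integers,
then the sum over the spanning subsets `W` of `X` of `∏ v ∈ W, (z ^ u v - 1)` is not zero for all `z` on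
the unit circle. -/
def NonV {V : Type} [AddCommGroup V] [Module (ZMod 2) V] (X : Finset V) : Prop :=
  ∀ u : V → ℤ, (∀ v ∈ X, v ≠ 0 → u v ≠ 0) → ∃ z : ℂ, ‖z‖ = 1 ∧ PP X ⊥ (fun v => z ^ u v) ≠ 0

/-- `NonV` for all spanning subsets of `X` which contain `L` -/
def NonVs {V : Type} [AddCommGroup V] [Module (ZMod 2) V] (L X : Finset V) : Prop :=
  ∀ Y : Finset V, L ⊆ Y → Y ⊆ X → NonV Y

/-- **Module CL** (clusters).  PROOF.  `PP X ⊥ x = ∑ S ⊆ X, c S * ∏ v ∈ S, x v` with integers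
`c S = ∑ W ⊇ S spanning, (-1)^|W \ S|`, `∑ |c S| ≤ 3 ^ k`.  Let `a S = ∑ v ∈ S, a v`. -/
def St_Cluster : Prop :=
  ∀ (k : ℕ) (τ : ℝ), 0 < τ → ∃ N : ℕ,
    ∀ (V : Type) [AddCommGroup V] [Module (ZMod 2) V] [DecidableEq V]
      (X L : Finset V), X.card ≤ k → L ⊆ X →
      span (ZMod 2) (L : Set V) = span (ZMod 2) (X : Set V) → NonVs L X →
      ∀ a : V → ℤ, (∀ v ∈ L, (N : ℤ) ≤ |a v|) →
        ∃ θ : ℝ, 0 < θ ∧ θ ≤ τ ∧
          1 / 2 ≤ ‖PP X ⊥ (fun v => Complex.exp (((a v * θ : ℝ) : ℂ) * Complex.I))‖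

/-- **Module SN**: series-parallel sets -/
def St_SPNonV : Prop :=
  ∀ (V : Type) [AddCommGroup V] [Module (ZMod 2) V] [DecidableEq V] (X L : Finset V),
    SeriesParallel X ⊥ → span (ZMod 2) (L : Set V) = span (ZMod 2) (X : Set V) → NonVs L X

/-- **Module R3**: sets of rank at most three -/
def St_Rank3 : Prop :=
  ∀ (V : Type) [AddCommGroup V] [Module (ZMod 2) V] [DecidableEq V] (X : Finset V),
    Module.finrank (ZMod 2) (span (ZMod 2) (X : Set V)) ≤ 3 → NonV X

/-- **Module SUM**: direct sums -/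
def St_Sum : Prop :=
  ∀ (V : Type) [AddCommGroup V] [Module (ZMod 2) V] [DecidableEq V] (X Y : Finset V),
    Disjoint (span (ZMod 2) (X : Set V)) (span (ZMod 2) (Y : Set V)) → NonV X → NonV Y →
    NonV (X ∪ Y)

/-- There are at most `k` different rows, not all zero; the rows `v` with `|twist v| ≥ N` span all rows,
and `NonV` holds for all sets of rows which contain them. -/
def LongPattern {n : ℕ} (R : Fin n → Fin n → Prop) (σ : Fin n → Bool) (k N : ℕ) : Prop :=
  (∃ c d, R c d) ∧ (rows R).card ≤ k ∧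
    span (ZMod 2) {v | v ∈ rows R ∧ (N : ℤ) ≤ |twist R σ v|} = span (ZMod 2) (rows R : Set _) ∧
    ∀ Y ⊆ rows R, (∀ v ∈ rows R, (N : ℤ) ≤ |twist R σ v| → v ∈ Y) → NonV Y

/-- **knotoid diagrams** -/
def St_KnotoidN : Prop :=
  ∀ k B : ℕ, ∃ N : ℕ, ∀ (n : ℕ) (D : Helper16.Knotoid.GaussDiagram n) (σ : Fin n → Bool),
    LongPattern (D.Cut σ) σ k N → (B : ℤ) < coeffSum D.normalizedBracket

/-- **knot diagrams** -/
def St_KnotN : Prop :=
  ∀ k B : ℕ, ∃ N : ℕ, ∀ (n : ℕ) (g : GaussJones.Code n) (e σ : Fin n → Bool),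
    LongPattern (GaussJones.Cut g e σ) σ k N → (B : ℤ) < coeffSum (GaussJones.fPoly g e)

end Pool.Agent.SPT
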