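import Mathlib
import Pool.Agent.SPT.Defs

/-!
# SPT, module A: the spanning set polynomial of a series-parallel matroid has no good zero
-/

set_option autoImplicit false
set_option linter.unusedSectionVars false

open Submodule

namespace Pool.Agent.SPT

section

variable {V : Type} [AddCommGroup V] [Module (ZMod 2) V] [DecidableEq V]

theorem aself (x : V) : x + x = 0 := ZModModule.add_self x

theorem zm2 (a : ZMod 2) : a = 0 ∨ a = 1 := by
  revert a
  decide

theorem mem_ss (K : Submodule (ZMod 2) V) (v x : V) :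
    x ∈ K ⊔ span (ZMod 2) {v} ↔ x ∈ K ∨ x + v ∈ K := by
  constructor
  · intro h
    obtain ⟨y, hy, z, hz, rfl⟩ := mem_sup.1 h
    obtain ⟨a, rfl⟩ := mem_span_singleton.1 hz
    rcases zm2 a with rfl | rfl
    · left
      rwa [zero_smul, add_zero]
    · right
      rwa [one_smul, add_assoc, aself, add_zero]
  · rintro (h | h)
    · exact mem_sup_left h
    · have h1 : x = (x + v) + v := by rw [add_assoc, aself, add_zero]
      rw [h1]
      exact add_mem (mem_sup_left h) (mem_sup_right (mem_span_singleton_self v))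

/-- the span of `K` and `v`, `X` -/
theorem ss_insert (K : Submodule (ZMod 2) V) (v : V) (X : Finset V) :
    K ⊔ span (ZMod 2) ((insert v X : Finset V) : Set V) =
      (K ⊔ span (ZMod 2) {v}) ⊔ span (ZMod 2) (X : Set V) := by
  rw [Finset.coe_insert, span_insert, sup_assoc]

theorem ss_insert' (K : Submodule (ZMod 2) V) (v : V) (X : Finset V) :
    K ⊔ span (ZMod 2) ((insert v X : Finset V) : Set V) =
      (K ⊔ span (ZMod 2) (X : Set V)) ⊔ span (ZMod 2) {v} := by
  rw [ss_insert, sup_right_comm]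

theorem ss_loop (K : Submodule (ZMod 2) V) (v : V) (hv : v ∈ K) : K ⊔ span (ZMod 2) {v} = K := by
  rw [sup_eq_left, span_singleton_le_iff_mem]
  exact hv

theorem ss_par (K : Submodule (ZMod 2) V) (v w : V) (hvw : v + w ∈ K) :
    K ⊔ span (ZMod 2) {v} = K ⊔ span (ZMod 2) {w} := by
  have key : ∀ v w : V, v + w ∈ K → K ⊔ span (ZMod 2) {v} ≤ K ⊔ span (ZMod 2) {w} := by
    intro v w h
    refine sup_le le_sup_left ?_
    rw [span_singleton_le_iff_mem, mem_ss]
    exact Or.inr h
  exact le_antisymm (key v w hvw) (key w v (by rwa [add_comm]))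

/-! ### the four reductions of the polynomial -/

open Classical in
/-- a part of the sum -/
noncomputable def SS (X : Finset V) (x : V → ℂ) (P : Finset V → Prop) : ℂ :=
  ∑ W ∈ X.powerset, if P W then ∏ u ∈ W, (x u - 1) else 0

theorem PP_eq (X : Finset V) (K : Submodule (ZMod 2) V) (x : V → ℂ) :
    PP X K x = SS X x (Spans K X) := rfl

theorem SS_congr (X : Finset V) (x : V → ℂ) (P Q : Finset V → Prop)
    (h : ∀ W ⊆ X, (P W ↔ Q W)) : SS X x P = SS X x Q := by
  classical
  unfold SS
  refine Finset.sum_congr rfl fun W hW => ?_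
  rw [if_congr (h W (Finset.mem_powerset.1 hW)) rfl rfl]

theorem SS_zero (X : Finset V) (x : V → ℂ) (P : Finset V → Prop)
    (h : ∀ W ⊆ X, ¬ P W) : SS X x P = 0 := by
  classical
  unfold SS
  refine Finset.sum_eq_zero fun W hW => ?_
  rw [if_neg (h W (Finset.mem_powerset.1 hW))]

theorem SS_insert (X : Finset V) (x : V → ℂ) (v : V) (hv : v ∉ X) (P : Finset V → Prop) :
    SS (insert v X) x P = SS X x P + (x v - 1) * SS X x fun W => P (insert v W) := by
  classical
  unfold SS
  rw [Finset.sum_powerset_insert hv, Finset.mul_sum]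
  refine congrArg₂ (· + ·) rfl (Finset.sum_congr rfl fun W hW => ?_)
  have hvW : v ∉ W := fun h => hv (Finset.mem_powerset.1 hW h)
  rw [Finset.prod_insert hvW, mul_ite, mul_zero]

theorem SS_update (X : Finset V) (x : V → ℂ) (w : V) (hw : w ∉ X) (c : ℂ)
    (P : Finset V → Prop) : SS X (Function.update x w c) P = SS X x P := by
  classical
  unfold SS
  refine Finset.sum_congr rfl fun W hW => ?_
  have : ∏ v ∈ W, (Function.update x w c v - 1) = ∏ v ∈ W, (x v - 1) := by
    refine Finset.prod_congr rfl fun v hv => ?_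
    rw [Function.update_of_ne]
    rintro rfl
    exact hw (Finset.mem_powerset.1 hW hv)
  rw [this]

theorem PP_loop (X : Finset V) (K : Submodule (ZMod 2) V) (x : V → ℂ) (v : V) (hv : v ∉ X)
    (hK : v ∈ K) : PP (insert v X) K x = x v * PP X K x := by
  rw [PP_eq, PP_eq, SS_insert X x v hv, SS_congr X x (Spans K (insert v X)) (Spans K X),
    SS_congr X x (fun W => Spans K (insert v X) (insert v W)) (Spans K X)]
  · ring
  · intro W _
    unfold Spans
    rw [ss_insert, ss_insert, ss_loop K v hK]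
  · intro W _
    unfold Spans
    rw [ss_insert, ss_loop K v hK]

theorem PP_coloop (X : Finset V) (K : Submodule (ZMod 2) V) (x : V → ℂ) (v : V)
    (hK : v ∉ K ⊔ span (ZMod 2) (X : Set V)) :
    PP (insert v X) K x = (x v - 1) * PP X (K ⊔ span (ZMod 2) {v}) x := by
  have hv : v ∉ X := fun h => hK (mem_sup_right (subset_span h))
  rw [PP_eq, PP_eq, SS_insert X x v hv, SS_zero, zero_add,
    SS_congr X x (fun W => Spans K (insert v X) (insert v W)) (Spans (K ⊔ span (ZMod 2) {v}) X)]
  · intro W _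
    unfold Spans
    rw [ss_insert, ss_insert]
  · intro W hW h
    unfold Spans at h
    apply hK
    have h1 : v ∈ K ⊔ span (ZMod 2) ((insert v X : Finset V) : Set V) :=
      mem_sup_right (subset_span (Finset.mem_coe.2 (Finset.mem_insert_self v X)))
    rw [← h] at h1
    exact (sup_le_sup_left (span_mono (Finset.coe_subset.2 hW)) K) h1

theorem PP_parallel (X : Finset V) (K : Submodule (ZMod 2) V) (x : V → ℂ) (v w : V)
    (hvw : v ≠ w) (hv : v ∉ X) (hw : w ∉ X) (hK : v + w ∈ K) :
    PP (insert v (insert w X)) K x =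
      PP (insert w X) K (Function.update x w (x v * x w)) := by
  have hv' : v ∉ insert w X := by
    rw [Finset.mem_insert, not_or]
    exact ⟨hvw, hv⟩
  have e0 : K ⊔ span (ZMod 2) {w} ⊔ span (ZMod 2) {w} = K ⊔ span (ZMod 2) {w} := by
    rw [sup_assoc, sup_idem]
  have e2 : ∀ Y : Finset V, K ⊔ span (ZMod 2) ((insert v Y : Finset V) : Set V) =
      K ⊔ span (ZMod 2) ((insert w Y : Finset V) : Set V) := by
    intro Y
    rw [ss_insert, ss_par K v w hK, ss_insert]
  have e1 : ∀ Y : Finset V, K ⊔ span (ZMod 2) ((insert v (insert w Y) : Finset V) : Set V) =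
      K ⊔ span (ZMod 2) ((insert w Y : Finset V) : Set V) := by
    intro Y
    rw [e2, ss_insert, ss_insert, e0, ss_insert]
  have h0 : ∀ W ⊆ X, (Spans K (insert v (insert w X)) W ↔ Spans K (insert w X) W) := by
    intro W _
    unfold Spans
    rw [e1]
  have h1 : ∀ W ⊆ X, (Spans K (insert v (insert w X)) (insert w W) ↔
      Spans K (insert w X) (insert w W)) := by
    intro W _
    unfold Spans
    rw [e1]
  have h2 : ∀ W ⊆ X, (Spans K (insert v (insert w X)) (insert v W) ↔
      Spans K (insert w X) (insert w W)) := by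
    intro W _
    unfold Spans
    rw [e1, e2]
  have h3 : ∀ W ⊆ X, (Spans K (insert v (insert w X)) (insert v (insert w W)) ↔
      Spans K (insert w X) (insert w W)) := by
    intro W _
    unfold Spans
    rw [e1, e1]
  rw [PP_eq, PP_eq, SS_insert _ x v hv', SS_insert X _ w hw, SS_insert X _ w hw,
    SS_insert X _ w hw, SS_update X x w hw, SS_update X x w hw, Function.update_self,
    SS_congr X x _ _ h0, SS_congr X x _ _ h1, SS_congr X x _ _ h2, SS_congr X x _ _ h3]
  ring

theorem PP_series (X : Finset V) (K : Submodule (ZMod 2) V) (x : V → ℂ) (v w : V)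
    (hvw : v ≠ w) (hv : v ∉ K ⊔ span (ZMod 2) (X : Set V))
    (hK : v + w ∈ K ⊔ span (ZMod 2) (X : Set V)) (c : ℂ)
    (hc : (x v + x w - 2) * (c - 1) = (x v - 1) * (x w - 1)) :
    PP (insert v (insert w X)) K x =
      (x v + x w - 2) * PP (insert w X) (K ⊔ span (ZMod 2) {v}) (Function.update x w c) := by
  have hw : w ∉ K ⊔ span (ZMod 2) (X : Set V) := by
    intro h
    apply hv
    have h1 : v = (v + w) + w := by rw [add_assoc, aself, add_zero]
    rw [h1]
    exact add_mem hK h
  have hvX : v ∉ X := fun h => hv (mem_sup_right (subset_span h))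
  have hwX : w ∉ X := fun h => hw (mem_sup_right (subset_span h))
  have hv' : v ∉ insert w X := by
    rw [Finset.mem_insert, not_or]
    exact ⟨hvw, hvX⟩
  obtain ⟨S, hS⟩ : ∃ S, S = K ⊔ span (ZMod 2) (X : Set V) := ⟨_, rfl⟩
  rw [← hS] at hv hK hw
  have hSw : S ⊔ span (ZMod 2) {w} = S ⊔ span (ZMod 2) {v} :=
    (ss_par S v w hK).symm
  have hT : ∀ W : Finset V, W ⊆ X → ∀ u, u ∉ S →
      (K ⊔ span (ZMod 2) {u} ⊔ span (ZMod 2) (W : Set V) = S ⊔ span (ZMod 2) {u} ↔
        K ⊔ span (ZMod 2) (W : Set V) = S) := by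
    intro W hW u hu
    have hWS : K ⊔ span (ZMod 2) (W : Set V) ≤ S := by
      rw [hS]
      exact sup_le_sup_left (span_mono (Finset.coe_subset.2 hW)) K
    rw [sup_right_comm]
    constructor
    · intro h
      refine le_antisymm hWS fun s hs => ?_
      have h1 : s ∈ K ⊔ span (ZMod 2) (W : Set V) ⊔ span (ZMod 2) {u} := by
        rw [h]
        exact mem_sup_left hs
      rcases (mem_ss _ _ _).1 h1 with h2 | h2
      · exact h2
      · exfalso
        apply hu
        have h3 : u = s + (s + u) := by rw [← add_assoc, aself, zero_add]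
        rw [h3]
        exact add_mem hs (hWS h2)
    · intro h
      rw [h]
  have hall : K ⊔ span (ZMod 2) ((insert v (insert w X) : Finset V) : Set V) =
      S ⊔ span (ZMod 2) {v} := by
    rw [ss_insert', ss_insert', ← hS, hSw, sup_assoc, sup_idem]
  have hall' : K ⊔ span (ZMod 2) {v} ⊔ span (ZMod 2) ((insert w X : Finset V) : Set V) =
      S ⊔ span (ZMod 2) {v} := by
    rw [← ss_insert, hall]
  have k0 : ∀ W ⊆ X, ¬ Spans K (insert v (insert w X)) W := by
    intro W hW h
    unfold Spans at h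
    rw [hall] at h
    apply hv
    have h1 : v ∈ S ⊔ span (ZMod 2) {v} := mem_sup_right (mem_span_singleton_self v)
    rw [← h, ] at h1
    rw [hS]
    exact (sup_le_sup_left (span_mono (Finset.coe_subset.2 hW)) K) h1
  have k1 : ∀ W ⊆ X, (Spans K (insert v (insert w X)) (insert w W) ↔
      K ⊔ span (ZMod 2) (W : Set V) = S) := by
    intro W hW
    unfold Spans
    rw [hall, ss_insert, ← hSw]
    exact hT W hW w hw
  have k2 : ∀ W ⊆ X, (Spans K (insert v (insert w X)) (insert v W) ↔
      K ⊔ span (ZMod 2) (W : Set V) = S) := by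
    intro W hW
    unfold Spans
    rw [hall, ss_insert]
    exact hT W hW v hv
  have k3 : ∀ W ⊆ X, (Spans (K ⊔ span (ZMod 2) {v}) (insert w X) W ↔
      K ⊔ span (ZMod 2) (W : Set V) = S) := by
    intro W hW
    unfold Spans
    rw [hall']
    exact hT W hW v hv
  have k4 : ∀ W ⊆ X, (Spans K (insert v (insert w X)) (insert v (insert w W)) ↔
      Spans (K ⊔ span (ZMod 2) {v}) (insert w X) (insert w W)) := by
    intro W _
    unfold Spans
    rw [hall, hall', ss_insert]
  rw [PP_eq, PP_eq, SS_insert _ x v hv', SS_insert X _ w hwX, SS_insert X _ w hwX,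
    SS_insert X _ w hwX, SS_update X x w hwX, SS_update X x w hwX, Function.update_self,
    SS_zero X x _ k0, SS_congr X x _ _ k1, SS_congr X x _ _ k2, SS_congr X x _ _ k3,
    SS_congr X x _ _ k4]
  linear_combination (-SS X x fun W => Spans (K ⊔ span (ZMod 2) {v}) (insert w X) (insert w W)) * hc

/-! ### two inequalities in the unit disc -/

theorem disc_two (a b : ℂ) (ha : ‖a‖ ≤ 1) (hb : ‖b‖ ≤ 1) (h : a + b - 2 = 0) :
    a = 1 ∧ b = 1 := by
  have h1 : a.re ^ 2 + a.im ^ 2 ≤ 1 := by
    have h2 := Complex.sq_norm a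
    rw [Complex.normSq_apply] at h2
    nlinarith [norm_nonneg a]
  have h1' : b.re ^ 2 + b.im ^ 2 ≤ 1 := by
    have h2 := Complex.sq_norm b
    rw [Complex.normSq_apply] at h2
    nlinarith [norm_nonneg b]
  have hre := congrArg Complex.re h
  simp only [Complex.sub_re, Complex.add_re, Complex.re_ofNat, Complex.zero_re] at hre
  have ha1 : a.re ≤ 1 := by nlinarith [sq_nonneg a.im, sq_nonneg (a.re - 1)]
  have hb1 : b.re ≤ 1 := by nlinarith [sq_nonneg b.im, sq_nonneg (b.re - 1)]
  have ha2 : a.re = 1 := by linarith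
  have hb2 : b.re = 1 := by linarith
  have ha3 : a.im = 0 := by
    rw [ha2] at h1
    nlinarith [sq_nonneg a.im]
  have hb3 : b.im = 0 := by
    rw [hb2] at h1'
    nlinarith [sq_nonneg b.im]
  exact ⟨Complex.ext (by simpa using ha2) (by simpa using ha3),
    Complex.ext (by simpa using hb2) (by simpa using hb3)⟩

theorem disc_lt (a b : ℂ) (ha : ‖a‖ ≤ 1) (hb : ‖b‖ ≤ 1) (ha1 : a ≠ 1) (hb1 : b ≠ 1) :
    ‖a * b - 1‖ < ‖a + b - 2‖ := by
  have h1 : a.re ^ 2 + a.im ^ 2 ≤ 1 := by
    have h2 := Complex.sq_norm a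
    rw [Complex.normSq_apply] at h2
    nlinarith [norm_nonneg a]
  have h1' : b.re ^ 2 + b.im ^ 2 ≤ 1 := by
    have h2 := Complex.sq_norm b
    rw [Complex.normSq_apply] at h2
    nlinarith [norm_nonneg b]
  have hA : 0 < (1 - a.re) ^ 2 + a.im ^ 2 := by
    by_contra h
    have h3 : (1 - a.re) ^ 2 = 0 := by nlinarith [sq_nonneg (1 - a.re), sq_nonneg a.im]
    have h4 : a.im ^ 2 = 0 := by nlinarith [sq_nonneg (1 - a.re), sq_nonneg a.im]
    apply ha1
    apply Complex.ext
    · rw [Complex.one_re]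
      have := pow_eq_zero_iff (n := 2) (by norm_num) |>.1 h3
      linarith
    · rw [Complex.one_im]
      exact pow_eq_zero_iff (n := 2) (by norm_num) |>.1 h4
  have hB : 0 < (1 - b.re) ^ 2 + b.im ^ 2 := by
    by_contra h
    have h3 : (1 - b.re) ^ 2 = 0 := by nlinarith [sq_nonneg (1 - b.re), sq_nonneg b.im]
    have h4 : b.im ^ 2 = 0 := by nlinarith [sq_nonneg (1 - b.re), sq_nonneg b.im]
    apply hb1
    apply Complex.ext
    · rw [Complex.one_re]
      have := pow_eq_zero_iff (n := 2) (by norm_num) |>.1 h3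
      linarith
    · rw [Complex.one_im]
      exact pow_eq_zero_iff (n := 2) (by norm_num) |>.1 h4
  refine lt_of_pow_lt_pow_left₀ 2 (norm_nonneg _) ?_
  rw [Complex.sq_norm, Complex.sq_norm, Complex.normSq_apply, Complex.normSq_apply]
  simp only [Complex.sub_re, Complex.sub_im, Complex.add_re, Complex.add_im, Complex.mul_re,
    Complex.mul_im, Complex.one_re, Complex.one_im, Complex.re_ofNat, Complex.im_ofNat]
  -- with `a = 1 - u`, `b = 1 - v`
  have key : (a.re + b.re - 2) * (a.re + b.re - 2) + (a.im + b.im - 0) * (a.im + b.im - 0) -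
      ((a.re * b.re - a.im * b.im - 1) * (a.re * b.re - a.im * b.im - 1) +
        (a.re * b.im + a.im * b.re - 0) * (a.re * b.im + a.im * b.re - 0)) =
      ((1 - a.re) ^ 2 + a.im ^ 2) * (1 - (b.re ^ 2 + b.im ^ 2)) +
      ((1 - b.re) ^ 2 + b.im ^ 2) * (1 - (a.re ^ 2 + a.im ^ 2)) +
      ((1 - a.re) ^ 2 + a.im ^ 2) * ((1 - b.re) ^ 2 + b.im ^ 2) := by ring
  nlinarith [mul_nonneg hA.le (sub_nonneg.2 h1'), mul_nonneg hB.le (sub_nonneg.2 h1),
    mul_pos hA hB]

/-! ### good weights -/

/-- the vectors whose weight is not `1` -/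
def act (X : Finset V) (x : V → ℂ) : Set V := {w | w ∈ X ∧ x w ≠ 1}

theorem mem_act (X : Finset V) (x : V → ℂ) (w : V) : w ∈ act X x ↔ w ∈ X ∧ x w ≠ 1 := Iff.rfl

theorem good_iff (X : Finset V) (K : Submodule (ZMod 2) V) (x : V → ℂ) : Good X K x ↔
    (∀ v ∈ X, ‖x v‖ ≤ 1) ∧ (∀ v ∈ X, v ∈ K → x v ≠ 0) ∧
    (∀ v ∈ X, v ∈ K ⊔ span (ZMod 2) (act X x)) ∧
    ∀ v ∈ X, ∀ w ∈ X, v ≠ w → v ∉ K → v + w ∈ K →
      x v = 1 ∨ x w = 1 ∨ ‖x v‖ < 1 ∨ ‖x w‖ < 1 := Iff.rfl

/-- spans are compared on generators -/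
theorem sp_le (K L : Submodule (ZMod 2) V) (A : Set V) (hK : K ≤ L) (hA : ∀ a ∈ A, a ∈ L) :
    K ⊔ span (ZMod 2) A ≤ L := sup_le hK (span_le.2 hA)

theorem in_sp (K : Submodule (ZMod 2) V) (A : Set V) (a : V) (ha : a ∈ A) :
    a ∈ K ⊔ span (ZMod 2) A := mem_sup_right (subset_span ha)

theorem three (v w : V) : v = (v + w) + w := by rw [add_assoc, aself, add_zero]

theorem mem_three (S : Submodule (ZMod 2) V) (v w : V) (h : v + w ∈ S) (hw : w ∈ S) : v ∈ S := by
  have h1 := add_mem h hw
  rwa [← three v w] at h1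

/-- elements of `K + v` in the span of the others -/
theorem in_K (X : Finset V) (K : Submodule (ZMod 2) V) (v u : V)
    (hv : v ∉ K ⊔ span (ZMod 2) (X : Set V)) (hu : u ∈ K ⊔ span (ZMod 2) (X : Set V))
    (h : u ∈ K ⊔ span (ZMod 2) {v}) : u ∈ K := by
  rcases (mem_ss _ _ _).1 h with h1 | h1
  · exact h1
  · exfalso
    apply hv
    have h2 : v = (v + u) + u := three v u
    rw [h2]
    exact add_mem (mem_sup_left (by rwa [add_comm])) hu

theorem Good_loop (X : Finset V) (K : Submodule (ZMod 2) V) (x : V → ℂ) (v : V) (hv : v ∈ K)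
    (h : Good (insert v X) K x) : Good X K x := by
  rw [good_iff] at h ⊢
  obtain ⟨h1, h2, h3, h4⟩ := h
  have hm : ∀ u ∈ X, u ∈ insert v X := fun u hu => Finset.mem_insert_of_mem hu
  refine ⟨fun u hu => h1 u (hm u hu), fun u hu => h2 u (hm u hu), fun u hu => ?_,
    fun u hu u' hu' => h4 u (hm u hu) u' (hm u' hu')⟩
  refine sp_le K _ _ le_sup_left ?_ (h3 u (hm u hu))
  rintro a ⟨ha, ha'⟩
  rcases Finset.mem_insert.1 ha with rfl | ha
  · exact mem_sup_left hv
  · exact in_sp _ _ _ ⟨ha, ha'⟩

theorem Good_coloop (X : Finset V) (K : Submodule (ZMod 2) V) (x : V → ℂ) (v : V)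
    (hv : v ∉ K ⊔ span (ZMod 2) (X : Set V)) (h : Good (insert v X) K x) :
    Good X (K ⊔ span (ZMod 2) {v}) x := by
  rw [good_iff] at h ⊢
  obtain ⟨h1, h2, h3, h4⟩ := h
  have hm : ∀ u ∈ X, u ∈ insert v X := fun u hu => Finset.mem_insert_of_mem hu
  have hX : ∀ u ∈ X, u ∈ K ⊔ span (ZMod 2) (X : Set V) := fun u hu => in_sp _ _ _ hu
  refine ⟨fun u hu => h1 u (hm u hu), fun u hu huK => h2 u (hm u hu)
    (in_K X K v u hv (hX u hu) huK), fun u hu => ?_, fun u hu u' hu' hne huK huu => ?_⟩
  · refine sp_le K _ _ (le_sup_left.trans le_sup_left) ?_ (h3 u (hm u hu))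
    rintro a ⟨ha, ha'⟩
    rcases Finset.mem_insert.1 ha with rfl | ha
    · exact mem_sup_left (mem_sup_right (mem_span_singleton_self _))
    · exact in_sp _ _ _ ⟨ha, ha'⟩
  · exact h4 u (hm u hu) u' (hm u' hu') hne (fun h => huK (mem_sup_left h))
      (in_K X K v _ hv (add_mem (hX u hu) (hX u' hu')) huu)

theorem coloop_ne (X : Finset V) (K : Submodule (ZMod 2) V) (x : V → ℂ) (v : V)
    (hv : v ∉ K ⊔ span (ZMod 2) (X : Set V)) (h : Good (insert v X) K x) : x v ≠ 1 := by
  rw [good_iff] at h
  obtain ⟨-, -, h3, -⟩ := h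
  intro h1
  apply hv
  refine sp_le K _ _ le_sup_left ?_ (h3 v (Finset.mem_insert_self v X))
  rintro a ⟨ha, ha'⟩
  rcases Finset.mem_insert.1 ha with rfl | ha
  · exact absurd h1 ha'
  · exact in_sp _ _ _ ha

theorem mul_lt_of (a b : ℂ) (ha : ‖a‖ ≤ 1) (hb : ‖b‖ ≤ 1) (h : ‖a‖ < 1 ∨ ‖b‖ < 1) :
    ‖a * b‖ < 1 := by
  rw [norm_mul]
  rcases h with h | h
  · calc ‖a‖ * ‖b‖ ≤ ‖a‖ * 1 := mul_le_mul_of_nonneg_left hb (norm_nonneg a)
      _ < 1 := by rwa [mul_one]
  · calc ‖a‖ * ‖b‖ ≤ 1 * ‖b‖ := mul_le_mul_of_nonneg_right ha (norm_nonneg b)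
      _ < 1 := by rwa [one_mul]

theorem lt_ne_one (a : ℂ) (h : ‖a‖ < 1) : a ≠ 1 := by
  rintro rfl
  rw [norm_one] at h
  exact lt_irrefl _ h

theorem Good_parallel (X : Finset V) (K : Submodule (ZMod 2) V) (x : V → ℂ) (v w : V)
    (hvw : v ≠ w) (hv : v ∉ X) (hw : w ∉ X) (hK : v + w ∈ K)
    (h : Good (insert v (insert w X)) K x) :
    Good (insert w X) K (Function.update x w (x v * x w)) := by
  rw [good_iff] at h ⊢
  obtain ⟨h1, h2, h3, h4⟩ := h
  have hmv : v ∈ insert v (insert w X) := Finset.mem_insert_self _ _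
  have hm : ∀ u ∈ insert w X, u ∈ insert v (insert w X) := fun u hu => Finset.mem_insert_of_mem hu
  have hmw : w ∈ insert v (insert w X) := hm w (Finset.mem_insert_self _ _)
  have hup : ∀ u ∈ X, Function.update x w (x v * x w) u = x u := by
    intro u hu
    rw [Function.update_of_ne]
    rintro rfl
    exact hw hu
  have hvK : v ∈ K ↔ w ∈ K := by
    constructor
    · intro h
      rw [three w v]
      exact add_mem (by rwa [add_comm]) h
    · intro h
      rw [three v w]
      exact add_mem hK h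
  have h4' : v ∉ K → x v = 1 ∨ x w = 1 ∨ ‖x v‖ < 1 ∨ ‖x w‖ < 1 := fun hvK' =>
    h4 v hmv w hmw hvw hvK' hK
  -- the weight of `w` against another parallel vector
  have hpar : ∀ u ∈ X, w ∉ K → w + u ∈ K → x u = 1 ∨ ‖x u‖ < 1 ∨
      x v * x w = 1 ∨ ‖x v * x w‖ < 1 := by
    intro u hu hwK hwu
    have hwu' : w ≠ u := fun e => hw (e ▸ hu)
    have hvu' : v ≠ u := fun e => hv (e ▸ hu)
    have hmu := hm u (Finset.mem_insert_of_mem hu)
    have hvu : v + u ∈ K := by
      have e : v + u = (v + w) + (w + u) := by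
        rw [add_assoc, ← add_assoc w w u, aself, zero_add]
      rw [e]
      exact add_mem hK hwu
    by_cases hu1 : x u = 1
    · exact Or.inl hu1
    by_cases hu2 : ‖x u‖ < 1
    · exact Or.inr (Or.inl hu2)
    have hvK' : v ∉ K := fun h => hwK (hvK.1 h)
    rcases h4 w hmw u hmu hwu' hwK hwu with k | k | k | k
    · rcases h4 v hmv u hmu hvu' hvK' hvu with k' | k' | k' | k'
      · exact Or.inr (Or.inr (Or.inl (by rw [k, k', one_mul])))
      · exact absurd k' hu1
      · exact Or.inr (Or.inr (Or.inr (mul_lt_of _ _ (h1 v hmv) (h1 w hmw) (Or.inl k'))))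
      · exact absurd k' hu2
    · exact absurd k hu1
    · exact Or.inr (Or.inr (Or.inr (mul_lt_of _ _ (h1 v hmv) (h1 w hmw) (Or.inr k))))
    · exact absurd k hu2
  refine ⟨fun u hu => ?_, fun u hu huK => ?_, fun u hu => ?_, fun u hu u' hu' hne huK huu => ?_⟩
  · rcases Finset.mem_insert.1 hu with rfl | hu
    · rw [Function.update_self, norm_mul]
      calc ‖x v‖ * ‖x u‖ ≤ 1 * 1 :=
            mul_le_mul (h1 v hmv) (h1 u hmw) (norm_nonneg _) zero_le_one
        _ = 1 := one_mul 1
    · rw [hup u hu]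
      exact h1 u (hm u (Finset.mem_insert_of_mem hu))
  · rcases Finset.mem_insert.1 hu with rfl | hu
    · rw [Function.update_self]
      exact mul_ne_zero (h2 v hmv (hvK.2 huK)) (h2 u hmw huK)
    · rw [hup u hu]
      exact h2 u (hm u (Finset.mem_insert_of_mem hu)) huK
  · refine sp_le K _ _ le_sup_left ?_ (h3 u (hm u hu))
    -- `w` is in the new span if `v` or `w` was active
    have hw' : x v ≠ 1 ∨ x w ≠ 1 → w ∈ K ⊔ span (ZMod 2)
        (act (insert w X) (Function.update x w (x v * x w))) := by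
      intro hor
      by_cases hwK : w ∈ K
      · exact mem_sup_left hwK
      · apply in_sp
        refine ⟨Finset.mem_insert_self _ _, ?_⟩
        rw [Function.update_self]
        rcases h4' (fun h => hwK (hvK.1 h)) with k | k | k | k
        · rw [k, one_mul]
          exact hor.resolve_left fun h => h k
        · rw [k, mul_one]
          exact hor.resolve_right fun h => h k
        · exact lt_ne_one _ (mul_lt_of _ _ (h1 v hmv) (h1 w hmw) (Or.inl k))
        · exact lt_ne_one _ (mul_lt_of _ _ (h1 v hmv) (h1 w hmw) (Or.inr k))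
    rintro a ⟨ha, ha'⟩
    rcases Finset.mem_insert.1 ha with rfl | ha
    · exact mem_three _ a w (mem_sup_left hK) (hw' (Or.inl ha'))
    · rcases Finset.mem_insert.1 ha with rfl | ha
      · exact hw' (Or.inr ha')
      · apply in_sp
        refine ⟨Finset.mem_insert_of_mem ha, ?_⟩
        rw [hup a ha]
        exact ha'
  · rcases Finset.mem_insert.1 hu with rfl | huX
    · have hu'X := (Finset.mem_insert.1 hu').resolve_left fun e => hne e.symm
      rw [Function.update_self, hup u' hu'X]
      rcases hpar u' hu'X huK huu with k | k | k | k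
      · exact Or.inr (Or.inl k)
      · exact Or.inr (Or.inr (Or.inr k))
      · exact Or.inl k
      · exact Or.inr (Or.inr (Or.inl k))
    · rcases Finset.mem_insert.1 hu' with rfl | hu'X
      · rw [Function.update_self, hup u huX]
        have hwK : u' ∉ K := by
          intro h
          apply huK
          rw [three u u']
          exact add_mem huu h
        rcases hpar u huX hwK (by rwa [add_comm]) with k | k | k | k
        · exact Or.inl k
        · exact Or.inr (Or.inr (Or.inl k))
        · exact Or.inr (Or.inl k)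
        · exact Or.inr (Or.inr (Or.inr k))
      · rw [hup u huX, hup u' hu'X]
        exact h4 u (hm u hu) u' (hm u' hu') hne huK huu

theorem Good_series (X : Finset V) (K : Submodule (ZMod 2) V) (x : V → ℂ) (v w : V)
    (hvw : v ≠ w) (hv : v ∉ K ⊔ span (ZMod 2) (X : Set V))
    (hK : v + w ∈ K ⊔ span (ZMod 2) (X : Set V)) (c : ℂ) (hc : ‖c‖ ≤ 1)
    (hc0 : v + w ∈ K → c ≠ 0) (hc1 : v + w ∉ K → c = 1 ∨ ‖c‖ < 1)
    (hc2 : v + w ∉ K → c = 1 → x v = 1 ∨ x w = 1)
    (h : Good (insert v (insert w X)) K x) :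
    Good (insert w X) (K ⊔ span (ZMod 2) {v}) (Function.update x w c) := by
  rw [good_iff] at h ⊢
  obtain ⟨h1, h2, h3, h4⟩ := h
  have hw : w ∉ K ⊔ span (ZMod 2) (X : Set V) := by
    intro h
    apply hv
    rw [three v w]
    exact add_mem hK h
  have hwX : w ∉ X := fun h => hw (in_sp _ _ _ h)
  have hmv : v ∈ insert v (insert w X) := Finset.mem_insert_self _ _
  have hm : ∀ u ∈ insert w X, u ∈ insert v (insert w X) := fun u hu => Finset.mem_insert_of_mem hu
  have hmw : w ∈ insert v (insert w X) := hm w (Finset.mem_insert_self _ _)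
  have hup : ∀ u ∈ X, Function.update x w c u = x u := by
    intro u hu
    rw [Function.update_of_ne]
    rintro rfl
    exact hwX hu
  have hX : ∀ u ∈ X, u ∈ K ⊔ span (ZMod 2) (X : Set V) := fun u hu => in_sp _ _ _ hu
  have hwK : w ∉ K := fun h => hw (mem_sup_left h)
  have hvK : v ∉ K := fun h => hv (mem_sup_left h)
  have hwv : w ∈ K ⊔ span (ZMod 2) {v} ↔ v + w ∈ K := by
    rw [mem_ss, add_comm]
    exact ⟨fun h => h.resolve_left hwK, Or.inr⟩
  refine ⟨fun u hu => ?_, fun u hu huK => ?_, ?_, fun u hu u' hu' hne huK huu => ?_⟩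
  · rcases Finset.mem_insert.1 hu with rfl | hu
    · rwa [Function.update_self]
    · rw [hup u hu]
      exact h1 u (hm u (Finset.mem_insert_of_mem hu))
  · rcases Finset.mem_insert.1 hu with rfl | hu
    · rw [Function.update_self]
      exact hc0 (hwv.1 huK)
    · rw [hup u hu]
      exact h2 u (hm u (Finset.mem_insert_of_mem hu)) (in_K X K v u hv (hX u hu) huK)
  · -- the span
    obtain ⟨T, hT⟩ : ∃ T, T = K ⊔ span (ZMod 2) {v} ⊔
      span (ZMod 2) (act (insert w X) (Function.update x w c)) := ⟨_, rfl⟩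
    rw [← hT]
    have hKT : K ≤ T := by
      rw [hT]
      exact le_sup_left.trans le_sup_left
    have hvT : v ∈ T := by
      rw [hT]
      exact mem_sup_left (mem_sup_right (mem_span_singleton_self v))
    have hXT : ∀ a ∈ X, x a ≠ 1 → a ∈ T := by
      intro a ha ha'
      rw [hT]
      apply in_sp
      refine ⟨Finset.mem_insert_of_mem ha, ?_⟩
      rwa [hup a ha]
    by_cases hwT : w ∈ T ∨ x w = 1
    · intro u hu
      refine sp_le K T _ hKT ?_ (h3 u (hm u hu))
      rintro a ⟨ha, ha'⟩
      rcases Finset.mem_insert.1 ha with rfl | ha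
      · exact hvT
      · rcases Finset.mem_insert.1 ha with rfl | ha
        · exact hwT.resolve_right ha'
        · exact hXT a ha ha'
    · rw [not_or] at hwT
      obtain ⟨hwT, hxw⟩ := hwT
      -- then `c = 1` and `x v = 1`
      have hvwK : v + w ∉ K := by
        intro h
        apply hwT
        rw [hT]
        exact mem_sup_left (hwv.2 h)
      have hc : c = 1 := by
        by_contra hc
        apply hwT
        rw [hT]
        apply in_sp
        refine ⟨Finset.mem_insert_self _ _, ?_⟩
        rwa [Function.update_self]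
      have hxv : x v = 1 := (hc2 hvwK hc).resolve_right hxw
      exfalso
      -- `v` is in the span of `K`, `w` and the active elements of `X`
      have h5 : v ∈ K ⊔ span (ZMod 2) (act X x) ⊔ span (ZMod 2) {w} := by
        refine sp_le K _ _ (le_sup_left.trans le_sup_left) ?_ (h3 v hmv)
        rintro a ⟨ha, ha'⟩
        rcases Finset.mem_insert.1 ha with rfl | ha
        · exact absurd hxv ha'
        · rcases Finset.mem_insert.1 ha with rfl | ha
          · exact mem_sup_right (mem_span_singleton_self _)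
          · exact mem_sup_left (in_sp _ _ _ ⟨ha, ha'⟩)
      have hle : K ⊔ span (ZMod 2) (act X x) ≤ K ⊔ span (ZMod 2) (X : Set V) :=
        sp_le K _ _ le_sup_left fun a ha => in_sp _ _ _ ha.1
      have hle' : K ⊔ span (ZMod 2) (act X x) ≤ T :=
        sp_le K _ _ hKT fun a ha => hXT a ha.1 ha.2
      rcases (mem_ss _ _ _).1 h5 with h6 | h6
      · exact hv (hle h6)
      · apply hwT
        rw [three w v]
        exact add_mem (by rw [add_comm]; exact hle' h6) hvT
  · rcases Finset.mem_insert.1 hu with rfl | huX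
    · have hu'X := (Finset.mem_insert.1 hu').resolve_left fun e => hne e.symm
      rw [Function.update_self, hup u' hu'X]
      rcases hc1 (fun h => huK (hwv.2 h)) with k | k
      · exact Or.inl k
      · exact Or.inr (Or.inr (Or.inl k))
    · rcases Finset.mem_insert.1 hu' with rfl | hu'X
      · rw [Function.update_self, hup u huX]
        have : v + u' ∉ K := by
          intro h
          exact huK (mem_three _ u u' huu (hwv.2 h))
        rcases hc1 this with k | k
        · exact Or.inr (Or.inl k)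
        · exact Or.inr (Or.inr (Or.inr k))
      · rw [hup u huX, hup u' hu'X]
        exact h4 u (hm u hu) u' (hm u' hu')
          hne (fun h => huK (mem_sup_left h))
          (in_K X K v _ hv (add_mem (hX u huX) (hX u' hu'X)) huu)

end

/-- **Module A** -/
theorem thm_Ne : St_Ne := by
  intro V _ _ _ X K hSP
  induction hSP with
  | empty K =>
    intro x _
    have : PP (∅ : Finset V) K x = 1 := by
      classical
      unfold PP
      rw [Finset.powerset_empty, Finset.sum_singleton, Finset.prod_empty, if_pos]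
      rfl
    rw [this]
    exact one_ne_zero
  | loop X K v hv _ ih =>
    intro x hx
    by_cases hvX : v ∈ X
    · rw [Finset.insert_eq_of_mem hvX] at hx ⊢
      exact ih x hx
    · rw [PP_loop X K x v hvX hv]
      exact mul_ne_zero (hx.2.1 v (Finset.mem_insert_self v X) hv)
        (ih x (Good_loop X K x v hv hx))
  | coloop X K v hv _ ih =>
    intro x hx
    rw [PP_coloop X K x v hv]
    exact mul_ne_zero (sub_ne_zero.2 (coloop_ne X K x v hv hx)) (ih x (Good_coloop X K x v hv hx))
  | parallel X K v w hw hK _ ih =>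
    intro x hx
    by_cases hvX : v ∈ X
    · rw [Finset.insert_eq_of_mem hvX] at hx ⊢
      exact ih x hx
    · obtain ⟨Y, hwY, rfl⟩ : ∃ Y, w ∉ Y ∧ X = insert w Y :=
        ⟨X.erase w, Finset.notMem_erase w X, (Finset.insert_erase hw).symm⟩
      rw [Finset.mem_insert, not_or] at hvX
      rw [PP_parallel Y K x v w hvX.1 hvX.2 hwY hK]
      exact ih _ (Good_parallel Y K x v w hvX.1 hvX.2 hwY hK hx)
  | series X K v w hvw hv hK _ ih =>
    intro x hx
    have hmv : v ∈ insert v (insert w X) := Finset.mem_insert_self _ _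
    have hmw : w ∈ insert v (insert w X) :=
      Finset.mem_insert_of_mem (Finset.mem_insert_self _ _)
    have hw : w ∉ K ⊔ span (ZMod 2) (X : Set V) := by
      intro h
      apply hv
      rw [three v w]
      exact add_mem hK h
    have hvX : v ∉ X := fun h => hv (in_sp _ _ _ h)
    have hwX : w ∉ X := fun h => hw (in_sp _ _ _ h)
    have hn : ¬ (x v = 1 ∧ x w = 1) := by
      rintro ⟨k1, k2⟩
      apply hv
      refine sp_le K _ _ le_sup_left ?_ (hx.2.2.1 v hmv)
      rintro a ⟨ha, ha'⟩
      rcases Finset.mem_insert.1 ha with rfl | ha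
      · exact absurd k1 ha'
      · rcases Finset.mem_insert.1 ha with rfl | ha
        · exact absurd k2 ha'
        · exact in_sp _ _ _ ha
    have hs : x v + x w - 2 ≠ 0 := fun h => hn (disc_two _ _ (hx.1 v hmv) (hx.1 w hmw) h)
    by_cases hvwK : v + w ∈ K
    · -- `v` and `w` are also parallel
      have h1 : PP (insert v (insert w X)) K x =
          (x v * x w - 1) * PP X (K ⊔ span (ZMod 2) {v}) x := by
        rw [PP_parallel X K x v w hvw hvX hwX hvwK, PP_coloop X K _ w hw, Function.update_self,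
          PP_eq, SS_update X x w hwX, ss_par K v w hvwK, PP_eq]
      have h2 := ih (Function.update x w 1) (Good_series X K x v w hvw hv hK 1
        (by rw [norm_one]) (fun _ => one_ne_zero) (fun h => absurd hvwK h)
        (fun h => absurd hvwK h) hx)
      rw [PP_loop X _ _ w hwX ((mem_ss _ _ _).2 (Or.inr (by rwa [add_comm]))),
        Function.update_self, one_mul, PP_eq, SS_update X x w hwX, ← PP_eq] at h2
      rw [h1]
      refine mul_ne_zero (sub_ne_zero.2 fun h3 => ?_) h2
      have hvK : v ∉ K := fun h => hv (mem_sup_left h)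
      rcases hx.2.2.2 v hmv w hmw hvw hvK hvwK with k | k | k | k
      · rw [k, one_mul] at h3
        exact hn ⟨k, h3⟩
      · rw [k, mul_one] at h3
        exact hn ⟨h3, k⟩
      · exact lt_ne_one _ (mul_lt_of _ _ (hx.1 v hmv) (hx.1 w hmw) (Or.inl k)) h3
      · exact lt_ne_one _ (mul_lt_of _ _ (hx.1 v hmv) (hx.1 w hmw) (Or.inr k)) h3
    · obtain ⟨c, hc⟩ : ∃ c, c = (x v * x w - 1) / (x v + x w - 2) := ⟨_, rfl⟩
      have hc' : (x v + x w - 2) * (c - 1) = (x v - 1) * (x w - 1) := by
        rw [hc]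
        field_simp
        ring
      have hcases : (c = 1 ∧ (x v = 1 ∨ x w = 1)) ∨ ‖c‖ < 1 := by
        by_cases k1 : x v = 1
        · refine Or.inl ⟨?_, Or.inl k1⟩
          rw [k1, sub_self, zero_mul] at hc'
          rw [k1] at hs
          exact sub_eq_zero.1 ((mul_eq_zero.1 hc').resolve_left hs)
        · by_cases k2 : x w = 1
          · refine Or.inl ⟨?_, Or.inr k2⟩
            rw [k2, sub_self, mul_zero] at hc'
            rw [k2] at hs
            exact sub_eq_zero.1 ((mul_eq_zero.1 hc').resolve_left hs)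
          · right
            rw [hc, norm_div, div_lt_one (norm_pos_iff.2 hs)]
            exact disc_lt _ _ (hx.1 v hmv) (hx.1 w hmw) k1 k2
      rw [PP_series X K x v w hvw hv hK c hc']
      refine mul_ne_zero hs (ih _ (Good_series X K x v w hvw hv hK c ?_ (fun h => absurd h hvwK)
        (fun _ => ?_) (fun _ hc1 => ?_) hx))
      · rcases hcases with k | k
        · rw [k.1, norm_one]
        · exact k.le
      · exact hcases.imp (fun k => k.1) id
      · rcases hcases with k | k
        · exact k.2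
        · exact absurd hc1 (lt_ne_one _ k)

end Pool.Agent.SPT
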