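import Mathlib
import Pool.Agent.SPT.NZ
import Pool.Agent.SPT.Ne

/-!
# SPT: sets of corank at most two are series-parallel (helper57)
-/

set_option autoImplicit false
set_option linter.unusedSectionVars false

open Submodule

namespace Pool.Agent.SPT

namespace R4

section

variable {V : Type} [AddCommGroup V] [Module (ZMod 2) V] [DecidableEq V]
  [Module.Finite (ZMod 2) V]

private theorem fr_one (K : Submodule (ZMod 2) V) (v : V) :
    Module.finrank (ZMod 2) (K ⊔ span (ZMod 2) {v} : Submodule (ZMod 2) V) ≤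
      Module.finrank (ZMod 2) K + 1 := by
  refine (Submodule.finrank_add_le_finrank_add_finrank _ _).trans ?_
  have h := finrank_span_le_card (R := ZMod 2) ({v} : Set V)
  simp only [Set.toFinset_singleton, Finset.card_singleton] at h
  omega

private theorem fr_set (K : Submodule (ZMod 2) V) (B : Finset V) :
    Module.finrank (ZMod 2) (K ⊔ span (ZMod 2) (B : Set V) : Submodule (ZMod 2) V) ≤
      Module.finrank (ZMod 2) K + B.card := by
  refine (Submodule.finrank_add_le_finrank_add_finrank _ _).trans ?_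
  have h := finrank_span_finset_le_card (R := ZMod 2) B
  rw [Set.finrank] at h
  omega

private theorem ne_case (X : Finset V) (K : Submodule (ZMod 2) V) (hne : X.Nonempty)
    (hc : X.card + Module.finrank (ZMod 2) K ≤
      Module.finrank (ZMod 2) (K ⊔ span (ZMod 2) (X : Set V) : Submodule (ZMod 2) V) + 2)
    (h1 : ∀ v ∈ X, v ∉ K) (h2 : ∀ v ∈ X, ∀ w ∈ X, v ≠ w → v + w ∉ K)
    (h3 : ∀ v ∈ X, v ∈ K ⊔ span (ZMod 2) ((X.erase v : Finset V) : Set V))
    (h4 : ∀ v ∈ X, ∀ w ∈ X, v ≠ w →
      v + w ∈ K ⊔ span (ZMod 2) (((X.erase v).erase w : Finset V) : Set V) →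
      v ∈ K ⊔ span (ZMod 2) (((X.erase v).erase w : Finset V) : Set V)) : False := by
  classical
  obtain ⟨B, hB, hmin⟩ := Finset.exists_min_image (X.powerset.filter fun B : Finset V =>
    K ⊔ span (ZMod 2) (B : Set V) = K ⊔ span (ZMod 2) (X : Set V)) Finset.card
    ⟨X, by simp⟩
  rw [Finset.mem_filter, Finset.mem_powerset] at hB
  obtain ⟨hBX, hBs⟩ := hB
  have hmin' : ∀ b ∈ B, b ∉ K ⊔ span (ZMod 2) ((B.erase b : Finset V) : Set V) := by
    intro b hb hcon
    have h5 : K ⊔ span (ZMod 2) ((B.erase b : Finset V) : Set V) =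
        K ⊔ span (ZMod 2) (X : Set V) := by
      rw [← hBs]
      conv_rhs => rw [← Finset.insert_erase hb, ss_insert', ss_loop _ _ hcon]
    have h6 := hmin (B.erase b) (by
      rw [Finset.mem_filter, Finset.mem_powerset]
      exact ⟨(Finset.erase_subset _ _).trans hBX, h5⟩)
    have h7 := Finset.card_erase_lt_of_mem hb
    omega
  have hcard : (X \ B).card ≤ 2 := by
    have h5 := fr_set K B
    rw [hBs] at h5
    have h6 := Finset.card_sdiff_add_card_eq_card hBX
    omega
  have c1 : ∀ b ∈ B, ∀ x ∈ X, x ∉ K ⊔ span (ZMod 2) ((B.erase b : Finset V) : Set V) →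
      x + b ∈ K ⊔ span (ZMod 2) ((B.erase b : Finset V) : Set V) := by
    intro b hb x hx hxn
    have h5 : x ∈ K ⊔ span (ZMod 2) (X : Set V) := in_sp _ _ _ hx
    rw [← hBs, ← Finset.insert_erase hb, ss_insert', mem_ss] at h5
    exact h5.resolve_left hxn
  have c2 : ∀ b ∈ B, ∀ c ∈ X \ B, c ∉ K ⊔ span (ZMod 2) ((B.erase b : Finset V) : Set V) := by
    intro b hb c hc hcH
    have hcX := (Finset.mem_sdiff.1 hc).1
    by_cases hall : ∀ d ∈ X \ B, d ∈ K ⊔ span (ZMod 2) ((B.erase b : Finset V) : Set V)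
    · apply hmin' b hb
      refine sp_le _ _ _ le_sup_left ?_ (h3 b (hBX hb))
      intro x hx
      rw [Finset.mem_coe, Finset.mem_erase] at hx
      by_cases hxB : x ∈ B
      · exact in_sp _ _ _ (Finset.mem_coe.2 (Finset.mem_erase.2 ⟨hx.1, hxB⟩))
      · exact hall x (Finset.mem_sdiff.2 ⟨hx.2, hxB⟩)
    · push Not at hall
      obtain ⟨d, hd, hdH⟩ := hall
      have hdX := (Finset.mem_sdiff.1 hd).1
      have hdB := (Finset.mem_sdiff.1 hd).2
      have hbd : b ≠ d := fun h => hdB (h ▸ hb)
      have hcd : c ≠ d := fun h => hdH (h ▸ hcH)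
      have hCe : ∀ x ∈ X \ B, x = c ∨ x = d := by
        intro x hx
        by_contra hcon
        push Not at hcon
        have h5 : ({c, d, x} : Finset V) ⊆ X \ B := by
          intro y hy
          simp only [Finset.mem_insert, Finset.mem_singleton] at hy
          rcases hy with rfl | rfl | rfl
          · exact hc
          · exact hd
          · exact hx
        have h6 := Finset.card_le_card h5
        rw [Finset.card_insert_of_notMem (by
          simp only [Finset.mem_insert, Finset.mem_singleton, not_or]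
          exact ⟨hcd, hcon.1.symm⟩), Finset.card_insert_of_notMem (by
          rw [Finset.mem_singleton]
          exact hcon.2.symm), Finset.card_singleton] at h6
        omega
      apply hmin' b hb
      have h7 : b + d ∈ K ⊔ span (ZMod 2) (((X.erase b).erase d : Finset V) : Set V) := by
        have h8 := c1 b hb d hdX hdH
        rw [add_comm] at h8
        refine sp_le _ _ _ le_sup_left ?_ h8
        intro x hx
        rw [Finset.mem_coe, Finset.mem_erase] at hx
        refine in_sp _ _ _ (Finset.mem_coe.2 (Finset.mem_erase.2 ⟨?_,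
          Finset.mem_erase.2 ⟨hx.1, hBX hx.2⟩⟩))
        exact fun h => hdB (h ▸ hx.2)
      refine sp_le _ _ _ le_sup_left ?_ (h4 b (hBX hb) d hdX hbd h7)
      intro x hx
      rw [Finset.mem_coe, Finset.mem_erase, Finset.mem_erase] at hx
      by_cases hxB : x ∈ B
      · exact in_sp _ _ _ (Finset.mem_coe.2 (Finset.mem_erase.2 ⟨hx.2.1, hxB⟩))
      · rcases hCe x (Finset.mem_sdiff.2 ⟨hx.2.2, hxB⟩) with rfl | rfl
        · exact hcH
        · exact absurd rfl hx.1
  -- there is an element outside `B`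
  rcases B.eq_empty_or_nonempty with hB0 | ⟨b, hb⟩
  · obtain ⟨x, hx⟩ := hne
    apply h1 x hx
    have h5 : x ∈ K ⊔ span (ZMod 2) (X : Set V) := in_sp _ _ _ hx
    rw [← hBs, hB0, Finset.coe_empty, span_empty, sup_bot_eq] at h5
    exact h5
  obtain ⟨c, hc⟩ : (X \ B).Nonempty := by
    by_contra hcon
    rw [Finset.not_nonempty_iff_eq_empty, Finset.sdiff_eq_empty_iff_subset] at hcon
    apply hmin' b hb
    refine sp_le _ _ _ le_sup_left ?_ (h3 b (hBX hb))
    intro x hx
    rw [Finset.mem_coe, Finset.mem_erase] at hx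
    exact in_sp _ _ _ (Finset.mem_coe.2 (Finset.mem_erase.2 ⟨hx.1, hcon hx.2⟩))
  have hcX := (Finset.mem_sdiff.1 hc).1
  have hcB := (Finset.mem_sdiff.1 hc).2
  by_cases hone : ∃ b' ∈ B, b' ≠ b
  · obtain ⟨b', hb', hbb⟩ := hone
    obtain ⟨T, hT⟩ : ∃ T, T = K ⊔ span (ZMod 2) (((B.erase b).erase b' : Finset V) : Set V) :=
      ⟨_, rfl⟩
    have t1 : K ⊔ span (ZMod 2) ((B.erase b : Finset V) : Set V) = T ⊔ span (ZMod 2) {b'} := by
      rw [hT, ← ss_insert', Finset.insert_erase (Finset.mem_erase.2 ⟨hbb, hb'⟩)]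
    have t2 : K ⊔ span (ZMod 2) ((B.erase b' : Finset V) : Set V) = T ⊔ span (ZMod 2) {b} := by
      rw [hT, ← ss_insert', Finset.erase_right_comm,
        Finset.insert_erase (Finset.mem_erase.2 ⟨hbb.symm, hb⟩)]
    have n1 : b ∉ T ⊔ span (ZMod 2) {b'} := t1 ▸ hmin' b hb
    have n2 : b' ∉ T ⊔ span (ZMod 2) {b} := t2 ▸ hmin' b' hb'
    have t3 : ∀ x ∈ X \ B, x + (b + b') ∈ T := by
      intro x hx
      have h5 := c1 b hb x (Finset.mem_sdiff.1 hx).1 (c2 b hb x hx)
      rw [t1, mem_ss] at h5
      rcases h5 with h5 | h5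
      · exfalso
        apply c2 b' hb' x hx
        rw [t2, mem_ss]
        exact Or.inr h5
      · rwa [add_assoc] at h5
    have hTX : T ≤ K ⊔ span (ZMod 2) (((X.erase b).erase b' : Finset V) : Set V) := by
      rw [hT]
      refine sp_le _ _ _ le_sup_left ?_
      intro x hx
      rw [Finset.mem_coe, Finset.mem_erase, Finset.mem_erase] at hx
      exact in_sp _ _ _ (Finset.mem_coe.2 (Finset.mem_erase.2 ⟨hx.1,
        Finset.mem_erase.2 ⟨hx.2.1, hBX hx.2.2⟩⟩))
    have h6 : b + b' ∈ K ⊔ span (ZMod 2) (((X.erase b).erase b' : Finset V) : Set V) := by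
      have h7 := hTX (t3 c hc)
      have h8 : c ∈ K ⊔ span (ZMod 2) (((X.erase b).erase b' : Finset V) : Set V) :=
        in_sp _ _ _ (Finset.mem_coe.2 (Finset.mem_erase.2 ⟨fun h => hcB (h ▸ hb'),
          Finset.mem_erase.2 ⟨fun h => hcB (h ▸ hb), hcX⟩⟩))
      rw [add_comm] at h7
      exact mem_three _ _ _ h7 h8
    have h9 := h4 b (hBX hb) b' (hBX hb') hbb.symm h6
    have h10 : K ⊔ span (ZMod 2) (((X.erase b).erase b' : Finset V) : Set V) ≤
        T ⊔ span (ZMod 2) {b + b'} := by
      refine sp_le _ _ _ ?_ ?_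
      · rw [hT]
        exact le_sup_left.trans le_sup_left
      · intro x hx
        rw [Finset.mem_coe, Finset.mem_erase, Finset.mem_erase] at hx
        by_cases hxB : x ∈ B
        · rw [mem_ss]
          left
          rw [hT]
          exact in_sp _ _ _ (Finset.mem_coe.2 (Finset.mem_erase.2 ⟨hx.1,
            Finset.mem_erase.2 ⟨hx.2.1, hxB⟩⟩))
        · rw [mem_ss]
          exact Or.inr (t3 x (Finset.mem_sdiff.2 ⟨hx.2.2, hxB⟩))
    have h11 := h10 h9
    rw [mem_ss] at h11
    rcases h11 with h11 | h11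
    · exact n1 (mem_sup_left h11)
    · rw [← add_assoc, aself, zero_add] at h11
      exact n2 (mem_sup_left h11)
  · push Not at hone
    have hBe : B.erase b = ∅ := by
      rw [Finset.eq_empty_iff_forall_notMem]
      intro x hx
      rw [Finset.mem_erase] at hx
      exact hx.1 (hone x hx.2)
    have h5 := c1 b hb c hcX (c2 b hb c hc)
    rw [hBe, Finset.coe_empty, span_empty, sup_bot_eq] at h5
    exact h2 c hcX b (hBX hb) (fun h => hcB (h ▸ hb)) h5

/-- sets of corank at most two are series-parallel -/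
theorem sp_corank (n : ℕ) : ∀ (X : Finset V) (K : Submodule (ZMod 2) V), X.card = n →
    X.card + Module.finrank (ZMod 2) K ≤
      Module.finrank (ZMod 2) (K ⊔ span (ZMod 2) (X : Set V) : Submodule (ZMod 2) V) + 2 →
    SeriesParallel X K := by
  induction n with
  | zero =>
    intro X K hX _
    rw [Finset.card_eq_zero.1 hX]
    exact SeriesParallel.empty K
  | succ n ih =>
    intro X K hX hc
    have hce : ∀ v ∈ X, (X.erase v).card = n := fun v hv => by
      rw [Finset.card_erase_of_mem hv, hX]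
      omega
    by_cases h1 : ∃ v ∈ X, v ∈ K
    · obtain ⟨v, hv, hvK⟩ := h1
      rw [← Finset.insert_erase hv]
      refine SeriesParallel.loop _ _ _ hvK (ih _ _ (hce v hv) ?_)
      have h5 : K ⊔ span (ZMod 2) (X : Set V) =
          K ⊔ span (ZMod 2) ((X.erase v : Finset V) : Set V) := by
        conv_lhs => rw [← Finset.insert_erase hv, ss_insert, ss_loop _ _ hvK]
      rw [h5] at hc
      have := hce v hv
      omega
    by_cases h2 : ∃ v ∈ X, ∃ w ∈ X, v ≠ w ∧ v + w ∈ K
    · obtain ⟨v, hv, w, hw, hvw, hK⟩ := h2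
      have hw' : w ∈ X.erase v := Finset.mem_erase.2 ⟨hvw.symm, hw⟩
      rw [← Finset.insert_erase hv]
      refine SeriesParallel.parallel _ _ _ w hw' hK (ih _ _ (hce v hv) ?_)
      have h5 : K ⊔ span (ZMod 2) (X : Set V) =
          K ⊔ span (ZMod 2) ((X.erase v : Finset V) : Set V) := by
        conv_lhs => rw [← Finset.insert_erase hv, ss_insert', ss_loop _ _
          (mem_three _ v w (mem_sup_left hK) (in_sp _ _ _ (Finset.mem_coe.2 hw')))]
      rw [h5] at hc
      have := hce v hv
      omega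
    by_cases h3 : ∃ v ∈ X, v ∉ K ⊔ span (ZMod 2) ((X.erase v : Finset V) : Set V)
    · obtain ⟨v, hv, hvn⟩ := h3
      rw [← Finset.insert_erase hv]
      refine SeriesParallel.coloop _ _ _ hvn (ih _ _ (hce v hv) ?_)
      rw [← ss_insert, Finset.insert_erase hv]
      have h5 := fr_one K v
      have := hce v hv
      omega
    by_cases h4 : ∃ v ∈ X, ∃ w ∈ X, v ≠ w ∧
        v + w ∈ K ⊔ span (ZMod 2) (((X.erase v).erase w : Finset V) : Set V) ∧
        v ∉ K ⊔ span (ZMod 2) (((X.erase v).erase w : Finset V) : Set V)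
    · obtain ⟨v, hv, w, hw, hvw, hK, hn⟩ := h4
      have hw' : w ∈ X.erase v := Finset.mem_erase.2 ⟨hvw.symm, hw⟩
      rw [← Finset.insert_erase hv, ← Finset.insert_erase hw']
      refine SeriesParallel.series _ _ _ _ hvw hn hK ?_
      rw [Finset.insert_erase hw']
      refine ih _ _ (hce v hv) ?_
      rw [← ss_insert, Finset.insert_erase hv]
      have h5 := fr_one K v
      have := hce v hv
      omega
    · exfalso
      push Not at h1 h2 h3 h4
      exact ne_case X K (Finset.card_pos.1 (by omega)) hc h1 h2 h3 h4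

end

end R4

end Pool.Agent.SPT
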