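import Mathlib
import Pool.Agent.SPT.NZ
import Pool.Agent.SPT.Ne

/-!
# SPT, module R3: sets of rank at most three

For a spanning set `X` of nonzero vectors of the space with eight elements
`PP X ⊥ x = ∏ X x - ∑ f ≠ 0, ∏ (X ∩ ker f) x + 2 ∑ X (x - 1) + 6`; the constant term (for the weights
`z ^ u v`) is at most `7 - 2 |X|`, which is negative if `X` has at least four elements.
-/

set_option autoImplicit false
set_option linter.unusedSectionVars false

open Submodule

namespace Pool.Agent.SPT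

namespace R3

abbrev F : Type := Fin 3 → ZMod 2

def dot (f w : F) : ZMod 2 := f 0 * w 0 + f 1 * w 1 + f 2 * w 2

def kil (W : Finset F) : Finset F := Finset.univ.filter fun f => f ≠ 0 ∧ ∀ w ∈ W, dot f w = 0

theorem dot_zero : ∀ f : F, (∀ w, dot f w = 0) → f = 0 := by
  decide +kernel

theorem kil_empty : (kil ∅).card = 7 := by
  decide +kernel

theorem kil_one : ∀ v : F, v ≠ 0 → (kil {v}).card = 3 := by
  decide +kernel

theorem kil_two : ∀ v w : F, v ≠ 0 → w ≠ 0 → v ≠ w → (kil {v, w}).card = 1 := by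
  decide +kernel

/-- the linear form of `f` -/
def dotL (f : F) : F →ₗ[ZMod 2] ZMod 2 where
  toFun w := dot f w
  map_add' a b := by
    unfold dot
    simp only [Pi.add_apply]
    ring
  map_smul' c a := by
    unfold dot
    simp only [Pi.smul_apply, smul_eq_mul, RingHom.id_apply]
    ring

theorem exists_dot (φ : F →ₗ[ZMod 2] ZMod 2) : ∃ f : F, ∀ w, φ w = dot f w := by
  refine ⟨fun i => φ (Pi.single i 1), fun w => ?_⟩
  rw [LinearMap.pi_apply_eq_sum_univ φ w, Fin.sum_univ_three]
  have e : ∀ i : Fin 3, (fun j => if i = j then (1 : ZMod 2) else 0) = Pi.single i 1 := by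
    intro i
    funext j
    rw [Pi.single_apply]
    by_cases h : i = j
    · rw [if_pos h, if_pos h.symm]
    · rw [if_neg h, if_neg (fun h' => h h'.symm)]
  rw [e, e, e]
  unfold dot
  simp only [smul_eq_mul]
  ring

theorem top_iff (W : Finset F) : span (ZMod 2) (W : Set F) = ⊤ ↔ kil W = ∅ := by
  constructor
  · intro h
    rw [Finset.eq_empty_iff_forall_notMem]
    intro f hf
    rw [kil, Finset.mem_filter] at hf
    apply hf.2.1
    apply dot_zero
    intro w
    have h1 : span (ZMod 2) (W : Set F) ≤ LinearMap.ker (dotL f) := by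
      rw [span_le]
      intro w hw
      exact hf.2.2 w hw
    have h2 : w ∈ span (ZMod 2) (W : Set F) := by
      rw [h]
      exact mem_top
    exact h1 h2
  · intro h
    by_contra hne
    obtain ⟨φ, hφ, hle⟩ := exists_le_ker_of_lt_top _ (lt_top_iff_ne_top.2 hne)
    obtain ⟨f, hf⟩ := exists_dot φ
    have : f ∈ kil W := by
      rw [kil, Finset.mem_filter]
      refine ⟨Finset.mem_univ _, ?_, ?_⟩
      · rintro rfl
        apply hφ
        ext w
        simp [hf, dot]
      · intro w hw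
        rw [← hf]
        exact hle (subset_span hw)
    rw [h] at this
    exact absurd this (Finset.notMem_empty f)

theorem kil_anti {W W' : Finset F} (h : W ⊆ W') : kil W' ⊆ kil W := by
  intro f hf
  rw [kil, Finset.mem_filter] at hf ⊢
  exact ⟨hf.1, hf.2.1, fun w hw => hf.2.2 w (h hw)⟩

theorem ind (W : Finset F) (h0 : (0 : F) ∉ W) :
    (if kil W = ∅ then (1 : ℂ) else 0) =
      1 - ((kil W).card : ℂ) + (if W.card = 1 then 2 else 0) + (if W = ∅ then 6 else 0) := by
  rcases Nat.lt_or_ge W.card 2 with h | h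
  · rcases Nat.lt_or_ge W.card 1 with h1 | h1
    · have hW : W = ∅ := Finset.card_eq_zero.1 (by omega)
      subst hW
      have hk : kil ∅ ≠ ∅ := by
        intro h
        have := kil_empty
        rw [h] at this
        simp at this
      rw [if_neg hk, kil_empty, if_neg (by simp), if_pos rfl]
      norm_num
    · obtain ⟨v, rfl⟩ := Finset.card_eq_one.1 (show W.card = 1 by omega)
      have hv : v ≠ 0 := fun h => h0 (by rw [h]; exact Finset.mem_singleton_self _)
      have hk : kil {v} ≠ ∅ := by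
        intro h
        have := kil_one v hv
        rw [h] at this
        simp at this
      rw [if_neg hk, kil_one v hv, if_pos (by simp), if_neg (by simp)]
      norm_num
  · have hW1 : W.card ≠ 1 := by omega
    have hW0 : W ≠ ∅ := by
      rintro rfl
      simp at h
    rw [if_neg hW1, if_neg hW0]
    obtain ⟨a, ha, b, hb, hab⟩ := Finset.one_lt_card.1 (show 1 < W.card by omega)
    have ha0 : a ≠ 0 := fun h => h0 (h ▸ ha)
    have hb0 : b ≠ 0 := fun h => h0 (h ▸ hb)
    have hle : (kil W).card ≤ 1 := by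
      rw [← kil_two a b ha0 hb0 hab]
      refine Finset.card_le_card (kil_anti ?_)
      intro c hc
      rw [Finset.mem_insert, Finset.mem_singleton] at hc
      rcases hc with rfl | rfl
      · exact ha
      · exact hb
    by_cases hk : kil W = ∅
    · rw [if_pos hk, hk]
      simp
    · rw [if_neg hk]
      have : (kil W).card = 1 := le_antisymm hle (Finset.card_pos.2 (Finset.nonempty_iff_ne_empty.2 hk))
      rw [this]
      norm_num

/-- the nonzero vectors -/
def NZF : Finset F := Finset.univ.filter fun f => f ≠ 0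

theorem card_kil (W : Finset F) :
    ((kil W).card : ℂ) = ∑ f ∈ NZF, if ∀ w ∈ W, dot f w = 0 then (1 : ℂ) else 0 := by
  rw [Finset.sum_boole]
  congr 2
  ext f
  simp only [kil, NZF, Finset.mem_filter, Finset.mem_univ, true_and]

theorem PP_F (X : Finset F) (h0 : (0 : F) ∉ X) (hX : span (ZMod 2) (X : Set F) = ⊤)
    (x : F → ℂ) :
    PP X ⊥ x = ∏ v ∈ X, x v - ∑ f ∈ NZF, ∏ v ∈ X.filter (fun v => dot f v = 0), x v +
      2 * ∑ v ∈ X, (x v - 1) + 6 := by
  classical
  have prodone : ∀ A : Finset F, ∑ W ∈ A.powerset, ∏ v ∈ W, (x v - 1) = ∏ v ∈ A, x v := by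
    intro A
    rw [← Finset.prod_add_one]
    refine Finset.prod_congr rfl fun v _ => ?_
    ring
  have step : PP X ⊥ x = ∑ W ∈ X.powerset, (1 - (∑ f ∈ NZF,
      if ∀ w ∈ W, dot f w = 0 then (1 : ℂ) else 0) + (if W.card = 1 then 2 else 0) +
      (if W = ∅ then 6 else 0)) * ∏ v ∈ W, (x v - 1) := by
    unfold PP
    refine Finset.sum_congr rfl fun W hW => ?_
    rw [Finset.mem_powerset] at hW
    have hsp : Spans ⊥ X W ↔ kil W = ∅ := by
      unfold Spans
      rw [bot_sup_eq, bot_sup_eq, hX, top_iff]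
    rw [← card_kil, ← ind W (fun h => h0 (hW h)), ite_mul, one_mul, zero_mul]
    exact if_congr hsp rfl rfl
  have s2 : ∑ W ∈ X.powerset, (∑ f ∈ NZF,
      if ∀ w ∈ W, dot f w = 0 then (1 : ℂ) else 0) * ∏ v ∈ W, (x v - 1) =
      ∑ f ∈ NZF, ∏ v ∈ X.filter (fun v => dot f v = 0), x v := by
    simp_rw [Finset.sum_mul]
    rw [Finset.sum_comm]
    refine Finset.sum_congr rfl fun f _ => ?_
    rw [← prodone]
    simp_rw [ite_mul, one_mul, zero_mul]
    rw [← Finset.sum_filter]
    refine Finset.sum_congr ?_ fun _ _ => rfl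
    ext W
    simp only [Finset.mem_filter, Finset.mem_powerset, Finset.subset_iff]
    constructor
    · rintro ⟨h1, h2⟩ w hw
      exact ⟨h1 hw, h2 w hw⟩
    · intro h
      exact ⟨fun w hw => (h hw).1, fun w hw => (h hw).2⟩
  have s3 : ∑ W ∈ X.powerset, (if W.card = 1 then (2 : ℂ) else 0) * ∏ v ∈ W, (x v - 1) =
      2 * ∑ v ∈ X, (x v - 1) := by
    simp_rw [ite_mul, zero_mul]
    rw [← Finset.sum_filter, ← Finset.powersetCard_eq_filter, Finset.powersetCard_one,
      Finset.sum_map, Finset.mul_sum]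
    refine Finset.sum_congr rfl fun v _ => ?_
    simp
  have s4 : ∑ W ∈ X.powerset, (if W = ∅ then (6 : ℂ) else 0) * ∏ v ∈ W, (x v - 1) = 6 := by
    simp_rw [ite_mul, zero_mul]
    rw [Finset.sum_ite_eq' X.powerset ∅ (fun W => 6 * ∏ v ∈ W, (x v - 1)),
      if_pos (Finset.empty_mem_powerset X)]
    simp
  have split : ∀ W : Finset F, (1 - (∑ f ∈ NZF,
      if ∀ w ∈ W, dot f w = 0 then (1 : ℂ) else 0) + (if W.card = 1 then 2 else 0) +
      (if W = ∅ then 6 else 0)) * ∏ v ∈ W, (x v - 1) = ∏ v ∈ W, (x v - 1) - (∑ f ∈ NZF,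
      if ∀ w ∈ W, dot f w = 0 then (1 : ℂ) else 0) * ∏ v ∈ W, (x v - 1) +
      (if W.card = 1 then 2 else 0) * ∏ v ∈ W, (x v - 1) +
      (if W = ∅ then 6 else 0) * ∏ v ∈ W, (x v - 1) := by
    intro W
    ring
  rw [step, Finset.sum_congr rfl (fun W _ => split W), Finset.sum_add_distrib,
    Finset.sum_add_distrib, Finset.sum_sub_distrib, prodone, s2, s3, s4]

/-! ### the constant term -/

theorem prod_zpow (z : ℂ) (hz : z ≠ 0) (A : Finset F) (u : F → ℤ) :
    ∏ v ∈ A, z ^ u v = z ^ ∑ v ∈ A, u v := by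
  classical
  induction A using Finset.induction_on with
  | empty => simp
  | insert a s ha ih => rw [Finset.prod_insert ha, Finset.sum_insert ha, ih, zpow_add₀ hz]

theorem average (X : Finset F) (u : F → ℤ) (M : ℕ) (hM : ∑ v ∈ X, (u v).natAbs < M)
    (ζ : ℂ) (hζ : IsPrimitiveRoot ζ M) (A : Finset F) (hA : A ⊆ X) :
    ∑ j ∈ Finset.range M, ∏ v ∈ A, (ζ ^ j) ^ u v =
      if ∑ v ∈ A, u v = 0 then (M : ℂ) else 0 := by
  have hM0 : M ≠ 0 := by omega
  have hz : ζ ≠ 0 := hζ.ne_zero hM0
  have e : ∀ j ∈ Finset.range M, ∏ v ∈ A, (ζ ^ j) ^ u v = (ζ ^ (∑ v ∈ A, u v)) ^ j := by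
    intro j _
    rw [prod_zpow _ (pow_ne_zero j hz), ← zpow_natCast, ← zpow_natCast, ← zpow_mul, ← zpow_mul,
      mul_comm]
  rw [Finset.sum_congr rfl e]
  split_ifs with h
  · rw [h, zpow_zero]
    simp
  · have hne : ζ ^ (∑ v ∈ A, u v) ≠ 1 := by
      intro h1
      rw [hζ.zpow_eq_one_iff_dvd] at h1
      apply h
      refine Int.eq_zero_of_abs_lt_dvd h1 ?_
      calc |∑ v ∈ A, u v| ≤ ∑ v ∈ A, |u v| := Finset.abs_sum_le_sum_abs _ _
        _ ≤ ∑ v ∈ X, |u v| := Finset.sum_le_sum_of_subset_of_nonneg hA fun _ _ _ => abs_nonneg _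
        _ = ((∑ v ∈ X, (u v).natAbs : ℕ) : ℤ) := by
          push_cast
          refine Finset.sum_congr rfl fun v _ => ?_
          exact (Int.abs_eq_natAbs _).symm ▸ rfl
        _ < M := by exact_mod_cast hM
    rw [geom_sum_eq hne]
    have : (ζ ^ (∑ v ∈ A, u v)) ^ M = 1 := by
      rw [← zpow_natCast, ← zpow_mul, mul_comm, zpow_mul, zpow_natCast, hζ.pow_eq_one, one_zpow]
    rw [this, sub_self, zero_div]

theorem nonV_F (X : Finset F) (h0 : (0 : F) ∉ X) (hX : span (ZMod 2) (X : Set F) = ⊤)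
    (hc : 4 ≤ X.card) : NonV X := by
  classical
  intro u hu
  by_contra hcon
  push Not at hcon
  obtain ⟨M, hM⟩ : ∃ M, M = 1 + ∑ v ∈ X, (u v).natAbs := ⟨_, rfl⟩
  have hM0 : M ≠ 0 := by omega
  have hζ : IsPrimitiveRoot (Complex.exp (2 * Real.pi * Complex.I / M)) M :=
    Complex.isPrimitiveRoot_exp M hM0
  obtain ⟨ζ, hζe⟩ : ∃ ζ, ζ = Complex.exp (2 * Real.pi * Complex.I / M) := ⟨_, rfl⟩
  rw [← hζe] at hζ
  have hnorm : ‖ζ‖ = 1 := hζ.norm'_eq_one hM0
  have av := average X u M (by omega) ζ hζ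
  have hz : ∀ j ∈ Finset.range M, (0 : ℂ) = ∏ v ∈ X, (ζ ^ j) ^ u v -
      ∑ f ∈ NZF, ∏ v ∈ X.filter (fun v => dot f v = 0), (ζ ^ j) ^ u v +
      2 * ∑ v ∈ X, ((ζ ^ j) ^ u v - 1) + 6 := by
    intro j _
    rw [← PP_F X h0 hX (fun v => (ζ ^ j) ^ u v)]
    exact (hcon (ζ ^ j) (by rw [norm_pow, hnorm, one_pow])).symm
  have hsum := Finset.sum_congr (rfl : Finset.range M = Finset.range M) hz
  rw [Finset.sum_add_distrib, Finset.sum_add_distrib, Finset.sum_sub_distrib, av X subset_rfl,
    ← Finset.mul_sum] at hsum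
  have e1 : ∑ j ∈ Finset.range M, ∑ f ∈ NZF, ∏ v ∈ X.filter (fun v => dot f v = 0),
      (ζ ^ j) ^ u v = ∑ f ∈ NZF, if ∑ v ∈ X.filter (fun v => dot f v = 0), u v = 0 then
        (M : ℂ) else 0 := by
    rw [Finset.sum_comm]
    exact Finset.sum_congr rfl fun f _ => av _ (Finset.filter_subset _ _)
  have e2 : ∑ j ∈ Finset.range M, ∑ v ∈ X, ((ζ ^ j) ^ u v - 1) = - (X.card * M : ℂ) := by
    rw [Finset.sum_comm]
    have : ∀ v ∈ X, ∑ j ∈ Finset.range M, ((ζ ^ j) ^ u v - 1) = - (M : ℂ) := by
      intro v hv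
      have h1 := av {v} (Finset.singleton_subset_iff.2 hv)
      rw [Finset.sum_singleton, if_neg (hu v hv (fun h => h0 (h ▸ hv)))] at h1
      simp only [Finset.prod_singleton] at h1
      rw [Finset.sum_sub_distrib, h1]
      simp
    rw [Finset.sum_congr rfl this]
    simp
  rw [e1, e2] at hsum
  simp only [Finset.sum_const_zero, Finset.sum_const, Finset.card_range, nsmul_eq_mul] at hsum
  have e3 : ∑ f ∈ NZF, (if ∑ v ∈ X.filter (fun v => dot f v = 0), u v = 0 then
        (M : ℂ) else 0) =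
      ((NZF.filter fun f => ∑ v ∈ X.filter (fun v => dot f v = 0), u v = 0).card : ℂ) * M := by
    rw [← Finset.sum_filter, Finset.sum_const, nsmul_eq_mul]
  rw [e3] at hsum
  have hMC : (M : ℂ) ≠ 0 := by exact_mod_cast hM0
  obtain ⟨b, hb⟩ : ∃ b : ℕ, b = (NZF.filter fun f =>
    ∑ v ∈ X.filter (fun v => dot f v = 0), u v = 0).card := ⟨_, rfl⟩
  obtain ⟨n, hn⟩ : ∃ n : ℕ, n = X.card := ⟨_, rfl⟩
  rw [← hb, ← hn] at hsum
  obtain ⟨a, ha1, ha2⟩ : ∃ a : ℕ, a ≤ 1 ∧
      (if ∑ v ∈ X, u v = 0 then (M : ℂ) else 0) = a * M := by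
    by_cases h : ∑ v ∈ X, u v = 0
    · exact ⟨1, le_rfl, by rw [if_pos h]; simp⟩
    · exact ⟨0, Nat.zero_le _, by rw [if_neg h]; simp⟩
  rw [ha2] at hsum
  have h2 : ((a : ℤ) - b - 2 * n + 6 : ℤ) = 0 := by
    have h3 : (M : ℂ) * (((a : ℤ) - b - 2 * n + 6 : ℤ) : ℂ) = 0 := by
      push_cast
      linear_combination -hsum
    have h4 := (mul_eq_zero.1 h3).resolve_left hMC
    exact_mod_cast h4
  omega

/-! ### transport -/

theorem PP_image {V : Type} [AddCommGroup V] [Module (ZMod 2) V] [DecidableEq V]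
    (e : F →ₗ[ZMod 2] V) (he : Function.Injective e) (X : Finset F) (x : V → ℂ) :
    PP (X.image e) ⊥ x = PP X ⊥ (fun v => x (e v)) := by
  classical
  unfold PP
  symm
  refine Finset.sum_bij (fun W _ => W.image e) ?_ ?_ ?_ ?_
  · intro W hW
    rw [Finset.mem_powerset] at hW ⊢
    exact Finset.image_subset_image hW
  · intro W _ W' _ h
    exact Finset.image_injective he h
  · intro W hW
    rw [Finset.mem_powerset, Finset.subset_image_iff] at hW
    obtain ⟨W', h1, h2⟩ := hW
    exact ⟨W', Finset.mem_powerset.2 (by exact_mod_cast h1), h2⟩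
  · intro W hW
    have h1 : Spans ⊥ (X.image e) (W.image e) ↔ Spans ⊥ X W := by
      unfold Spans
      rw [bot_sup_eq, bot_sup_eq, bot_sup_eq, bot_sup_eq, Finset.coe_image, Finset.coe_image,
        span_image, span_image]
      exact (map_injective_of_injective he).eq_iff
    rw [Finset.prod_image (fun a _ b _ h => he h)]
    exact if_congr h1.symm rfl rfl

theorem nonV_image {V : Type} [AddCommGroup V] [Module (ZMod 2) V] [DecidableEq V]
    (e : F →ₗ[ZMod 2] V) (he : Function.Injective e) (X : Finset F) (h : NonV X) :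
    NonV (X.image e) := by
  intro u hu
  obtain ⟨z, hz, hne⟩ := h (fun v => u (e v)) (fun v hv hv0 =>
    hu (e v) (Finset.mem_image_of_mem e hv) (fun h0 => hv0 (he (h0.trans (map_zero e).symm))))
  refine ⟨z, hz, ?_⟩
  rw [PP_image e he]
  exact hne

/-! ### series-parallel sets -/

theorem exp_I_zpow (k : ℤ) (hk : k ≠ 0) : Complex.exp Complex.I ^ k ≠ 1 := by
  intro h
  rw [← Complex.exp_int_mul, Complex.exp_eq_one_iff] at h
  obtain ⟨n, hn⟩ := h
  have h1 : (k : ℂ) = n * (2 * Real.pi) := by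
    have := mul_right_cancel₀ Complex.I_ne_zero (show (k : ℂ) * Complex.I =
      (n * (2 * Real.pi)) * Complex.I by rw [hn]; ring)
    exact this
  have h2 : (k : ℝ) = n * (2 * Real.pi) := by exact_mod_cast h1
  have hn0 : n ≠ 0 := by
    rintro rfl
    apply hk
    have : (k : ℝ) = 0 := by rw [h2]; simp
    exact_mod_cast this
  apply irrational_pi
  refine ⟨(k : ℚ) / (2 * n), ?_⟩
  push_cast
  rw [h2]
  have : (n : ℝ) ≠ 0 := by exact_mod_cast hn0
  field_simp

section

variable {V : Type} [AddCommGroup V] [Module (ZMod 2) V] [DecidableEq V]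

theorem nonV_sp (X : Finset V) (h0 : (0 : V) ∉ X) (h : SeriesParallel X ⊥) : NonV X := by
  intro u hu
  have hu' : ∀ v ∈ X, Complex.exp Complex.I ^ u v ≠ 1 := fun v hv =>
    exp_I_zpow _ (hu v hv (fun h => h0 (h ▸ hv)))
  have hn : ‖Complex.exp Complex.I‖ = 1 := by
    have := Complex.norm_exp_ofReal_mul_I 1
    rwa [Complex.ofReal_one, one_mul] at this
  refine ⟨Complex.exp Complex.I, hn, thm_Ne V X ⊥ h _ ⟨?_, ?_, ?_, ?_⟩⟩
  · intro v _
    simp only [norm_zpow, hn, one_zpow, le_refl]
  · intro v hv hvb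
    exact absurd ((mem_bot _).1 hvb ▸ hv) h0
  · intro v hv
    exact mem_sup_right (subset_span ⟨hv, hu' v hv⟩)
  · intro v _ w _ hvw _ hs
    exfalso
    apply hvw
    have h1 : v + w = 0 := (mem_bot _).1 hs
    have h2 : v = (v + w) + w := by rw [add_assoc, aself, add_zero]
    rw [h2, h1, zero_add]

theorem sp_indep (X : Finset V) : ∀ K : Submodule (ZMod 2) V,
    (∀ v ∈ X, v ∉ K ⊔ span (ZMod 2) ((X.erase v : Finset V) : Set V)) → SeriesParallel X K := by
  induction X using Finset.induction_on with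
  | empty =>
    intro K _
    exact SeriesParallel.empty K
  | insert a s ha ih =>
    intro K h
    refine SeriesParallel.coloop s K a ?_ (ih _ ?_)
    · have h1 := h a (Finset.mem_insert_self a s)
      rwa [Finset.erase_insert ha] at h1
    · intro v hv h1
      have hne : a ≠ v := fun e => ha (e ▸ hv)
      apply h v (Finset.mem_insert_of_mem hv)
      rw [Finset.erase_insert_of_ne hne, ss_insert]
      exact h1

theorem sp_plane (a b : V) (ha : a ≠ 0) (hb : b ≠ 0) (hab : a ≠ b) :
    SeriesParallel (insert a (insert b {a + b})) (⊥ : Submodule (ZMod 2) V) := by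
  have m1 : ∀ x v : V, x ∈ (⊥ : Submodule (ZMod 2) V) ⊔ span (ZMod 2) {v} ↔ x = 0 ∨ x = v := by
    intro x v
    rw [mem_ss, mem_bot, mem_bot]
    constructor
    · rintro (h | h)
      · exact Or.inl h
      · right
        have h2 : x = (x + v) + v := by rw [add_assoc, aself, add_zero]
        rw [h2, h, zero_add]
    · rintro (h | h)
      · exact Or.inl h
      · right
        rw [h, aself]
  have hab' : a + b ≠ a := fun h => hb (by simpa using h)
  have hab'' : a ≠ a + b := fun h => hab' h.symm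
  refine SeriesParallel.series {a + b} ⊥ a b hab ?_ ?_ ?_
  · rw [Finset.coe_singleton, m1]
    rintro (h | h)
    · exact ha h
    · exact hab'' h
  · rw [Finset.coe_singleton, m1]
    exact Or.inr rfl
  · refine SeriesParallel.parallel {a + b} _ b (a + b) (Finset.mem_singleton_self _) ?_ ?_
    · rw [m1]
      right
      rw [add_comm a b, ← add_assoc, aself, zero_add]
    · have e : ({a + b} : Finset V) = insert (a + b) ∅ := rfl
      rw [e]
      refine SeriesParallel.coloop ∅ _ (a + b) ?_ (SeriesParallel.empty _)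
      rw [Finset.coe_empty, span_empty, sup_bot_eq, m1]
      rintro (h | h)
      · apply hab
        have h2 : a = (a + b) + b := by rw [add_assoc, aself, add_zero]
        rw [h2, h, zero_add]
      · exact hab' h

theorem mem_pair (x a b : V) (h : x ∈ span (ZMod 2) ({a, b} : Set V)) :
    x = 0 ∨ x = a ∨ x = b ∨ x = a + b := by
  obtain ⟨c, d, rfl⟩ := mem_span_pair.1 h
  rcases zm2 c with rfl | rfl <;> rcases zm2 d with rfl | rfl <;> simp

/-- the case of nonzero vectors -/
theorem nonV_nz (X : Finset V) (h0 : (0 : V) ∉ X)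
    (hr : Module.finrank (ZMod 2) (span (ZMod 2) (X : Set V)) ≤ 3) : NonV X := by
  classical
  by_cases hind : ∀ v ∈ X, v ∉ (⊥ : Submodule (ZMod 2) V) ⊔
      span (ZMod 2) ((X.erase v : Finset V) : Set V)
  · exact nonV_sp X h0 (sp_indep X ⊥ hind)
  push Not at hind
  obtain ⟨v, hvX, hv⟩ := hind
  rw [bot_sup_eq] at hv
  have hspan : span (ZMod 2) ((X.erase v : Finset V) : Set V) = span (ZMod 2) (X : Set V) := by
    refine le_antisymm (span_mono (Finset.coe_subset.2 (Finset.erase_subset _ _))) ?_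
    rw [span_le]
    intro w hw
    by_cases hwv : w = v
    · rw [hwv]
      exact hv
    · exact subset_span (Finset.mem_coe.2 (Finset.mem_erase.2 ⟨hwv, hw⟩))
  have hcard : Module.finrank (ZMod 2) (span (ZMod 2) (X : Set V)) + 1 ≤ X.card := by
    have h1 := finrank_span_finset_le_card (R := ZMod 2) (X.erase v)
    rw [Set.finrank, hspan, Finset.card_erase_of_mem hvX] at h1
    have h2 : 0 < X.card := Finset.card_pos.2 ⟨v, hvX⟩
    omega
  have hfd : Module.Finite (ZMod 2) (span (ZMod 2) (X : Set V)) :=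
    Module.Finite.span_of_finite _ (Finset.finite_toSet X)
  have hfin : Finite (span (ZMod 2) (X : Set V)) := Module.finite_of_finite (ZMod 2)
  have hX1 : X.card + 1 ≤ Nat.card (span (ZMod 2) (X : Set V)) := by
    have h1 : (insert (0 : V) X).card = X.card + 1 := Finset.card_insert_of_notMem h0
    rw [← h1, ← Set.ncard_coe_finset]
    have h2 : Nat.card (span (ZMod 2) (X : Set V)) =
        ((span (ZMod 2) (X : Set V) : Submodule (ZMod 2) V) : Set V).ncard := rfl
    rw [h2]
    refine Set.ncard_le_ncard ?_ (Set.toFinite _)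
    rw [Finset.coe_insert, Set.insert_subset_iff]
    exact ⟨zero_mem _, subset_span⟩
  rw [Module.natCard_eq_pow_finrank (K := ZMod 2), Nat.card_zmod] at hX1
  obtain ⟨r, hrr⟩ : ∃ r, r = Module.finrank (ZMod 2) (span (ZMod 2) (X : Set V)) := ⟨_, rfl⟩
  rw [← hrr] at hr hcard hX1
  have hr4 : r = 0 ∨ r = 1 ∨ r = 2 ∨ r = 3 := by omega
  rcases hr4 with rfl | rfl | rfl | rfl
  · omega
  · omega
  · have h3 : X.card = 3 := by omega
    have h2 : (X.erase v).card = 2 := by
      rw [Finset.card_erase_of_mem hvX, h3]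
    obtain ⟨a, b, hab, hE⟩ := Finset.card_eq_two.1 h2
    have haX : a ∈ X ∧ a ≠ v := by
      have : a ∈ X.erase v := by rw [hE]; simp
      rw [Finset.mem_erase] at this
      exact ⟨this.2, this.1⟩
    have hbX : b ∈ X ∧ b ≠ v := by
      have : b ∈ X.erase v := by rw [hE]; simp
      rw [Finset.mem_erase] at this
      exact ⟨this.2, this.1⟩
    rw [hE, Finset.coe_insert, Finset.coe_singleton] at hv
    have hv' : v = a + b := by
      rcases mem_pair v a b hv with h | h | h | h
      · exact absurd (h ▸ hvX) h0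
      · exact absurd h.symm haX.2
      · exact absurd h.symm hbX.2
      · exact h
    have hXe : X = insert a (insert b {a + b}) := by
      rw [← Finset.insert_erase hvX, hE, hv']
      ext t
      simp only [Finset.mem_insert, Finset.mem_singleton]
      tauto
    rw [hXe]
    refine nonV_sp _ ?_ (sp_plane a b (fun h => h0 (h ▸ haX.1)) (fun h => h0 (h ▸ hbX.1)) hab)
    rw [← hXe]
    exact h0
  · -- rank three
    have hfr : Module.finrank (ZMod 2) F = Module.finrank (ZMod 2) (span (ZMod 2) (X : Set V)) := by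
      rw [← hrr]
      simp
    let φ : F ≃ₗ[ZMod 2] span (ZMod 2) (X : Set V) := LinearEquiv.ofFinrankEq _ _ hfr
    let e : F →ₗ[ZMod 2] V := (span (ZMod 2) (X : Set V)).subtype ∘ₗ φ.toLinearMap
    have he : Function.Injective e := by
      intro x y h
      exact φ.injective (Subtype.ext h)
    have hrange : ∀ w ∈ span (ZMod 2) (X : Set V), ∃ y, e y = w := by
      intro w hw
      refine ⟨φ.symm ⟨w, hw⟩, ?_⟩
      show ((φ (φ.symm ⟨w, hw⟩) : span (ZMod 2) (X : Set V)) : V) = w
      rw [LinearEquiv.apply_symm_apply]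
    obtain ⟨Y, hY⟩ : ∃ Y : Finset F, Y = Finset.univ.filter (fun y => e y ∈ X) := ⟨_, rfl⟩
    have hYX : X = Y.image e := by
      ext w
      rw [Finset.mem_image]
      constructor
      · intro hw
        obtain ⟨y, hy⟩ := hrange w (subset_span hw)
        refine ⟨y, ?_, hy⟩
        rw [hY, Finset.mem_filter]
        exact ⟨Finset.mem_univ _, by rw [hy]; exact hw⟩
      · rintro ⟨y, hy, rfl⟩
        rw [hY, Finset.mem_filter] at hy
        exact hy.2
    have hYc : Y.card = X.card := by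
      rw [hYX, Finset.card_image_of_injective _ he]
    rw [hYX]
    refine nonV_image e he Y (nonV_F Y ?_ ?_ (by omega))
    · intro h
      rw [hY, Finset.mem_filter, map_zero] at h
      exact h0 h.2
    · rw [eq_top_iff]
      intro y _
      have h1 : e y ∈ span (ZMod 2) (X : Set V) := (φ y).2
      rw [hYX, Finset.coe_image, span_image] at h1
      obtain ⟨y', hy', hyy⟩ := mem_map.1 h1
      rw [← he hyy]
      exact hy'

end

end R3

theorem thm_Rank3 : St_Rank3 := by
  intro V _ _ _ X hr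
  classical
  by_cases h0 : (0 : V) ∈ X
  · intro u hu
    have hne : (0 : V) ∉ X.erase 0 := Finset.notMem_erase 0 X
    have hsub : span (ZMod 2) ((X.erase 0 : Finset V) : Set V) ≤ span (ZMod 2) (X : Set V) :=
      span_mono (Finset.coe_subset.2 (Finset.erase_subset _ _))
    have hfd : Module.Finite (ZMod 2) (span (ZMod 2) (X : Set V)) :=
      Module.Finite.span_of_finite _ (Finset.finite_toSet X)
    have hr' : Module.finrank (ZMod 2) (span (ZMod 2) ((X.erase 0 : Finset V) : Set V)) ≤ 3 :=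
      (finrank_mono hsub).trans hr
    obtain ⟨z, hz, hP⟩ := R3.nonV_nz (X.erase 0) hne hr' u
      (fun v hv hv0 => hu v (Finset.mem_of_mem_erase hv) hv0)
    refine ⟨z, hz, ?_⟩
    have hz0 : z ≠ 0 := by
      rintro rfl
      simp at hz
    rw [← Finset.insert_erase h0, PP_loop (X.erase 0) ⊥ _ 0 hne (zero_mem _)]
    exact mul_ne_zero (zpow_ne_zero _ hz0) hP
  · exact R3.nonV_nz X h0 hr

end Pool.Agent.SPT
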