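import Mathlib
import Pool.Agent.SPT.R3

/-!
# SPT, sets of rank four, part B: the constant term (helper57)

For a spanning set `X` of nonzero vectors of the space with sixteen elements
`3 * PP X ⊥ x = 3 ∏ X x - 3 ∑ (planes H) ∏ (X ∩ H) x + 6 ∑ (lines L) ∏ (X ∩ L) x - 24 ∑ X (x - 1) - 168`.
-/

set_option autoImplicit false
set_option linter.unusedSectionVars false

open Submodule

namespace Pool.Agent.SPT

namespace R4

abbrev F : Type := Fin 4 → ZMod 2

def dot (f w : F) : ZMod 2 := f 0 * w 0 + f 1 * w 1 + f 2 * w 2 + f 3 * w 3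

def kil (W : Finset F) : Finset F := Finset.univ.filter fun f => f ≠ 0 ∧ ∀ w ∈ W, dot f w = 0

/-- the nonzero vectors -/
def NZF : Finset F := Finset.univ.filter fun f => f ≠ 0

/-- the line through two points -/
def lin (a b : F) : Finset F := {a, b, a + b}

theorem mem_NZF (f : F) : f ∈ NZF ↔ f ≠ 0 := by
  simp [NZF]

theorem card_NZF : NZF.card = 15 := by
  decide +kernel

theorem dot_add (f v w : F) : dot f (v + w) = dot f v + dot f w := by
  unfold dot
  simp only [Pi.add_apply]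
  ring

theorem dot_comm (f w : F) : dot f w = dot w f := by
  unfold dot
  ring

theorem add_dot (f g w : F) : dot (f + g) w = dot f w + dot g w := by
  rw [dot_comm, dot_add, dot_comm w f, dot_comm w g]

theorem dot_zr (f : F) : dot f 0 = 0 := by
  simp [dot]

theorem dot_zero : ∀ f : F, (∀ w, dot f w = 0) → f = 0 := by
  decide +kernel

theorem kil_empty : (kil ∅).card = 15 := by
  decide +kernel

theorem kil_one : ∀ v : F, v ≠ 0 → (kil {v}).card = 7 := by
  decide +kernel

theorem kil_two : ∀ v w : F, v ≠ 0 → w ≠ 0 → v ≠ w → (kil {v, w}).card = 3 := by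
  decide +kernel

theorem mem_kil (W : Finset F) (f : F) : f ∈ kil W ↔ f ≠ 0 ∧ ∀ w ∈ W, dot f w = 0 := by
  simp [kil]

theorem mem_lin (a b c : F) : c ∈ lin a b ↔ c = a ∨ c = b ∨ c = a + b := by
  simp [lin]

theorem fself (x : F) : x + x = 0 := aself x

theorem eq_of_add (x y z : F) (h : x = y + z) : y = x + z := by
  rw [h, add_assoc, fself, add_zero]

theorem lin_comm (a b : F) : lin a b = lin b a := by
  ext c
  rw [mem_lin, mem_lin, add_comm a b]
  tauto

theorem lin_rot (a b : F) : lin a (a + b) = lin a b := by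
  ext c
  rw [mem_lin, mem_lin, ← add_assoc, fself, zero_add]
  tauto

theorem lin_eq (a b v w : F) (ha : a ∈ lin v w) (hb : b ∈ lin v w) (hab : a ≠ b) :
    lin v w = lin a b := by
  rw [mem_lin] at ha hb
  rcases ha with rfl | rfl | rfl <;> rcases hb with rfl | rfl | rfl
  · exact absurd rfl hab
  · rfl
  · exact (lin_rot _ _).symm
  · exact lin_comm _ _
  · exact absurd rfl hab
  · rw [lin_comm, add_comm v a, lin_rot]
  · rw [lin_comm (b + w) b, lin_rot]
  · rw [lin_comm (v + b) b, add_comm v b, lin_rot, lin_comm]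
  · exact absurd rfl hab

theorem lin_card (a b : F) (ha : a ≠ 0) (hb : b ≠ 0) (hab : a ≠ b) : (lin a b).card = 3 := by
  rw [lin, Finset.card_eq_three]
  refine ⟨a, b, a + b, hab, ?_, ?_, rfl⟩
  · intro h
    exact hb (by simpa using h)
  · intro h
    exact ha (by simpa using h)

theorem kil_anti {W W' : Finset F} (h : W ⊆ W') : kil W' ⊆ kil W := by
  intro f hf
  rw [mem_kil] at hf ⊢
  exact ⟨hf.1, fun w hw => hf.2 w (h hw)⟩

theorem kil_lin (a b : F) : kil (lin a b) = kil {a, b} := by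
  ext f
  rw [mem_kil, mem_kil]
  simp only [lin, Finset.mem_insert, Finset.mem_singleton, forall_eq_or_imp, forall_eq]
  constructor
  · rintro ⟨h1, h2, h3, -⟩
    exact ⟨h1, h2, h3⟩
  · rintro ⟨h1, h2, h3⟩
    exact ⟨h1, h2, h3, by rw [dot_add, h2, h3, add_zero]⟩

theorem kil_three (a b c : F) (ha : a ≠ 0) (hb : b ≠ 0) (hab : a ≠ b) (hc0 : c ≠ 0)
    (hc : c ∉ lin a b) : (kil {a, b, c}).card ≤ 1 := by
  by_contra hlt
  rw [not_le] at hlt
  obtain ⟨f, hf, g, hg, hfg⟩ := Finset.one_lt_card.1 hlt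
  rw [mem_kil] at hf hg
  have h1 := kil_two f g hf.1 hg.1 hfg
  have h2 : insert c (lin a b) ⊆ kil {f, g} := by
    intro x hx
    have hx' : x = c ∨ x = a ∨ x = b ∨ x = a + b := by
      rw [Finset.mem_insert, mem_lin] at hx
      exact hx
    have hx0 : x ≠ 0 ∧ dot f x = 0 ∧ dot g x = 0 := by
      have fa := hf.2 a (by simp)
      have fb := hf.2 b (by simp)
      have fc := hf.2 c (by simp)
      have ga := hg.2 a (by simp)
      have gb := hg.2 b (by simp)
      have gc := hg.2 c (by simp)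
      rcases hx' with rfl | rfl | rfl | rfl
      · exact ⟨hc0, fc, gc⟩
      · exact ⟨ha, fa, ga⟩
      · exact ⟨hb, fb, gb⟩
      · refine ⟨?_, by rw [dot_add, fa, fb, add_zero], by rw [dot_add, ga, gb, add_zero]⟩
        intro h
        apply hab
        have := eq_of_add 0 a b h.symm
        rw [zero_add] at this
        exact this
    rw [mem_kil]
    refine ⟨hx0.1, ?_⟩
    intro w hw
    rw [Finset.mem_insert, Finset.mem_singleton] at hw
    rcases hw with rfl | rfl
    · rw [dot_comm]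
      exact hx0.2.1
    · rw [dot_comm]
      exact hx0.2.2
  have h3 := Finset.card_le_card h2
  rw [Finset.card_insert_of_notMem hc, lin_card a b ha hb hab, h1] at h3
  omega

/-- the linear form of `f` -/
def dotL (f : F) : F →ₗ[ZMod 2] ZMod 2 where
  toFun w := dot f w
  map_add' a b := dot_add f a b
  map_smul' c a := by
    unfold dot
    simp only [Pi.smul_apply, smul_eq_mul, RingHom.id_apply]
    ring

theorem exists_dot (φ : F →ₗ[ZMod 2] ZMod 2) : ∃ f : F, ∀ w, φ w = dot f w := by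
  refine ⟨fun i => φ (Pi.single i 1), fun w => ?_⟩
  rw [LinearMap.pi_apply_eq_sum_univ φ w, Fin.sum_univ_four]
  have e : ∀ i : Fin 4, (fun j => if i = j then (1 : ZMod 2) else 0) = Pi.single i 1 := by
    intro i
    funext j
    rw [Pi.single_apply]
    by_cases h : i = j
    · rw [if_pos h, if_pos h.symm]
    · rw [if_neg h, if_neg (fun h' => h h'.symm)]
  rw [e, e, e, e]
  unfold dot
  simp only [smul_eq_mul]
  ring

theorem span_ker (W : Finset F) (f : F) (h : ∀ w ∈ W, dot f w = 0) :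
    ∀ w ∈ span (ZMod 2) (W : Set F), dot f w = 0 := by
  have h1 : span (ZMod 2) (W : Set F) ≤ LinearMap.ker (dotL f) := by
    rw [span_le]
    intro w hw
    exact h w hw
  intro w hw
  exact h1 hw

theorem top_iff (W : Finset F) : span (ZMod 2) (W : Set F) = ⊤ ↔ kil W = ∅ := by
  constructor
  · intro h
    rw [Finset.eq_empty_iff_forall_notMem]
    intro f hf
    rw [mem_kil] at hf
    apply hf.1
    apply dot_zero
    intro w
    apply span_ker W f hf.2
    rw [h]
    exact mem_top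
  · intro h
    by_contra hne
    obtain ⟨φ, hφ, hle⟩ := exists_le_ker_of_lt_top _ (lt_top_iff_ne_top.2 hne)
    obtain ⟨f, hf⟩ := exists_dot φ
    have : f ∈ kil W := by
      rw [mem_kil]
      refine ⟨?_, ?_⟩
      · rintro rfl
        apply hφ
        ext w
        simp [hf, dot]
      · intro w hw
        rw [← hf]
        exact hle (subset_span hw)
    rw [h] at this
    exact absurd this (Finset.notMem_empty f)

/-! ### the numbers of pairs -/

/-- the pairs which span a line containing `W` -/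
def tt (W : Finset F) : Finset (F × F) := NZF.offDiag.filter fun q => W ⊆ lin q.1 q.2

theorem tt_empty : (tt ∅).card = 210 := by
  have h : tt ∅ = NZF.offDiag := by
    unfold tt
    refine Finset.filter_true_of_mem fun q _ => Finset.empty_subset _
  rw [h, Finset.offDiag_card, card_NZF]

theorem tt_one (a : F) (ha : a ≠ 0) : (tt {a}).card = 42 := by
  classical
  have h : tt {a} = ((NZF.erase a).image fun x => (a, x)) ∪
      (((NZF.erase a).image fun x => (x, a)) ∪ ((NZF.erase a).image fun x => (x, x + a))) := by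
    ext ⟨v, w⟩
    simp only [tt, Finset.mem_filter, Finset.mem_offDiag, Finset.singleton_subset_iff, mem_lin,
      mem_NZF, Finset.mem_union, Finset.mem_image, Finset.mem_erase, Prod.mk.injEq]
    constructor
    · rintro ⟨⟨hv, hw, hvw⟩, rfl | rfl | h⟩
      · exact Or.inl ⟨w, ⟨fun h => hvw h.symm, hw⟩, rfl, rfl⟩
      · exact Or.inr (Or.inl ⟨v, ⟨hvw, hv⟩, rfl, rfl⟩)
      · refine Or.inr (Or.inr ⟨v, ⟨?_, hv⟩, rfl, ?_⟩)
        · rintro rfl
          apply hw
          have := h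
          simpa using this.symm
        · rw [h, ← add_assoc, fself, zero_add]
    · rintro (⟨x, ⟨h1, h2⟩, rfl, rfl⟩ | ⟨x, ⟨h1, h2⟩, rfl, rfl⟩ | ⟨x, ⟨h1, h2⟩, rfl, rfl⟩)
      · exact ⟨⟨ha, h2, fun h => h1 h.symm⟩, Or.inl rfl⟩
      · exact ⟨⟨h2, ha, h1⟩, Or.inr (Or.inl rfl)⟩
      · refine ⟨⟨h2, ?_, ?_⟩, Or.inr (Or.inr ?_)⟩
        · intro h
          apply h1
          have := eq_of_add 0 x a h.symm
          rw [zero_add] at this
          exact this
        · intro h
          apply ha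
          simpa using h.symm
        · rw [← add_assoc, fself, zero_add]
  have hE : (NZF.erase a).card = 14 := by
    rw [Finset.card_erase_of_mem ((mem_NZF a).2 ha), card_NZF]
  rw [h, Finset.card_union_of_disjoint, Finset.card_union_of_disjoint,
    Finset.card_image_of_injective, Finset.card_image_of_injective,
    Finset.card_image_of_injective, hE]
  · intro x y hxy
    exact (Prod.mk.inj hxy).1
  · intro x y hxy
    exact (Prod.mk.inj hxy).1
  · intro x y hxy
    exact (Prod.mk.inj hxy).2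
  · rw [Finset.disjoint_left]
    rintro ⟨v, w⟩ h1 h2
    simp only [Finset.mem_image, Finset.mem_erase, mem_NZF, Prod.mk.injEq] at h1 h2
    obtain ⟨x, ⟨hx1, hx2⟩, rfl, rfl⟩ := h1
    obtain ⟨y, ⟨hy1, hy2⟩, rfl, h⟩ := h2
    apply hy2
    simpa using h
  · rw [Finset.disjoint_left]
    rintro ⟨v, w⟩ h1 h2
    simp only [Finset.mem_image, Finset.mem_erase, mem_NZF, Finset.mem_union, Prod.mk.injEq] at h1 h2
    obtain ⟨x, ⟨hx1, hx2⟩, rfl, rfl⟩ := h1
    rcases h2 with ⟨y, ⟨hy1, hy2⟩, rfl, rfl⟩ | ⟨y, ⟨hy1, hy2⟩, rfl, h⟩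
    · exact hy1 rfl
    · exact hy1 rfl

theorem tt_two (W : Finset F) (a b : F) (haW : a ∈ W) (hbW : b ∈ W) (ha : a ≠ 0) (hb : b ≠ 0)
    (hab : a ≠ b) (hW : W ⊆ lin a b) : (tt W).card = 6 := by
  have hab0 : a + b ≠ 0 := by
    intro h
    apply hab
    have := eq_of_add 0 a b h.symm
    rw [zero_add] at this
    exact this
  have hnz : ∀ x ∈ lin a b, x ≠ 0 := by
    intro x hx
    rw [mem_lin] at hx
    rcases hx with rfl | rfl | rfl
    · exact ha
    · exact hb
    · exact hab0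
  have h : tt W = (lin a b).offDiag := by
    ext ⟨v, w⟩
    rw [tt, Finset.mem_filter, Finset.mem_offDiag, Finset.mem_offDiag, mem_NZF, mem_NZF]
    constructor
    · rintro ⟨⟨hv, hw, hvw⟩, h⟩
      have h1 : lin v w = lin a b := lin_eq a b v w (h haW) (h hbW) hab
      refine ⟨?_, ?_, hvw⟩
      · show v ∈ lin a b
        rw [← h1, mem_lin]
        exact Or.inl rfl
      · show w ∈ lin a b
        rw [← h1, mem_lin]
        exact Or.inr (Or.inl rfl)
    · rintro ⟨hv, hw, hvw⟩
      refine ⟨⟨hnz _ hv, hnz _ hw, hvw⟩, ?_⟩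
      show W ⊆ lin v w
      rw [← lin_eq v w a b hv hw hvw]
      exact hW
  rw [h, Finset.offDiag_card, lin_card a b ha hb hab]

theorem tt_three (W : Finset F) (a b c : F) (haW : a ∈ W) (hbW : b ∈ W) (hcW : c ∈ W)
    (hab : a ≠ b) (hc : c ∉ lin a b) : tt W = ∅ := by
  rw [Finset.eq_empty_iff_forall_notMem]
  rintro ⟨v, w⟩ h
  rw [tt, Finset.mem_filter] at h
  have h1 : lin v w = lin a b := lin_eq a b v w (h.2 haW) (h.2 hbW) hab
  apply hc
  rw [← h1]
  exact h.2 hcW

theorem ind (W : Finset F) (h0 : (0 : F) ∉ W) :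
    3 * (if kil W = ∅ then (1 : ℂ) else 0) =
      3 - 3 * ((kil W).card : ℂ) + ((tt W).card : ℂ) - (if W.card = 1 then 24 else 0) -
        (if W = ∅ then 168 else 0) := by
  rcases Nat.lt_or_ge W.card 2 with h | h
  · rcases Nat.lt_or_ge W.card 1 with h1 | h1
    · have hW : W = ∅ := Finset.card_eq_zero.1 (by omega)
      subst hW
      have hk : kil ∅ ≠ ∅ := by
        intro h
        have := kil_empty
        rw [h] at this
        simp at this
      rw [if_neg hk, kil_empty, tt_empty, if_neg (by simp), if_pos rfl]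
      norm_num
    · obtain ⟨v, rfl⟩ := Finset.card_eq_one.1 (show W.card = 1 by omega)
      have hv : v ≠ 0 := fun h => h0 (by rw [h]; exact Finset.mem_singleton_self _)
      have hk : kil {v} ≠ ∅ := by
        intro h
        have := kil_one v hv
        rw [h] at this
        simp at this
      rw [if_neg hk, kil_one v hv, tt_one v hv, if_pos (by simp), if_neg (by simp)]
      norm_num
  · have hW1 : W.card ≠ 1 := by omega
    have hW0 : W ≠ ∅ := by
      rintro rfl
      simp at h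
    rw [if_neg hW1, if_neg hW0]
    obtain ⟨a, ha, b, hb, hab⟩ := Finset.one_lt_card.1 (show 1 < W.card by omega)
    have ha0 : a ≠ 0 := fun h => h0 (h ▸ ha)
    have hb0 : b ≠ 0 := fun h => h0 (h ▸ hb)
    by_cases hW : W ⊆ lin a b
    · have e1 : kil W = kil {a, b} := by
        refine Finset.Subset.antisymm (kil_anti ?_) ?_
        · intro x hx
          rw [Finset.mem_insert, Finset.mem_singleton] at hx
          rcases hx with rfl | rfl
          · exact ha
          · exact hb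
        · rw [← kil_lin]
          exact kil_anti hW
      have e2 := kil_two a b ha0 hb0 hab
      have hk : kil W ≠ ∅ := by
        rw [e1]
        intro h
        rw [h] at e2
        simp at e2
      rw [if_neg hk, e1, e2, tt_two W a b ha hb ha0 hb0 hab hW]
      norm_num
    · rw [Finset.not_subset] at hW
      obtain ⟨c, hc, hcn⟩ := hW
      have hc0 : c ≠ 0 := fun h => h0 (h ▸ hc)
      have hle : (kil W).card ≤ 1 := by
        refine (Finset.card_le_card (kil_anti ?_)).trans (kil_three a b c ha0 hb0 hab hc0 hcn)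
        intro x hx
        rw [Finset.mem_insert, Finset.mem_insert, Finset.mem_singleton] at hx
        rcases hx with rfl | rfl | rfl
        · exact ha
        · exact hb
        · exact hc
      rw [tt_three W a b c ha hb hc hab hcn]
      by_cases hk : kil W = ∅
      · rw [if_pos hk, hk]
        simp
      · rw [if_neg hk]
        have : (kil W).card = 1 :=
          le_antisymm hle (Finset.card_pos.2 (Finset.nonempty_iff_ne_empty.2 hk))
        rw [this]
        norm_num

theorem card_kil (W : Finset F) :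
    ((kil W).card : ℂ) = ∑ f ∈ NZF, if ∀ w ∈ W, dot f w = 0 then (1 : ℂ) else 0 := by
  rw [Finset.sum_boole]
  congr 2
  ext f
  simp only [kil, NZF, Finset.mem_filter, Finset.mem_univ, true_and]

theorem card_tt (W : Finset F) :
    ((tt W).card : ℂ) = ∑ q ∈ NZF.offDiag, if W ⊆ lin q.1 q.2 then (1 : ℂ) else 0 := by
  rw [Finset.sum_boole]
  rfl

theorem PP_F (X : Finset F) (h0 : (0 : F) ∉ X) (hX : span (ZMod 2) (X : Set F) = ⊤)
    (x : F → ℂ) :
    3 * PP X ⊥ x = 3 * ∏ v ∈ X, x v -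
      3 * ∑ f ∈ NZF, ∏ v ∈ X.filter (fun v => dot f v = 0), x v +
      ∑ q ∈ NZF.offDiag, ∏ v ∈ X.filter (fun v => v ∈ lin q.1 q.2), x v -
      24 * ∑ v ∈ X, (x v - 1) - 168 := by
  classical
  have prodone : ∀ A : Finset F, ∑ W ∈ A.powerset, ∏ v ∈ W, (x v - 1) = ∏ v ∈ A, x v := by
    intro A
    rw [← Finset.prod_add_one]
    refine Finset.prod_congr rfl fun v _ => ?_
    ring
  have step : 3 * PP X ⊥ x = ∑ W ∈ X.powerset, (3 - 3 * (∑ f ∈ NZF,
      if ∀ w ∈ W, dot f w = 0 then (1 : ℂ) else 0) +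
      (∑ q ∈ NZF.offDiag, if W ⊆ lin q.1 q.2 then (1 : ℂ) else 0) -
      (if W.card = 1 then 24 else 0) -
      (if W = ∅ then 168 else 0)) * ∏ v ∈ W, (x v - 1) := by
    unfold PP
    rw [Finset.mul_sum]
    refine Finset.sum_congr rfl fun W hW => ?_
    rw [Finset.mem_powerset] at hW
    have hsp : Spans ⊥ X W ↔ kil W = ∅ := by
      unfold Spans
      rw [bot_sup_eq, bot_sup_eq, hX, top_iff]
    rw [← card_kil, ← card_tt, ← ind W (fun h => h0 (hW h)), mul_assoc, ite_mul, one_mul, zero_mul]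
    congr 1
    exact if_congr hsp rfl rfl
  have s2 : ∑ W ∈ X.powerset, (∑ f ∈ NZF,
      if ∀ w ∈ W, dot f w = 0 then (1 : ℂ) else 0) * ∏ v ∈ W, (x v - 1) =
      ∑ f ∈ NZF, ∏ v ∈ X.filter (fun v => dot f v = 0), x v := by
    simp_rw [Finset.sum_mul]
    rw [Finset.sum_comm]
    refine Finset.sum_congr rfl fun f _ => ?_
    rw [← prodone]
    simp_rw [ite_mul, one_mul, zero_mul]
    rw [← Finset.sum_filter]
    refine Finset.sum_congr ?_ fun _ _ => rfl
    ext W
    simp only [Finset.mem_filter, Finset.mem_powerset, Finset.subset_iff]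
    constructor
    · rintro ⟨h1, h2⟩ w hw
      exact ⟨h1 hw, h2 w hw⟩
    · intro h
      exact ⟨fun w hw => (h hw).1, fun w hw => (h hw).2⟩
  have s2' : ∑ W ∈ X.powerset, (∑ q ∈ NZF.offDiag,
      if W ⊆ lin q.1 q.2 then (1 : ℂ) else 0) * ∏ v ∈ W, (x v - 1) =
      ∑ q ∈ NZF.offDiag, ∏ v ∈ X.filter (fun v => v ∈ lin q.1 q.2), x v := by
    simp_rw [Finset.sum_mul]
    rw [Finset.sum_comm]
    refine Finset.sum_congr rfl fun q _ => ?_
    rw [← prodone]
    simp_rw [ite_mul, one_mul, zero_mul]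
    rw [← Finset.sum_filter]
    refine Finset.sum_congr ?_ fun _ _ => rfl
    ext W
    simp only [Finset.mem_filter, Finset.mem_powerset, Finset.subset_iff]
    constructor
    · rintro ⟨h1, h2⟩ w hw
      exact ⟨h1 hw, h2 hw⟩
    · intro h
      exact ⟨fun w hw => (h hw).1, fun w hw => (h hw).2⟩
  have s3 : ∑ W ∈ X.powerset, (if W.card = 1 then (24 : ℂ) else 0) * ∏ v ∈ W, (x v - 1) =
      24 * ∑ v ∈ X, (x v - 1) := by
    simp_rw [ite_mul, zero_mul]
    rw [← Finset.sum_filter, ← Finset.powersetCard_eq_filter, Finset.powersetCard_one,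
      Finset.sum_map, Finset.mul_sum]
    refine Finset.sum_congr rfl fun v _ => ?_
    simp
  have s4 : ∑ W ∈ X.powerset, (if W = ∅ then (168 : ℂ) else 0) * ∏ v ∈ W, (x v - 1) = 168 := by
    simp_rw [ite_mul, zero_mul]
    rw [Finset.sum_ite_eq' X.powerset ∅ (fun W => 168 * ∏ v ∈ W, (x v - 1)),
      if_pos (Finset.empty_mem_powerset X)]
    simp
  have split : ∀ W : Finset F, (3 - 3 * (∑ f ∈ NZF,
      if ∀ w ∈ W, dot f w = 0 then (1 : ℂ) else 0) +
      (∑ q ∈ NZF.offDiag, if W ⊆ lin q.1 q.2 then (1 : ℂ) else 0) -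
      (if W.card = 1 then 24 else 0) -
      (if W = ∅ then 168 else 0)) * ∏ v ∈ W, (x v - 1) = 3 * ∏ v ∈ W, (x v - 1) -
      3 * ((∑ f ∈ NZF, if ∀ w ∈ W, dot f w = 0 then (1 : ℂ) else 0) * ∏ v ∈ W, (x v - 1)) +
      (∑ q ∈ NZF.offDiag, if W ⊆ lin q.1 q.2 then (1 : ℂ) else 0) * ∏ v ∈ W, (x v - 1) -
      (if W.card = 1 then 24 else 0) * ∏ v ∈ W, (x v - 1) -
      (if W = ∅ then 168 else 0) * ∏ v ∈ W, (x v - 1) := by
    intro W
    ring
  rw [step, Finset.sum_congr rfl (fun W _ => split W), Finset.sum_sub_distrib,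
    Finset.sum_sub_distrib, Finset.sum_add_distrib, Finset.sum_sub_distrib, ← Finset.mul_sum,
    ← Finset.mul_sum, prodone, s2, s2', s3, s4]

/-! ### the constant term -/

theorem prod_zpow (z : ℂ) (hz : z ≠ 0) (A : Finset F) (u : F → ℤ) :
    ∏ v ∈ A, z ^ u v = z ^ ∑ v ∈ A, u v := by
  classical
  induction A using Finset.induction_on with
  | empty => simp
  | insert a s ha ih => rw [Finset.prod_insert ha, Finset.sum_insert ha, ih, zpow_add₀ hz]

theorem average (X : Finset F) (u : F → ℤ) (M : ℕ) (hM : ∑ v ∈ X, (u v).natAbs < M)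
    (ζ : ℂ) (hζ : IsPrimitiveRoot ζ M) (A : Finset F) (hA : A ⊆ X) :
    ∑ j ∈ Finset.range M, ∏ v ∈ A, (ζ ^ j) ^ u v =
      if ∑ v ∈ A, u v = 0 then (M : ℂ) else 0 := by
  have hM0 : M ≠ 0 := by omega
  have hz : ζ ≠ 0 := hζ.ne_zero hM0
  have e : ∀ j ∈ Finset.range M, ∏ v ∈ A, (ζ ^ j) ^ u v = (ζ ^ (∑ v ∈ A, u v)) ^ j := by
    intro j _
    rw [prod_zpow _ (pow_ne_zero j hz), ← zpow_natCast, ← zpow_natCast, ← zpow_mul, ← zpow_mul,
      mul_comm]
  rw [Finset.sum_congr rfl e]
  split_ifs with h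
  · rw [h, zpow_zero]
    simp
  · have hne : ζ ^ (∑ v ∈ A, u v) ≠ 1 := by
      intro h1
      rw [hζ.zpow_eq_one_iff_dvd] at h1
      apply h
      refine Int.eq_zero_of_abs_lt_dvd h1 ?_
      calc |∑ v ∈ A, u v| ≤ ∑ v ∈ A, |u v| := Finset.abs_sum_le_sum_abs _ _
        _ ≤ ∑ v ∈ X, |u v| := Finset.sum_le_sum_of_subset_of_nonneg hA fun _ _ _ => abs_nonneg _
        _ = ((∑ v ∈ X, (u v).natAbs : ℕ) : ℤ) := by
          push_cast
          refine Finset.sum_congr rfl fun v _ => ?_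
          exact (Int.abs_eq_natAbs _).symm ▸ rfl
        _ < M := by exact_mod_cast hM
    rw [geom_sum_eq hne]
    have : (ζ ^ (∑ v ∈ A, u v)) ^ M = 1 := by
      rw [← zpow_natCast, ← zpow_mul, mul_comm, zpow_mul, zpow_natCast, hζ.pow_eq_one, one_zpow]
    rw [this, sub_self, zero_div]

/-- the number of the zero planes -/
def npl (X : Finset F) (u : F → ℤ) : ℕ :=
  (NZF.filter fun f => ∑ v ∈ X.filter (fun v => dot f v = 0), u v = 0).card

/-- six times the number of the zero lines -/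
def nln (X : Finset F) (u : F → ℤ) : ℕ :=
  (NZF.offDiag.filter fun q => ∑ v ∈ X.filter (fun v => v ∈ lin q.1 q.2), u v = 0).card

theorem key (X : Finset F) (h0 : (0 : F) ∉ X) (hX : span (ZMod 2) (X : Set F) = ⊤)
    (u : F → ℤ) (hu : ∀ v ∈ X, u v ≠ 0)
    (hcon : ∀ z : ℂ, ‖z‖ = 1 → PP X ⊥ (fun v => z ^ u v) = 0) :
    (3 * (if ∑ v ∈ X, u v = 0 then 1 else 0) - 3 * (npl X u : ℤ) + (nln X u : ℤ) +
      24 * X.card - 168 : ℤ) = 0 := by
  classical
  obtain ⟨M, hM⟩ : ∃ M, M = 1 + ∑ v ∈ X, (u v).natAbs := ⟨_, rfl⟩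
  have hM0 : M ≠ 0 := by omega
  have hζ : IsPrimitiveRoot (Complex.exp (2 * Real.pi * Complex.I / M)) M :=
    Complex.isPrimitiveRoot_exp M hM0
  obtain ⟨ζ, hζe⟩ : ∃ ζ, ζ = Complex.exp (2 * Real.pi * Complex.I / M) := ⟨_, rfl⟩
  rw [← hζe] at hζ
  have hnorm : ‖ζ‖ = 1 := hζ.norm'_eq_one hM0
  have av := average X u M (by omega) ζ hζ
  have hz : ∀ j ∈ Finset.range M, (0 : ℂ) = 3 * ∏ v ∈ X, (ζ ^ j) ^ u v -
      3 * ∑ f ∈ NZF, ∏ v ∈ X.filter (fun v => dot f v = 0), (ζ ^ j) ^ u v +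
      ∑ q ∈ NZF.offDiag, ∏ v ∈ X.filter (fun v => v ∈ lin q.1 q.2), (ζ ^ j) ^ u v -
      24 * ∑ v ∈ X, ((ζ ^ j) ^ u v - 1) - 168 := by
    intro j _
    rw [← PP_F X h0 hX (fun v => (ζ ^ j) ^ u v), hcon (ζ ^ j) (by rw [norm_pow, hnorm, one_pow]),
      mul_zero]
  have hsum := Finset.sum_congr (rfl : Finset.range M = Finset.range M) hz
  rw [Finset.sum_sub_distrib, Finset.sum_sub_distrib, Finset.sum_add_distrib,
    Finset.sum_sub_distrib, ← Finset.mul_sum, ← Finset.mul_sum, ← Finset.mul_sum,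
    av X subset_rfl] at hsum
  have e1 : ∑ j ∈ Finset.range M, ∑ f ∈ NZF, ∏ v ∈ X.filter (fun v => dot f v = 0),
      (ζ ^ j) ^ u v = ∑ f ∈ NZF, if ∑ v ∈ X.filter (fun v => dot f v = 0), u v = 0 then
        (M : ℂ) else 0 := by
    rw [Finset.sum_comm]
    exact Finset.sum_congr rfl fun f _ => av _ (Finset.filter_subset _ _)
  have e1' : ∑ j ∈ Finset.range M, ∑ q ∈ NZF.offDiag,
      ∏ v ∈ X.filter (fun v => v ∈ lin q.1 q.2), (ζ ^ j) ^ u v = ∑ q ∈ NZF.offDiag,
      if ∑ v ∈ X.filter (fun v => v ∈ lin q.1 q.2), u v = 0 then (M : ℂ) else 0 := by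
    rw [Finset.sum_comm]
    exact Finset.sum_congr rfl fun f _ => av _ (Finset.filter_subset _ _)
  have e2 : ∑ j ∈ Finset.range M, ∑ v ∈ X, ((ζ ^ j) ^ u v - 1) = - (X.card * M : ℂ) := by
    rw [Finset.sum_comm]
    have : ∀ v ∈ X, ∑ j ∈ Finset.range M, ((ζ ^ j) ^ u v - 1) = - (M : ℂ) := by
      intro v hv
      have h1 := av {v} (Finset.singleton_subset_iff.2 hv)
      rw [Finset.sum_singleton, if_neg (hu v hv)] at h1
      simp only [Finset.prod_singleton] at h1
      rw [Finset.sum_sub_distrib, h1]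
      simp
    rw [Finset.sum_congr rfl this]
    simp
  rw [e1, e1', e2] at hsum
  simp only [Finset.sum_const_zero, Finset.sum_const, Finset.card_range, nsmul_eq_mul] at hsum
  have e3 : ∑ f ∈ NZF, (if ∑ v ∈ X.filter (fun v => dot f v = 0), u v = 0 then
        (M : ℂ) else 0) = (npl X u : ℂ) * M := by
    rw [← Finset.sum_filter, Finset.sum_const, nsmul_eq_mul, npl]
  have e3' : ∑ q ∈ NZF.offDiag, (if ∑ v ∈ X.filter (fun v => v ∈ lin q.1 q.2), u v = 0 then
        (M : ℂ) else 0) = (nln X u : ℂ) * M := by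
    rw [← Finset.sum_filter, Finset.sum_const, nsmul_eq_mul, nln]
  rw [e3, e3'] at hsum
  have hMC : (M : ℂ) ≠ 0 := by exact_mod_cast hM0
  obtain ⟨a, ha1, ha2⟩ : ∃ a : ℤ, (if ∑ v ∈ X, u v = 0 then (1 : ℤ) else 0) = a ∧
      (if ∑ v ∈ X, u v = 0 then (M : ℂ) else 0) = a * M := by
    by_cases h : ∑ v ∈ X, u v = 0
    · exact ⟨1, by rw [if_pos h], by rw [if_pos h]; simp⟩
    · exact ⟨0, by rw [if_neg h], by rw [if_neg h]; simp⟩
  rw [ha2] at hsum
  rw [ha1]
  have h3 : (M : ℂ) * ((3 * a - 3 * (npl X u : ℤ) + (nln X u : ℤ) +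
      24 * X.card - 168 : ℤ) : ℂ) = 0 := by
    push_cast
    linear_combination -hsum
  have h4 := (mul_eq_zero.1 h3).resolve_left hMC
  exact_mod_cast h4

end R4

end Pool.Agent.SPT
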