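import Mathlib
import Pool.Agent.SPT.R4B

/-!
# SPT, sets of rank four, part C: counting points, lines and planes (helper57)
-/

set_option autoImplicit false
set_option linter.unusedSectionVars false

open Submodule

namespace Pool.Agent.SPT

namespace R4

/-- the number of the points of `X` in the plane `f` -/
def hh (X : Finset F) (f : F) : ℕ := (X.filter fun v => dot f v = 0).card

/-- the sum over the plane `f` -/
def ps (X : Finset F) (u : F → ℤ) (f : F) : ℤ := ∑ v ∈ X.filter (fun v => dot f v = 0), u v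

theorem double (A X : Finset F) (u : F → ℤ) : ∑ f ∈ A, ps X u f =
    ∑ v ∈ X, ((A.filter fun f => dot f v = 0).card : ℤ) * u v := by
  unfold ps
  simp_rw [Finset.sum_filter]
  rw [Finset.sum_comm]
  refine Finset.sum_congr rfl fun v _ => ?_
  rw [← Finset.sum_filter, Finset.sum_const, nsmul_eq_mul]

theorem filt_one (v : F) : (NZF.filter fun f => dot f v = 0) = kil {v} := by
  ext f
  simp [NZF, kil]

theorem filt_two (x v : F) : ((kil {x}).filter fun f => dot f v = 0) = kil {x, v} := by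
  ext f
  simp only [kil, Finset.mem_filter, Finset.mem_univ, true_and, Finset.mem_singleton,
    Finset.mem_insert, forall_eq, forall_eq_or_imp]
  tauto

/-- J1 -/
theorem sum_all (X : Finset F) (h0 : (0 : F) ∉ X) (u : F → ℤ) :
    ∑ f ∈ NZF, ps X u f = 7 * ∑ v ∈ X, u v := by
  rw [double, Finset.mul_sum]
  refine Finset.sum_congr rfl fun v hv => ?_
  rw [filt_one, kil_one v (fun h => h0 (h ▸ hv))]
  rfl

/-- J2 -/
theorem sum_pt (X : Finset F) (h0 : (0 : F) ∉ X) (u : F → ℤ) (x : F) (hx : x ≠ 0) :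
    ∑ f ∈ kil {x}, ps X u f = 3 * ∑ v ∈ X, u v + 4 * (if x ∈ X then u x else 0) := by
  classical
  rw [double, Finset.mul_sum]
  have h1 : ∀ v ∈ X, (((kil {x}).filter fun f => dot f v = 0).card : ℤ) * u v =
      3 * u v + (if v = x then 4 * u v else 0) := by
    intro v hv
    rw [filt_two]
    by_cases hvx : v = x
    · subst hvx
      rw [if_pos rfl]
      have h2 : ({v, v} : Finset F) = {v} := by simp
      rw [h2, kil_one v hx]
      push_cast
      ring
    · rw [if_neg hvx, kil_two x v hx (fun h => h0 (h ▸ hv)) (fun h => hvx h.symm)]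
      push_cast
      ring
  rw [Finset.sum_congr rfl h1, Finset.sum_add_distrib, Finset.sum_ite_eq']
  by_cases hxX : x ∈ X
  · rw [if_pos hxX, if_pos hxX]
  · rw [if_neg hxX, if_neg hxX]
    ring

theorem ps_one (X : Finset F) (f : F) : ps X (fun _ => 1) f = (hh X f : ℤ) := by
  unfold ps hh
  rw [Finset.sum_const, nsmul_eq_mul, mul_one]

theorem hh_sum (X : Finset F) (h0 : (0 : F) ∉ X) : ∑ f ∈ NZF, hh X f = 7 * X.card := by
  have h := sum_all X h0 (fun _ => 1)
  simp only [ps_one, Finset.sum_const, nsmul_eq_mul, mul_one] at h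
  exact_mod_cast h

theorem hh_pt (X : Finset F) (h0 : (0 : F) ∉ X) (x : F) (hx : x ≠ 0) :
    ∑ f ∈ kil {x}, hh X f = 3 * X.card + (if x ∈ X then 4 else 0) := by
  have h := sum_pt X h0 (fun _ => 1) x hx
  simp only [ps_one, Finset.sum_const, nsmul_eq_mul, mul_one] at h
  by_cases hxX : x ∈ X
  · rw [if_pos hxX] at h ⊢
    have h' : (∑ f ∈ kil {x}, (hh X f : ℤ)) = 3 * (X.card : ℤ) + 4 := by rw [h]; ring
    exact_mod_cast h'
  · rw [if_neg hxX] at h ⊢
    have h' : (∑ f ∈ kil {x}, (hh X f : ℤ)) = 3 * (X.card : ℤ) := by rw [h]; ring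
    rw [add_zero]
    exact_mod_cast h'

theorem hh_sq (X : Finset F) (h0 : (0 : F) ∉ X) :
    ∑ f ∈ NZF, hh X f * hh X f = X.card * (3 * X.card + 4) := by
  classical
  have h1 : ∀ f ∈ NZF, hh X f * hh X f = ∑ x ∈ X, if dot f x = 0 then hh X f else 0 := by
    intro f _
    rw [← Finset.sum_filter, Finset.sum_const, smul_eq_mul]
    rfl
  rw [Finset.sum_congr rfl h1, Finset.sum_comm]
  have h2 : ∀ x ∈ X, (∑ f ∈ NZF, if dot f x = 0 then hh X f else 0) = 3 * X.card + 4 := by
    intro x hx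
    rw [← Finset.sum_filter, filt_one, hh_pt X h0 x (fun h => h0 (h ▸ hx)), if_pos hx]
  rw [Finset.sum_congr rfl h2, Finset.sum_const, smul_eq_mul]

theorem plane8 (X : Finset F) (h0 : (0 : F) ∉ X) (hX : X.card = 8) :
    ∃ f ∈ NZF, 5 ≤ hh X f ∨ hh X f = 0 := by
  by_contra hcon
  push Not at hcon
  have h1 := hh_sum X h0
  have h2 := hh_sq X h0
  rw [hX] at h1 h2
  have h3 : ∑ f ∈ NZF, (hh X f * hh X f + 4) ≤ ∑ f ∈ NZF, 5 * hh X f := by
    refine Finset.sum_le_sum fun f hf => ?_
    obtain ⟨h4, h5⟩ := hcon f hf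
    obtain ⟨k, hk⟩ : ∃ k, k = hh X f := ⟨_, rfl⟩
    rw [← hk] at h4 h5 ⊢
    have : k = 1 ∨ k = 2 ∨ k = 3 ∨ k = 4 := by omega
    rcases this with rfl | rfl | rfl | rfl <;> norm_num
  rw [Finset.sum_add_distrib, ← Finset.mul_sum, Finset.sum_const, card_NZF, h1, h2] at h3
  norm_num at h3

theorem dot_sum (f : F) (X : Finset F) : dot f (∑ x ∈ X, x) = ∑ x ∈ X, dot f x := by
  classical
  induction X using Finset.induction_on with
  | empty => simp [dot_zr]
  | insert a s ha ih => rw [Finset.sum_insert ha, Finset.sum_insert ha, dot_add, ih]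

theorem par (f : F) (X : Finset F) :
    dot f (∑ x ∈ X, x) = (X.card : ZMod 2) + (hh X f : ZMod 2) := by
  have h1 : ∀ x ∈ X, dot f x = 1 + (if dot f x = 0 then 1 else 0) := by
    intro x _
    rcases zm2 (dot f x) with h | h
    · rw [h, if_pos rfl]
      rfl
    · rw [h, if_neg one_ne_zero, add_zero]
  rw [dot_sum, Finset.sum_congr rfl h1, Finset.sum_add_distrib, Finset.sum_const, nsmul_eq_mul,
    mul_one, Finset.sum_boole]
  rfl

theorem odd_of (X : Finset F) (hX : X.card = 7) (f : F) (h : dot f (∑ x ∈ X, x) = 0) :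
    hh X f % 2 = 1 := by
  rw [par, hX] at h
  have h1 : ((7 + hh X f : ℕ) : ZMod 2) = 0 := by
    push_cast
    exact h
  rw [ZMod.natCast_eq_zero_iff] at h1
  omega

theorem even_of (X : Finset F) (hX : X.card = 7) (f : F) (h : hh X f % 2 = 0) :
    dot f (∑ x ∈ X, x) ≠ 0 := by
  intro h1
  have := odd_of X hX f h1
  omega

theorem plane7 (X : Finset F) (h0 : (0 : F) ∉ X) (hX : X.card = 7) :
    ∃ f ∈ NZF, 5 ≤ hh X f ∨ hh X f = 0 := by
  classical
  by_contra hcon
  push Not at hcon
  have h1 := hh_sum X h0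
  rw [hX] at h1
  have hodd := odd_of X hX
  have heven := even_of X hX
  obtain ⟨s, hs⟩ : ∃ s, s = ∑ x ∈ X, x := ⟨_, rfl⟩
  rw [← hs] at hodd heven
  by_cases hs0 : s = 0
  · have h2 : ∑ f ∈ NZF, hh X f ≤ ∑ f ∈ NZF, 3 := by
      refine Finset.sum_le_sum fun f hf => ?_
      have h3 := hodd f (by rw [hs0]; exact dot_zr f)
      have h4 := (hcon f hf).1
      omega
    rw [Finset.sum_const, card_NZF, h1] at h2
    norm_num at h2
  by_cases hsX : s ∈ X
  · have h2 := hh_pt X h0 s hs0
    rw [if_pos hsX, hX] at h2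
    have h3 : ∑ f ∈ kil {s}, hh X f ≤ ∑ f ∈ kil {s}, 3 := by
      refine Finset.sum_le_sum fun f hf => ?_
      rw [mem_kil] at hf
      have h3 := hodd f (hf.2 s (Finset.mem_singleton_self s))
      have h4 := (hcon f ((mem_NZF f).2 hf.1)).1
      omega
    rw [Finset.sum_const, kil_one s hs0, h2] at h3
    norm_num at h3
  · have h8 : (insert s X).card = 8 := by
      rw [Finset.card_insert_of_notMem hsX, hX]
    have h08 : (0 : F) ∉ insert s X := by
      rw [Finset.mem_insert]
      rintro (h | h)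
      · exact hs0 h.symm
      · exact h0 h
    obtain ⟨f, hf, hf'⟩ := plane8 (insert s X) h08 h8
    have h9 : hh (insert s X) f = hh X f + (if dot f s = 0 then 1 else 0) := by
      unfold hh
      rw [Finset.filter_insert]
      by_cases h : dot f s = 0
      · rw [if_pos h, if_pos h, Finset.card_insert_of_notMem]
        intro h'
        exact hsX (Finset.mem_filter.1 h').1
      · rw [if_neg h, if_neg h, add_zero]
    obtain ⟨h4, h5⟩ := hcon f hf
    rw [h9] at hf'
    by_cases h : dot f s = 0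
    · rw [if_pos h] at hf'
      have h10 := hodd f h
      omega
    · rw [if_neg h] at hf'
      omega

/-! ### clean lines -/

theorem clean (X : Finset F) (u : F → ℤ) (a b : F) (ha : a ∉ X) (hb : b ∉ X) (hab : a + b ∉ X) :
    ∑ v ∈ X.filter (fun v => v ∈ lin a b), u v = 0 := by
  have h : X.filter (fun v => v ∈ lin a b) = ∅ := by
    rw [Finset.eq_empty_iff_forall_notMem]
    intro v hv
    rw [Finset.mem_filter, mem_lin] at hv
    rcases hv with ⟨h1, rfl | rfl | rfl⟩
    · exact ha h1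
    · exact hb h1
    · exact hab h1
  rw [h, Finset.sum_empty]

theorem add_ne (a b : F) (h : a ≠ b) : a + b ≠ 0 := by
  intro h1
  apply h
  have := eq_of_add 0 a b h1.symm
  rw [zero_add] at this
  exact this

theorem clean42 (X : Finset F) (u : F → ℤ) (f : F) (hf : f ∈ NZF) (h : hh X f = 0) :
    42 ≤ nln X u := by
  classical
  have hno : ∀ v ∈ X, dot f v ≠ 0 := by
    intro v hv h1
    unfold hh at h
    rw [Finset.card_eq_zero] at h
    have h2 : v ∈ X.filter (fun v => dot f v = 0) := Finset.mem_filter.2 ⟨hv, h1⟩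
    rw [h] at h2
    exact absurd h2 (Finset.notMem_empty v)
  have h1 : (kil {f}).offDiag.card = 42 := by
    rw [Finset.offDiag_card, kil_one f ((mem_NZF f).1 hf)]
  rw [← h1]
  unfold nln
  refine Finset.card_le_card ?_
  rintro ⟨v, w⟩ hvw
  rw [Finset.mem_offDiag, mem_kil, mem_kil] at hvw
  obtain ⟨⟨hv0, hv⟩, ⟨hw0, hw⟩, hne⟩ := hvw
  have hv' : dot f v = 0 := by
    rw [dot_comm]
    exact hv f (Finset.mem_singleton_self f)
  have hw' : dot f w = 0 := by
    rw [dot_comm]
    exact hw f (Finset.mem_singleton_self f)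
  rw [Finset.mem_filter, Finset.mem_offDiag, mem_NZF, mem_NZF]
  refine ⟨⟨hv0, hw0, hne⟩, clean X u v w (fun h => hno v h hv') (fun h => hno w h hw')
    (fun h => hno _ h ?_)⟩
  rw [dot_add, hv', hw', add_zero]

theorem clean12 (X : Finset F) (h0 : (0 : F) ∉ X) (u : F → ℤ) (f : F) (hf : f ∈ NZF)
    (hX : X.card = 8) (h : hh X f = 5 ∨ hh X f = 6) : 12 ≤ nln X u := by
  classical
  have hf0 := (mem_NZF f).1 hf
  obtain ⟨K, hK⟩ : ∃ K : Finset F, K = NZF.filter fun v => dot f v = 0 := ⟨_, rfl⟩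
  obtain ⟨A, hA⟩ : ∃ A : Finset F, A = NZF.filter fun v => ¬ dot f v = 0 := ⟨_, rfl⟩
  obtain ⟨XA, hXA⟩ : ∃ XA : Finset F, XA = X.filter fun v => ¬ dot f v = 0 := ⟨_, rfl⟩
  have hKc : K.card = 7 := by
    have e : K = kil {f} := by
      rw [hK]
      ext v
      rw [Finset.mem_filter, mem_NZF, mem_kil]
      simp only [Finset.mem_singleton, forall_eq]
      rw [dot_comm]
    rw [e, kil_one f hf0]
  have hAc : A.card = 8 := by
    have e := Finset.card_filter_add_card_filter_not (s := NZF) (fun v => dot f v = 0)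
    rw [← hK, ← hA, hKc, card_NZF] at e
    omega
  have hXAc : XA.card = 8 - hh X f := by
    have e := Finset.card_filter_add_card_filter_not (s := X) (fun v => dot f v = 0)
    rw [← hXA, hX] at e
    unfold hh
    omega
  have hKX : (K \ X).card = 7 - hh X f := by
    have e : K ∩ X = X.filter fun v => dot f v = 0 := by
      rw [hK]
      ext v
      rw [Finset.mem_inter, Finset.mem_filter, Finset.mem_filter, mem_NZF]
      constructor
      · rintro ⟨⟨h1, h2⟩, h3⟩
        exact ⟨h3, h2⟩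
      · rintro ⟨h1, h2⟩
        exact ⟨⟨fun h => h0 (h ▸ h1), h2⟩, h1⟩
    have e2 := Finset.card_sdiff_add_card_inter K X
    rw [e, hKc] at e2
    unfold hh
    omega
  obtain ⟨T, hT⟩ : ∃ T : Finset (F × F), T = ((K \ X) ×ˢ A).filter fun q =>
    q.2 ∉ X ∧ q.1 + q.2 ∉ X := ⟨_, rfl⟩
  -- four pairs
  have hTc : 4 ≤ T.card := by
    have hsub : (K \ X) ×ˢ A ⊆ T ∪ (((K \ X) ×ˢ XA) ∪
        ((K \ X) ×ˢ XA).image fun q => (q.1, q.1 + q.2)) := by
      rintro ⟨p, y⟩ hq
      rw [Finset.mem_product] at hq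
      rw [Finset.mem_union, Finset.mem_union]
      have hpK : dot f p = 0 := by
        have := (Finset.mem_sdiff.1 hq.1).1
        rw [hK, Finset.mem_filter] at this
        exact this.2
      have hyA : ¬ dot f y = 0 := by
        have := hq.2
        rw [hA, Finset.mem_filter] at this
        exact this.2
      by_cases h1 : y ∈ X
      · right
        left
        rw [Finset.mem_product]
        refine ⟨hq.1, ?_⟩
        rw [hXA, Finset.mem_filter]
        exact ⟨h1, hyA⟩
      · by_cases h2 : p + y ∈ X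
        · right
          right
          rw [Finset.mem_image]
          refine ⟨(p, p + y), ?_, ?_⟩
          · rw [Finset.mem_product]
            refine ⟨hq.1, ?_⟩
            rw [hXA, Finset.mem_filter]
            refine ⟨h2, ?_⟩
            show ¬ dot f (p + y) = 0
            rw [dot_add, hpK, zero_add]
            exact hyA
          · show (p, p + (p + y)) = (p, y)
            rw [← add_assoc, fself, zero_add]
        · left
          rw [hT, Finset.mem_filter, Finset.mem_product]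
          exact ⟨hq, h1, h2⟩
    have e1 := Finset.card_le_card hsub
    have e2 := e1.trans ((Finset.card_union_le _ _).trans
      (Nat.add_le_add_left ((Finset.card_union_le _ _).trans
        (Nat.add_le_add_left Finset.card_image_le _)) _))
    rw [Finset.card_product, Finset.card_product, hKX, hAc, hXAc] at e2
    rcases h with h | h
    · rw [h] at e2
      omega
    · rw [h] at e2
      omega
  have hTm : ∀ q ∈ T, q.1 ≠ 0 ∧ dot f q.1 = 0 ∧ q.1 ∉ X ∧ q.2 ≠ 0 ∧ dot f q.2 ≠ 0 ∧
      q.2 ∉ X ∧ q.1 + q.2 ∉ X := by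
    intro q hq
    rw [hT, Finset.mem_filter, Finset.mem_product, Finset.mem_sdiff, hK, hA, Finset.mem_filter,
      Finset.mem_filter, mem_NZF, mem_NZF] at hq
    obtain ⟨⟨⟨⟨a1, a2⟩, a3⟩, a4, a5⟩, a6, a7⟩ := hq
    exact ⟨a1, a2, a3, a4, a5, a6, a7⟩
  have hne : ∀ q ∈ T, q.1 ≠ q.2 := by
    intro q hq h1
    obtain ⟨-, a2, -, -, a5, -, -⟩ := hTm q hq
    rw [h1] at a2
    exact a5 a2
  have hsub : T ∪ ((T.image fun q => (q.2, q.1)) ∪ (T.image fun q => (q.2, q.1 + q.2))) ⊆
      NZF.offDiag.filter fun q => ∑ v ∈ X.filter (fun v => v ∈ lin q.1 q.2), u v = 0 := by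
    intro q hq
    rw [Finset.mem_union, Finset.mem_union, Finset.mem_image, Finset.mem_image] at hq
    rw [Finset.mem_filter, Finset.mem_offDiag, mem_NZF, mem_NZF]
    rcases hq with hq | ⟨q', hq, rfl⟩ | ⟨q', hq, rfl⟩
    · obtain ⟨a1, a2, a3, a4, a5, a6, a7⟩ := hTm q hq
      exact ⟨⟨a1, a4, hne q hq⟩, clean X u _ _ a3 a6 a7⟩
    · obtain ⟨a1, a2, a3, a4, a5, a6, a7⟩ := hTm q' hq
      refine ⟨⟨a4, a1, (hne q' hq).symm⟩, clean X u _ _ a6 a3 ?_⟩
      show q'.2 + q'.1 ∉ X
      rw [add_comm]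
      exact a7
    · obtain ⟨a1, a2, a3, a4, a5, a6, a7⟩ := hTm q' hq
      refine ⟨⟨a4, add_ne _ _ (hne q' hq), ?_⟩, clean X u _ _ a6 a7 ?_⟩
      · show q'.2 ≠ q'.1 + q'.2
        intro h1
        apply a1
        simpa using h1.symm
      · show q'.2 + (q'.1 + q'.2) ∉ X
        rw [add_comm q'.1, ← add_assoc, fself, zero_add]
        exact a3
  have hcard : (T ∪ ((T.image fun q => (q.2, q.1)) ∪ (T.image fun q => (q.2, q.1 + q.2)))).card =
      3 * T.card := by
    rw [Finset.card_union_of_disjoint, Finset.card_union_of_disjoint,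
      Finset.card_image_of_injective, Finset.card_image_of_injective]
    · ring
    · rintro ⟨a, b⟩ ⟨c, d⟩ hcd
      rw [Prod.mk.injEq] at hcd
      simp only at hcd
      obtain ⟨rfl, h2⟩ := hcd
      rw [add_right_cancel h2]
    · rintro ⟨a, b⟩ ⟨c, d⟩ hcd
      rw [Prod.mk.injEq] at hcd
      simp only at hcd
      obtain ⟨rfl, rfl⟩ := hcd
      rfl
    · rw [Finset.disjoint_left]
      rintro q h1 h2
      obtain ⟨q1, hq1, rfl⟩ := Finset.mem_image.1 h1
      obtain ⟨q2, hq2, h3⟩ := Finset.mem_image.1 h2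
      rw [Prod.mk.injEq] at h3
      have b1 := hTm q1 hq1
      have b2 := hTm q2 hq2
      apply b2.2.2.2.2.1
      have h4 := b1.2.1
      rw [← h3.2, dot_add, b2.2.1, zero_add] at h4
      exact h4
    · rw [Finset.disjoint_left]
      rintro q h1 h2
      have b1 := hTm q h1
      rcases Finset.mem_union.1 h2 with h2 | h2
      · obtain ⟨q2, hq2, rfl⟩ := Finset.mem_image.1 h2
        exact (hTm q2 hq2).2.2.2.2.1 b1.2.1
      · obtain ⟨q2, hq2, rfl⟩ := Finset.mem_image.1 h2
        exact (hTm q2 hq2).2.2.2.2.1 b1.2.1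
  have hfin := Finset.card_le_card hsub
  rw [hcard] at hfin
  unfold nln
  omega

end R4

end Pool.Agent.SPT
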