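import Mathlib
import Pool.Agent.SPT.NZ
import Pool.Agent.SPT.Ne

/-!
# SPT, module SUM: nonvanishing for direct sums
-/

set_option autoImplicit false

open Submodule

namespace Pool.Agent.SPT

/-! ### Laurent polynomials in `z` -/

/-- `g` is a Laurent polynomial in `z ≠ 0` -/
def SumNV_LP (g : ℂ → ℂ) : Prop :=
  ∃ (M : ℕ) (P : Polynomial ℂ), ∀ z : ℂ, z ≠ 0 → P.eval z = z ^ M * g z

theorem SumNV_const (c : ℂ) : SumNV_LP fun _ => c :=
  ⟨0, Polynomial.C c, fun z _ => by simp⟩

theorem SumNV_zpow (k : ℤ) : SumNV_LP fun z => z ^ k := by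
  refine ⟨(-k).toNat, Polynomial.X ^ k.toNat, fun z hz => ?_⟩
  rw [Polynomial.eval_pow, Polynomial.eval_X, ← zpow_natCast, ← zpow_natCast, ← zpow_add₀ hz]
  congr 1
  omega

theorem SumNV_add {g h : ℂ → ℂ} (hg : SumNV_LP g) (hh : SumNV_LP h) :
    SumNV_LP fun z => g z + h z := by
  obtain ⟨M, P, hP⟩ := hg
  obtain ⟨N, R, hR⟩ := hh
  refine ⟨M + N, Polynomial.X ^ N * P + Polynomial.X ^ M * R, fun z hz => ?_⟩
  rw [Polynomial.eval_add, Polynomial.eval_mul, Polynomial.eval_mul, hP z hz, hR z hz,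
    Polynomial.eval_pow, Polynomial.eval_pow, Polynomial.eval_X]
  ring

theorem SumNV_mul {g h : ℂ → ℂ} (hg : SumNV_LP g) (hh : SumNV_LP h) :
    SumNV_LP fun z => g z * h z := by
  obtain ⟨M, P, hP⟩ := hg
  obtain ⟨N, R, hR⟩ := hh
  refine ⟨M + N, P * R, fun z hz => ?_⟩
  rw [Polynomial.eval_mul, hP z hz, hR z hz]
  ring

theorem SumNV_sum {ι : Type} (s : Finset ι) (g : ι → ℂ → ℂ) (h : ∀ i ∈ s, SumNV_LP (g i)) :
    SumNV_LP fun z => ∑ i ∈ s, g i z := by
  classical
  induction s using Finset.induction_on with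
  | empty => simpa using SumNV_const 0
  | insert a s ha ih =>
    have h1 := SumNV_add (h a (Finset.mem_insert_self a s))
      (ih fun i hi => h i (Finset.mem_insert_of_mem hi))
    simpa only [Finset.sum_insert ha] using h1

theorem SumNV_prod {ι : Type} (s : Finset ι) (g : ι → ℂ → ℂ) (h : ∀ i ∈ s, SumNV_LP (g i)) :
    SumNV_LP fun z => ∏ i ∈ s, g i z := by
  classical
  induction s using Finset.induction_on with
  | empty => simpa using SumNV_const 1
  | insert a s ha ih =>
    have h1 := SumNV_mul (h a (Finset.mem_insert_self a s))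
      (ih fun i hi => h i (Finset.mem_insert_of_mem hi))
    simpa only [Finset.prod_insert ha] using h1

theorem SumNV_PP {V : Type} [AddCommGroup V] [Module (ZMod 2) V] (X : Finset V) (u : V → ℤ) :
    SumNV_LP fun z => PP X ⊥ (fun v => z ^ u v) := by
  classical
  unfold PP
  refine SumNV_sum _ _ fun W _ => ?_
  by_cases h : Spans ⊥ X W
  · simp only [if_pos h]
    refine SumNV_prod _ _ fun v _ => ?_
    simpa only [sub_eq_add_neg] using SumNV_add (SumNV_zpow (u v)) (SumNV_const (-1))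
  · simp only [if_neg h]
    exact SumNV_const 0

theorem SumNV_circle : (Metric.sphere (0 : ℂ) 1).Infinite := by
  refine IsPreconnected.infinite_of_nontrivial (isPreconnected_sphere ?_ 0 1) ?_
  · rw [Complex.rank_real_complex]
    exact Nat.one_lt_ofNat
  · refine ⟨1, by simp, -1, by simp, ?_⟩
    intro h
    have := congrArg Complex.re h
    norm_num at this

/-- two Laurent polynomials which are not zero on the circle have a common nonzero point there -/
theorem SumNV_common {g h : ℂ → ℂ} (hg : SumNV_LP g) (hh : SumNV_LP h)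
    (g1 : ∃ z : ℂ, ‖z‖ = 1 ∧ g z ≠ 0) (h1 : ∃ z : ℂ, ‖z‖ = 1 ∧ h z ≠ 0) :
    ∃ z : ℂ, ‖z‖ = 1 ∧ g z * h z ≠ 0 := by
  have nz : ∀ z : ℂ, ‖z‖ = 1 → z ≠ 0 := by
    intro z hz h0
    rw [h0, norm_zero] at hz
    exact zero_ne_one hz
  obtain ⟨M, P, hP⟩ := hg
  obtain ⟨N, R, hR⟩ := hh
  have hP0 : P ≠ 0 := by
    rintro rfl
    obtain ⟨z, hz, hgz⟩ := g1
    have h2 := hP z (nz z hz)
    rw [Polynomial.eval_zero] at h2
    exact mul_ne_zero (pow_ne_zero _ (nz z hz)) hgz h2.symm
  have hR0 : R ≠ 0 := by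
    rintro rfl
    obtain ⟨z, hz, hgz⟩ := h1
    have h2 := hR z (nz z hz)
    rw [Polynomial.eval_zero] at h2
    exact mul_ne_zero (pow_ne_zero _ (nz z hz)) hgz h2.symm
  by_contra hcon
  push Not at hcon
  refine mul_ne_zero hP0 hR0 (Polynomial.eq_zero_of_infinite_isRoot _
    (SumNV_circle.mono fun z hz => ?_))
  have hz1 : ‖z‖ = 1 := by simpa using hz
  show (P * R).eval z = 0
  rw [Polynomial.eval_mul, hP z (nz z hz1), hR z (nz z hz1)]
  have h3 := hcon z hz1
  calc z ^ M * g z * (z ^ N * h z) = z ^ M * z ^ N * (g z * h z) := by ring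
    _ = 0 := by rw [h3, mul_zero]

/-! ### the product -/

section

variable {V : Type} [AddCommGroup V] [Module (ZMod 2) V] [DecidableEq V]

theorem SumNV_half (X A B : Finset V) (S : Submodule (ZMod 2) V) (hA : A ⊆ X)
    (hB : span (ZMod 2) (B : Set V) ≤ S) (hd : Disjoint (span (ZMod 2) (X : Set V)) S)
    (h : ∀ s ∈ X, s ∈ span (ZMod 2) (A : Set V) ⊔ span (ZMod 2) (B : Set V)) :
    span (ZMod 2) (A : Set V) = span (ZMod 2) (X : Set V) := by
  refine le_antisymm (span_mono (Finset.coe_subset.2 hA)) (span_le.2 fun s hs => ?_)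
  obtain ⟨a, ha, b, hb, hab⟩ := mem_sup.1 (h s (Finset.mem_coe.1 hs))
  have h1 : b ∈ span (ZMod 2) (X : Set V) := by
    have h2 : b = s - a := by rw [← hab]; abel
    rw [h2]
    exact sub_mem (subset_span hs) (span_mono (Finset.coe_subset.2 hA) ha)
  have h3 : b = 0 := (disjoint_def.1 hd) b h1 (hB hb)
  rw [h3, add_zero] at hab
  rw [← hab]
  exact ha

theorem SumNV_spans (X Y A B : Finset V) (hA : A ⊆ X) (hB : B ⊆ Y)
    (hd : Disjoint (span (ZMod 2) (X : Set V)) (span (ZMod 2) (Y : Set V))) :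
    Spans ⊥ (X ∪ Y) (A ∪ B) ↔ Spans ⊥ X A ∧ Spans ⊥ Y B := by
  unfold Spans
  simp only [bot_sup_eq, Finset.coe_union, span_union]
  constructor
  · intro h
    refine ⟨?_, ?_⟩
    · refine SumNV_half X A B (span (ZMod 2) (Y : Set V)) hA (span_mono (Finset.coe_subset.2 hB)) hd ?_
      rw [h]
      exact fun s hs => mem_sup_left (subset_span (Finset.mem_coe.2 hs))
    · refine SumNV_half Y B A (span (ZMod 2) (X : Set V)) hB (span_mono (Finset.coe_subset.2 hA))
        hd.symm ?_
      rw [sup_comm, h]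
      exact fun s hs => mem_sup_right (subset_span (Finset.mem_coe.2 hs))
  · rintro ⟨h1, h2⟩
    rw [h1, h2]

theorem SumNV_PP_union (X Y : Finset V) (hXY : Disjoint X Y)
    (hd : Disjoint (span (ZMod 2) (X : Set V)) (span (ZMod 2) (Y : Set V))) (x : V → ℂ) :
    PP (X ∪ Y) ⊥ x = PP X ⊥ x * PP Y ⊥ x := by
  classical
  unfold PP
  rw [Finset.sum_mul_sum, ← Finset.sum_product']
  symm
  refine Finset.sum_bij' (fun (p : Finset V × Finset V) _ => p.1 ∪ p.2)
    (fun W _ => (W ∩ X, W ∩ Y)) ?_ ?_ ?_ ?_ ?_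
  · rintro ⟨A, B⟩ h
    rw [Finset.mem_product, Finset.mem_powerset, Finset.mem_powerset] at h
    rw [Finset.mem_powerset]
    exact Finset.union_subset_union h.1 h.2
  · intro W _
    rw [Finset.mem_product, Finset.mem_powerset, Finset.mem_powerset]
    exact ⟨Finset.inter_subset_right, Finset.inter_subset_right⟩
  · rintro ⟨A, B⟩ h
    rw [Finset.mem_product, Finset.mem_powerset, Finset.mem_powerset] at h
    obtain ⟨hA, hB⟩ := h
    simp only at hA hB
    have hdj : ∀ s, s ∈ X → s ∈ Y → False := fun s h1 h2 => Finset.disjoint_left.1 hXY h1 h2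
    simp only [Prod.mk.injEq]
    constructor
    · ext s
      simp only [Finset.mem_inter, Finset.mem_union]
      constructor
      · rintro ⟨h1 | h1, h2⟩
        · exact h1
        · exact (hdj s h2 (hB h1)).elim
      · exact fun h1 => ⟨Or.inl h1, hA h1⟩
    · ext s
      simp only [Finset.mem_inter, Finset.mem_union]
      constructor
      · rintro ⟨h1 | h1, h2⟩
        · exact (hdj s (hA h1) h2).elim
        · exact h1
      · exact fun h1 => ⟨Or.inr h1, hB h1⟩
  · intro W hW
    rw [Finset.mem_powerset] at hW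
    simp only
    rw [← Finset.inter_union_distrib_left]
    exact Finset.inter_eq_left.2 hW
  · rintro ⟨A, B⟩ h
    rw [Finset.mem_product, Finset.mem_powerset, Finset.mem_powerset] at h
    obtain ⟨hA, hB⟩ := h
    simp only at hA hB ⊢
    have h1 := SumNV_spans X Y A B hA hB hd
    have hAB : Disjoint A B := Finset.disjoint_of_subset_left hA (Finset.disjoint_of_subset_right hB hXY)
    rw [Finset.prod_union hAB]
    by_cases h2 : Spans ⊥ X A
    · by_cases h3 : Spans ⊥ Y B
      · rw [if_pos h2, if_pos h3, if_pos (h1.2 ⟨h2, h3⟩)]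
      · rw [if_neg h3, if_neg fun h => h3 (h1.1 h).2, mul_zero]
    · rw [if_neg h2, if_neg fun h => h2 (h1.1 h).1, zero_mul]

theorem SumNV_disj (X Y : Finset V) (hXY : Disjoint X Y)
    (hd : Disjoint (span (ZMod 2) (X : Set V)) (span (ZMod 2) (Y : Set V))) (hX : NonV X)
    (hY : NonV Y) : NonV (X ∪ Y) := by
  intro u hu
  have hX1 := hX u fun v hv => hu v (Finset.mem_union_left _ hv)
  have hY1 := hY u fun v hv => hu v (Finset.mem_union_right _ hv)
  obtain ⟨z, hz, h⟩ := SumNV_common (SumNV_PP X u) (SumNV_PP Y u) hX1 hY1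
  refine ⟨z, hz, ?_⟩
  rw [SumNV_PP_union X Y hXY hd]
  exact h

theorem SumNV_erase (Y : Finset V) (hY : NonV Y) : NonV (Y.erase 0) := by
  by_cases h0 : (0 : V) ∈ Y
  · intro u hu
    obtain ⟨z, hz, h⟩ := hY u fun v hv hv0 => hu v (Finset.mem_erase.2 ⟨hv0, hv⟩) hv0
    refine ⟨z, hz, fun h1 => h ?_⟩
    rw [← Finset.insert_erase h0, PP_loop _ _ _ _ (Finset.notMem_erase 0 Y) (zero_mem _), h1,
      mul_zero]
  · rwa [Finset.erase_eq_of_notMem h0]

end

/-- **Module SUM** -/
theorem thm_Sum : St_Sum := by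
  intro V _ _ _ X Y hd hX hY
  have hmeet : ∀ s, s ∈ X → s ∈ Y → s = 0 := fun s h1 h2 =>
    (disjoint_def.1 hd) s (subset_span h1) (subset_span h2)
  by_cases h0 : (0 : V) ∈ X
  · have h1 : X ∪ Y = X ∪ Y.erase 0 := by
      ext s
      simp only [Finset.mem_union, Finset.mem_erase]
      constructor
      · rintro (h | h)
        · exact Or.inl h
        · by_cases hs : s = 0
          · rw [hs]
            exact Or.inl h0
          · exact Or.inr ⟨hs, h⟩
      · rintro (h | h)
        · exact Or.inl h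
        · exact Or.inr h.2
    rw [h1]
    refine SumNV_disj X (Y.erase 0) ?_ ?_ hX (SumNV_erase Y hY)
    · rw [Finset.disjoint_left]
      intro s h2 h3
      exact (Finset.mem_erase.1 h3).1 (hmeet s h2 (Finset.mem_erase.1 h3).2)
    · exact hd.mono_right (span_mono (Finset.coe_subset.2 (Finset.erase_subset 0 Y)))
  · refine SumNV_disj X Y ?_ hd hX hY
    rw [Finset.disjoint_left]
    intro s h2 h3
    rw [hmeet s h2 h3] at h2
    exact h0 h2

end Pool.Agent.SPT
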