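import Mathlib
import Pool.Agent.SPT.R4A
import Pool.Agent.SPT.R4C
import Pool.Agent.SPT.SumNV

/-!
# SPT, module R4: sets of rank at most four (helper57)

If the constant term of the polynomial is zero then `3 p = 3 e + 6 l + 24 (|X| - 7)`, where `p`, `l` are
the numbers of the zero planes and lines, `e` = 1 if the total weight is zero.
-/

set_option autoImplicit false
set_option linter.unusedSectionVars false

open Submodule

namespace Pool.Agent.SPT

namespace R4

theorem npl_le (X : Finset F) (u : F → ℤ) : npl X u ≤ 15 := by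
  unfold npl
  rw [← card_NZF]
  exact Finset.card_filter_le _ _

/-- the nonzero planes -/
def BB (X : Finset F) (u : F → ℤ) : Finset F := NZF.filter fun f => ¬ ps X u f = 0

theorem card_BB (X : Finset F) (u : F → ℤ) : npl X u + (BB X u).card = 15 := by
  have h := Finset.card_filter_add_card_filter_not (s := NZF) (fun f => ps X u f = 0)
  rw [card_NZF] at h
  exact h

theorem sum_BB (X : Finset F) (h0 : (0 : F) ∉ X) (u : F → ℤ) :
    ∑ f ∈ BB X u, ps X u f = 7 * ∑ v ∈ X, u v := by
  rw [← sum_all X h0 u, BB, Finset.sum_filter_ne_zero]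

theorem sum_BB_pt (X : Finset F) (h0 : (0 : F) ∉ X) (u : F → ℤ) (x : F) (hx : x ≠ 0) :
    ∑ f ∈ (BB X u).filter (fun f => dot f x = 0), ps X u f =
      3 * ∑ v ∈ X, u v + 4 * (if x ∈ X then u x else 0) := by
  rw [← sum_pt X h0 u x hx, ← filt_one]
  refine Finset.sum_subset ?_ ?_
  · intro f hf
    rw [BB, Finset.mem_filter, Finset.mem_filter] at hf
    exact Finset.mem_filter.2 ⟨hf.1.1, hf.2⟩
  · intro f hf hf'
    rw [Finset.mem_filter] at hf
    by_contra h
    apply hf'
    rw [BB, Finset.mem_filter, Finset.mem_filter]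
    exact ⟨⟨hf.1, h⟩, hf.2⟩

/-- some point is killed by three functionals -/
theorem exists_kil (B : Finset F) (hB : B.card ≤ 3) : ∃ a : F, a ≠ 0 ∧ ∀ f ∈ B, dot f a = 0 := by
  by_contra hcon
  have h1 : kil B = ∅ := by
    rw [Finset.eq_empty_iff_forall_notMem]
    intro a ha
    rw [mem_kil] at ha
    apply hcon
    refine ⟨a, ha.1, fun f hf => ?_⟩
    rw [dot_comm]
    exact ha.2 f hf
  have h2 := (top_iff B).2 h1
  have h3 := finrank_span_finset_le_card (R := ZMod 2) B
  rw [Set.finrank, h2, finrank_top] at h3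
  simp only [Module.finrank_fintype_fun_eq_card, Fintype.card_fin] at h3
  omega

/-- if three functionals determine the planes then the total weight is zero or .. -/
theorem even_case (X : Finset F) (h0 : (0 : F) ∉ X) (u : F → ℤ) (hu : ∀ v ∈ X, u v ≠ 0)
    (hX : X.card = 8) (hs : ∑ v ∈ X, u v ≠ 0) (hB : (BB X u).card ≤ 3) : False := by
  classical
  obtain ⟨a, ha0, ha⟩ := exists_kil (BB X u) hB
  have h1 := sum_BB X h0 u
  have h2 := sum_BB_pt X h0 u a ha0
  have h3 : (BB X u).filter (fun f => dot f a = 0) = BB X u :=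
    Finset.filter_true_of_mem ha
  rw [h3, h1] at h2
  have haX : a ∈ X := by
    by_contra h
    rw [if_neg h] at h2
    apply hs
    omega
  obtain ⟨C, hC⟩ : ∃ C : Finset F, C = NZF \ X := ⟨_, rfl⟩
  have hXN : X ⊆ NZF := fun v hv => (mem_NZF v).2 fun h => h0 (h ▸ hv)
  have hCc : C.card = 7 := by
    rw [hC, Finset.card_sdiff_of_subset hXN, card_NZF, hX]
  have hinv : ∀ v ∈ C, v + a ∈ C := by
    intro v hv
    rw [hC, Finset.mem_sdiff, mem_NZF] at hv
    have hva0 : v + a ≠ 0 := by
      apply add_ne
      rintro rfl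
      exact hv.2 haX
    have h4 := sum_BB_pt X h0 u v hv.1
    have h5 := sum_BB_pt X h0 u (v + a) hva0
    rw [if_neg hv.2] at h4
    have h6 : (BB X u).filter (fun f => dot f (v + a) = 0) =
        (BB X u).filter (fun f => dot f v = 0) := by
      refine Finset.filter_congr fun f hf => ?_
      rw [dot_add, ha f hf, add_zero]
    rw [h6, h4] at h5
    rw [hC, Finset.mem_sdiff, mem_NZF]
    refine ⟨hva0, fun h => hu _ h ?_⟩
    rw [if_pos h] at h5
    omega
  have hsum : ∑ v ∈ C, (1 : ZMod 2) = 0 := by
    refine Finset.sum_involution (fun v _ => v + a) ?_ ?_ ?_ ?_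
    · intro v _
      decide
    · intro v _ _ h
      apply ha0
      simpa using h
    · intro v hv
      exact hinv v hv
    · intro v _
      show v + a + a = v
      rw [add_assoc, fself, add_zero]
  rw [Finset.sum_const, hCc] at hsum
  exact absurd hsum (by decide)

/-- the total weight is zero, at most two nonzero planes: the affine cube -/
theorem zero_case (X : Finset F) (h0 : (0 : F) ∉ X) (u : F → ℤ) (hu : ∀ v ∈ X, u v ≠ 0)
    (hX : X.Nonempty) (hs : ∑ v ∈ X, u v = 0) (hB : (BB X u).card ≤ 2) :
    ∃ f ∈ NZF, hh X f = 0 := by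
  classical
  have h1 := sum_BB X h0 u
  rw [hs, mul_zero] at h1
  have h2 : ∀ x ∈ X, ∑ f ∈ (BB X u).filter (fun f => dot f x = 0), ps X u f = 4 * u x := by
    intro x hx
    rw [sum_BB_pt X h0 u x (fun h => h0 (h ▸ hx)), hs, if_pos hx]
    ring
  have hcase : (BB X u).card = 0 ∨ (BB X u).card = 1 ∨ (BB X u).card = 2 := by omega
  rcases hcase with h | h | h
  · exfalso
    obtain ⟨x, hx⟩ := hX
    have h3 := h2 x hx
    rw [Finset.card_eq_zero.1 h, Finset.filter_empty, Finset.sum_empty] at h3
    exact hu x hx (by omega)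
  · exfalso
    obtain ⟨f, hf⟩ := Finset.card_eq_one.1 h
    rw [hf, Finset.sum_singleton] at h1
    have h3 : f ∈ BB X u := by
      rw [hf]
      exact Finset.mem_singleton_self f
    rw [BB, Finset.mem_filter] at h3
    exact h3.2 h1
  · obtain ⟨f, g, hfg, hBe⟩ := Finset.card_eq_two.1 h
    rw [hBe, Finset.sum_pair hfg] at h1
    refine ⟨f + g, (mem_NZF _).2 (add_ne f g hfg), ?_⟩
    unfold hh
    rw [Finset.card_eq_zero, Finset.eq_empty_iff_forall_notMem]
    intro x hx
    rw [Finset.mem_filter, add_dot] at hx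
    obtain ⟨hxX, hx⟩ := hx
    have h3 := h2 x hxX
    rw [hBe, Finset.sum_filter, Finset.sum_pair hfg] at h3
    have h4 : dot f x = dot g x := by
      rcases zm2 (dot f x) with h5 | h5 <;> rcases zm2 (dot g x) with h6 | h6 <;>
        rw [h5, h6] at hx ⊢ <;> simp at hx
    rw [h4] at h3
    by_cases h5 : dot g x = 0
    · rw [if_pos h5, if_pos h5, h1] at h3
      exact hu x hxX (by omega)
    · rw [if_neg h5, if_neg h5] at h3
      exact hu x hxX (by omega)

/-! ### eight points -/

theorem finrank_F : Module.finrank (ZMod 2) F = 4 := by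
  simp

theorem rank_lt (Y : Finset F) (f : F) (hf : f ≠ 0) (h : ∀ v ∈ Y, dot f v = 0) :
    Module.finrank (ZMod 2) (span (ZMod 2) (Y : Set F)) ≤ 3 := by
  have h1 : span (ZMod 2) (Y : Set F) ≠ ⊤ := by
    intro h2
    apply hf
    apply dot_zero
    intro w
    apply span_ker Y f h
    rw [h2]
    exact mem_top
  have h2 := Submodule.finrank_lt h1
  rw [finrank_F] at h2
  omega

/-- the points outside a plane -/
def out (X : Finset F) (f : F) : Finset F := X.filter fun v => ¬ dot f v = 0

theorem hh_out (X : Finset F) (f : F) : hh X f + (out X f).card = X.card :=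
  Finset.card_filter_add_card_filter_not (s := X) (fun v => dot f v = 0)

theorem out_ne (X : Finset F) (hX : span (ZMod 2) (X : Set F) = ⊤) (f : F) (hf : f ≠ 0) :
    (out X f).Nonempty := by
  by_contra h
  rw [Finset.not_nonempty_iff_eq_empty] at h
  have h1 := rank_lt X f hf (by
    intro v hv
    by_contra h2
    have h3 : v ∈ out X f := Finset.mem_filter.2 ⟨hv, h2⟩
    rw [h] at h3
    exact absurd h3 (Finset.notMem_empty v))
  rw [hX, finrank_top, finrank_F] at h1
  omega

/-- a coloop -/
theorem nonV_coloop (X : Finset F) (f : F) (hf : f ≠ 0) (h : (out X f).card = 1) : NonV X := by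
  classical
  obtain ⟨v, hv⟩ := Finset.card_eq_one.1 h
  have hvm : v ∈ out X f := by
    rw [hv]
    exact Finset.mem_singleton_self v
  rw [out, Finset.mem_filter] at hvm
  obtain ⟨Y, hY⟩ : ∃ Y : Finset F, Y = X.filter fun w => dot f w = 0 := ⟨_, rfl⟩
  have hXY : X = Y ∪ {v} := by
    rw [← hv, hY, out, Finset.filter_union_filter_not_eq]
  have hYf : ∀ w ∈ Y, dot f w = 0 := by
    intro w hw
    rw [hY, Finset.mem_filter] at hw
    exact hw.2
  rw [hXY]
  refine thm_Sum F Y {v} ?_ (thm_Rank3 F Y (rank_lt Y f hf hYf)) (thm_Rank3 F {v} ?_)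
  · rw [disjoint_def]
    intro x hx1 hx2
    have h1 := span_ker Y f hYf x hx1
    rw [Finset.coe_singleton, mem_span_singleton] at hx2
    obtain ⟨c, rfl⟩ := hx2
    rcases zm2 c with rfl | rfl
    · rw [zero_smul]
    · rw [one_smul] at h1
      exact absurd h1 hvm.2
  · have h1 := finrank_span_finset_le_card (R := ZMod 2) ({v} : Finset F)
    rw [Set.finrank, Finset.card_singleton] at h1
    omega

theorem nonV_8 (X : Finset F) (h0 : (0 : F) ∉ X) (hX : span (ZMod 2) (X : Set F) = ⊤)
    (hc : X.card = 8) : NonV X := by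
  classical
  obtain ⟨f, hf, hff⟩ := plane8 X h0 hc
  have hf0 := (mem_NZF f).1 hf
  have ho := hh_out X f
  have hne := Finset.card_pos.2 (out_ne X hX f hf0)
  by_cases h7 : hh X f = 7
  · exact nonV_coloop X f hf0 (by omega)
  intro u hu'
  have hu : ∀ v ∈ X, u v ≠ 0 := fun v hv => hu' v hv fun h => h0 (h ▸ hv)
  by_contra hcon
  push Not at hcon
  have hk := key X h0 hX u hu hcon
  have hp := npl_le X u
  have hB := card_BB X u
  rw [hc] at hk
  have hq12 : 12 ≤ nln X u := by
    by_cases h : hh X f = 0
    · have := clean42 X u f hf h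
      omega
    · refine clean12 X h0 u f hf hc ?_
      omega
  by_cases hs : ∑ v ∈ X, u v = 0
  · rw [if_pos hs] at hk
    have hB2 : (BB X u).card ≤ 2 := by omega
    obtain ⟨g, hg, hg0⟩ := zero_case X h0 u hu (Finset.card_pos.1 (by omega)) hs hB2
    have := clean42 X u g hg hg0
    omega
  · rw [if_neg hs] at hk
    exact even_case X h0 u hu hc hs (by omega)

theorem nonV_9 (X : Finset F) (h0 : (0 : F) ∉ X) (hX : span (ZMod 2) (X : Set F) = ⊤)
    (hc : 9 ≤ X.card) : NonV X := by
  classical
  intro u hu'
  have hu : ∀ v ∈ X, u v ≠ 0 := fun v hv => hu' v hv fun h => h0 (h ▸ hv)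
  by_contra hcon
  push Not at hcon
  have hk := key X h0 hX u hu hcon
  have hp := npl_le X u
  by_cases hs : ∑ v ∈ X, u v = 0
  · rw [if_pos hs] at hk
    omega
  · rw [if_neg hs] at hk
    omega

/-! ### seven points -/

theorem nonV_fano (X : Finset F) (h0 : (0 : F) ∉ X) (hX : span (ZMod 2) (X : Set F) = ⊤)
    (hc : X.card = 7) (f : F) (hf : f ∈ NZF) (h : hh X f = 0) : NonV X := by
  classical
  intro u hu'
  have hu : ∀ v ∈ X, u v ≠ 0 := fun v hv => hu' v hv fun h => h0 (h ▸ hv)
  by_contra hcon
  push Not at hcon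
  have hk := key X h0 hX u hu hcon
  have hB := card_BB X u
  have hq := clean42 X u f hf h
  rw [hc] at hk
  have hXN : X ⊆ NZF := fun v hv => (mem_NZF v).2 fun h => h0 (h ▸ hv)
  have h1 := sum_BB X h0 u
  by_cases hs : ∑ v ∈ X, u v = 0
  · rw [if_pos hs] at hk
    have hB0 : (BB X u).card = 0 := by omega
    obtain ⟨x, hx⟩ : X.Nonempty := Finset.card_pos.1 (by omega)
    have h2 := sum_BB_pt X h0 u x (fun h => h0 (h ▸ hx))
    rw [Finset.card_eq_zero.1 hB0, Finset.filter_empty, Finset.sum_empty, hs, if_pos hx] at h2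
    exact hu x hx (by omega)
  · rw [if_neg hs] at hk
    have hB1 : (BB X u).card ≤ 1 := by omega
    have hCc : (NZF \ X).card = 8 := by
      rw [Finset.card_sdiff_of_subset hXN, card_NZF, hc]
    obtain ⟨c, hcm⟩ : (NZF \ X).Nonempty := Finset.card_pos.1 (by omega)
    rw [Finset.mem_sdiff, mem_NZF] at hcm
    have h2 := sum_BB_pt X h0 u c hcm.1
    rw [if_neg hcm.2] at h2
    have hcase : (BB X u).card = 0 ∨ (BB X u).card = 1 := by omega
    rcases hcase with h3 | h3
    · rw [Finset.card_eq_zero.1 h3, Finset.sum_empty] at h1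
      exact hs (by omega)
    · obtain ⟨g, hg⟩ := Finset.card_eq_one.1 h3
      rw [hg, Finset.sum_singleton] at h1
      rw [hg, Finset.sum_filter, Finset.sum_singleton] at h2
      by_cases h4 : dot g c = 0
      · rw [if_pos h4] at h2
        exact hs (by omega)
      · rw [if_neg h4] at h2
        exact hs (by omega)

/-! ### the series extension of the complete graph with four vertices -/

def XL : List F := [![1,1,0,0], ![0,0,1,0], ![0,1,1,0], ![1,0,1,0], ![1,1,1,0], ![0,0,0,1],
  ![0,1,0,1]]

def X0 : Finset F := XL.toFinset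

def NL : List F := [![0,0,0,1], ![1,0,0,0], ![1,0,0,1], ![0,0,1,0], ![0,0,1,1], ![1,0,1,0],
  ![1,0,1,1], ![0,1,0,0], ![0,1,0,1], ![1,1,0,0], ![1,1,0,1], ![0,1,1,0], ![0,1,1,1],
  ![1,1,1,0], ![1,1,1,1]]

theorem XL_nodup : XL.Nodup := by decide +kernel

theorem NL_nodup : NL.Nodup := by decide +kernel

theorem NZF_NL : NZF = NL.toFinset := by decide +kernel

theorem kil_X0 : kil X0 = ∅ := by decide +kernel

theorem zero_X0 : (0 : F) ∉ X0 := by decide +kernel

theorem card_X0 : X0.card = 7 := by decide +kernel

theorem clean_X0 : 30 ≤ (NZF.offDiag.filter fun q => q.1 ∉ X0 ∧ q.2 ∉ X0 ∧ q.1 + q.2 ∉ X0).card := by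
  decide +kernel

theorem ps_X0 (u : F → ℤ) (f : F) : ps X0 u f =
    (if dot f ![1,1,0,0] = 0 then u ![1,1,0,0] else 0) +
    ((if dot f ![0,0,1,0] = 0 then u ![0,0,1,0] else 0) +
    ((if dot f ![0,1,1,0] = 0 then u ![0,1,1,0] else 0) +
    ((if dot f ![1,0,1,0] = 0 then u ![1,0,1,0] else 0) +
    ((if dot f ![1,1,1,0] = 0 then u ![1,1,1,0] else 0) +
    ((if dot f ![0,0,0,1] = 0 then u ![0,0,0,1] else 0) +
    (if dot f ![0,1,0,1] = 0 then u ![0,1,0,1] else 0)))))) := by
  unfold ps X0
  rw [Finset.sum_filter, List.sum_toFinset _ XL_nodup]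
  simp only [XL, List.map_cons, List.map_nil, List.sum_cons, List.sum_nil, add_zero]

theorem npl_X0 (u : F → ℤ) : npl X0 u = (NL.map fun f => if ps X0 u f = 0 then 1 else 0).sum := by
  unfold npl
  rw [Finset.card_filter, NZF_NL, List.sum_toFinset _ NL_nodup]
  rfl

private theorem e0 (u : F → ℤ) : ps X0 u ![0,0,0,1] =
    u ![1,1,0,0] + (u ![0,0,1,0] + (u ![0,1,1,0] + (u ![1,0,1,0] + (u ![1,1,1,0] + (0 + (0)))))) := by
  rw [ps_X0, if_pos (by decide +kernel), if_pos (by decide +kernel), if_pos (by decide +kernel), if_pos (by decide +kernel), if_pos (by decide +kernel), if_neg (by decide +kernel), if_neg (by decide +kernel)]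

private theorem e1 (u : F → ℤ) : ps X0 u ![1,0,0,0] =
    0 + (u ![0,0,1,0] + (u ![0,1,1,0] + (0 + (0 + (u ![0,0,0,1] + (u ![0,1,0,1])))))) := by
  rw [ps_X0, if_neg (by decide +kernel), if_pos (by decide +kernel), if_pos (by decide +kernel), if_neg (by decide +kernel), if_neg (by decide +kernel), if_pos (by decide +kernel), if_pos (by decide +kernel)]

private theorem e2 (u : F → ℤ) : ps X0 u ![1,0,0,1] =
    0 + (u ![0,0,1,0] + (u ![0,1,1,0] + (0 + (0 + (0 + (0)))))) := by
  rw [ps_X0, if_neg (by decide +kernel), if_pos (by decide +kernel), if_pos (by decide +kernel), if_neg (by decide +kernel), if_neg (by decide +kernel), if_neg (by decide +kernel), if_neg (by decide +kernel)]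

private theorem e3 (u : F → ℤ) : ps X0 u ![0,0,1,0] =
    u ![1,1,0,0] + (0 + (0 + (0 + (0 + (u ![0,0,0,1] + (u ![0,1,0,1])))))) := by
  rw [ps_X0, if_pos (by decide +kernel), if_neg (by decide +kernel), if_neg (by decide +kernel), if_neg (by decide +kernel), if_neg (by decide +kernel), if_pos (by decide +kernel), if_pos (by decide +kernel)]

private theorem e4 (u : F → ℤ) : ps X0 u ![0,0,1,1] =
    u ![1,1,0,0] + (0 + (0 + (0 + (0 + (0 + (0)))))) := by
  rw [ps_X0, if_pos (by decide +kernel), if_neg (by decide +kernel), if_neg (by decide +kernel), if_neg (by decide +kernel), if_neg (by decide +kernel), if_neg (by decide +kernel), if_neg (by decide +kernel)]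

private theorem e5 (u : F → ℤ) : ps X0 u ![1,0,1,0] =
    0 + (0 + (0 + (u ![1,0,1,0] + (u ![1,1,1,0] + (u ![0,0,0,1] + (u ![0,1,0,1])))))) := by
  rw [ps_X0, if_neg (by decide +kernel), if_neg (by decide +kernel), if_neg (by decide +kernel), if_pos (by decide +kernel), if_pos (by decide +kernel), if_pos (by decide +kernel), if_pos (by decide +kernel)]

private theorem e6 (u : F → ℤ) : ps X0 u ![1,0,1,1] =
    0 + (0 + (0 + (u ![1,0,1,0] + (u ![1,1,1,0] + (0 + (0)))))) := by
  rw [ps_X0, if_neg (by decide +kernel), if_neg (by decide +kernel), if_neg (by decide +kernel), if_pos (by decide +kernel), if_pos (by decide +kernel), if_neg (by decide +kernel), if_neg (by decide +kernel)]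

private theorem e7 (u : F → ℤ) : ps X0 u ![0,1,0,0] =
    0 + (u ![0,0,1,0] + (0 + (u ![1,0,1,0] + (0 + (u ![0,0,0,1] + (0)))))) := by
  rw [ps_X0, if_neg (by decide +kernel), if_pos (by decide +kernel), if_neg (by decide +kernel), if_pos (by decide +kernel), if_neg (by decide +kernel), if_pos (by decide +kernel), if_neg (by decide +kernel)]

private theorem e8 (u : F → ℤ) : ps X0 u ![0,1,0,1] =
    0 + (u ![0,0,1,0] + (0 + (u ![1,0,1,0] + (0 + (0 + (u ![0,1,0,1])))))) := by
  rw [ps_X0, if_neg (by decide +kernel), if_pos (by decide +kernel), if_neg (by decide +kernel), if_pos (by decide +kernel), if_neg (by decide +kernel), if_neg (by decide +kernel), if_pos (by decide +kernel)]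

private theorem e9 (u : F → ℤ) : ps X0 u ![1,1,0,0] =
    u ![1,1,0,0] + (u ![0,0,1,0] + (0 + (0 + (u ![1,1,1,0] + (u ![0,0,0,1] + (0)))))) := by
  rw [ps_X0, if_pos (by decide +kernel), if_pos (by decide +kernel), if_neg (by decide +kernel), if_neg (by decide +kernel), if_pos (by decide +kernel), if_pos (by decide +kernel), if_neg (by decide +kernel)]

private theorem e10 (u : F → ℤ) : ps X0 u ![1,1,0,1] =
    u ![1,1,0,0] + (u ![0,0,1,0] + (0 + (0 + (u ![1,1,1,0] + (0 + (u ![0,1,0,1])))))) := by
  rw [ps_X0, if_pos (by decide +kernel), if_pos (by decide +kernel), if_neg (by decide +kernel), if_neg (by decide +kernel), if_pos (by decide +kernel), if_neg (by decide +kernel), if_pos (by decide +kernel)]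

private theorem e11 (u : F → ℤ) : ps X0 u ![0,1,1,0] =
    0 + (0 + (u ![0,1,1,0] + (0 + (u ![1,1,1,0] + (u ![0,0,0,1] + (0)))))) := by
  rw [ps_X0, if_neg (by decide +kernel), if_neg (by decide +kernel), if_pos (by decide +kernel), if_neg (by decide +kernel), if_pos (by decide +kernel), if_pos (by decide +kernel), if_neg (by decide +kernel)]

private theorem e12 (u : F → ℤ) : ps X0 u ![0,1,1,1] =
    0 + (0 + (u ![0,1,1,0] + (0 + (u ![1,1,1,0] + (0 + (u ![0,1,0,1])))))) := by
  rw [ps_X0, if_neg (by decide +kernel), if_neg (by decide +kernel), if_pos (by decide +kernel), if_neg (by decide +kernel), if_pos (by decide +kernel), if_neg (by decide +kernel), if_pos (by decide +kernel)]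

private theorem e13 (u : F → ℤ) : ps X0 u ![1,1,1,0] =
    u ![1,1,0,0] + (0 + (u ![0,1,1,0] + (u ![1,0,1,0] + (0 + (u ![0,0,0,1] + (0)))))) := by
  rw [ps_X0, if_pos (by decide +kernel), if_neg (by decide +kernel), if_pos (by decide +kernel), if_pos (by decide +kernel), if_neg (by decide +kernel), if_pos (by decide +kernel), if_neg (by decide +kernel)]

private theorem e14 (u : F → ℤ) : ps X0 u ![1,1,1,1] =
    u ![1,1,0,0] + (0 + (u ![0,1,1,0] + (u ![1,0,1,0] + (0 + (0 + (u ![0,1,0,1])))))) := by
  rw [ps_X0, if_pos (by decide +kernel), if_neg (by decide +kernel), if_pos (by decide +kernel), if_pos (by decide +kernel), if_neg (by decide +kernel), if_neg (by decide +kernel), if_pos (by decide +kernel)]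

/-- at most nine of the planes are zero -/
theorem nine (A a b c d α β : ℤ) (hA : A ≠ 0) (hα : α ≠ 0) (hβ : β ≠ 0) :
    (if A + (a + (b + (c + d))) = 0 then 1 else 0) +
    ((if a + (b + (α + β)) = 0 then 1 else 0) +
    ((if a + b = 0 then 1 else 0) +
    ((if A + (α + β) = 0 then 1 else 0) +
    ((if A = 0 then 1 else 0) +
    ((if c + (d + (α + β)) = 0 then 1 else 0) +
    ((if c + d = 0 then 1 else 0) +
    ((if a + (c + α) = 0 then 1 else 0) +
    ((if a + (c + β) = 0 then 1 else 0) +
    ((if A + (a + (d + α)) = 0 then 1 else 0) +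
    ((if A + (a + (d + β)) = 0 then 1 else 0) +
    ((if b + (d + α) = 0 then 1 else 0) +
    ((if b + (d + β) = 0 then 1 else 0) +
    ((if A + (b + (c + α)) = 0 then 1 else 0) +
    (if A + (b + (c + β)) = 0 then 1 else 0)))))))))))))) ≤ 9 := by
  have z : (if A = 0 then 1 else 0) = 0 := if_neg hA
  rw [z]
  have hb : ∀ x : ℤ, (if x = 0 then 1 else 0) ≤ 1 := by
    intro x
    split_ifs <;> omega
  by_cases h1 : α = β
  · subst h1
    have k1 : (if A + (a + (b + (c + d))) = 0 then 1 else 0) +
      ((if a + (b + (α + α)) = 0 then 1 else 0) + ((if a + b = 0 then 1 else 0) +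
      ((if A + (α + α) = 0 then 1 else 0) + ((if c + (d + (α + α)) = 0 then 1 else 0) +
      (if c + d = 0 then 1 else 0))))) ≤ 3 := by
      split_ifs <;> omega
    have k2 : (if a + (c + α) = 0 then 1 else 0) + ((if A + (a + (d + α)) = 0 then 1 else 0) +
      ((if b + (d + α) = 0 then 1 else 0) + (if A + (b + (c + α)) = 0 then 1 else 0))) ≤ 3 := by
      split_ifs <;> omega
    omega
  · have p1 : (if a + (c + α) = 0 then 1 else 0) + (if a + (c + β) = 0 then 1 else 0) ≤ 1 := by
      split_ifs <;> omega
    have p2 : (if A + (a + (d + α)) = 0 then 1 else 0) +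
        (if A + (a + (d + β)) = 0 then 1 else 0) ≤ 1 := by
      split_ifs <;> omega
    have p3 : (if b + (d + α) = 0 then 1 else 0) + (if b + (d + β) = 0 then 1 else 0) ≤ 1 := by
      split_ifs <;> omega
    have p4 : (if A + (b + (c + α)) = 0 then 1 else 0) +
        (if A + (b + (c + β)) = 0 then 1 else 0) ≤ 1 := by
      split_ifs <;> omega
    have p0 := hb (A + (a + (b + (c + d))))
    by_cases h2 : α + β = 0
    · have q1 : (if A + (α + β) = 0 then 1 else 0) = 0 := if_neg (by omega)
      have q2 := hb (a + (b + (α + β)))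
      have q3 := hb (a + b)
      have q4 := hb (c + (d + (α + β)))
      have q5 := hb (c + d)
      omega
    · have q1 := hb (A + (α + β))
      have q2 : (if a + (b + (α + β)) = 0 then 1 else 0) + (if a + b = 0 then 1 else 0) ≤ 1 := by
        split_ifs <;> omega
      have q3 : (if c + (d + (α + β)) = 0 then 1 else 0) + (if c + d = 0 then 1 else 0) ≤ 1 := by
        split_ifs <;> omega
      omega

theorem npl_X0_le (u : F → ℤ) (hu : ∀ v ∈ X0, u v ≠ 0) : npl X0 u ≤ 9 := by
  rw [npl_X0]
  simp only [NL, List.map_cons, List.map_nil, List.sum_cons, List.sum_nil]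
  rw [e0, e1, e2, e3, e4, e5, e6, e7, e8, e9, e10, e11, e12, e13, e14]
  simp only [add_zero, zero_add]
  exact nine _ _ _ _ _ _ _ (hu _ (by decide +kernel)) (hu _ (by decide +kernel))
    (hu _ (by decide +kernel))

theorem nonV_X0 : NonV X0 := by
  classical
  intro u hu'
  have hu : ∀ v ∈ X0, u v ≠ 0 := fun v hv => hu' v hv fun h => zero_X0 (h ▸ hv)
  by_contra hcon
  push Not at hcon
  have hk := key X0 zero_X0 ((top_iff X0).2 kil_X0) u hu hcon
  have hp := npl_X0_le u hu
  have hq : 30 ≤ nln X0 u := by
    refine clean_X0.trans (Finset.card_le_card ?_)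
    intro q hq
    rw [Finset.mem_filter] at hq ⊢
    exact ⟨hq.1, clean X0 u _ _ hq.2.1 hq.2.2.1 hq.2.2.2⟩
  rw [card_X0] at hk
  by_cases hs : ∑ v ∈ X0, u v = 0
  · rw [if_pos hs] at hk
    omega
  · rw [if_neg hs] at hk
    omega

/-! ### transport -/

section

variable {V : Type} [AddCommGroup V] [Module (ZMod 2) V] [DecidableEq V]

theorem PP_image (e : F →ₗ[ZMod 2] V) (he : Function.Injective e) (X : Finset F) (x : V → ℂ) :
    PP (X.image e) ⊥ x = PP X ⊥ (fun v => x (e v)) := by
  classical
  unfold PP
  symm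
  refine Finset.sum_bij (fun W _ => W.image e) ?_ ?_ ?_ ?_
  · intro W hW
    rw [Finset.mem_powerset] at hW ⊢
    exact Finset.image_subset_image hW
  · intro W _ W' _ h
    exact Finset.image_injective he h
  · intro W hW
    rw [Finset.mem_powerset, Finset.subset_image_iff] at hW
    obtain ⟨W', h1, h2⟩ := hW
    exact ⟨W', Finset.mem_powerset.2 (by exact_mod_cast h1), h2⟩
  · intro W hW
    have h1 : Spans ⊥ (X.image e) (W.image e) ↔ Spans ⊥ X W := by
      unfold Spans
      rw [bot_sup_eq, bot_sup_eq, bot_sup_eq, bot_sup_eq, Finset.coe_image, Finset.coe_image,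
        span_image, span_image]
      exact (map_injective_of_injective he).eq_iff
    rw [Finset.prod_image (fun a _ b _ h => he h)]
    exact if_congr h1.symm rfl rfl

theorem nonV_image (e : F →ₗ[ZMod 2] V) (he : Function.Injective e) (X : Finset F)
    (h : NonV X) : NonV (X.image e) := by
  intro u hu
  obtain ⟨z, hz, hne⟩ := h (fun v => u (e v)) (fun v hv hv0 =>
    hu (e v) (Finset.mem_image_of_mem e hv) (fun h0 => hv0 (he (h0.trans (map_zero e).symm))))
  refine ⟨z, hz, ?_⟩
  rw [PP_image e he]
  exact hne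

end

/-! ### a series pair -/

/-- the linear map with prescribed images of the unit vectors -/
def EE (c e a v : F) : F →ₗ[ZMod 2] F where
  toFun w := w 0 • c + w 1 • e + w 2 • a + w 3 • v
  map_add' x y := by
    simp only [Pi.add_apply, add_smul]
    abel
  map_smul' k x := by
    simp only [Pi.smul_apply, smul_eq_mul, mul_smul, RingHom.id_apply, smul_add]

theorem EE_apply (c e a v w : F) : EE c e a v w = w 0 • c + w 1 • e + w 2 • a + w 3 • v := rfl

theorem nonV_series (X : Finset F) (h0 : (0 : F) ∉ X) (hX : span (ZMod 2) (X : Set F) = ⊤)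
    (hc : X.card = 7) (f : F) (hf : f ≠ 0) (h : (out X f).card = 2) : NonV X := by
  classical
  obtain ⟨v, w, hvw, ho⟩ := Finset.card_eq_two.1 h
  have hv : v ∈ out X f := by
    rw [ho]
    exact Finset.mem_insert_self _ _
  have hw : w ∈ out X f := by
    rw [ho]
    exact Finset.mem_insert_of_mem (Finset.mem_singleton_self _)
  rw [out, Finset.mem_filter] at hv hw
  obtain ⟨hvX, hvf⟩ := hv
  obtain ⟨hwX, hwf⟩ := hw
  obtain ⟨Y, hY⟩ : ∃ Y : Finset F, Y = X.filter fun x => dot f x = 0 := ⟨_, rfl⟩
  have hYc : Y.card = 5 := by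
    have h1 := hh_out X f
    unfold hh at h1
    rw [← hY] at h1
    omega
  have hYf : ∀ x ∈ Y, dot f x = 0 := by
    intro x hx
    rw [hY, Finset.mem_filter] at hx
    exact hx.2
  have hYX : ∀ x ∈ Y, x ∈ X := by
    intro x hx
    rw [hY, Finset.mem_filter] at hx
    exact hx.1
  have hXe : X = insert v (insert w Y) := by
    ext x
    rw [Finset.mem_insert, Finset.mem_insert]
    constructor
    · intro hx
      by_cases h1 : dot f x = 0
      · right
        right
        rw [hY, Finset.mem_filter]
        exact ⟨hx, h1⟩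
      · have h2 : x ∈ out X f := Finset.mem_filter.2 ⟨hx, h1⟩
        rw [ho, Finset.mem_insert, Finset.mem_singleton] at h2
        rcases h2 with h2 | h2
        · exact Or.inl h2
        · exact Or.inr (Or.inl h2)
    · rintro (rfl | rfl | hx)
      · exact hvX
      · exact hwX
      · exact hYX x hx
  have hv1 : dot f v = 1 := (zm2 (dot f v)).resolve_left hvf
  have hw1 : dot f w = 1 := (zm2 (dot f w)).resolve_left hwf
  obtain ⟨e, he⟩ : ∃ e, e = v + w := ⟨_, rfl⟩
  have he0 : e ≠ 0 := by
    rw [he]
    exact add_ne v w hvw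
  have hef : dot f e = 0 := by
    rw [he, dot_add, hv1, hw1]
    decide
  by_cases heY : e ∈ Y
  · -- series-parallel
    refine R3.nonV_sp X h0 ?_
    rw [hXe]
    refine SeriesParallel.series Y ⊥ v w hvw ?_ ?_ ?_
    · rw [bot_sup_eq]
      intro h1
      exact hvf (span_ker Y f hYf v h1)
    · rw [bot_sup_eq, ← he]
      exact subset_span heY
    · refine SeriesParallel.parallel Y _ w e heY ?_ ?_
      · rw [he, add_comm v w, ← add_assoc, fself, zero_add]
        exact mem_sup_right (mem_span_singleton_self v)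
      · refine sp_corank 5 Y _ hYc ?_
        have h1 : Module.finrank (ZMod 2) (⊥ ⊔ span (ZMod 2) {v} : Submodule (ZMod 2) F) ≤ 1 := by
          rw [bot_sup_eq]
          have h2 := finrank_span_finset_le_card (R := ZMod 2) ({v} : Finset F)
          rw [Set.finrank, Finset.card_singleton, Finset.coe_singleton] at h2
          exact h2
        have h3 : ⊥ ⊔ span (ZMod 2) {v} ⊔ span (ZMod 2) (Y : Set F) = ⊤ := by
          rw [eq_top_iff, ← hX, span_le, hXe]
          have hvm : v ∈ ⊥ ⊔ span (ZMod 2) {v} ⊔ span (ZMod 2) (Y : Set F) :=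
            mem_sup_left (mem_sup_right (mem_span_singleton_self v))
          have hYm : ∀ x ∈ Y, x ∈ ⊥ ⊔ span (ZMod 2) {v} ⊔ span (ZMod 2) (Y : Set F) :=
            fun x hx => mem_sup_right (subset_span hx)
          intro x hx
          rw [Finset.mem_coe, Finset.mem_insert, Finset.mem_insert] at hx
          rcases hx with rfl | rfl | hx
          · exact hvm
          · have h4 : x = v + e := by
              rw [he, ← add_assoc, fself, zero_add]
            rw [h4]
            exact add_mem hvm (hYm e heY)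
          · exact hYm x hx
        rw [h3, finrank_top, finrank_F, hYc]
        omega
  · -- the complete graph
    obtain ⟨K, hK⟩ : ∃ K : Finset F, K = NZF.filter fun x => dot f x = 0 := ⟨_, rfl⟩
    have hKm : ∀ x, x ∈ K ↔ x ≠ 0 ∧ dot f x = 0 := by
      intro x
      rw [hK, Finset.mem_filter, mem_NZF]
    have hKc : K.card = 7 := by
      have e1 : K = kil {f} := by
        ext x
        rw [hKm, mem_kil]
        simp only [Finset.mem_singleton, forall_eq]
        rw [dot_comm]
      rw [e1, kil_one f hf]
    have hYK : Y ⊆ K := by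
      intro x hx
      rw [hKm]
      exact ⟨fun h1 => h0 (h1 ▸ hYX x hx), hYf x hx⟩
    have hKY : (K \ Y).card = 2 := by
      rw [Finset.card_sdiff_of_subset hYK, hKc, hYc]
    have heK : e ∈ K \ Y := by
      rw [Finset.mem_sdiff, hKm]
      exact ⟨⟨he0, hef⟩, heY⟩
    obtain ⟨c, hcK, hce⟩ : ∃ c ∈ K \ Y, c ≠ e := by
      obtain ⟨x, y, hxy, hxe⟩ := Finset.card_eq_two.1 hKY
      by_cases h1 : x = e
      · refine ⟨y, ?_, ?_⟩
        · rw [hxe]
          exact Finset.mem_insert_of_mem (Finset.mem_singleton_self _)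
        · rintro rfl
          exact hxy h1
      · refine ⟨x, ?_, h1⟩
        rw [hxe]
        exact Finset.mem_insert_self _ _
    have hKY' : K \ Y = {e, c} := by
      symm
      refine Finset.eq_of_subset_of_card_le ?_ ?_
      · intro x hx
        rw [Finset.mem_insert, Finset.mem_singleton] at hx
        rcases hx with rfl | rfl
        · exact heK
        · exact hcK
      · rw [hKY, Finset.card_pair hce.symm]
    rw [Finset.mem_sdiff, hKm] at hcK
    obtain ⟨⟨hc0, hcf⟩, hcY⟩ := hcK
    have hin : ∀ x, x ≠ 0 → dot f x = 0 → x ≠ e → x ≠ c → x ∈ Y := by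
      intro x hx0 hxf hxe hxc
      by_contra h1
      have h2 : x ∈ K \ Y := by
        rw [Finset.mem_sdiff, hKm]
        exact ⟨⟨hx0, hxf⟩, h1⟩
      rw [hKY', Finset.mem_insert, Finset.mem_singleton] at h2
      rcases h2 with h2 | h2
      · exact hxe h2
      · exact hxc h2
    obtain ⟨a, haY, hace⟩ : ∃ a ∈ Y, a ≠ c + e := by
      by_contra hcon
      push Not at hcon
      have h1 : Y ⊆ {c + e} := fun x hx => Finset.mem_singleton.2 (hcon x hx)
      have h2 := Finset.card_le_card h1
      rw [hYc, Finset.card_singleton] at h2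
      omega
    have ha0 : a ≠ 0 := fun h1 => h0 (h1 ▸ hYX a haY)
    have haf : dot f a = 0 := hYf a haY
    have hae : a ≠ e := fun h1 => heY (h1 ▸ haY)
    have hac : a ≠ c := fun h1 => hcY (h1 ▸ haY)
    have cancel : ∀ x y : F, x + y = 0 → x = y := by
      intro x y h1
      have h2 := eq_of_add 0 x y h1.symm
      rw [zero_add] at h2
      exact h2
    have hinj : Function.Injective (EE c e a v) := by
      rw [← LinearMap.ker_eq_bot, LinearMap.ker_eq_bot']
      intro m hm
      rw [EE_apply] at hm
      have h3 : m 3 = 0 := by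
        rcases zm2 (m 3) with h3 | h3
        · exact h3
        · exfalso
          have h4 : dot f (m 0 • c + m 1 • e + m 2 • a + m 3 • v) = 0 := by
            rw [hm, dot_zr]
          rw [dot_add, dot_add, dot_add] at h4
          have hs : ∀ (k : ZMod 2) (x : F), dot f (k • x) = k * dot f x := by
            intro k x
            rcases zm2 k with rfl | rfl
            · rw [zero_smul, dot_zr, zero_mul]
            · rw [one_smul, one_mul]
          rw [hs, hs, hs, hs, hcf, hef, haf, hv1, h3] at h4
          simp at h4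
      rw [h3, zero_smul, add_zero] at hm
      have h012 : m 0 = 0 ∧ m 1 = 0 ∧ m 2 = 0 := by
        rcases zm2 (m 0) with k0 | k0 <;> rcases zm2 (m 1) with k1 | k1 <;>
          rcases zm2 (m 2) with k2 | k2 <;> rw [k0, k1, k2] at hm <;>
          simp only [zero_smul, one_smul, zero_add, add_zero] at hm
        · exact ⟨k0, k1, k2⟩
        · exact absurd hm ha0
        · exact absurd hm he0
        · exact absurd (cancel _ _ hm).symm hae
        · exact absurd hm hc0
        · exact absurd (cancel _ _ hm).symm hac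
        · exact absurd (cancel _ _ hm) hce
        · exact absurd (cancel _ _ hm).symm hace
      funext i
      fin_cases i
      · exact h012.1
      · exact h012.2.1
      · exact h012.2.2
      · exact h3
    have hX0 : X = X0.image (EE c e a v) := by
      symm
      refine Finset.eq_of_subset_of_card_le ?_ ?_
      · intro x hx
        obtain ⟨m, hm, rfl⟩ := Finset.mem_image.1 hx
        rw [X0, List.mem_toFinset] at hm
        simp only [XL, List.mem_cons, List.not_mem_nil, or_false] at hm
        rcases hm with rfl | rfl | rfl | rfl | rfl | rfl | rfl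
        · rw [EE_apply]
          simp
          refine hYX _ (hin _ ?_ ?_ ?_ ?_)
          · exact add_ne c e hce
          · rw [dot_add, hcf, hef, add_zero]
          · intro h1
            exact hc0 (by simpa using h1)
          · intro h1
            exact he0 (by simpa using h1)
        · rw [EE_apply]
          simp
          exact hYX _ haY
        · rw [EE_apply]
          simp
          refine hYX _ (hin _ ?_ ?_ ?_ ?_)
          · exact add_ne e a hae.symm
          · rw [dot_add, haf, hef, add_zero]
          · intro h1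
            exact ha0 (by simpa using h1)
          · intro h1
            apply hace
            rw [← h1, add_comm e a, add_assoc, fself, add_zero]
        · rw [EE_apply]
          simp
          refine hYX _ (hin _ ?_ ?_ ?_ ?_)
          · exact add_ne c a hac.symm
          · rw [dot_add, haf, hcf, add_zero]
          · intro h1
            apply hace
            rw [← h1, ← add_assoc, fself, zero_add]
          · intro h1
            exact ha0 (by simpa using h1)
        · rw [EE_apply]
          simp
          refine hYX _ (hin _ ?_ ?_ ?_ ?_)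
          · exact add_ne (c + e) a hace.symm
          · rw [dot_add, dot_add, haf, hcf, hef, add_zero, add_zero]
          · intro h1
            apply hac
            have h2 : c + a = 0 := by
              have h3 : c + e + a = (c + a) + e := by abel
              rw [h3] at h1
              simpa using h1
            exact (cancel _ _ h2).symm
          · intro h1
            apply hae
            have h2 : e + a = 0 := by
              rw [add_assoc] at h1
              simpa using h1
            exact (cancel _ _ h2).symm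
        · rw [EE_apply]
          simp
          exact hvX
        · rw [EE_apply]
          simp
          have h1 : e + v = w := by
            rw [he, add_comm v w, add_assoc, fself, add_zero]
          rw [h1]
          exact hwX
      · rw [Finset.card_image_of_injective _ hinj, card_X0, hc]
    rw [hX0]
    exact nonV_image _ hinj X0 nonV_X0

theorem nonV_F (X : Finset F) (h0 : (0 : F) ∉ X) (hX : span (ZMod 2) (X : Set F) = ⊤) :
    NonV X := by
  classical
  by_cases h6 : X.card ≤ 6
  · refine R3.nonV_sp X h0 (sp_corank X.card X ⊥ rfl ?_)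
    rw [bot_sup_eq, hX, finrank_top, finrank_F, finrank_bot]
    omega
  by_cases h9 : 9 ≤ X.card
  · exact nonV_9 X h0 hX h9
  by_cases h8 : X.card = 8
  · exact nonV_8 X h0 hX h8
  have h7 : X.card = 7 := by omega
  obtain ⟨f, hf, hff⟩ := plane7 X h0 h7
  have hf0 := (mem_NZF f).1 hf
  have ho := hh_out X f
  have hne := Finset.card_pos.2 (out_ne X hX f hf0)
  by_cases hz : hh X f = 0
  · exact nonV_fano X h0 hX h7 f hf hz
  have hc : (out X f).card = 1 ∨ (out X f).card = 2 := by omega
  rcases hc with hc | hc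
  · exact nonV_coloop X f hf0 hc
  · exact nonV_series X h0 hX h7 f hf0 hc

section

variable {V : Type} [AddCommGroup V] [Module (ZMod 2) V] [DecidableEq V]

/-- the case of nonzero vectors -/
theorem nonV_nz (X : Finset V) (h0 : (0 : V) ∉ X)
    (hr : Module.finrank (ZMod 2) (span (ZMod 2) (X : Set V)) ≤ 4) : NonV X := by
  classical
  by_cases h3 : Module.finrank (ZMod 2) (span (ZMod 2) (X : Set V)) ≤ 3
  · exact R3.nonV_nz X h0 h3
  have h4 : Module.finrank (ZMod 2) (span (ZMod 2) (X : Set V)) = 4 := by omega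
  have hfd : Module.Finite (ZMod 2) (span (ZMod 2) (X : Set V)) :=
    Module.Finite.span_of_finite _ (Finset.finite_toSet X)
  have hfr : Module.finrank (ZMod 2) F = Module.finrank (ZMod 2) (span (ZMod 2) (X : Set V)) := by
    rw [h4]
    simp
  let φ : F ≃ₗ[ZMod 2] span (ZMod 2) (X : Set V) := LinearEquiv.ofFinrankEq _ _ hfr
  let e : F →ₗ[ZMod 2] V := (span (ZMod 2) (X : Set V)).subtype ∘ₗ φ.toLinearMap
  have he : Function.Injective e := by
    intro x y h
    exact φ.injective (Subtype.ext h)
  have hrange : ∀ w ∈ span (ZMod 2) (X : Set V), ∃ y, e y = w := by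
    intro w hw
    refine ⟨φ.symm ⟨w, hw⟩, ?_⟩
    show ((φ (φ.symm ⟨w, hw⟩) : span (ZMod 2) (X : Set V)) : V) = w
    rw [LinearEquiv.apply_symm_apply]
  obtain ⟨Y, hY⟩ : ∃ Y : Finset F, Y = Finset.univ.filter (fun y => e y ∈ X) := ⟨_, rfl⟩
  have hYX : X = Y.image e := by
    ext w
    rw [Finset.mem_image]
    constructor
    · intro hw
      obtain ⟨y, hy⟩ := hrange w (subset_span hw)
      refine ⟨y, ?_, hy⟩
      rw [hY, Finset.mem_filter]
      exact ⟨Finset.mem_univ _, by rw [hy]; exact hw⟩
    · rintro ⟨y, hy, rfl⟩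
      rw [hY, Finset.mem_filter] at hy
      exact hy.2
  rw [hYX]
  refine nonV_image e he Y (nonV_F Y ?_ ?_)
  · intro h
    rw [hY, Finset.mem_filter, map_zero] at h
    exact h0 h.2
  · rw [eq_top_iff]
    intro y _
    have h1 : e y ∈ span (ZMod 2) (X : Set V) := (φ y).2
    rw [hYX, Finset.coe_image, span_image] at h1
    obtain ⟨y', hy', hyy⟩ := mem_map.1 h1
    rw [← he hyy]
    exact hy'

end

end R4

/-- **Module R4**: sets of rank at most four -/
def St_Rank4 : Prop :=
  ∀ (V : Type) [AddCommGroup V] [Module (ZMod 2) V] [DecidableEq V] (X : Finset V),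
    Module.finrank (ZMod 2) (span (ZMod 2) (X : Set V)) ≤ 4 → NonV X

theorem thm_Rank4 : St_Rank4 := by
  intro V _ _ _ X hr
  classical
  by_cases h0 : (0 : V) ∈ X
  · intro u hu
    have hne : (0 : V) ∉ X.erase 0 := Finset.notMem_erase 0 X
    have hsub : span (ZMod 2) ((X.erase 0 : Finset V) : Set V) ≤ span (ZMod 2) (X : Set V) :=
      span_mono (Finset.coe_subset.2 (Finset.erase_subset _ _))
    have hfd : Module.Finite (ZMod 2) (span (ZMod 2) (X : Set V)) :=
      Module.Finite.span_of_finite _ (Finset.finite_toSet X)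
    have hr' : Module.finrank (ZMod 2) (span (ZMod 2) ((X.erase 0 : Finset V) : Set V)) ≤ 4 :=
      (finrank_mono hsub).trans hr
    obtain ⟨z, hz, hP⟩ := R4.nonV_nz (X.erase 0) hne hr' u
      (fun v hv hv0 => hu v (Finset.mem_of_mem_erase hv) hv0)
    refine ⟨z, hz, ?_⟩
    have hz0 : z ≠ 0 := by
      rintro rfl
      simp at hz
    rw [← Finset.insert_erase h0, PP_loop (X.erase 0) ⊥ _ 0 hne (zero_mem _)]
    exact mul_ne_zero (zpow_ne_zero _ hz0) hP
  · exact R4.nonV_nz X h0 hr

end Pool.Agent.SPT
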