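import Mathlib
import Pool.Agent.SPT.Defs
import Pool.Agent.UNI.Abs

/-!
# SPT, module Eval: the state sum near `A = exp (i π / 4)`
-/

set_option autoImplicit false
set_option linter.unusedSectionVars false

open Module Matrix Submodule Pool.Agent.UNI

namespace Pool.Agent.SPT

/-! ### The value of the variable -/

private noncomputable def Eval_dl (θ : ℝ) : ℝ := 2 * Real.sin (θ / 2)

private noncomputable def Eval_y (θ : ℝ) : ℂ := Complex.exp ((θ : ℂ) * Complex.I)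

private theorem Eval_Ane (θ : ℝ) : Aθ θ ≠ 0 := Complex.exp_ne_zero _

private theorem Eval_Anorm (θ : ℝ) : ‖Aθ θ‖ = 1 := Complex.norm_exp_ofReal_mul_I _

private theorem Eval_yne (θ : ℝ) : Eval_y θ ≠ 0 := Complex.exp_ne_zero _

private theorem Eval_A2 (θ : ℝ) : Aθ θ ^ 2 =
    Complex.exp (((Real.pi / 2 + θ / 2 : ℝ) : ℂ) * Complex.I) := by
  unfold Aθ
  rw [← Complex.exp_nat_mul]
  congr 1
  push_cast
  ring

private theorem Eval_Ad (θ : ℝ) : -(Aθ θ) ^ 2 - ((Aθ θ)⁻¹) ^ 2 = ((Eval_dl θ : ℝ) : ℂ) := by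
  have h1 : ((Aθ θ)⁻¹) ^ 2 =
      Complex.exp (-(((Real.pi / 2 + θ / 2 : ℝ) : ℂ) * Complex.I)) := by
    rw [inv_pow, Eval_A2, Complex.exp_neg]
  rw [h1, Eval_A2]
  have h2 := Complex.two_cos (((Real.pi / 2 + θ / 2 : ℝ) : ℂ))
  rw [neg_mul] at h2
  rw [← neg_add', ← h2, ← Complex.ofReal_cos, add_comm (Real.pi / 2), Real.cos_add_pi_div_two]
  unfold Eval_dl
  push_cast
  ring

private theorem Eval_A4 (θ : ℝ) : Aθ θ ^ 4 = -Eval_y θ := by
  have h2 : Aθ θ ^ 4 = (Aθ θ ^ 2) ^ 2 := by rw [← pow_mul]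
  rw [h2, Eval_A2, ← Complex.exp_nat_mul]
  have h3 : ((2 : ℕ) : ℂ) * (((Real.pi / 2 + θ / 2 : ℝ) : ℂ) * Complex.I) =
      (θ : ℂ) * Complex.I + Real.pi * Complex.I := by
    push_cast
    ring
  rw [h3, Complex.exp_add, Complex.exp_pi_mul_I]
  unfold Eval_y
  ring

private theorem Eval_dl_pos {θ : ℝ} (h0 : 0 < θ) (h1 : θ < 1) : 0 < Eval_dl θ := by
  unfold Eval_dl
  have h2 : 0 < Real.sin (θ / 2) :=
    Real.sin_pos_of_pos_of_lt_pi (by linarith) (by linarith [Real.pi_gt_three])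
  linarith

private theorem Eval_dl_le {θ : ℝ} (h0 : 0 < θ) : Eval_dl θ ≤ θ := by
  unfold Eval_dl
  have h2 : Real.sin (θ / 2) < θ / 2 := Real.sin_lt (by linarith)
  linarith

/-- the weights -/
private noncomputable def Eval_w (θ : ℝ) (b : Bool) : ℂ :=
  if b then Eval_y θ else (Eval_y θ)⁻¹

private theorem Eval_ratio (θ : ℝ) (h0 : 0 < Eval_dl θ) (b : Bool) :
    (if b then Aθ θ else (Aθ θ)⁻¹) =
      (if !b then Aθ θ else (Aθ θ)⁻¹) *
        ((Eval_w θ b - 1) * (((Eval_dl θ : ℝ) : ℂ))⁻¹) := by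
  have hA := Eval_Ane θ
  have hd : ((Eval_dl θ : ℝ) : ℂ) ≠ 0 := by exact_mod_cast h0.ne'
  have hy : Eval_y θ = -(Aθ θ) ^ 4 := by rw [Eval_A4, neg_neg]
  have hAd := Eval_Ad θ
  have h3 : (Aθ θ)⁻¹ * (Aθ θ) = 1 := inv_mul_cancel₀ hA
  cases b with
  | true =>
    show Aθ θ = (Aθ θ)⁻¹ * ((Eval_y θ - 1) * (((Eval_dl θ : ℝ) : ℂ))⁻¹)
    have h2 : Aθ θ * ((Eval_dl θ : ℝ) : ℂ) = (Aθ θ)⁻¹ * (Eval_y θ - 1) := by
      rw [← hAd, hy]
      linear_combination ((Aθ θ) ^ 3 - (Aθ θ)⁻¹) * h3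
    rw [← mul_assoc, ← h2, mul_assoc, mul_inv_cancel₀ hd, mul_one]
  | false =>
    show (Aθ θ)⁻¹ = Aθ θ * (((Eval_y θ)⁻¹ - 1) * (((Eval_dl θ : ℝ) : ℂ))⁻¹)
    have h1 : (Eval_y θ)⁻¹ = -((Aθ θ)⁻¹) ^ 4 := by
      rw [hy, ← neg_inv, inv_pow]
    have h2 : (Aθ θ)⁻¹ * ((Eval_dl θ : ℝ) : ℂ) = Aθ θ * ((Eval_y θ)⁻¹ - 1) := by
      rw [← hAd, h1]
      linear_combination (((Aθ θ)⁻¹) ^ 3 - (Aθ θ)) * h3
    rw [← mul_assoc, ← h2, mul_assoc, mul_inv_cancel₀ hd, mul_one]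

private theorem Eval_zpow {E : Type} (y : ℂ) (hy : y ≠ 0) (s : Finset E) (f : E → ℤ) :
    ∏ c ∈ s, y ^ (f c) = y ^ (∑ c ∈ s, f c) := by
  classical
  induction s using Finset.induction_on with
  | empty => simp
  | insert a s ha ih => rw [Finset.prod_insert ha, Finset.sum_insert ha, zpow_add₀ hy, ih]

/-- the product of the weights over a class -/
private theorem Eval_prod {E : Type} (θ : ℝ) (σ : E → Bool) (s : Finset E) :
    ∏ c ∈ s, Eval_w θ (σ c) =
      Complex.exp (((signedCount σ s * θ : ℝ) : ℂ) * Complex.I) := by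
  have h1 : ∀ c ∈ s, Eval_w θ (σ c) = Eval_y θ ^ (if σ c then (1 : ℤ) else -1) := by
    intro c _
    unfold Eval_w
    cases σ c <;> simp
  rw [Finset.prod_congr rfl h1, Eval_zpow _ (Eval_yne θ)]
  unfold Eval_y signedCount
  obtain ⟨k, hk⟩ : ∃ k : ℤ, k = ∑ c ∈ s, (if σ c then (1 : ℤ) else -1) := ⟨_, rfl⟩
  rw [← hk, ← Complex.exp_int_mul]
  congr 1
  push_cast
  ring

/-! ### Spanning sets and common kernels -/

section

variable {E : Type} [Fintype E] [DecidableEq E]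

/-- separation by the dot product -/
private theorem Eval_sep (A : Submodule (ZMod 2) (E → ZMod 2)) (v : E → ZMod 2) (hv : v ∉ A) :
    ∃ y : E → ZMod 2, (∀ a ∈ A, a ⬝ᵥ y = 0) ∧ v ⬝ᵥ y ≠ 0 := by
  obtain ⟨f, hf, hA⟩ := Submodule.exists_dual_map_eq_bot_of_notMem hv inferInstance
  have h1 : ∀ a, a ⬝ᵥ (fun c => f (fun j => if c = j then 1 else 0)) = f a := by
    intro a
    rw [LinearMap.pi_apply_eq_sum_univ f a]
    rfl
  refine ⟨fun c => f (fun j => if c = j then 1 else 0), fun a ha => ?_, ?_⟩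
  · rw [h1]
    have h2 : f a ∈ A.map f := ⟨a, ha, rfl⟩
    rw [hA] at h2
    exact h2
  · rw [h1]
    exact hf

variable (M : Matrix E E (ZMod 2))

open Classical in
/-- the functional of a row -/
private noncomputable def Eval_psi (v : E → ZMod 2) : Dual (ZMod 2) (Im M) :=
  if h : ∃ c, M c = v then co M h.choose else 0

private theorem Eval_psi_row (c : E) : Eval_psi M (M c) = co M c := by
  unfold Eval_psi
  have h : ∃ c', M c' = M c := ⟨c, rfl⟩
  rw [dif_pos h]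
  exact (co_eq_iff _ _).2 h.choose_spec

open Classical in
private theorem Eval_ck_row (W : Finset E) :
    (W.image M).image (Eval_psi M) = W.image (co M) := by
  ext u
  simp only [Finset.mem_image]
  constructor
  · rintro ⟨_, ⟨c, hc, rfl⟩, rfl⟩
    exact ⟨c, hc, (Eval_psi_row M c).symm⟩
  · rintro ⟨c, hc, rfl⟩
    exact ⟨_, ⟨c, hc, rfl⟩, Eval_psi_row M c⟩

/-- the exponent -/
private noncomputable def Eval_ex (U : Finset (E → ZMod 2)) : ℕ :=
  by
    classical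
    exact finrank (ZMod 2) (ck (U.image (Eval_psi M))) +
      finrank (ZMod 2) (rad (fo M) (ck (U.image (Eval_psi M))))

open Classical in
private theorem Eval_ex_def (U : Finset (E → ZMod 2)) : Eval_ex M U =
    finrank (ZMod 2) (ck (U.image (Eval_psi M))) +
      finrank (ZMod 2) (rad (fo M) (ck (U.image (Eval_psi M)))) := by
  unfold Eval_ex
  rfl

open Classical in
private theorem Eval_mem_ck (U : Finset (E → ZMod 2)) (hU : U ⊆ Finset.univ.image M)
    (a : E → ZMod 2) (y : Im M) (hy : M *ᵥ a = y) :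
    y ∈ ck (U.image (Eval_psi M)) ↔ ∀ v ∈ U, v ⬝ᵥ a = 0 := by
  constructor
  · intro h v hv
    obtain ⟨c, -, rfl⟩ := Finset.mem_image.1 (hU hv)
    have h1 := h _ (Finset.mem_image_of_mem _ hv)
    rw [Eval_psi_row, co_apply, ← hy] at h1
    exact h1
  · intro h u hu
    obtain ⟨v, hv, rfl⟩ := Finset.mem_image.1 hu
    obtain ⟨c, -, rfl⟩ := Finset.mem_image.1 (hU hv)
    rw [Eval_psi_row, co_apply, ← hy]
    exact h _ hv

open Classical in
/-- a spanning set of rows has exponent zero -/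
private theorem Eval_span (U : Finset (E → ZMod 2)) (hU : U ⊆ Finset.univ.image M)
    (h : Spans ⊥ (Finset.univ.image M) U) : Eval_ex M U = 0 := by
  have h0 : ck (U.image (Eval_psi M)) = ⊥ := by
    rw [eq_bot_iff]
    intro y hy
    obtain ⟨a, ha⟩ := y.2
    have ha' : M *ᵥ a = y := ha
    rw [Eval_mem_ck M U hU a y ha'] at hy
    rw [Submodule.mem_bot]
    apply Subtype.ext
    rw [← ha']
    funext c
    show M c ⬝ᵥ a = 0
    obtain ⟨r, hr⟩ : ∃ r, r = M c := ⟨_, rfl⟩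
    have h1 : r ∈ span (ZMod 2) (U : Set (E → ZMod 2)) := by
      unfold Spans at h
      rw [bot_sup_eq, bot_sup_eq] at h
      rw [h, hr]
      exact subset_span (Finset.mem_coe.2 (Finset.mem_image_of_mem _ (Finset.mem_univ c)))
    rw [← hr]
    clear hr
    induction h1 using Submodule.span_induction with
    | mem v hv => exact hy v hv
    | zero => exact zero_dotProduct a
    | add v w _ _ hv hw => rw [add_dotProduct, hv, hw, add_zero]
    | smul r v _ hv => rw [smul_dotProduct, hv, smul_zero]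
  rw [Eval_ex_def, h0, finrank_bot, zero_add]
  have h1 : rad (fo M) ⊥ = ⊥ := by
    rw [eq_bot_iff]
    exact fun y hy => hy.1
  rw [h1, finrank_bot]

open Classical in
/-- other sets have positive exponent -/
private theorem Eval_notSpan (U : Finset (E → ZMod 2)) (hU : U ⊆ Finset.univ.image M)
    (h : ¬ Spans ⊥ (Finset.univ.image M) U) : 1 ≤ Eval_ex M U := by
  by_contra h0
  have h1 : Eval_ex M U = 0 := by omega
  rw [Eval_ex_def] at h1
  have h2 : finrank (ZMod 2) (ck (U.image (Eval_psi M))) = 0 := by omega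
  rw [Submodule.finrank_eq_zero] at h2
  apply h
  unfold Spans
  rw [bot_sup_eq, bot_sup_eq]
  apply le_antisymm (span_mono (Finset.coe_subset.2 hU))
  rw [span_le]
  intro v hv
  obtain ⟨c, -, rfl⟩ := Finset.mem_image.1 (Finset.mem_coe.1 hv)
  by_contra h3
  obtain ⟨a, ha, hac⟩ := Eval_sep _ _ h3
  have h4 : (⟨M.mulVecLin a, a, rfl⟩ : Im M) ∈ ck (U.image (Eval_psi M)) := by
    rw [Eval_mem_ck M U hU a _ rfl]
    exact fun v hv => ha v (subset_span hv)
  rw [h2, Submodule.mem_bot] at h4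
  exact hac (congrFun (congrArg Subtype.val h4) c)

open Classical in
/-- the state sum in terms of the classes -/
private theorem Eval_sum (hM : ∀ i j, M i j = M j i) (σ : E → Bool) (θ : ℝ) (h0 : 0 < θ)
    (h1 : θ < 1) :
    Eval_dl θ ^ M.rank * ‖∑ s : E → Bool, (∏ c, if s c then Aθ θ else (Aθ θ)⁻¹) *
      (-(Aθ θ) ^ 2 - ((Aθ θ)⁻¹) ^ 2) ^
        (finrank (ZMod 2) (LinearMap.ker (SM M σ s).mulVecLin))‖ =
    ‖∑ U ∈ (Finset.univ.image M).powerset,
      (∏ v ∈ U, (Complex.exp (((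
        signedCount σ (Finset.univ.filter fun c => M c = v) * θ : ℝ) : ℂ) * Complex.I) - 1)) *
        ((Eval_dl θ : ℝ) : ℂ) ^ Eval_ex M U‖ := by
  have hr := Eval_dl_pos h0 h1
  have hd : ((Eval_dl θ : ℝ) : ℂ) ≠ 0 := by exact_mod_cast hr.ne'
  obtain ⟨P, hP⟩ : ∃ P, P = ∏ c : E, (if !σ c then Aθ θ else (Aθ θ)⁻¹) := ⟨_, rfl⟩
  have hPn : ‖P‖ = 1 := by
    rw [hP, norm_prod]
    refine Finset.prod_eq_one fun c _ => ?_
    split_ifs
    · exact Eval_Anorm θ
    · rw [norm_inv, Eval_Anorm, inv_one]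
  have hn : Eval_dl θ ^ M.rank = ‖((Eval_dl θ : ℝ) : ℂ) ^ M.rank‖ := by
    rw [norm_pow, Complex.norm_real, Real.norm_of_nonneg hr.le]
  rw [hn, ← norm_mul, Finset.mul_sum, sum_st σ]
  have h2 : ∀ W ∈ (Finset.univ : Finset E).powerset,
      ((Eval_dl θ : ℝ) : ℂ) ^ M.rank *
      ((∏ c, if st σ W c then Aθ θ else (Aθ θ)⁻¹) * (-(Aθ θ) ^ 2 - ((Aθ θ)⁻¹) ^ 2) ^
        (finrank (ZMod 2) (LinearMap.ker (SM M σ (st σ W)).mulVecLin))) =
      P * ((∏ c ∈ W, (Eval_w θ (σ c) - 1)) *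
        (fun U => ((Eval_dl θ : ℝ) : ℂ) ^ Eval_ex M U) (W.image M)) := by
    intro W _
    rw [SM_st, Eval_Ad]
    have h3 : (∏ c, if st σ W c then Aθ θ else (Aθ θ)⁻¹) =
        P * ∏ c ∈ W, ((Eval_w θ (σ c) - 1) * (((Eval_dl θ : ℝ) : ℂ))⁻¹) := by
      have h6 : ∀ c, (if st σ W c then Aθ θ else (Aθ θ)⁻¹) =
          (if !σ c then Aθ θ else (Aθ θ)⁻¹) *
            (if c ∈ W then ((Eval_w θ (σ c) - 1) * (((Eval_dl θ : ℝ) : ℂ))⁻¹) else 1) := by
        intro c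
        unfold st
        by_cases hc : c ∈ W
        · rw [if_pos hc, if_pos hc]
          exact Eval_ratio θ hr (σ c)
        · rw [if_neg hc, if_neg hc, mul_one]
      rw [Finset.prod_congr rfl fun c _ => h6 c, Finset.prod_mul_distrib, ← hP,
        Finset.prod_ite_mem, Finset.univ_inter]
    rw [h3, Finset.prod_mul_distrib, Finset.prod_const]
    have h4 := finrank_ker_MW hM W
    rw [← Eval_ck_row M W, add_assoc, ← Eval_ex_def] at h4
    have h5 : finrank (ZMod 2) (Im M) = M.rank := rfl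
    rw [h5] at h4
    obtain ⟨a, ha⟩ : ∃ a, a = finrank (ZMod 2) (LinearMap.ker (MW M W).mulVecLin) := ⟨_, rfl⟩
    rw [← ha] at h4 ⊢
    have h6 : ((Eval_dl θ : ℝ) : ℂ) ^ M.rank * ((((Eval_dl θ : ℝ) : ℂ))⁻¹ ^ W.card *
        ((Eval_dl θ : ℝ) : ℂ) ^ a) = ((Eval_dl θ : ℝ) : ℂ) ^ Eval_ex M (W.image M) := by
      have h7 : ((Eval_dl θ : ℝ) : ℂ) ^ (a + M.rank) =
          ((Eval_dl θ : ℝ) : ℂ) ^ (W.card + Eval_ex M (W.image M)) := by rw [h4]
      rw [pow_add, pow_add] at h7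
      have h8 : ((Eval_dl θ : ℝ) : ℂ) ^ W.card ≠ 0 := pow_ne_zero _ hd
      rw [inv_pow, mul_comm (((Eval_dl θ : ℝ) : ℂ) ^ W.card)⁻¹, ← mul_assoc,
        mul_comm (((Eval_dl θ : ℝ) : ℂ) ^ M.rank), h7, mul_assoc, mul_comm, mul_assoc,
        inv_mul_cancel₀ h8, mul_one]
    simp only []
    rw [← h6]
    ring
  rw [Finset.sum_congr rfl h2, ← Finset.mul_sum, norm_mul, hPn, one_mul]
  have hmer := merge M (fun c => Eval_w θ (σ c)) Finset.univ
    (fun U => ((Eval_dl θ : ℝ) : ℂ) ^ Eval_ex M U)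
  rw [hmer]
  congr 1
  refine Finset.sum_congr rfl fun U _ => ?_
  congr 1
  refine Finset.prod_congr rfl fun v _ => ?_
  unfold cw
  rw [Eval_prod]

end

open Classical in
private theorem Eval_main (E : Type) [Fintype E] [DecidableEq E] (M : Matrix E E (ZMod 2))
    (hM : ∀ i j, M i j = M j i) (σ : E → Bool) (θ : ℝ) (h0 : 0 < θ) (h1 : θ < 1) :
    ‖PP (Finset.univ.image M) ⊥ (fun v => Complex.exp (((
        signedCount σ (Finset.univ.filter fun c => M c = v) * θ : ℝ) : ℂ) * Complex.I))‖ -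
      3 ^ (Finset.univ.image M).card * θ ≤
    θ ^ M.rank * ‖∑ s : E → Bool, (∏ c, if s c then Aθ θ else (Aθ θ)⁻¹) *
      (-(Aθ θ) ^ 2 - ((Aθ θ)⁻¹) ^ 2) ^
        (Module.finrank (ZMod 2) (LinearMap.ker
          (M + Matrix.diagonal fun c => if s c = σ c then (0 : ZMod 2) else 1).mulVecLin))‖ := by
  have hr := Eval_dl_pos h0 h1
  have hle := Eval_dl_le h0
  have h2 : Eval_dl θ ^ M.rank ≤ θ ^ M.rank := pow_le_pow_left₀ hr.le hle _
  refine le_trans ?_ (mul_le_mul_of_nonneg_right h2 (norm_nonneg _))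
  have h3 := Eval_sum M hM σ θ h0 h1
  unfold SM at h3
  rw [h3]
  obtain ⟨x, hx⟩ : ∃ x : (E → ZMod 2) → ℂ, x = fun v => Complex.exp (((
        signedCount σ (Finset.univ.filter fun c => M c = v) * θ : ℝ) : ℂ) * Complex.I) :=
    ⟨_, rfl⟩
  have hx' : ∀ v, Complex.exp (((
        signedCount σ (Finset.univ.filter fun c => M c = v) * θ : ℝ) : ℂ) * Complex.I) = x v := by
    intro v
    rw [hx]
  have hx1 : ∀ v, ‖x v‖ = 1 := by
    intro v
    rw [hx]
    exact Complex.norm_exp_ofReal_mul_I _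
  rw [← hx]
  simp only [hx']
  obtain ⟨X, hX⟩ : ∃ X, X = Finset.univ.image M := ⟨_, rfl⟩
  rw [← hX]
  have h4 : ‖PP X ⊥ x - ∑ U ∈ X.powerset, (∏ v ∈ U, (x v - 1)) *
      ((Eval_dl θ : ℝ) : ℂ) ^ Eval_ex M U‖ ≤ 3 ^ X.card * θ := by
    unfold PP
    rw [← Finset.sum_sub_distrib]
    refine le_trans (norm_sum_le _ _) ?_
    have h5 : ∀ U ∈ X.powerset, ‖(if Spans ⊥ X U then ∏ v ∈ U, (x v - 1) else 0) -
        (∏ v ∈ U, (x v - 1)) * ((Eval_dl θ : ℝ) : ℂ) ^ Eval_ex M U‖ ≤ 2 ^ U.card * θ := by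
      intro U hU
      have hU' := Finset.mem_powerset.1 hU
      by_cases h6 : Spans ⊥ X U
      · rw [if_pos h6, Eval_span M U (hX ▸ hU') (hX ▸ h6), pow_zero, mul_one, sub_self, norm_zero]
        positivity
      · rw [if_neg h6, zero_sub, norm_neg, norm_mul, norm_prod, norm_pow, Complex.norm_real,
          Real.norm_of_nonneg hr.le]
        have h7 : 1 ≤ Eval_ex M U := Eval_notSpan M U (hX ▸ hU') (hX ▸ h6)
        have h8 : Eval_dl θ ^ Eval_ex M U ≤ θ := by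
          refine le_trans (pow_le_of_le_one hr.le (by linarith) (by omega)) hle
        have h9 : ∏ v ∈ U, ‖x v - 1‖ ≤ 2 ^ U.card := by
          rw [← Finset.prod_const]
          refine Finset.prod_le_prod (fun v _ => norm_nonneg _) fun v _ => ?_
          refine le_trans (norm_sub_le _ _) ?_
          rw [hx1, norm_one]
          norm_num
        exact mul_le_mul h9 h8 (by positivity) (by positivity)
    refine le_trans (Finset.sum_le_sum h5) ?_
    rw [← Finset.sum_mul]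
    refine mul_le_mul_of_nonneg_right ?_ h0.le
    have h6 := Finset.sum_pow_mul_eq_add_pow (2 : ℝ) 1 X
    simp only [one_pow, mul_one] at h6
    rw [h6]
    norm_num
  have h5 := norm_sub_norm_le (PP X ⊥ x) (∑ U ∈ X.powerset, (∏ v ∈ U, (x v - 1)) *
      ((Eval_dl θ : ℝ) : ℂ) ^ Eval_ex M U)
  linarith

theorem thm_Eval : St_Eval := by
  intro E _ _ M hM σ θ h0 h1
  exact Eval_main E M hM σ θ h0 h1

end Pool.Agent.SPT
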