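import Mathlib
import Pool.Agent.SPT.Defs

/-!
# SPT, module B: a uniform lower bound
-/

set_option autoImplicit false

open Submodule

namespace Pool.Agent.SPT

/-- the polynomial of a family of subsets of `Fin k` -/
private noncomputable def Low_Q {k : ℕ} (F : Finset (Finset (Fin k))) (z : Fin k → ℂ) : ℂ :=
  ∑ W ∈ F, ∏ i ∈ W, (z i - 1)

private def Low_C {k : ℕ} (η : ℝ) (L : Finset (Fin k)) : Set (Fin k → ℂ) :=
  {z | (∀ i, ‖z i‖ = 1) ∧ ∀ i ∈ L, η ≤ ‖z i - 1‖}

private theorem Low_cont {k : ℕ} (F : Finset (Finset (Fin k))) : Continuous (Low_Q F) := by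
  unfold Low_Q
  exact continuous_finset_sum _ fun W _ => continuous_finset_prod _ fun i _ =>
    (continuous_apply i).sub continuous_const

private theorem Low_compact {k : ℕ} (η : ℝ) (L : Finset (Fin k)) : IsCompact (Low_C η L) := by
  have h1 : IsCompact (Set.univ.pi fun _ : Fin k => Metric.closedBall (0 : ℂ) 1) :=
    isCompact_univ_pi fun _ => isCompact_closedBall 0 1
  refine h1.of_isClosed_subset ?_ ?_
  · have h2 : Low_C η L = (⋂ i : Fin k, {z : Fin k → ℂ | ‖z i‖ = 1}) ∩
        ⋂ i ∈ L, {z : Fin k → ℂ | η ≤ ‖z i - 1‖} := by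
      ext z
      simp [Low_C]
    rw [h2]
    refine IsClosed.inter (isClosed_iInter fun i => ?_) (isClosed_biInter fun i _ => ?_)
    · exact isClosed_eq (continuous_apply i).norm continuous_const
    · exact isClosed_le continuous_const ((continuous_apply i).sub continuous_const).norm
  · rintro z ⟨hz, -⟩ i -
    rw [mem_closedBall_zero_iff]
    exact (hz i).le

private theorem Low_one {k : ℕ} (η : ℝ) (F : Finset (Finset (Fin k))) (L : Finset (Fin k)) :
    ∃ c : ℝ, 0 < c ∧ ((∀ z ∈ Low_C η L, Low_Q F z ≠ 0) → ∀ z ∈ Low_C η L, c ≤ ‖Low_Q F z‖) := by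
  by_cases hne : (Low_C η L).Nonempty
  · by_cases h0 : ∀ z ∈ Low_C η L, Low_Q F z ≠ 0
    · obtain ⟨z₀, hz₀, hmin⟩ := (Low_compact η L).exists_isMinOn hne
        ((Low_cont F).norm.continuousOn)
      exact ⟨‖Low_Q F z₀‖, norm_pos_iff.2 (h0 z₀ hz₀), fun _ z hz => hmin hz⟩
    · exact ⟨1, one_pos, fun h => absurd h h0⟩
  · exact ⟨1, one_pos, fun _ z hz => absurd ⟨z, hz⟩ hne⟩

theorem thm_Lower (h : St_Ne) : St_Lower := by
  classical
  intro k η hη
  choose c hc0 hc using fun (p : Finset (Finset (Fin k)) × Finset (Fin k)) => Low_one η p.1 p.2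
  obtain ⟨p₀, hp₀⟩ := Finite.exists_min c
  refine ⟨c p₀, hc0 p₀, ?_⟩
  intro V _ _ _ X L hX hSP hL hspan x hx1 hx2
  -- an injection
  set ι : {v // v ∈ X} ↪ Fin k :=
    X.equivFin.toEmbedding.trans (Fin.castLEEmb hX) with hι
  set J : Finset V → Finset (Fin k) := fun W => (W.subtype (· ∈ X)).map ι with hJ
  have hJinj : Set.InjOn J (X.powerset : Set (Finset V)) := by
    intro W hW W' hW' hWW
    have h1 : W.subtype (· ∈ X) = W'.subtype (· ∈ X) := Finset.map_injective ι hWW
    ext v
    have hs := Finset.mem_powerset.1 (Finset.mem_coe.1 hW)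
    have hs' := Finset.mem_powerset.1 (Finset.mem_coe.1 hW')
    constructor
    · intro hv
      have h2 : (⟨v, hs hv⟩ : {v // v ∈ X}) ∈ W.subtype (· ∈ X) := Finset.mem_subtype.2 hv
      rw [h1] at h2
      exact Finset.mem_subtype.1 h2
    · intro hv
      have h2 : (⟨v, hs' hv⟩ : {v // v ∈ X}) ∈ W'.subtype (· ∈ X) := Finset.mem_subtype.2 hv
      rw [← h1] at h2
      exact Finset.mem_subtype.1 h2
  set F : Finset (Finset (Fin k)) := (X.powerset.filter fun W => Spans ⊥ X W).image J with hF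
  -- the polynomial
  have hPP : ∀ (y : V → ℂ) (z : Fin k → ℂ), (∀ v : {v // v ∈ X}, z (ι v) = y v) →
      Low_Q F z = PP X ⊥ y := by
    intro y z hyz
    unfold Low_Q PP
    rw [hF, Finset.sum_image, Finset.sum_filter]
    · refine Finset.sum_congr rfl fun W hW => ?_
      have hs := Finset.mem_powerset.1 hW
      split_ifs with hsp
      · rw [hJ]
        simp only
        rw [Finset.prod_map]
        have e : ∏ v ∈ W.subtype (· ∈ X), (z (ι v) - 1) =
            ∏ v ∈ W.subtype (· ∈ X), (y (v : V) - 1) :=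
          Finset.prod_congr rfl fun v _ => by rw [hyz v]
        rw [e]
        exact Finset.prod_subtype_of_mem (fun v => y v - 1) fun v hv => hs hv
      · rfl
    · intro W hW W' hW' hWW
      exact hJinj (Finset.mem_coe.2 (Finset.mem_filter.1 hW).1)
        (Finset.mem_coe.2 (Finset.mem_filter.1 hW').1) hWW
  set L' : Finset (Fin k) := J L with hL'
  -- no zero
  have hnz : ∀ z ∈ Low_C η L', Low_Q F z ≠ 0 := by
    rintro z ⟨hz1, hz2⟩
    set y : V → ℂ := fun v => if hv : v ∈ X then z (ι ⟨v, hv⟩) else 1 with hy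
    have hyX : ∀ (v : V) (hv : v ∈ X), y v = z (ι ⟨v, hv⟩) := fun v hv => dif_pos hv
    rw [hPP y z fun v => (hyX v.1 v.2).symm]
    refine h V X ⊥ hSP y ⟨fun v hv => ?_, fun v hv _ => ?_, fun v hv => ?_, fun v hv w hw hvw _ hvw' => ?_⟩
    · rw [hyX v hv, hz1]
    · rw [hyX v hv]
      intro h0
      have := hz1 (ι ⟨v, hv⟩)
      rw [h0, norm_zero] at this
      exact zero_ne_one this
    · rw [bot_sup_eq]
      have h1 : v ∈ span (ZMod 2) (X : Set V) := subset_span hv
      rw [← hspan] at h1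
      refine span_mono ?_ h1
      intro w hw
      have hw' : w ∈ L := hw
      refine ⟨hL hw', fun h2 => ?_⟩
      rw [hyX w (hL hw')] at h2
      have h3 : ι ⟨w, hL hw'⟩ ∈ L' := by
        rw [hL', hJ]
        exact Finset.mem_map_of_mem _ (Finset.mem_subtype.2 hw')
      have h4 := hz2 _ h3
      rw [h2, sub_self, norm_zero] at h4
      linarith
    · exfalso
      have h1 : v + w = 0 := (mem_bot _).1 hvw'
      have h2 : w + w = 0 := by
        have h3 : (2 : ZMod 2) • w = 0 := by
          have h4 : (2 : ZMod 2) = 0 := rfl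
          rw [h4, zero_smul]
        have h5 : (2 : ZMod 2) • w = w + w := by
          have h6 : (2 : ZMod 2) = 1 + 1 := rfl
          rw [h6, add_smul, one_smul]
        rw [← h5, h3]
      exact hvw (add_right_cancel (h1.trans h2.symm))
  -- the given point
  set z : Fin k → ℂ := fun j => if hj : ∃ v : {v // v ∈ X}, ι v = j then x hj.choose else 1 with hz
  have hzx : ∀ v : {v // v ∈ X}, z (ι v) = x v := by
    intro v
    have h1 : ∃ w : {v // v ∈ X}, ι w = ι v := ⟨v, rfl⟩
    have h2 : z (ι v) = x h1.choose := dif_pos h1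
    rw [h2, ι.injective h1.choose_spec]
  have hzC : z ∈ Low_C η L' := by
    refine ⟨fun j => ?_, fun j hj => ?_⟩
    · by_cases h1 : ∃ v : {v // v ∈ X}, ι v = j
      · obtain ⟨v, rfl⟩ := h1
        rw [hzx]
        exact hx1 v v.2
      · have h2 : z j = 1 := dif_neg h1
        rw [h2, norm_one]
    · rw [hL', hJ] at hj
      obtain ⟨v, hv, rfl⟩ := Finset.mem_map.1 hj
      rw [hzx]
      exact hx2 v (Finset.mem_subtype.1 hv)
  rw [← hPP x z hzx]
  exact (hp₀ (F, L')).trans (hc (F, L') hnz z hzC)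

end Pool.Agent.SPT
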