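import Mathlib
import Pool.Agent.SPT.Defs

/-!
# SPT: a common angle
-/

set_option autoImplicit false

namespace Pool.Agent.SPT

private lemma th_two (x d : ℝ) (hd : 0 < d) (h : Real.cos d < Real.cos x) :
    ∃ m : ℤ, |x - 2 * Real.pi * m| < d := by
  have hpi := Real.pi_pos
  set m : ℤ := round (x / (2 * Real.pi)) with hm
  refine ⟨m, ?_⟩
  by_contra hc
  rw [not_lt] at hc
  have h1 : |x / (2 * Real.pi) - m| ≤ 1 / 2 := abs_sub_round _
  have h2 : x - 2 * Real.pi * m = (2 * Real.pi) * (x / (2 * Real.pi) - m) := by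
    field_simp
  have h3 : |x - 2 * Real.pi * m| ≤ Real.pi := by
    rw [h2, abs_mul, abs_of_pos (by positivity : (0 : ℝ) < 2 * Real.pi)]
    nlinarith
  have h4 : Real.cos (x - 2 * Real.pi * m) = Real.cos x := by
    have : x - 2 * Real.pi * m = x - m * (2 * Real.pi) := by ring
    rw [this, Real.cos_sub_int_mul_two_pi]
  have h5 := Real.cos_le_cos_of_nonneg_of_le_pi hd.le h3 hc
  rw [Real.cos_abs, h4] at h5
  exact absurd h (not_lt.2 h5)

private lemma th_one (C : ℝ) (hC : 0 < C) (hC2 : C ≤ Real.pi) (b : ℝ) (hb : b ≠ 0) (t : ℝ) :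
    ∃ u : ℝ, t ≤ u ∧ u + C / |b| / 4 ≤ t + C / |b| ∧
      ∀ θ : ℝ, u ≤ θ → θ ≤ u + C / |b| / 4 → Real.cos (b * θ) ≤ Real.cos (C / 8) := by
  have hpi := Real.pi_pos
  have hb' : 0 < |b| := abs_pos.2 hb
  set l := C / |b| with hl
  have hl0 : 0 < l := div_pos hC hb'
  have hlb : l * |b| = C := by
    rw [hl]
    field_simp
  by_contra hcon
  push Not at hcon
  obtain ⟨θ₁, h1, h2, h3⟩ := hcon t le_rfl (by linarith)
  obtain ⟨θ₂, g1, g2, g3⟩ := hcon (t + 3 * l / 4) (by linarith) (by linarith)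
  obtain ⟨m₁, hm₁⟩ := th_two _ _ (by linarith) h3
  obtain ⟨m₂, hm₂⟩ := th_two _ _ (by linarith) g3
  have hd1 : C / 2 ≤ |b * θ₂ - b * θ₁| := by
    rw [← mul_sub, abs_mul, abs_of_nonneg (by linarith : (0 : ℝ) ≤ θ₂ - θ₁)]
    nlinarith
  have hd2 : |b * θ₂ - b * θ₁| ≤ C := by
    rw [← mul_sub, abs_mul, abs_of_nonneg (by linarith : (0 : ℝ) ≤ θ₂ - θ₁)]
    nlinarith
  have hmm : m₁ = m₂ := by
    by_contra hne
    have h5 : (1 : ℝ) ≤ |(m₂ : ℝ) - m₁| := by
      have : (1 : ℤ) ≤ |m₂ - m₁| := Int.one_le_abs (sub_ne_zero.2 (Ne.symm hne))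
      exact_mod_cast this
    have h6 : 2 * Real.pi * |(m₂ : ℝ) - m₁| < C + C / 4 := by
      have h7 : 2 * Real.pi * ((m₂ : ℝ) - m₁) = (b * θ₂ - b * θ₁) -
        (b * θ₂ - 2 * Real.pi * m₂) + (b * θ₁ - 2 * Real.pi * m₁) := by ring
      have h8 : 2 * Real.pi * |(m₂ : ℝ) - m₁| = |2 * Real.pi * ((m₂ : ℝ) - m₁)| := by
        rw [abs_mul, abs_of_pos (by positivity : (0 : ℝ) < 2 * Real.pi)]
      rw [h8, h7]
      have h9 := abs_add_le ((b * θ₂ - b * θ₁) - (b * θ₂ - 2 * Real.pi * m₂))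
        (b * θ₁ - 2 * Real.pi * m₁)
      have h10 := abs_sub (b * θ₂ - b * θ₁) (b * θ₂ - 2 * Real.pi * m₂)
      linarith
    nlinarith
  subst hmm
  have h11 := abs_sub (b * θ₂ - 2 * Real.pi * m₁) (b * θ₁ - 2 * Real.pi * m₁)
  have h12 : (b * θ₂ - 2 * Real.pi * m₁) - (b * θ₁ - 2 * Real.pi * m₁) = b * θ₂ - b * θ₁ := by
    ring
  rw [h12] at h11
  linarith

private lemma th_norm (x : ℝ) :
    ‖Complex.exp ((x : ℂ) * Complex.I) - 1‖ ^ 2 = 2 - 2 * Real.cos x := by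
  rw [← Complex.normSq_eq_norm_sq, Complex.normSq_apply, Complex.sub_re, Complex.sub_im,
    Complex.exp_ofReal_mul_I_re, Complex.exp_ofReal_mul_I_im, Complex.one_re, Complex.one_im]
  nlinarith [Real.sin_sq_add_cos_sq x]

private lemma th_main (k : ℕ) : ∀ C : ℝ, 0 < C → C ≤ Real.pi → ∃ η : ℝ, 0 < η ∧
    ∀ s : Finset ℤ, s.card ≤ k → ∀ t l : ℝ, (∀ a ∈ s, C ≤ l * |(a : ℝ)|) → 0 < l →
    ∃ θ : ℝ, t ≤ θ ∧ θ ≤ t + l ∧ ∀ a ∈ s, η ≤ ‖Complex.exp (((a * θ : ℝ) : ℂ) * Complex.I) - 1‖ := by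
  induction k with
  | zero =>
    intro C _ _
    refine ⟨1, one_pos, fun s hs t l _ hl => ⟨t, le_rfl, by linarith, fun a ha => ?_⟩⟩
    have : s = ∅ := Finset.card_eq_zero.1 (Nat.le_zero.1 hs)
    rw [this] at ha
    exact absurd ha (Finset.notMem_empty a)
  | succ k ih =>
    intro C hC hC2
    obtain ⟨η, hη, H⟩ := ih (C / 4) (by linarith) (by linarith)
    have hcos : Real.cos (C / 8) < 1 := by
      have := Real.cos_lt_cos_of_nonneg_of_le_pi (x := 0) (y := C / 8) le_rfl (by linarith)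
        (by linarith)
      rwa [Real.cos_zero] at this
    refine ⟨min η (Real.sqrt (2 - 2 * Real.cos (C / 8))),
      lt_min hη (Real.sqrt_pos.2 (by linarith)), fun s hs t l hs2 hl => ?_⟩
    rcases s.eq_empty_or_nonempty with h0 | hne
    · refine ⟨t, le_rfl, by linarith, fun a ha => ?_⟩
      rw [h0] at ha
      exact absurd ha (Finset.notMem_empty a)
    · obtain ⟨b, hb, hmin⟩ := Finset.exists_min_image s (fun a => |(a : ℝ)|) hne
      have hbC := hs2 b hb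
      have hb0 : (b : ℝ) ≠ 0 := by
        intro h
        rw [h, abs_zero, mul_zero] at hbC
        linarith
      have hb' : 0 < |(b : ℝ)| := abs_pos.2 hb0
      obtain ⟨u, hu1, hu2, hu3⟩ := th_one C hC hC2 b hb0 t
      set l1 := C / |(b : ℝ)| with hl1
      have hl1b : l1 * |(b : ℝ)| = C := by
        rw [hl1]
        field_simp
      have hl1pos : 0 < l1 := div_pos hC hb'
      have hl1l : l1 ≤ l := by
        rw [hl1, div_le_iff₀ hb']
        exact hbC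
      obtain ⟨θ, ht1, ht2, ht3⟩ := H (s.erase b) (by
        rw [Finset.card_erase_of_mem hb]
        omega) u (l1 / 4) (by
        intro a ha
        have h1 : |(b : ℝ)| ≤ |(a : ℝ)| := hmin a (Finset.mem_of_mem_erase ha)
        nlinarith) (by linarith)
      refine ⟨θ, by linarith, by linarith, fun a ha => ?_⟩
      by_cases hab : a = b
      · subst hab
        refine (min_le_right _ _).trans ?_
        apply Real.sqrt_le_iff.2
        refine ⟨norm_nonneg _, ?_⟩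
        rw [th_norm]
        have := hu3 θ ht1 ht2
        linarith
      · exact (min_le_left _ _).trans (ht3 a (Finset.mem_erase.2 ⟨hab, ha⟩))

/-- the general form -/
theorem thm_ThetaGen (k : ℕ) (C : ℝ) (hC : 0 < C) (hC2 : C ≤ Real.pi) : ∃ η : ℝ, 0 < η ∧
    ∀ s : Finset ℤ, s.card ≤ k → ∀ t l : ℝ, (∀ a ∈ s, C ≤ l * |(a : ℝ)|) → 0 < l →
    ∃ θ : ℝ, t ≤ θ ∧ θ ≤ t + l ∧ ∀ a ∈ s, η ≤ ‖Complex.exp (((a * θ : ℝ) : ℂ) * Complex.I) - 1‖ :=
  th_main k C hC hC2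

/-- **Module C** -/
theorem thm_Theta : St_Theta := fun k => th_main k Real.pi Real.pi_pos le_rfl

end Pool.Agent.SPT
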