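import Mathlib
import Pool.Agent.SPT.Stmt
import Pool.Agent.SPT.Ne
import Pool.Agent.SPT.Lower
import Pool.Agent.SPT.Theta
import Pool.Agent.SPT.Eval
import Pool.Agent.UNI.Fin

/-!
# SPT, module E: assembly
-/

set_option autoImplicit false
set_option linter.unusedSectionVars false

open Submodule LaurentPolynomial

namespace Pool.Agent.SPT

open Pool.Agent.Helper16.Knotoid Pool.Agent.UNI

/-! ### the evaluation -/

theorem Aθ_ne (θ : ℝ) : Aθ θ ≠ 0 := Complex.exp_ne_zero _

theorem Aθ_norm (θ : ℝ) : ‖Aθ θ‖ = 1 := Complex.norm_exp_ofReal_mul_I _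

/-- the evaluation at `Aθ θ` -/
noncomputable def evθ (θ : ℝ) : LaurentPolynomial ℤ →+* ℂ :=
  LaurentPolynomial.eval₂ (Int.castRingHom ℂ) (Units.mk0 (Aθ θ) (Aθ_ne θ))

theorem evθ_T (θ : ℝ) (k : ℤ) : evθ θ (T k) = Aθ θ ^ k := by
  unfold evθ
  rw [eval₂_T, Units.val_zpow_eq_zpow_val, Units.val_mk0]

theorem sum_coeff (f : ℤ[T;T⁻¹]) : f = ∑ i ∈ f.coeff.support, C (f.coeff i) * T i := by
  apply LaurentPolynomial.ext
  intro a
  rw [AddMonoidAlgebra.coeff_sum, Finsupp.finsetSum_apply]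
  have h : ∀ i, (C (f.coeff i) * T i : ℤ[T;T⁻¹]).coeff a = if i = a then f.coeff i else 0 := by
    intro i
    rw [← single_eq_C_mul_T, AddMonoidAlgebra.coeff_single, Finsupp.single_apply]
  simp only [h]
  rw [Finset.sum_ite_eq']
  split_ifs with h1
  · rfl
  · exact Finsupp.notMem_support_iff.1 h1

/-- the norm of a value is at most the sum of the absolute values of the coefficients -/
theorem norm_ev_le (θ : ℝ) (f : ℤ[T;T⁻¹]) : ‖evθ θ f‖ ≤ (coeffSum f : ℝ) := by
  have h1 : evθ θ f = ∑ i ∈ f.coeff.support, evθ θ (C (f.coeff i) * T i) := by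
    conv_lhs => rw [sum_coeff f]
    rw [map_sum]
  rw [h1]
  refine (norm_sum_le _ _).trans ?_
  unfold coeffSum
  push_cast
  refine Finset.sum_le_sum fun i _ => ?_
  unfold evθ
  rw [eval₂_C_mul_T, Units.val_zpow_eq_zpow_val, Units.val_mk0, norm_mul, norm_zpow, Aθ_norm,
    one_zpow, mul_one, eq_intCast, Complex.norm_intCast]

/-! ### knotoid diagrams -/

variable {n : ℕ}

/-- the value of the normalized bracket -/
theorem norm_f (D : GaussDiagram n) (σ : Fin n → Bool) (θ : ℝ) :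
    ‖evθ θ D.normalizedBracket‖ = ‖∑ s : Fin n → Bool, (∏ c, if s c then Aθ θ else (Aθ θ)⁻¹) *
      (-(Aθ θ) ^ 2 - ((Aθ θ)⁻¹) ^ 2) ^
        (Module.finrank (ZMod 2) (LinearMap.ker
          (D.gmat σ + Matrix.diagonal fun c =>
            if s c = σ c then (0 : ZMod 2) else 1).mulVecLin))‖ := by
  unfold GaussDiagram.normalizedBracket GaussDiagram.bracket GaussDiagram.stateSign
  rw [map_mul, map_mul, map_pow, map_neg, map_one, evθ_T, norm_mul, norm_mul, norm_pow, norm_neg,
    norm_one, one_pow, one_mul, norm_zpow, Aθ_norm, one_zpow, one_mul, map_sum]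
  congr 1
  refine Finset.sum_congr rfl fun s _ => ?_
  rw [map_mul, map_pow, map_sub, map_neg, evθ_T, evθ_T, evθ_T, zpow_ssum _ _ (Aθ_ne θ),
    D.comps_eq, gmat_SM D σ s, Nat.add_sub_cancel_left, zpow_neg, inv_pow]
  rfl

/-- the rows of the cut matrix -/
theorem row_eq (D : GaussDiagram n) (σ : Fin n → Bool) (c : Fin n) :
    row (D.Cut σ) c = D.gmat σ c := by
  funext e
  unfold row
  classical
  rw [gmat_ite D σ c e]

theorem rank_pos (M : Matrix (Fin n) (Fin n) (ZMod 2)) (c d : Fin n) (h : M c d ≠ 0) :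
    1 ≤ M.rank := by
  by_contra h1
  have h2 : M.rank = 0 := by omega
  unfold Matrix.rank at h2
  rw [Submodule.finrank_eq_zero, LinearMap.range_eq_bot] at h2
  apply h
  have h3 := congrFun (LinearMap.congr_fun h2 (Pi.single d 1)) c
  rw [Matrix.mulVecLin_apply, Matrix.mulVec_single_one] at h3
  exact h3

/-- **Knotoid diagrams with long twists in a series-parallel pattern** -/
theorem thm_Knotoid : St_Knotoid := by
  classical
  intro k B
  obtain ⟨η, hη, hTheta⟩ := thm_Theta k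
  obtain ⟨c, hc, hLower⟩ := thm_Lower thm_Ne k η hη
  obtain ⟨t, ht0, ht1, ht2, ht3⟩ : ∃ t : ℝ, 0 < t ∧ t < 1 ∧ 3 ^ k * t ≤ c / 2 ∧
      t * (B + 1) ≤ c / 2 := by
    refine ⟨min (1 / 2) (min (c / 2 / 3 ^ k) (c / 2 / (B + 1))), ?_, ?_, ?_, ?_⟩
    · refine lt_min (by norm_num) (lt_min ?_ ?_) <;> positivity
    · exact (min_le_left _ _).trans_lt (by norm_num)
    · rw [mul_comm, ← le_div_iff₀ (by positivity)]
      exact (min_le_right _ _).trans (min_le_left _ _)
    · rw [← le_div_iff₀ (by positivity)]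
      exact (min_le_right _ _).trans (min_le_right _ _)
  obtain ⟨N, hN⟩ := exists_nat_ge (Real.pi / (t / 2))
  refine ⟨N, fun n D σ ⟨⟨c₀, d₀, hR⟩, hk, hSP, hspan⟩ => ?_⟩
  have hrows : rows (D.Cut σ) = Finset.univ.image (D.gmat σ) := by
    unfold rows
    exact Finset.image_congr fun c _ => row_eq D σ c
  have htw : ∀ v, twist (D.Cut σ) σ v =
      signedCount σ (Finset.univ.filter fun c => D.gmat σ c = v) := by
    intro v
    unfold twist signedCount
    refine Finset.sum_congr ?_ fun _ _ => rfl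
    ext c
    rw [Finset.mem_filter, Finset.mem_filter, row_eq]
  obtain ⟨L, hL⟩ : ∃ L, L = (rows (D.Cut σ)).filter fun v => (N : ℤ) ≤ |twist (D.Cut σ) σ v| :=
    ⟨_, rfl⟩
  obtain ⟨θ, hθ1, hθ2, hθ⟩ := hTheta (L.image (twist (D.Cut σ) σ))
    (Finset.card_image_le.trans ((Finset.card_le_card (by rw [hL]; exact Finset.filter_subset _ _)).trans hk))
    (t / 2) (t / 2) (fun a ha => by
      obtain ⟨v, hv, rfl⟩ := Finset.mem_image.1 ha
      rw [hL, Finset.mem_filter] at hv
      have h1 : (N : ℝ) ≤ |((twist (D.Cut σ) σ v : ℤ) : ℝ)| := by exact_mod_cast hv.2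
      calc Real.pi = t / 2 * (Real.pi / (t / 2)) := by field_simp
        _ ≤ t / 2 * |((twist (D.Cut σ) σ v : ℤ) : ℝ)| :=
            mul_le_mul_of_nonneg_left (hN.trans h1) (by positivity)) (by positivity)
  have hθ0 : 0 < θ := by linarith
  have hθt : θ ≤ t := by linarith
  have hev := thm_Eval (Fin n) (D.gmat σ) (D.gmat_symm σ) σ θ hθ0 (by linarith)
  have hlow := hLower (Fin n → ZMod 2) (Finset.univ.image (D.gmat σ)) L (by rwa [← hrows])
    (by rwa [← hrows]) (by rw [hL, ← hrows]; exact Finset.filter_subset _ _) (by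
      rw [hL, ← hrows, ← hspan]
      congr 1
      ext v
      simp) (fun v => Complex.exp (((
        signedCount σ (Finset.univ.filter fun c => D.gmat σ c = v) * θ : ℝ) : ℂ) * Complex.I))
    (fun v _ => Complex.norm_exp_ofReal_mul_I _) (fun v hv => by
      have h1 := hθ _ (Finset.mem_image_of_mem _ hv)
      rw [htw v] at h1
      exact h1)
  have hcard : (3 : ℝ) ^ (Finset.univ.image (D.gmat σ)).card ≤ 3 ^ k :=
    pow_le_pow_right₀ (by norm_num) (by rwa [← hrows])
  have hrank : 1 ≤ (D.gmat σ).rank := rank_pos _ c₀ d₀ (by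
    rw [(cut_iff D σ c₀ d₀).1 hR]
    exact one_ne_zero)
  rw [← norm_f D σ θ] at hev
  have hle := norm_ev_le θ D.normalizedBracket
  have hpow : θ ^ (D.gmat σ).rank ≤ θ := by
    calc θ ^ (D.gmat σ).rank ≤ θ ^ 1 := pow_le_pow_of_le_one hθ0.le (by linarith) hrank
      _ = θ := pow_one θ
  have h1 : c / 2 ≤ θ * ‖evθ θ D.normalizedBracket‖ := by
    have h2 : (3 : ℝ) ^ (Finset.univ.image (D.gmat σ)).card * θ ≤ c / 2 := by
      calc (3 : ℝ) ^ (Finset.univ.image (D.gmat σ)).card * θ ≤ 3 ^ k * t :=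
            mul_le_mul hcard hθt hθ0.le (by positivity)
        _ ≤ c / 2 := ht2
    have h3 : θ ^ (D.gmat σ).rank * ‖evθ θ D.normalizedBracket‖ ≤
        θ * ‖evθ θ D.normalizedBracket‖ := mul_le_mul_of_nonneg_right hpow (norm_nonneg _)
    linarith
  have h4 : t * (B + 1) ≤ t * (coeffSum D.normalizedBracket : ℝ) := by
    calc t * (B + 1) ≤ c / 2 := ht3
      _ ≤ θ * ‖evθ θ D.normalizedBracket‖ := h1
      _ ≤ t * (coeffSum D.normalizedBracket : ℝ) :=
          mul_le_mul hθt hle (norm_nonneg _) ht0.le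
  have h5 : ((B : ℝ) + 1) ≤ (coeffSum D.normalizedBracket : ℝ) := le_of_mul_le_mul_left h4 ht0
  have h6 : ((B : ℤ) + 1) ≤ coeffSum D.normalizedBracket := by exact_mod_cast h5
  omega

/-- **Knot diagrams with long twists in a series-parallel pattern** -/
theorem thm_Knot : St_Knot := by
  intro k B
  obtain ⟨N, hN⟩ := thm_Knotoid k B
  refine ⟨N, fun n g e σ h => ?_⟩
  have h1 : GaussJones.Cut g e σ = (cutOpen g e).Cut σ := by
    funext i j
    exact propext (cut_closed g e σ i j)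
  have hn : 0 < n := by
    obtain ⟨⟨c, _⟩, _⟩ := h
    exact c.pos
  rw [h1] at h
  rw [f_closed hn]
  exact hN n _ σ h

end Pool.Agent.SPT
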