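import Mathlib
import Pool.Agent.SPT.NZ

/-!
# SPT, module CL: the cluster lemma (idea of helper3 and helper57)
-/

set_option autoImplicit false
set_option linter.unusedSectionVars false

open Submodule MeasureTheory

namespace Pool.Agent.SPT

/-! ### a good scale -/

theorem Clu_scale (ε τ : ℝ) (hε : 0 < ε) (hε1 : ε < 1) (hτ : 0 < τ) (D : Finset ℝ) (J : ℕ)
    (hJ : D.card ≤ J) (h0 : ∀ d ∈ D, 0 ≤ d) :
    ∃ j ≤ J, ∀ d ∈ D, d * (τ * ε ^ (2 * j)) ≤ ε ∨ ε⁻¹ ≤ d * (τ * ε ^ (2 * j)) := by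
  by_contra h
  push Not at h
  have h1 : ∀ j : ℕ, ∃ d, j ≤ J → d ∈ D ∧ ε < d * (τ * ε ^ (2 * j)) ∧
      d * (τ * ε ^ (2 * j)) < ε⁻¹ := by
    intro j
    by_cases hj : j ≤ J
    · obtain ⟨d, hd, hd1, hd2⟩ := h j hj
      exact ⟨d, fun _ => ⟨hd, hd1, hd2⟩⟩
    · exact ⟨0, fun h => absurd h hj⟩
  choose f hf using h1
  have key : ∀ i j : ℕ, i ≤ J → j ≤ J → i < j → f i ≠ f j := by
    intro i j hi hj hij he
    obtain ⟨hd, -, h2⟩ := hf i hi
    obtain ⟨-, h3, -⟩ := hf j hj
    rw [← he] at h3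
    have h4 : f i * (τ * ε ^ (2 * j)) = f i * (τ * ε ^ (2 * i)) * ε ^ (2 * (j - i)) := by
      have h5 : ε ^ (2 * j) = ε ^ (2 * i) * ε ^ (2 * (j - i)) := by
        rw [← pow_add]
        congr 1
        omega
      rw [h5]
      ring
    have h5 : ε ^ (2 * (j - i)) ≤ ε ^ 2 := pow_le_pow_of_le_one hε.le hε1.le (by omega)
    have h6 : 0 ≤ f i * (τ * ε ^ (2 * i)) :=
      mul_nonneg (h0 _ hd) (mul_nonneg hτ.le (pow_nonneg hε.le _))
    have h7 : f i * (τ * ε ^ (2 * i)) * ε ^ (2 * (j - i)) ≤ ε⁻¹ * ε ^ 2 :=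
      mul_le_mul h2.le h5 (pow_nonneg hε.le _) (inv_nonneg.2 hε.le)
    have h8 : ε⁻¹ * ε ^ 2 = ε := by
      field_simp
    rw [h4] at h3
    linarith
  have h2 : D.card < (Finset.range (J + 1)).card := by
    rw [Finset.card_range]
    omega
  obtain ⟨i, hi, j, hj, hne, he⟩ := Finset.exists_ne_map_eq_of_card_lt_of_maps_to h2
    (f := f) (fun i hi => (hf i (by rw [Finset.coe_range, Set.mem_Iio] at hi; omega)).1)
  rw [Finset.mem_range] at hi hj
  rcases lt_or_gt_of_ne hne with h3 | h3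
  · exact key i j (by omega) (by omega) h3 he
  · exact key j i (by omega) (by omega) h3 he.symm

/-! ### averages -/

/-- the average of `exp (i d θ)` over `[t / 2, t]` -/
noncomputable def av (t d : ℝ) : ℂ :=
  (2 / t : ℝ) * ∫ θ in (t / 2)..t, Complex.exp (((d * θ : ℝ) : ℂ) * Complex.I)

theorem av_close (t d : ℝ) (ht : 0 < t) : ‖av t d - 1‖ ≤ |d| * t := by
  have h1 : (1 : ℂ) = (2 / t : ℝ) * ∫ _θ in (t / 2)..t, (1 : ℂ) := by
    rw [intervalIntegral.integral_const, Complex.real_smul, mul_one, ← Complex.ofReal_mul,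
      ← Complex.ofReal_one]
    congr 1
    field_simp
    ring
  have h2 : av t d - 1 = (2 / t : ℝ) * ∫ θ in (t / 2)..t,
      (Complex.exp (((d * θ : ℝ) : ℂ) * Complex.I) - 1) := by
    conv_lhs => rw [h1]
    unfold av
    rw [intervalIntegral.integral_sub, mul_sub]
    · apply Continuous.intervalIntegrable
      fun_prop
    · exact intervalIntegrable_const
  rw [h2, norm_mul]
  have h3 : ‖∫ θ in (t / 2)..t, (Complex.exp (((d * θ : ℝ) : ℂ) * Complex.I) - 1)‖ ≤
      (|d| * t) * |t - t / 2| := by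
    apply intervalIntegral.norm_integral_le_of_norm_le_const
    intro θ hθ
    rw [Set.uIoc_of_le (by linarith)] at hθ
    have h4 : ‖Complex.exp (((d * θ : ℝ) : ℂ) * Complex.I) - 1‖ ≤ ‖(d * θ : ℝ)‖ := by
      rw [mul_comm]
      exact Real.norm_exp_I_mul_ofReal_sub_one_le
    refine h4.trans ?_
    rw [Real.norm_eq_abs, abs_mul]
    exact mul_le_mul_of_nonneg_left (by rw [abs_of_pos (by linarith [hθ.1])]; exact hθ.2)
      (abs_nonneg d)
  have h4 : |t - t / 2| = t / 2 := by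
    rw [abs_of_pos (by linarith)]
    ring
  rw [h4] at h3
  have h5 : ‖((2 / t : ℝ) : ℂ)‖ = 2 / t := by
    rw [Complex.norm_real, Real.norm_eq_abs, abs_of_pos (by positivity)]
  rw [h5]
  calc 2 / t * ‖∫ θ in (t / 2)..t, (Complex.exp (((d * θ : ℝ) : ℂ) * Complex.I) - 1)‖ ≤
        2 / t * ((|d| * t) * (t / 2)) := mul_le_mul_of_nonneg_left h3 (by positivity)
    _ = |d| * t := by field_simp

theorem av_far (t d : ℝ) (ht : 0 < t) (hd : d ≠ 0) : ‖av t d‖ ≤ 4 / (|d| * t) := by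
  unfold av
  have h1 : ∀ θ : ℝ, Complex.exp (((d * θ : ℝ) : ℂ) * Complex.I) =
      Complex.exp (((d : ℂ) * Complex.I) * θ) := by
    intro θ
    congr 1
    push_cast
    ring
  have hc : (d : ℂ) * Complex.I ≠ 0 := mul_ne_zero (by exact_mod_cast hd) Complex.I_ne_zero
  simp only [h1]
  rw [integral_exp_mul_complex hc, norm_mul, norm_div]
  have h2 : ‖(d : ℂ) * Complex.I‖ = |d| := by
    rw [norm_mul, Complex.norm_I, mul_one, Complex.norm_real, Real.norm_eq_abs]
  have h3 : ‖((2 / t : ℝ) : ℂ)‖ = 2 / t := by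
    rw [Complex.norm_real, Real.norm_eq_abs, abs_of_pos (by positivity)]
  have h4 : ‖Complex.exp ((d : ℂ) * Complex.I * (t : ℂ)) -
      Complex.exp ((d : ℂ) * Complex.I * ((t / 2 : ℝ) : ℂ))‖ ≤ 2 := by
    refine (norm_sub_le _ _).trans ?_
    rw [← h1, ← h1, Complex.norm_exp_ofReal_mul_I, Complex.norm_exp_ofReal_mul_I]
    norm_num
  rw [h2, h3]
  have hd' : 0 < |d| := abs_pos.2 hd
  calc 2 / t * (‖Complex.exp ((d : ℂ) * Complex.I * (t : ℂ)) -
      Complex.exp ((d : ℂ) * Complex.I * ((t / 2 : ℝ) : ℂ))‖ / |d|) ≤ 2 / t * (2 / |d|) := by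
        gcongr
    _ = 4 / (|d| * t) := by
        field_simp
        norm_num

/-! ### linear algebra -/

/-- the indicator of a set -/
def ind {k : ℕ} (S : Finset (Fin k)) : Fin k → ℚ := fun i => if i ∈ S then 1 else 0

/-- the difference of two indicators -/
def dif {k : ℕ} (p : Finset (Fin k) × Finset (Fin k)) : Fin k → ℚ := ind p.1 - ind p.2

theorem sum_ind {k : ℕ} (S : Finset (Fin k)) (a : Fin k → ℝ) :
    ∑ i ∈ S, a i = ∑ i, ((ind S i : ℚ) : ℝ) * a i := by
  unfold ind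
  have h : ∀ i, (((if i ∈ S then 1 else 0 : ℚ)) : ℝ) * a i = if i ∈ S then a i else 0 := by
    intro i
    split_ifs <;> simp
  simp only [h]
  rw [Finset.sum_ite_mem, Finset.univ_inter]

theorem Clu_LA_one {k : ℕ} (R : Finset (Finset (Fin k) × Finset (Fin k))) (i : Fin k) :
    ∃ K : ℝ, 0 ≤ K ∧ ((Pi.single i 1 : Fin k → ℚ) ∈ span ℚ (dif '' (R : Set _)) →
      ∀ (a : Fin k → ℝ) (δ : ℝ), (∀ p ∈ R, |∑ j ∈ p.1, a j - ∑ j ∈ p.2, a j| ≤ δ) →
        |a i| ≤ K * δ) := by
  by_cases h : (Pi.single i 1 : Fin k → ℚ) ∈ span ℚ (dif '' (R : Set _))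
  · rw [Submodule.mem_span_image_finset_iff_exists_fun] at h
    obtain ⟨c, hc⟩ := h
    refine ⟨∑ p : R, |((c p : ℚ) : ℝ)|, Finset.sum_nonneg fun _ _ => abs_nonneg _, ?_⟩
    intro _ a δ ha
    have h1 : a i = ∑ p : R, ((c p : ℚ) : ℝ) * (∑ j ∈ p.1.1, a j - ∑ j ∈ p.1.2, a j) := by
      have h2 : a i = ∑ j, (((Pi.single i 1 : Fin k → ℚ) j : ℚ) : ℝ) * a j := by
        rw [Finset.sum_eq_single i]
        · rw [Pi.single_eq_same]
          simp
        · intro j _ hj
          rw [Pi.single_eq_of_ne hj]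
          simp
        · intro hi
          exact absurd (Finset.mem_univ i) hi
      have h3 : ∀ j, (((Pi.single i 1 : Fin k → ℚ) j : ℚ) : ℝ) =
          ∑ p : R, ((c p : ℚ) : ℝ) * ((dif p.1 j : ℚ) : ℝ) := by
        intro j
        rw [← hc, Finset.sum_apply]
        push_cast
        refine Finset.sum_congr rfl fun p _ => ?_
        simp only [Pi.smul_apply, smul_eq_mul]
        push_cast
        rfl
      rw [h2]
      simp only [h3]
      simp only [Finset.sum_mul]
      rw [Finset.sum_comm]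
      refine Finset.sum_congr rfl fun p _ => ?_
      have hp1 := sum_ind p.1.1 a
      have hp2 := sum_ind p.1.2 a
      rw [hp1, hp2, ← Finset.sum_sub_distrib, Finset.mul_sum]
      refine Finset.sum_congr rfl fun j _ => ?_
      unfold dif
      rw [Pi.sub_apply]
      push_cast
      ring
    rw [h1]
    refine (Finset.abs_sum_le_sum_abs _ _).trans ?_
    rw [Finset.sum_mul]
    refine Finset.sum_le_sum fun p _ => ?_
    rw [abs_mul]
    exact mul_le_mul_of_nonneg_left (ha p.1 p.2) (abs_nonneg _)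
  · exact ⟨0, le_refl _, fun h1 => absurd h1 h⟩

theorem Clu_LA (k : ℕ) : ∃ K : ℝ, 0 ≤ K ∧
    ∀ (R : Finset (Finset (Fin k) × Finset (Fin k))) (i : Fin k),
      (Pi.single i 1 : Fin k → ℚ) ∈ span ℚ (dif '' (R : Set _)) →
      ∀ (a : Fin k → ℝ) (δ : ℝ), 0 ≤ δ →
        (∀ p ∈ R, |∑ j ∈ p.1, a j - ∑ j ∈ p.2, a j| ≤ δ) → |a i| ≤ K * δ := by
  classical
  choose K hK0 hK using fun (q : Finset (Finset (Fin k) × Finset (Fin k)) × Fin k) =>
    Clu_LA_one q.1 q.2
  refine ⟨∑ q, K q, Finset.sum_nonneg fun q _ => hK0 q, fun R i h a δ hδ ha => ?_⟩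
  refine (hK (R, i) h a δ ha).trans ?_
  exact mul_le_mul_of_nonneg_right
    (Finset.single_le_sum (f := K) (fun q _ => hK0 q) (Finset.mem_univ (R, i))) hδ

/-- an integral vector which respects the relations and does not vanish at the places `i ∈ F` -/
theorem Clu_u {k : ℕ} (R : Set (Finset (Fin k) × Finset (Fin k))) (F : Finset (Fin k))
    (h : ∀ i ∈ F, (Pi.single i 1 : Fin k → ℚ) ∉ span ℚ (dif '' R)) :
    ∃ u : Fin k → ℤ, (∀ i ∈ F, u i ≠ 0) ∧ ∀ p ∈ R, ∑ i ∈ p.1, u i = ∑ i ∈ p.2, u i := by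
  classical
  obtain ⟨φ, hφ, hφ0⟩ := Module.Dual.exists_forall_mem_ne_zero_of_forall_exists
    (K := ℚ) (ι := F) (span ℚ (dif '' R)).dualAnnihilator
    (fun i => Module.Dual.eval ℚ (Fin k → ℚ) (Pi.single (i : Fin k) 1)) (fun i => by
      obtain ⟨f, hf, hf'⟩ := Submodule.exists_dual_map_eq_bot_of_notMem (h i i.2) inferInstance
      refine ⟨f, ?_, hf⟩
      rw [Submodule.mem_dualAnnihilator]
      intro w hw
      have h1 : f w ∈ (span ℚ (dif '' R)).map f := ⟨w, hw, rfl⟩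
      rw [hf'] at h1
      exact h1)
  rw [Submodule.mem_dualAnnihilator] at hφ
  obtain ⟨M, hM⟩ : ∃ M : ℕ, M = ∏ i : Fin k, (φ (Pi.single i 1)).den := ⟨_, rfl⟩
  have hM0 : M ≠ 0 := by
    rw [hM]
    exact Finset.prod_ne_zero_iff.2 fun i _ => (φ (Pi.single i 1)).den_ne_zero
  have hint : ∀ i : Fin k, ∃ m : ℤ, (m : ℚ) = M * φ (Pi.single i 1) := by
    intro i
    obtain ⟨d, hd⟩ : (φ (Pi.single i 1)).den ∣ M := by
      rw [hM]
      exact Finset.dvd_prod_of_mem _ (Finset.mem_univ i)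
    refine ⟨d * (φ (Pi.single i 1)).num, ?_⟩
    have h1 := Rat.mul_den_eq_num (φ (Pi.single i 1))
    rw [hd]
    push_cast
    rw [← h1]
    ring
  choose u hu using hint
  refine ⟨u, fun i hi => ?_, fun p hp => ?_⟩
  · intro h0
    have h1 := hu i
    rw [h0, Int.cast_zero, eq_comm, mul_eq_zero] at h1
    rcases h1 with h1 | h1
    · exact hM0 (by exact_mod_cast h1)
    · exact hφ0 ⟨i, hi⟩ h1
  · have hS : ∀ S : Finset (Fin k), ((∑ i ∈ S, u i : ℤ) : ℚ) = M * φ (ind S) := by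
      intro S
      push_cast
      have h2 : ind S = ∑ i ∈ S, Pi.single i (1 : ℚ) := by
        funext j
        unfold ind
        rw [Finset.sum_apply]
        simp only [Pi.single_apply]
        rw [Finset.sum_ite_eq]
      rw [h2, map_sum, Finset.mul_sum]
      exact Finset.sum_congr rfl fun i _ => hu i
    have h3 : φ (ind p.1) = φ (ind p.2) := by
      have h4 := hφ (dif p) (subset_span ⟨p, hp, rfl⟩)
      unfold dif at h4
      rw [map_sub] at h4
      exact sub_eq_zero.1 h4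
    have h5 : ((∑ i ∈ p.1, u i : ℤ) : ℚ) = ((∑ i ∈ p.2, u i : ℤ) : ℚ) := by rw [hS, hS, h3]
    exact_mod_cast h5

/-! ### the core -/

/-- the sum of `a` over `S`, as a real number -/
def sm {k : ℕ} (a : Fin k → ℤ) (S : Finset (Fin k)) : ℝ := ∑ i ∈ S, (a i : ℝ)

/-- the trigonometric polynomial -/
noncomputable def trig {k : ℕ} (c : Finset (Fin k) → ℤ) (a : Fin k → ℤ) (θ : ℝ) : ℂ :=
  ∑ S, (c S : ℂ) * Complex.exp (((sm a S * θ : ℝ) : ℂ) * Complex.I)

theorem trig_avg {k : ℕ} (c : Finset (Fin k) → ℤ) (a : Fin k → ℤ) (t s : ℝ) :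
    (2 / t : ℝ) * ∫ θ in (t / 2)..t, trig c a θ * Complex.exp (((-(s * θ) : ℝ) : ℂ) * Complex.I) =
      ∑ S, (c S : ℂ) * av t (sm a S - s) := by
  have h1 : ∀ θ : ℝ, trig c a θ * Complex.exp (((-(s * θ) : ℝ) : ℂ) * Complex.I) =
      ∑ S, (c S : ℂ) * Complex.exp ((((sm a S - s) * θ : ℝ) : ℂ) * Complex.I) := by
    intro θ
    unfold trig
    rw [Finset.sum_mul]
    refine Finset.sum_congr rfl fun S _ => ?_
    rw [mul_assoc, ← Complex.exp_add]
    congr 2
    push_cast
    ring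
  simp only [h1]
  rw [intervalIntegral.integral_finsetSum]
  · rw [Finset.mul_sum]
    refine Finset.sum_congr rfl fun S _ => ?_
    rw [intervalIntegral.integral_const_mul]
    unfold av
    ring
  · intro S _
    apply Continuous.intervalIntegrable
    fun_prop

theorem trig_large {k : ℕ} (c : Finset (Fin k) → ℤ) (hc : ∀ S, |c S| ≤ 2 ^ k) (a : Fin k → ℤ)
    (ε t : ℝ) (hε : 0 < ε) (hε1 : 16 * 4 ^ k * ε ≤ 1) (ht : 0 < t) (S₀ : Finset (Fin k))
    (P : Finset (Fin k) → Prop) [DecidablePred P]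
    (h1 : ∀ S, P S → |sm a S - sm a S₀| * t ≤ ε)
    (h2 : ∀ S, ¬ P S → ε⁻¹ ≤ |sm a S - sm a S₀| * t)
    (hB : ∑ S with P S, c S ≠ 0) :
    ∃ θ : ℝ, 0 < θ ∧ θ ≤ t ∧ 1 / 2 ≤ ‖trig c a θ‖ := by
  by_contra hcon
  push Not at hcon
  have hA : ‖(2 / t : ℝ) * ∫ θ in (t / 2)..t,
      trig c a θ * Complex.exp (((-(sm a S₀ * θ) : ℝ) : ℂ) * Complex.I)‖ ≤ 1 / 2 := by
    rw [norm_mul]
    have h3 : ‖∫ θ in (t / 2)..t,
        trig c a θ * Complex.exp (((-(sm a S₀ * θ) : ℝ) : ℂ) * Complex.I)‖ ≤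
        (1 / 2) * |t - t / 2| := by
      apply intervalIntegral.norm_integral_le_of_norm_le_const
      intro θ hθ
      rw [Set.uIoc_of_le (by linarith)] at hθ
      rw [norm_mul, Complex.norm_exp_ofReal_mul_I, mul_one]
      exact (hcon θ (by linarith [hθ.1]) hθ.2).le
    have h4 : |t - t / 2| = t / 2 := by
      rw [abs_of_pos (by linarith)]
      ring
    rw [h4] at h3
    have h5 : ‖((2 / t : ℝ) : ℂ)‖ = 2 / t := by
      rw [Complex.norm_real, Real.norm_eq_abs, abs_of_pos (by positivity)]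
    rw [h5]
    calc 2 / t * ‖∫ θ in (t / 2)..t,
        trig c a θ * Complex.exp (((-(sm a S₀ * θ) : ℝ) : ℂ) * Complex.I)‖ ≤
          2 / t * ((1 / 2) * (t / 2)) := mul_le_mul_of_nonneg_left h3 (by positivity)
      _ = 1 / 2 := by field_simp
  rw [trig_avg] at hA
  have hd : ‖∑ S, (c S : ℂ) * av t (sm a S - sm a S₀) - ((∑ S with P S, c S : ℤ) : ℂ)‖ ≤ 1 / 4 := by
    have h3 : ((∑ S with P S, c S : ℤ) : ℂ) = ∑ S, (c S : ℂ) * (if P S then 1 else 0) := by
      rw [Finset.sum_filter]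
      push_cast
      refine Finset.sum_congr rfl fun S _ => ?_
      split_ifs <;> simp
    rw [h3, ← Finset.sum_sub_distrib]
    refine (norm_sum_le _ _).trans ?_
    have h4 : ∀ S ∈ (Finset.univ : Finset (Finset (Fin k))),
        ‖(c S : ℂ) * av t (sm a S - sm a S₀) - (c S : ℂ) * (if P S then 1 else 0)‖ ≤
          2 ^ k * (4 * ε) := by
      intro S _
      rw [← mul_sub, norm_mul]
      have h5 : ‖(c S : ℂ)‖ ≤ 2 ^ k := by
        rw [Complex.norm_intCast]
        exact_mod_cast hc S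
      refine mul_le_mul h5 ?_ (norm_nonneg _) (by positivity)
      by_cases hP : P S
      · rw [if_pos hP]
        refine (av_close t _ ht).trans ((h1 S hP).trans (by linarith))
      · rw [if_neg hP, sub_zero]
        have h6 := h2 S hP
        have h7 : 0 < |sm a S - sm a S₀| * t := lt_of_lt_of_le (inv_pos.2 hε) h6
        have h8 : sm a S - sm a S₀ ≠ 0 := by
          intro h0
          rw [h0, abs_zero, zero_mul] at h7
          exact lt_irrefl _ h7
        refine (av_far t _ ht h8).trans ?_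
        rw [div_le_iff₀ h7]
        have h9 : 1 ≤ ε * (|sm a S - sm a S₀| * t) := by
          have h10 := mul_le_mul_of_nonneg_left h6 hε.le
          rwa [mul_inv_cancel₀ hε.ne'] at h10
        linarith
    refine (Finset.sum_le_sum h4).trans ?_
    rw [Finset.sum_const, Finset.card_univ, Fintype.card_finset, Fintype.card_fin, nsmul_eq_mul]
    push_cast
    have h5 : (4 : ℝ) ^ k = 2 ^ k * 2 ^ k := by
      rw [← mul_pow]
      norm_num
    rw [h5] at hε1
    nlinarith [hε1]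
  have hB1 : (1 : ℝ) ≤ ‖((∑ S with P S, c S : ℤ) : ℂ)‖ := by
    rw [Complex.norm_intCast]
    have h3 : (1 : ℤ) ≤ |∑ S with P S, c S| := Int.one_le_abs hB
    exact_mod_cast h3
  have h3 := norm_sub_norm_le ((∑ S with P S, c S : ℤ) : ℂ)
    (∑ S, (c S : ℂ) * av t (sm a S - sm a S₀))
  rw [norm_sub_rev] at h3
  linarith

theorem Clu_core (k : ℕ) (τ : ℝ) (hτ : 0 < τ) : ∃ N : ℕ,
    ∀ (c : Finset (Fin k) → ℤ), (∀ S, |c S| ≤ 2 ^ k) → ∀ a : Fin k → ℤ,
      (∃ θ : ℝ, 0 < θ ∧ θ ≤ τ ∧ 1 / 2 ≤ ‖trig c a θ‖) ∨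
      ∃ u : Fin k → ℤ, (∀ i, (N : ℤ) ≤ |a i| → u i ≠ 0) ∧
        ∀ z : ℂ, ∑ S, (c S : ℂ) * z ^ (∑ i ∈ S, u i) = 0 := by
  classical
  obtain ⟨K, hK0, hK⟩ := Clu_LA k
  obtain ⟨ε, hε, hεk⟩ : ∃ ε : ℝ, 0 < ε ∧ 16 * 4 ^ k * ε ≤ 1 :=
    ⟨1 / (16 * 4 ^ k), by positivity, by
      rw [mul_one_div, div_self (by positivity)]⟩
  have h4k : (1 : ℝ) ≤ 4 ^ k := one_le_pow₀ (by norm_num)
  have hε16 : 16 * ε ≤ 1 := by nlinarith
  have hε1 : ε < 1 := by linarith
  obtain ⟨N, hN⟩ := exists_nat_gt (K * (ε / (τ * ε ^ (2 * 4 ^ k))))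
  refine ⟨N, fun c hc a => ?_⟩
  obtain ⟨j, hj, hD⟩ := Clu_scale ε τ hε hε1 hτ
    ((Finset.univ : Finset (Finset (Fin k) × Finset (Fin k))).image
      fun p => |sm a p.1 - sm a p.2|) (4 ^ k) (by
      refine Finset.card_image_le.trans ?_
      rw [Finset.card_univ, Fintype.card_prod, Fintype.card_finset, Fintype.card_fin, ← mul_pow]
      norm_num) (by
      intro d hd
      rw [Finset.mem_image] at hd
      obtain ⟨p, -, rfl⟩ := hd
      exact abs_nonneg _)
  obtain ⟨t, ht⟩ : ∃ t : ℝ, t = τ * ε ^ (2 * j) := ⟨_, rfl⟩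
  rw [← ht] at hD
  have ht0 : 0 < t := by
    rw [ht]
    positivity
  have htτ : t ≤ τ := by
    rw [ht]
    exact mul_le_of_le_one_right hτ.le (pow_le_one₀ hε.le hε1.le)
  have htJ : τ * ε ^ (2 * 4 ^ k) ≤ t := by
    rw [ht]
    exact mul_le_mul_of_nonneg_left (pow_le_pow_of_le_one hε.le hε1.le (by omega)) hτ.le
  have hD' : ∀ S S', |sm a S - sm a S'| * t ≤ ε ∨ ε⁻¹ ≤ |sm a S - sm a S'| * t :=
    fun S S' => hD _ (Finset.mem_image.2 ⟨(S, S'), Finset.mem_univ _, rfl⟩)
  have hεi : 2 * ε < ε⁻¹ := by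
    rw [lt_inv_comm₀ (by positivity) hε]
    rw [mul_inv]
    have h5 : (2 : ℝ)⁻¹ * ε⁻¹ = ε⁻¹ / 2 := by ring
    have h6 : (16 : ℝ) ≤ ε⁻¹ := by
      rw [le_inv_comm₀ (by norm_num) hε]
      linarith
    rw [h5]
    linarith
  by_cases hall : ∀ S₀, ∑ S with |sm a S - sm a S₀| * t ≤ ε, c S = 0
  · right
    obtain ⟨u, hu, hu'⟩ := Clu_u {p | |sm a p.1 - sm a p.2| * t ≤ ε}
      (Finset.univ.filter fun i => (N : ℤ) ≤ |a i|) (by
        intro i hi hspan
        rw [Finset.mem_filter] at hi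
        have h1 := hK (Finset.univ.filter fun p => |sm a p.1 - sm a p.2| * t ≤ ε) i (by
            rw [Finset.coe_filter]
            simpa using hspan) (fun i => (a i : ℝ)) (ε / t) (by positivity) (by
            intro p hp
            rw [Finset.mem_filter] at hp
            rw [le_div_iff₀ ht0]
            exact hp.2)
        have h2 : (N : ℝ) ≤ |(a i : ℝ)| := by exact_mod_cast hi.2
        have h3 : K * (ε / t) ≤ K * (ε / (τ * ε ^ (2 * 4 ^ k))) := by
          refine mul_le_mul_of_nonneg_left ?_ hK0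
          exact div_le_div_of_nonneg_left hε.le (by positivity) htJ
        linarith)
    refine ⟨u, fun i hi => hu i (Finset.mem_filter.2 ⟨Finset.mem_univ _, hi⟩), fun z => ?_⟩
    let st : Setoid (Finset (Fin k)) :=
      { r := fun S S' => |sm a S - sm a S'| * t ≤ ε
        iseqv := by
          refine ⟨?_, ?_, ?_⟩
          · intro S
            simp [hε.le]
          · intro S S' h
            rwa [abs_sub_comm]
          · intro S S' S'' h h'
            rcases hD' S S'' with h1 | h1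
            · exact h1
            · exfalso
              have h2 : |sm a S - sm a S''| ≤ |sm a S - sm a S'| + |sm a S' - sm a S''| :=
                abs_sub_le _ _ _
              have h3 := mul_le_mul_of_nonneg_right h2 ht0.le
              rw [add_mul] at h3
              linarith }
    rw [← Finset.sum_fiberwise (s := Finset.univ) (g := fun S => (Quotient.mk st S))]
    refine Finset.sum_eq_zero fun q _ => ?_
    induction q using Quotient.inductionOn with
    | h S₀ =>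
      have h1 : ∀ S, Quotient.mk st S = Quotient.mk st S₀ ↔ |sm a S - sm a S₀| * t ≤ ε := by
        intro S
        exact Quotient.eq
      have h2 : ∑ S with Quotient.mk st S = Quotient.mk st S₀, (c S : ℂ) * z ^ (∑ i ∈ S, u i) =
          (∑ S with Quotient.mk st S = Quotient.mk st S₀, (c S : ℂ)) * z ^ (∑ i ∈ S₀, u i) := by
        rw [Finset.sum_mul]
        refine Finset.sum_congr rfl fun S hS => ?_
        rw [Finset.mem_filter, h1] at hS
        rw [hu' (S, S₀) hS.2]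
      rw [h2]
      have h3 := hall S₀
      simp only [h1]
      have h4 : (∑ S with |sm a S - sm a S₀| * t ≤ ε, (c S : ℂ)) = 0 := by
        have h5 : ((∑ S with |sm a S - sm a S₀| * t ≤ ε, c S : ℤ) : ℂ) = 0 := by
          rw [h3, Int.cast_zero]
        rw [← h5]
        push_cast
        rfl
      rw [h4, zero_mul]
  · left
    push Not at hall
    obtain ⟨S₀, hS₀⟩ := hall
    obtain ⟨θ, hθ, hθt, h⟩ := trig_large c hc a ε t hε hεk ht0 S₀
      (fun S => |sm a S - sm a S₀| * t ≤ ε) (fun S h => h)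
      (fun S h => (hD' S S₀).resolve_left h) hS₀
    exact ⟨θ, hθ, hθt.trans htτ, h⟩

/-! ### transport to a set of vectors -/

theorem prod_zpow_sum {ι : Type} [DecidableEq ι] (z : ℂ) (hz : z ≠ 0) (u : ι → ℤ)
    (T : Finset ι) : ∏ i ∈ T, z ^ u i = z ^ ∑ i ∈ T, u i := by
  induction T using Finset.induction_on with
  | empty => simp
  | insert i T hi ih => rw [Finset.prod_insert hi, Finset.sum_insert hi, ih, zpow_add₀ hz]

section
variable {V : Type} [AddCommGroup V] [Module (ZMod 2) V] [DecidableEq V]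

open Classical in
/-- the coefficients -/
noncomputable def cf {m : ℕ} (g : Fin m ↪ V) (X : Finset V) (T : Finset (Fin m)) : ℤ :=
  ∑ S : Finset (Fin m), if Spans ⊥ X (S.map g) ∧ T ⊆ S then (-1) ^ (S \ T).card else 0

theorem cf_le {m : ℕ} (g : Fin m ↪ V) (X : Finset V) (T : Finset (Fin m)) :
    |cf g X T| ≤ 2 ^ m := by
  classical
  unfold cf
  refine (Finset.abs_sum_le_sum_abs _ _).trans ?_
  calc ∑ S : Finset (Fin m), |if Spans ⊥ X (S.map g) ∧ T ⊆ S then (-1 : ℤ) ^ (S \ T).card else 0| ≤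
        ∑ _S : Finset (Fin m), (1 : ℤ) := by
        refine Finset.sum_le_sum fun S _ => ?_
        split_ifs
        · rw [abs_pow, abs_neg, abs_one, one_pow]
        · simp
    _ = 2 ^ m := by
        rw [Finset.sum_const, Finset.card_univ, Fintype.card_finset, Fintype.card_fin]
        simp

theorem PP_map {m : ℕ} (g : Fin m ↪ V) (X : Finset V) (hX : Finset.univ.map g = X) (x : V → ℂ) :
    PP X ⊥ x = ∑ T : Finset (Fin m), (cf g X T : ℂ) * ∏ i ∈ T, x (g i) := by
  classical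
  have h1 : PP X ⊥ x = ∑ S : Finset (Fin m),
      if Spans ⊥ X (S.map g) then ∏ i ∈ S, (x (g i) - 1) else 0 := by
    unfold PP
    symm
    apply Finset.sum_nbij (fun S => S.map g)
    · intro S _
      rw [Finset.mem_powerset, ← hX]
      exact Finset.map_subset_map.2 (Finset.subset_univ _)
    · intro S _ S' _ h
      exact Finset.map_injective g h
    · intro W hW
      rw [Finset.mem_coe, Finset.mem_powerset, ← hX] at hW
      obtain ⟨S, _, hS⟩ := Finset.subset_map_iff.1 hW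
      exact ⟨S, Finset.mem_coe.2 (Finset.mem_univ _), hS.symm⟩
    · intro S _
      simp only [Finset.prod_map]
  have h2 : ∀ S : Finset (Fin m), (∏ i ∈ S, (x (g i) - 1)) =
      ∑ T : Finset (Fin m), if T ⊆ S then (-1) ^ (S \ T).card * ∏ i ∈ T, x (g i) else 0 := by
    intro S
    have h3 : (∏ i ∈ S, (x (g i) - 1)) = ∏ i ∈ S, (x (g i) + (-1)) :=
      Finset.prod_congr rfl fun i _ => by ring
    rw [h3, Finset.prod_add, ← Finset.sum_filter]
    refine Finset.sum_congr ?_ fun T _ => ?_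
    · ext T
      simp
    · rw [Finset.prod_const]
      ring
  rw [h1]
  have h4 : ∀ S : Finset (Fin m), (if Spans ⊥ X (S.map g) then ∏ i ∈ S, (x (g i) - 1) else 0) =
      ∑ T : Finset (Fin m), (((if Spans ⊥ X (S.map g) ∧ T ⊆ S then (-1) ^ (S \ T).card else 0 : ℤ)) : ℂ)
        * ∏ i ∈ T, x (g i) := by
    intro S
    by_cases hS : Spans ⊥ X (S.map g)
    · rw [if_pos hS, h2 S]
      refine Finset.sum_congr rfl fun T _ => ?_
      by_cases hT : T ⊆ S
      · rw [if_pos hT, if_pos ⟨hS, hT⟩]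
        push_cast
        ring
      · rw [if_neg hT, if_neg (fun h => hT h.2)]
        simp
    · rw [if_neg hS]
      symm
      refine Finset.sum_eq_zero fun T _ => ?_
      rw [if_neg (fun h => hS h.1)]
      simp
  simp only [h4]
  rw [Finset.sum_comm]
  refine Finset.sum_congr rfl fun T _ => ?_
  rw [← Finset.sum_mul]
  congr 1
  unfold cf
  rw [Int.cast_sum]

theorem PP_sub (X Y : Finset V) (hYX : Y ⊆ X)
    (hspan : span (ZMod 2) (Y : Set V) = span (ZMod 2) (X : Set V)) (x : V → ℂ)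
    (h : ∀ v ∈ X, v ∉ Y → x v = 1) : PP X ⊥ x = PP Y ⊥ x := by
  classical
  unfold PP
  symm
  have h1 : ∀ W, Spans ⊥ Y W ↔ Spans ⊥ X W := by
    intro W
    unfold Spans
    rw [hspan]
  simp only [h1]
  refine Finset.sum_subset (Finset.powerset_mono.2 hYX) fun W hW hW' => ?_
  rw [Finset.mem_powerset] at hW hW'
  obtain ⟨v, hv, hvY⟩ := Finset.not_subset.1 hW'
  split_ifs
  · exact Finset.prod_eq_zero hv (by rw [h v (hW hv) hvY, sub_self])
  · rfl

end

/-- **Module CL** -/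
theorem thm_Cluster : St_Cluster := by
  classical
  intro k τ hτ
  choose N hN using fun m => Clu_core m τ hτ
  refine ⟨∑ m ∈ Finset.range (k + 1), N m, ?_⟩
  intro V _ _ _ X L hk hLX hspan hNV a ha
  obtain ⟨m, hm⟩ : ∃ m, m = X.card := ⟨_, rfl⟩
  have hNm : N m ≤ ∑ m ∈ Finset.range (k + 1), N m :=
    Finset.single_le_sum (f := N) (fun _ _ => Nat.zero_le _) (Finset.mem_range.2 (by omega))
  obtain ⟨g, hg⟩ : ∃ g : Fin m ↪ V, Finset.univ.map g = X := by
    refine ⟨(X.equivFinOfCardEq hm.symm).symm.toEmbedding.trans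
      (Function.Embedding.subtype _), ?_⟩
    ext v
    simp only [Finset.mem_map, Finset.mem_univ, true_and, Function.Embedding.trans_apply,
      Equiv.coe_toEmbedding, Function.Embedding.subtype_apply]
    constructor
    · rintro ⟨i, rfl⟩
      exact ((X.equivFinOfCardEq hm.symm).symm i).2
    · intro hv
      exact ⟨X.equivFinOfCardEq hm.symm ⟨v, hv⟩, by rw [Equiv.symm_apply_apply]⟩
  rcases hN m (cf g X) (cf_le g X) (fun i => a (g i)) with ⟨θ, hθ, hθτ, h⟩ | ⟨u, hu, hz⟩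
  · refine ⟨θ, hθ, hθτ, ?_⟩
    rw [PP_map g X hg]
    unfold trig at h
    have h1 : ∀ T : Finset (Fin m), ∏ i ∈ T, Complex.exp (((a (g i) * θ : ℝ) : ℂ) * Complex.I) =
        Complex.exp (((sm (fun i => a (g i)) T * θ : ℝ) : ℂ) * Complex.I) := by
      intro T
      rw [← Complex.exp_sum]
      congr 1
      unfold sm
      push_cast
      rw [Finset.sum_mul, Finset.sum_mul]
    simp only [h1]
    exact h
  · exfalso
    obtain ⟨u', hu'⟩ : ∃ u' : V → ℤ, ∀ i, u' (g i) = u i :=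
      ⟨Function.extend g u 0, fun i => g.injective.extend_apply u 0 i⟩
    have hmem : ∀ v ∈ X, ∃ i, g i = v := by
      intro v hv
      rw [← hg, Finset.mem_map] at hv
      obtain ⟨i, _, hi⟩ := hv
      exact ⟨i, hi⟩
    obtain ⟨Y, hY⟩ : ∃ Y, Y = X.filter fun v => u' v ≠ 0 ∨ v = 0 := ⟨_, rfl⟩
    have hLY : L ⊆ Y := by
      intro v hv
      rw [hY, Finset.mem_filter]
      obtain ⟨i, rfl⟩ := hmem v (hLX hv)
      refine ⟨hLX hv, Or.inl ?_⟩
      rw [hu' i]
      apply hu i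
      have h1 := ha _ hv
      have h2 : ((N m : ℕ) : ℤ) ≤ ((∑ m ∈ Finset.range (k + 1), N m : ℕ) : ℤ) := by
        exact_mod_cast hNm
      exact h2.trans h1
    have hYX : Y ⊆ X := by
      rw [hY]
      exact Finset.filter_subset _ _
    obtain ⟨z, hz1, hzY⟩ := hNV Y hLY hYX u' (by
      intro v hv hv0
      rw [hY, Finset.mem_filter] at hv
      exact hv.2.resolve_right hv0)
    apply hzY
    have hz0 : z ≠ 0 := by
      intro h0
      rw [h0, norm_zero] at hz1
      exact zero_ne_one hz1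
    have hYspan : span (ZMod 2) (Y : Set V) = span (ZMod 2) (X : Set V) := by
      apply le_antisymm
      · exact span_mono (by exact_mod_cast hYX)
      · rw [← hspan]
        exact span_mono (by exact_mod_cast hLY)
    rw [← PP_sub X Y hYX hYspan _ (by
      intro v hv hvY
      rw [hY, Finset.mem_filter] at hvY
      push Not at hvY
      have h1 : u' v = 0 := (hvY hv).1
      rw [h1, zpow_zero]), PP_map g X hg]
    rw [← hz z]
    refine Finset.sum_congr rfl fun T _ => ?_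
    congr 1
    simp only [hu']
    exact prod_zpow_sum z hz0 u T

end Pool.Agent.SPT
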