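import Mathlib
import Pool.Agent.SPT.Clu

/-!
# SPT, module CLG: the general cluster lemma
-/

set_option autoImplicit false
set_option linter.unusedSectionVars false

open Submodule MeasureTheory

namespace Pool.Agent.SPT

/-- The vector `u` follows the vector `a` on the subsets of `X`: two sums of `u` are different if the
same sums of `a` differ by at least `N`, and equal if they differ by at most `C`. -/
def Follows {V : Type} (X : Finset V) (a u : V → ℤ) (C N : ℕ) : Prop :=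
  ∀ S ⊆ X, ∀ S' ⊆ X,
    ((N : ℤ) ≤ |∑ v ∈ S, a v - ∑ v ∈ S', a v| → ∑ v ∈ S, u v ≠ ∑ v ∈ S', u v) ∧
    (|∑ v ∈ S, a v - ∑ v ∈ S', a v| ≤ (C : ℤ) → ∑ v ∈ S, u v = ∑ v ∈ S', u v)

/-- The polynomial of `X` with the weights `z ^ u v` is not zero for all `z` on the unit circle. -/
def NZu {V : Type} [AddCommGroup V] [Module (ZMod 2) V] (X : Finset V) (u : V → ℤ) : Prop :=
  ∃ z : ℂ, ‖z‖ = 1 ∧ PP X ⊥ (fun v => z ^ u v) ≠ 0

/-- **Module CLG** -/
def St_ClusterG : Prop :=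
  ∀ (k C : ℕ) (τ : ℝ), 0 < τ → ∃ N : ℕ,
    ∀ (V : Type) [AddCommGroup V] [Module (ZMod 2) V] [DecidableEq V]
      (X : Finset V), X.card ≤ k → ∀ a : V → ℤ,
      (∀ u : V → ℤ, Follows X a u C N → NZu X u) →
        ∃ θ : ℝ, 0 < θ ∧ θ ≤ τ ∧
          1 / 2 ≤ ‖PP X ⊥ (fun v => Complex.exp (((a v * θ : ℝ) : ℂ) * Complex.I))‖

/-! ### linear algebra -/

theorem CluG_LA_one {k : ℕ} (R : Finset (Finset (Fin k) × Finset (Fin k)))
    (w : Finset (Fin k) × Finset (Fin k)) :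
    ∃ K : ℝ, 0 ≤ K ∧ (dif w ∈ span ℚ (dif '' (R : Set _)) →
      ∀ (a : Fin k → ℝ) (δ : ℝ), (∀ p ∈ R, |∑ j ∈ p.1, a j - ∑ j ∈ p.2, a j| ≤ δ) →
        |∑ j ∈ w.1, a j - ∑ j ∈ w.2, a j| ≤ K * δ) := by
  by_cases h : dif w ∈ span ℚ (dif '' (R : Set _))
  · rw [Submodule.mem_span_image_finset_iff_exists_fun] at h
    obtain ⟨c, hc⟩ := h
    refine ⟨∑ p : R, |((c p : ℚ) : ℝ)|, Finset.sum_nonneg fun _ _ => abs_nonneg _, ?_⟩
    intro _ a δ ha
    have hd : ∀ p : Finset (Fin k) × Finset (Fin k), ∑ j ∈ p.1, a j - ∑ j ∈ p.2, a j =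
        ∑ j, ((dif p j : ℚ) : ℝ) * a j := by
      intro p
      rw [sum_ind p.1 a, sum_ind p.2 a, ← Finset.sum_sub_distrib]
      refine Finset.sum_congr rfl fun j _ => ?_
      unfold dif
      rw [Pi.sub_apply]
      push_cast
      ring
    have h1 : ∑ j ∈ w.1, a j - ∑ j ∈ w.2, a j =
        ∑ p : R, ((c p : ℚ) : ℝ) * (∑ j ∈ p.1.1, a j - ∑ j ∈ p.1.2, a j) := by
      have h3 : ∀ j, ((dif w j : ℚ) : ℝ) = ∑ p : R, ((c p : ℚ) : ℝ) * ((dif p.1 j : ℚ) : ℝ) := by
        intro j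
        rw [← hc, Finset.sum_apply]
        push_cast
        refine Finset.sum_congr rfl fun p _ => ?_
        simp only [Pi.smul_apply, smul_eq_mul]
        push_cast
        rfl
      rw [hd w]
      simp only [h3]
      simp only [Finset.sum_mul]
      rw [Finset.sum_comm]
      refine Finset.sum_congr rfl fun p _ => ?_
      rw [hd p.1, Finset.mul_sum]
      refine Finset.sum_congr rfl fun j _ => ?_
      ring
    rw [h1]
    refine (Finset.abs_sum_le_sum_abs _ _).trans ?_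
    rw [Finset.sum_mul]
    refine Finset.sum_le_sum fun p _ => ?_
    rw [abs_mul]
    exact mul_le_mul_of_nonneg_left (ha p.1 p.2) (abs_nonneg _)
  · exact ⟨0, le_refl _, fun h1 => absurd h1 h⟩

theorem CluG_LA (k : ℕ) : ∃ K : ℝ, 0 ≤ K ∧
    ∀ (R : Finset (Finset (Fin k) × Finset (Fin k))) (w : Finset (Fin k) × Finset (Fin k)),
      dif w ∈ span ℚ (dif '' (R : Set _)) →
      ∀ (a : Fin k → ℝ) (δ : ℝ), 0 ≤ δ →
        (∀ p ∈ R, |∑ j ∈ p.1, a j - ∑ j ∈ p.2, a j| ≤ δ) →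
        |∑ j ∈ w.1, a j - ∑ j ∈ w.2, a j| ≤ K * δ := by
  classical
  choose K hK0 hK using fun (q : Finset (Finset (Fin k) × Finset (Fin k)) ×
    (Finset (Fin k) × Finset (Fin k))) => CluG_LA_one q.1 q.2
  refine ⟨∑ q, K q, Finset.sum_nonneg fun q _ => hK0 q, fun R w h a δ hδ ha => ?_⟩
  refine (hK (R, w) h a δ ha).trans ?_
  exact mul_le_mul_of_nonneg_right
    (Finset.single_le_sum (f := K) (fun q _ => hK0 q) (Finset.mem_univ (R, w))) hδ

/-- an integral vector which respects the relations in `R` and no relation in `F` -/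
theorem CluG_u {k : ℕ} (R : Set (Finset (Fin k) × Finset (Fin k)))
    (F : Finset (Finset (Fin k) × Finset (Fin k)))
    (h : ∀ w ∈ F, dif w ∉ span ℚ (dif '' R)) :
    ∃ u : Fin k → ℤ, (∀ w ∈ F, ∑ i ∈ w.1, u i ≠ ∑ i ∈ w.2, u i) ∧
      ∀ p ∈ R, ∑ i ∈ p.1, u i = ∑ i ∈ p.2, u i := by
  classical
  obtain ⟨φ, hφ, hφ0⟩ := Module.Dual.exists_forall_mem_ne_zero_of_forall_exists
    (K := ℚ) (ι := F) (span ℚ (dif '' R)).dualAnnihilator
    (fun w => Module.Dual.eval ℚ (Fin k → ℚ) (dif (w : Finset (Fin k) × Finset (Fin k))))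
    (fun w => by
      obtain ⟨f, hf, hf'⟩ := Submodule.exists_dual_map_eq_bot_of_notMem (h w w.2) inferInstance
      refine ⟨f, ?_, hf⟩
      rw [Submodule.mem_dualAnnihilator]
      intro x hx
      have h1 : f x ∈ (span ℚ (dif '' R)).map f := ⟨x, hx, rfl⟩
      rw [hf'] at h1
      exact h1)
  rw [Submodule.mem_dualAnnihilator] at hφ
  obtain ⟨M, hM⟩ : ∃ M : ℕ, M = ∏ i : Fin k, (φ (Pi.single i 1)).den := ⟨_, rfl⟩
  have hM0 : M ≠ 0 := by
    rw [hM]
    exact Finset.prod_ne_zero_iff.2 fun i _ => (φ (Pi.single i 1)).den_ne_zero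
  have hint : ∀ i : Fin k, ∃ m : ℤ, (m : ℚ) = M * φ (Pi.single i 1) := by
    intro i
    obtain ⟨d, hd⟩ : (φ (Pi.single i 1)).den ∣ M := by
      rw [hM]
      exact Finset.dvd_prod_of_mem _ (Finset.mem_univ i)
    refine ⟨d * (φ (Pi.single i 1)).num, ?_⟩
    have h1 := Rat.mul_den_eq_num (φ (Pi.single i 1))
    rw [hd]
    push_cast
    rw [← h1]
    ring
  choose u hu using hint
  have hS : ∀ S : Finset (Fin k), ((∑ i ∈ S, u i : ℤ) : ℚ) = M * φ (ind S) := by
    intro S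
    push_cast
    have h2 : ind S = ∑ i ∈ S, Pi.single i (1 : ℚ) := by
      funext j
      unfold ind
      rw [Finset.sum_apply]
      simp only [Pi.single_apply]
      rw [Finset.sum_ite_eq]
    rw [h2, map_sum, Finset.mul_sum]
    exact Finset.sum_congr rfl fun i _ => hu i
  refine ⟨u, fun w hw => ?_, fun p hp => ?_⟩
  · intro h0
    have h1 : ((∑ i ∈ w.1, u i : ℤ) : ℚ) = ((∑ i ∈ w.2, u i : ℤ) : ℚ) := by rw [h0]
    rw [hS, hS, ← sub_eq_zero, ← mul_sub, mul_eq_zero] at h1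
    rcases h1 with h1 | h1
    · exact hM0 (by exact_mod_cast h1)
    · apply hφ0 ⟨w, hw⟩
      change φ (dif w) = 0
      unfold dif
      rw [map_sub]
      exact h1
  · have h3 : φ (ind p.1) = φ (ind p.2) := by
      have h4 := hφ (dif p) (subset_span ⟨p, hp, rfl⟩)
      unfold dif at h4
      rw [map_sub] at h4
      exact sub_eq_zero.1 h4
    have h5 : ((∑ i ∈ p.1, u i : ℤ) : ℚ) = ((∑ i ∈ p.2, u i : ℤ) : ℚ) := by rw [hS, hS, h3]
    exact_mod_cast h5

/-! ### the core -/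

theorem CluG_core (k C : ℕ) (τ : ℝ) (hτ : 0 < τ) : ∃ N : ℕ,
    ∀ (c : Finset (Fin k) → ℤ), (∀ S, |c S| ≤ 2 ^ k) → ∀ a : Fin k → ℤ,
      (∃ θ : ℝ, 0 < θ ∧ θ ≤ τ ∧ 1 / 2 ≤ ‖trig c a θ‖) ∨
      ∃ u : Fin k → ℤ,
        (∀ S S' : Finset (Fin k), (N : ℤ) ≤ |∑ i ∈ S, a i - ∑ i ∈ S', a i| →
          ∑ i ∈ S, u i ≠ ∑ i ∈ S', u i) ∧
        (∀ S S' : Finset (Fin k), |∑ i ∈ S, a i - ∑ i ∈ S', a i| ≤ (C : ℤ) →
          ∑ i ∈ S, u i = ∑ i ∈ S', u i) ∧
        ∀ z : ℂ, ∑ S, (c S : ℂ) * z ^ (∑ i ∈ S, u i) = 0 := by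
  classical
  obtain ⟨K, hK0, hK⟩ := CluG_LA k
  obtain ⟨ε, hε, hεk⟩ : ∃ ε : ℝ, 0 < ε ∧ 16 * 4 ^ k * ε ≤ 1 :=
    ⟨1 / (16 * 4 ^ k), by positivity, by
      rw [mul_one_div, div_self (by positivity)]⟩
  have h4k : (1 : ℝ) ≤ 4 ^ k := one_le_pow₀ (by norm_num)
  have hε16 : 16 * ε ≤ 1 := by nlinarith
  have hε1 : ε < 1 := by linarith
  -- the first scale
  obtain ⟨τ', hτ', hττ, hCτ⟩ : ∃ τ' : ℝ, 0 < τ' ∧ τ' ≤ τ ∧ C * τ' ≤ ε := by
    refine ⟨min τ (ε / (C + 1)), lt_min hτ (by positivity), min_le_left _ _, ?_⟩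
    calc (C : ℝ) * min τ (ε / (C + 1)) ≤ C * (ε / (C + 1)) :=
          mul_le_mul_of_nonneg_left (min_le_right _ _) (Nat.cast_nonneg C)
      _ = (C / (C + 1)) * ε := by ring
      _ ≤ 1 * ε := by
          refine mul_le_mul_of_nonneg_right ?_ hε.le
          rw [div_le_one (by positivity)]
          linarith
      _ = ε := one_mul ε
  obtain ⟨N, hN⟩ := exists_nat_gt (K * (ε / (τ' * ε ^ (2 * 4 ^ k))))
  refine ⟨N, fun c hc a => ?_⟩
  obtain ⟨j, hj, hD⟩ := Clu_scale ε τ' hε hε1 hτ'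
    ((Finset.univ : Finset (Finset (Fin k) × Finset (Fin k))).image
      fun p => |sm a p.1 - sm a p.2|) (4 ^ k) (by
      refine Finset.card_image_le.trans ?_
      rw [Finset.card_univ, Fintype.card_prod, Fintype.card_finset, Fintype.card_fin, ← mul_pow]
      norm_num) (by
      intro d hd
      rw [Finset.mem_image] at hd
      obtain ⟨p, -, rfl⟩ := hd
      exact abs_nonneg _)
  obtain ⟨t, ht⟩ : ∃ t : ℝ, t = τ' * ε ^ (2 * j) := ⟨_, rfl⟩
  rw [← ht] at hD
  have ht0 : 0 < t := by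
    rw [ht]
    positivity
  have htτ : t ≤ τ' := by
    rw [ht]
    exact mul_le_of_le_one_right hτ'.le (pow_le_one₀ hε.le hε1.le)
  have htJ : τ' * ε ^ (2 * 4 ^ k) ≤ t := by
    rw [ht]
    exact mul_le_mul_of_nonneg_left (pow_le_pow_of_le_one hε.le hε1.le (by omega)) hτ'.le
  have hD' : ∀ S S', |sm a S - sm a S'| * t ≤ ε ∨ ε⁻¹ ≤ |sm a S - sm a S'| * t :=
    fun S S' => hD _ (Finset.mem_image.2 ⟨(S, S'), Finset.mem_univ _, rfl⟩)
  have hεi : 2 * ε < ε⁻¹ := by
    rw [lt_inv_comm₀ (by positivity) hε]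
    rw [mul_inv]
    have h5 : (2 : ℝ)⁻¹ * ε⁻¹ = ε⁻¹ / 2 := by ring
    have h6 : (16 : ℝ) ≤ ε⁻¹ := by
      rw [le_inv_comm₀ (by norm_num) hε]
      linarith
    rw [h5]
    linarith
  by_cases hall : ∀ S₀, ∑ S with |sm a S - sm a S₀| * t ≤ ε, c S = 0
  · right
    obtain ⟨u, hu, hu'⟩ := CluG_u {p | |sm a p.1 - sm a p.2| * t ≤ ε}
      (Finset.univ.filter fun w => (N : ℤ) ≤ |∑ i ∈ w.1, a i - ∑ i ∈ w.2, a i|) (by
        intro w hw hspan
        rw [Finset.mem_filter] at hw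
        have h1 := hK (Finset.univ.filter fun p => |sm a p.1 - sm a p.2| * t ≤ ε) w (by
            rw [Finset.coe_filter]
            simpa using hspan) (fun i => (a i : ℝ)) (ε / t) (by positivity) (by
            intro p hp
            rw [Finset.mem_filter] at hp
            rw [le_div_iff₀ ht0]
            exact hp.2)
        have h2 : (N : ℝ) ≤ |∑ i ∈ w.1, (a i : ℝ) - ∑ i ∈ w.2, (a i : ℝ)| := by
          exact_mod_cast hw.2
        have h3 : K * (ε / t) ≤ K * (ε / (τ' * ε ^ (2 * 4 ^ k))) := by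
          refine mul_le_mul_of_nonneg_left ?_ hK0
          exact div_le_div_of_nonneg_left hε.le (by positivity) htJ
        linarith)
    refine ⟨u, fun S S' hS => hu (S, S') (Finset.mem_filter.2 ⟨Finset.mem_univ _, hS⟩),
      fun S S' hS => hu' (S, S') ?_, fun z => ?_⟩
    · change |sm a S - sm a S'| * t ≤ ε
      have h1 : |sm a S - sm a S'| ≤ (C : ℝ) := by
        unfold sm
        exact_mod_cast hS
      calc |sm a S - sm a S'| * t ≤ C * τ' :=
            mul_le_mul h1 htτ ht0.le (Nat.cast_nonneg C)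
        _ ≤ ε := hCτ
    let st : Setoid (Finset (Fin k)) :=
      { r := fun S S' => |sm a S - sm a S'| * t ≤ ε
        iseqv := by
          refine ⟨?_, ?_, ?_⟩
          · intro S
            simp [hε.le]
          · intro S S' h
            rwa [abs_sub_comm]
          · intro S S' S'' h h'
            rcases hD' S S'' with h1 | h1
            · exact h1
            · exfalso
              have h2 : |sm a S - sm a S''| ≤ |sm a S - sm a S'| + |sm a S' - sm a S''| :=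
                abs_sub_le _ _ _
              have h3 := mul_le_mul_of_nonneg_right h2 ht0.le
              rw [add_mul] at h3
              linarith }
    rw [← Finset.sum_fiberwise (s := Finset.univ) (g := fun S => (Quotient.mk st S))]
    refine Finset.sum_eq_zero fun q _ => ?_
    induction q using Quotient.inductionOn with
    | h S₀ =>
      have h1 : ∀ S, Quotient.mk st S = Quotient.mk st S₀ ↔ |sm a S - sm a S₀| * t ≤ ε := by
        intro S
        exact Quotient.eq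
      have h2 : ∑ S with Quotient.mk st S = Quotient.mk st S₀, (c S : ℂ) * z ^ (∑ i ∈ S, u i) =
          (∑ S with Quotient.mk st S = Quotient.mk st S₀, (c S : ℂ)) * z ^ (∑ i ∈ S₀, u i) := by
        rw [Finset.sum_mul]
        refine Finset.sum_congr rfl fun S hS => ?_
        rw [Finset.mem_filter, h1] at hS
        rw [hu' (S, S₀) hS.2]
      rw [h2]
      have h3 := hall S₀
      simp only [h1]
      have h4 : (∑ S with |sm a S - sm a S₀| * t ≤ ε, (c S : ℂ)) = 0 := by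
        have h5 : ((∑ S with |sm a S - sm a S₀| * t ≤ ε, c S : ℤ) : ℂ) = 0 := by
          rw [h3, Int.cast_zero]
        rw [← h5]
        push_cast
        rfl
      rw [h4, zero_mul]
  · left
    push Not at hall
    obtain ⟨S₀, hS₀⟩ := hall
    obtain ⟨θ, hθ, hθt, h⟩ := trig_large c hc a ε t hε hεk ht0 S₀
      (fun S => |sm a S - sm a S₀| * t ≤ ε) (fun S h => h)
      (fun S h => (hD' S S₀).resolve_left h) hS₀
    exact ⟨θ, hθ, (hθt.trans htτ).trans hττ, h⟩

/-- **Module CLG** -/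
theorem thm_ClusterG : St_ClusterG := by
  classical
  intro k C τ hτ
  choose N hN using fun m => CluG_core m C τ hτ
  refine ⟨∑ m ∈ Finset.range (k + 1), N m, ?_⟩
  intro V _ _ _ X hk a hNV
  obtain ⟨m, hm⟩ : ∃ m, m = X.card := ⟨_, rfl⟩
  have hNm : N m ≤ ∑ m ∈ Finset.range (k + 1), N m :=
    Finset.single_le_sum (f := N) (fun _ _ => Nat.zero_le _) (Finset.mem_range.2 (by omega))
  obtain ⟨g, hg⟩ : ∃ g : Fin m ↪ V, Finset.univ.map g = X := by
    refine ⟨(X.equivFinOfCardEq hm.symm).symm.toEmbedding.trans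
      (Function.Embedding.subtype _), ?_⟩
    ext v
    simp only [Finset.mem_map, Finset.mem_univ, true_and, Function.Embedding.trans_apply,
      Equiv.coe_toEmbedding, Function.Embedding.subtype_apply]
    constructor
    · rintro ⟨i, rfl⟩
      exact ((X.equivFinOfCardEq hm.symm).symm i).2
    · intro hv
      exact ⟨X.equivFinOfCardEq hm.symm ⟨v, hv⟩, by rw [Equiv.symm_apply_apply]⟩
  rcases hN m (cf g X) (cf_le g X) (fun i => a (g i)) with ⟨θ, hθ, hθτ, h⟩ | ⟨u, hu, hu2, hz⟩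
  · refine ⟨θ, hθ, hθτ, ?_⟩
    rw [PP_map g X hg]
    unfold trig at h
    have h1 : ∀ T : Finset (Fin m), ∏ i ∈ T, Complex.exp (((a (g i) * θ : ℝ) : ℂ) * Complex.I) =
        Complex.exp (((sm (fun i => a (g i)) T * θ : ℝ) : ℂ) * Complex.I) := by
      intro T
      rw [← Complex.exp_sum]
      congr 1
      unfold sm
      push_cast
      rw [Finset.sum_mul, Finset.sum_mul]
    simp only [h1]
    exact h
  · exfalso
    obtain ⟨u', hu'⟩ : ∃ u' : V → ℤ, ∀ i, u' (g i) = u i :=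
      ⟨Function.extend g u 0, fun i => g.injective.extend_apply u 0 i⟩
    have hfol : Follows X a u' C (∑ m ∈ Finset.range (k + 1), N m) := by
      intro S hS S' hS'
      rw [← hg] at hS hS'
      obtain ⟨T, _, rfl⟩ := Finset.subset_map_iff.1 hS
      obtain ⟨T', _, rfl⟩ := Finset.subset_map_iff.1 hS'
      simp only [Finset.sum_map, hu']
      refine ⟨fun h => hu T T' ?_, fun h => hu2 T T' h⟩
      have h2 : ((N m : ℕ) : ℤ) ≤ ((∑ m ∈ Finset.range (k + 1), N m : ℕ) : ℤ) := by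
        exact_mod_cast hNm
      exact h2.trans h
    obtain ⟨z, hz1, hzY⟩ := hNV u' hfol
    apply hzY
    have hz0 : z ≠ 0 := by
      intro h0
      rw [h0, norm_zero] at hz1
      exact zero_ne_one hz1
    rw [PP_map g X hg]
    rw [← hz z]
    refine Finset.sum_congr rfl fun T _ => ?_
    congr 1
    simp only [hu']
    exact prod_zpow_sum z hz0 u T

end Pool.Agent.SPT
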