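import Mathlib
import Pool.Agent.SPT.CluG

/-!
# SPT: the coefficients of the polynomial, level sums, and patterns far from finitely many hyperplanes
-/

set_option autoImplicit false
set_option linter.unusedSectionVars false

open Submodule

namespace Pool.Agent.SPT

section
variable {V : Type} [AddCommGroup V] [Module (ZMod 2) V] [DecidableEq V]

open Classical in
/-- the coefficient of the monomial of `S` in the polynomial of `X` -/
noncomputable def cc (X S : Finset V) : ℤ :=
  ∑ W ∈ X.powerset, if Spans ⊥ X W ∧ S ⊆ W then (-1) ^ (W \ S).card else 0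

theorem PP_cc (X : Finset V) (x : V → ℂ) :
    PP X ⊥ x = ∑ S ∈ X.powerset, (cc X S : ℂ) * ∏ v ∈ S, x v := by
  classical
  unfold PP
  have h2 : ∀ W ∈ X.powerset, (∏ v ∈ W, (x v - 1)) =
      ∑ S ∈ X.powerset, if S ⊆ W then (-1) ^ (W \ S).card * ∏ v ∈ S, x v else 0 := by
    intro W hW
    rw [Finset.mem_powerset] at hW
    have h3 : (∏ v ∈ W, (x v - 1)) = ∏ v ∈ W, (x v + (-1)) :=
      Finset.prod_congr rfl fun v _ => by ring
    rw [h3, Finset.prod_add, ← Finset.sum_filter]
    refine Finset.sum_congr ?_ fun S _ => ?_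
    · ext S
      rw [Finset.mem_filter, Finset.mem_powerset, Finset.mem_powerset]
      exact ⟨fun h => ⟨h.trans hW, h⟩, fun h => h.2⟩
    · rw [Finset.prod_const]
      ring
  have h4 : ∀ W ∈ X.powerset, (if Spans ⊥ X W then ∏ v ∈ W, (x v - 1) else 0) =
      ∑ S ∈ X.powerset, (((if Spans ⊥ X W ∧ S ⊆ W then (-1) ^ (W \ S).card else 0 : ℤ)) : ℂ) *
        ∏ v ∈ S, x v := by
    intro W hW
    by_cases hs : Spans ⊥ X W
    · rw [if_pos hs, h2 W hW]
      refine Finset.sum_congr rfl fun S _ => ?_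
      by_cases hT : S ⊆ W
      · rw [if_pos hT, if_pos ⟨hs, hT⟩]
        push_cast
        ring
      · rw [if_neg hT, if_neg (fun h => hT h.2)]
        simp
    · rw [if_neg hs]
      symm
      refine Finset.sum_eq_zero fun S _ => ?_
      rw [if_neg (fun h => hs h.1)]
      simp
  rw [Finset.sum_congr rfl h4, Finset.sum_comm]
  refine Finset.sum_congr rfl fun S _ => ?_
  rw [← Finset.sum_mul]
  congr 1
  unfold cc
  rw [Int.cast_sum]

theorem cc_self (X : Finset V) : cc X X = 1 := by
  classical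
  unfold cc
  rw [Finset.sum_eq_single X]
  · rw [if_pos ⟨rfl, Finset.Subset.refl X⟩, Finset.sdiff_self, Finset.card_empty, pow_zero]
  · intro W hW hne
    rw [Finset.mem_powerset] at hW
    rw [if_neg (fun h => hne (Finset.Subset.antisymm hW h.2))]
  · intro h
    exact absurd (Finset.mem_powerset.2 (Finset.Subset.refl X)) h

theorem cc_zero (X S : Finset V) (v : V) (hv : v ∈ X) (hvS : v ∉ S)
    (hspan : v ∈ span (ZMod 2) (S : Set V)) : cc X S = 0 := by
  classical
  unfold cc
  have hsp : ∀ W : Finset V, S ⊆ W → (Spans ⊥ X (insert v W) ↔ Spans ⊥ X W) := by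
    intro W hSW
    unfold Spans
    have h1 : span (ZMod 2) ((insert v W : Finset V) : Set V) = span (ZMod 2) (W : Set V) := by
      rw [Finset.coe_insert, span_insert_eq_span]
      exact span_mono (Finset.coe_subset.2 hSW) hspan
    rw [h1]
  obtain ⟨Y, hY⟩ : ∃ Y, Y = X.erase v := ⟨_, rfl⟩
  have hX : X = insert v Y := by
    rw [hY, Finset.insert_erase hv]
  have hvY : v ∉ Y := by
    rw [hY]
    exact Finset.notMem_erase v X
  have hpow : X.powerset = Y.powerset ∪ Y.powerset.image (insert v) := by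
    rw [hX, Finset.powerset_insert]
  rw [hpow, Finset.sum_union, Finset.sum_image]
  · rw [← Finset.sum_add_distrib]
    refine Finset.sum_eq_zero fun W hW => ?_
    have hvW : v ∉ W := fun h => hvY (Finset.mem_powerset.1 hW h)
    by_cases hSW : S ⊆ W
    · have hSW' : S ⊆ insert v W := hSW.trans (Finset.subset_insert v W)
      have hcard : (insert v W \ S).card = (W \ S).card + 1 := by
        rw [Finset.insert_sdiff_of_notMem _ hvS, Finset.card_insert_of_notMem]
        exact fun h => hvW (Finset.mem_sdiff.1 h).1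
      by_cases hs : Spans ⊥ X W
      · rw [if_pos ⟨hs, hSW⟩, if_pos ⟨(hsp W hSW).2 hs, hSW'⟩, hcard, pow_succ]
        ring
      · rw [if_neg (fun h => hs h.1), if_neg (fun h => hs ((hsp W hSW).1 h.1))]
        ring
    · rw [if_neg (fun h => hSW h.2), if_neg (fun h => hSW ?_)]
      · ring
      · intro w hw
        rcases Finset.mem_insert.1 (h.2 hw) with h1 | h1
        · exact absurd (h1 ▸ hw) hvS
        · exact h1
  · intro W hW W' hW' h
    have h1 : v ∉ W := fun h => hvY (Finset.mem_powerset.1 hW h)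
    have h2 : v ∉ W' := fun h => hvY (Finset.mem_powerset.1 hW' h)
    rw [← Finset.erase_insert h1, ← Finset.erase_insert h2, h]
  · rw [Finset.disjoint_left]
    intro W hW hW'
    rw [Finset.mem_image] at hW'
    obtain ⟨W', _, rfl⟩ := hW'
    exact hvY (Finset.mem_powerset.1 hW (Finset.mem_insert_self v W'))

end

/-- a trigonometric polynomial which vanishes on the unit circle has vanishing level sums -/
theorem level_zero {ι : Type} (P : Finset ι) (c : ι → ℤ) (e : ι → ℤ)
    (h : ∀ z : ℂ, ‖z‖ = 1 → ∑ S ∈ P, (c S : ℂ) * z ^ e S = 0) (s : ℤ) :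
    ∑ S ∈ P with e S = s, c S = 0 := by
  classical
  obtain ⟨M, hM⟩ : ∃ M : ℕ, M = (∑ S ∈ P, |e S| + |s|).toNat := ⟨_, rfl⟩
  have hM' : (M : ℤ) = ∑ S ∈ P, |e S| + |s| := by
    rw [hM, Int.toNat_of_nonneg]
    exact add_nonneg (Finset.sum_nonneg fun S _ => abs_nonneg _) (abs_nonneg _)
  have he : ∀ S ∈ P, 0 ≤ e S + M := by
    intro S hS
    have h1 : |e S| ≤ ∑ S ∈ P, |e S| :=
      Finset.single_le_sum (f := fun S => |e S|) (fun S _ => abs_nonneg _) hS
    have h2 := neg_abs_le (e S)
    have h3 := abs_nonneg s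
    omega
  have hs : 0 ≤ s + M := by
    have h1 : 0 ≤ ∑ S ∈ P, |e S| := Finset.sum_nonneg fun S _ => abs_nonneg _
    have h2 := neg_abs_le s
    omega
  obtain ⟨p, hp⟩ : ∃ p : Polynomial ℂ, p = ∑ S ∈ P, Polynomial.monomial (e S + M).toNat (c S : ℂ) :=
    ⟨_, rfl⟩
  have hp0 : p = 0 := by
    apply Polynomial.eq_zero_of_infinite_isRoot
    have hinf : Set.Infinite {z : ℂ | ‖z‖ = 1} := by
      have h1 : Set.Infinite (Set.range fun n : ℕ => Complex.exp (n * Complex.I)) := by
        apply Set.infinite_range_of_injective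
        intro a b hab
        replace hab : Complex.exp (a * Complex.I) = Complex.exp (b * Complex.I) := hab
        rw [Complex.exp_eq_exp_iff_exists_int] at hab
        obtain ⟨n, hn⟩ := hab
        have h2 : (a : ℂ) = b + n * (2 * Real.pi) := by
          have h3 : (a : ℂ) * Complex.I = (b + n * (2 * Real.pi)) * Complex.I := by
            rw [hn]
            ring
          exact mul_right_cancel₀ Complex.I_ne_zero h3
        have h4 : (a : ℝ) = b + n * (2 * Real.pi) := by
          exact_mod_cast h2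
        by_cases hn0 : n = 0
        · rw [hn0] at h4
          simp only [Int.cast_zero, zero_mul, add_zero] at h4
          exact_mod_cast h4
        · exfalso
          refine irrational_pi ⟨((a : ℚ) - b) / (n * 2), ?_⟩
          have hn0' : (n : ℝ) ≠ 0 := by exact_mod_cast hn0
          push_cast
          rw [h4]
          field_simp
          ring
      refine h1.mono ?_
      rintro z ⟨n, rfl⟩
      rw [Set.mem_ofPred_eq, Complex.norm_exp]
      simp
    refine hinf.mono fun z hz => ?_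
    rw [Set.mem_ofPred_eq] at hz ⊢
    have hz0 : z ≠ 0 := by
      intro h0
      rw [h0, norm_zero] at hz
      exact zero_ne_one hz
    rw [Polynomial.IsRoot.def, hp, Polynomial.eval_finsetSum]
    have h1 : ∀ S ∈ P, Polynomial.eval z (Polynomial.monomial (e S + M).toNat (c S : ℂ)) =
        z ^ M * ((c S : ℂ) * z ^ e S) := by
      intro S hS
      rw [Polynomial.eval_monomial]
      have h2 : z ^ (e S + M).toNat = z ^ (e S + M : ℤ) := by
        rw [← zpow_natCast, Int.toNat_of_nonneg (he S hS)]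
      rw [h2, zpow_add₀ hz0, zpow_natCast]
      ring
    rw [Finset.sum_congr rfl h1, ← Finset.mul_sum, h z hz, mul_zero]
  have h1 : p.coeff (s + M).toNat = ((∑ S ∈ P with e S = s, c S : ℤ) : ℂ) := by
    rw [hp, Polynomial.finsetSum_coeff, Int.cast_sum, Finset.sum_filter]
    refine Finset.sum_congr rfl fun S hS => ?_
    rw [Polynomial.coeff_monomial]
    have h2 : (e S + M).toNat = (s + M).toNat ↔ e S = s := by
      constructor
      · intro h3
        have h4 : (((e S + M).toNat : ℕ) : ℤ) = (((s + M).toNat : ℕ) : ℤ) := by rw [h3]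
        rw [Int.toNat_of_nonneg (he S hS), Int.toNat_of_nonneg hs] at h4
        omega
      · intro h3
        rw [h3]
    by_cases h3 : e S = s
    · rw [if_pos (h2.2 h3), if_pos h3]
    · rw [if_neg (fun h => h3 (h2.1 h)), if_neg h3]
  rw [hp0, Polynomial.coeff_zero] at h1
  exact_mod_cast h1.symm

section
variable {V : Type} [AddCommGroup V] [Module (ZMod 2) V] [DecidableEq V]

/-- if the polynomial vanishes then all level sums vanish -/
theorem level_cc (X : Finset V) (u : V → ℤ) (h : ¬ NZu X u) (s : ℤ) :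
    ∑ S ∈ X.powerset with ∑ v ∈ S, u v = s, cc X S = 0 := by
  classical
  apply level_zero
  intro z hz
  have hz0 : z ≠ 0 := by
    intro h0
    rw [h0, norm_zero] at hz
    exact zero_ne_one hz
  unfold NZu at h
  push Not at h
  rw [← h z hz, PP_cc]
  refine Finset.sum_congr rfl fun S _ => ?_
  rw [prod_zpow_sum z hz0 u S]

/-- if some level sum is not zero then the polynomial is not zero -/
theorem NZu_of_level (X : Finset V) (u : V → ℤ) (s : ℤ)
    (h : ∑ S ∈ X.powerset with ∑ v ∈ S, u v = s, cc X S ≠ 0) : NZu X u := by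
  by_contra h1
  exact h (level_cc X u h1 s)

/-- The sums of `a` over the complements of the flats are far from zero. -/
def FarTop (X : Finset V) (a : V → ℤ) (N : ℕ) : Prop :=
  ∀ F ⊆ X, (∀ v ∈ X, v ∈ span (ZMod 2) (F : Set V) → v ∈ F) → F ≠ X →
    (N : ℤ) ≤ |∑ v ∈ X \ F, a v|

theorem NZu_FarTop (X : Finset V) (a u : V → ℤ) (C N : ℕ) (h : FarTop X a N)
    (hu : Follows X a u C N) : NZu X u := by
  classical
  apply NZu_of_level X u (∑ v ∈ X, u v)
  rw [Finset.sum_eq_single X]
  · rw [cc_self]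
    exact one_ne_zero
  · intro F hF hne
    rw [Finset.mem_filter, Finset.mem_powerset] at hF
    by_cases hfl : ∀ v ∈ X, v ∈ span (ZMod 2) (F : Set V) → v ∈ F
    · exfalso
      have h1 := h F hF.1 hfl hne
      refine (hu X (Finset.Subset.refl X) F hF.1).1 ?_ hF.2.symm
      rwa [← Finset.sum_sdiff hF.1, add_sub_cancel_right]
    · push Not at hfl
      obtain ⟨v, hv, hvs, hvF⟩ := hfl
      exact cc_zero X F v hv hvF hvs
  · intro h1
    refine absurd ?_ h1
    rw [Finset.mem_filter]
    exact ⟨Finset.mem_powerset.2 (Finset.Subset.refl X), rfl⟩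

/-- The vector `a` is, up to an error of at most `C`, a large multiple of an integral vector whose odd
entries span. -/
def NearOdd (X : Finset V) (a : V → ℤ) (C N : ℕ) : Prop :=
  ∃ (m : V → ℤ) (N₀ : ℤ), (N : ℤ) ≤ N₀ ∧
    (∀ v ∈ X, v ∈ span (ZMod 2) {w | w ∈ X ∧ Odd (m w)}) ∧
    ∀ v ∈ X, |a v - m v * N₀| ≤ C

theorem NZu_Near (k C N : ℕ) (X : Finset V) (hk : X.card ≤ k) (a m u : V → ℤ) (N₀ : ℤ)
    (hN : (N : ℤ) + 2 * (k * C) ≤ N₀) (ha : ∀ v ∈ X, |a v - m v * N₀| ≤ C)
    (hu : Follows X a u (2 * (k * C)) N) (hm : NZu X m) : NZu X u := by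
  classical
  have hsum : ∀ S ⊆ X, |∑ v ∈ S, a v - (∑ v ∈ S, m v) * N₀| ≤ k * C := by
    intro S hS
    rw [Finset.sum_mul, ← Finset.sum_sub_distrib]
    refine (Finset.abs_sum_le_sum_abs _ _).trans ?_
    calc ∑ v ∈ S, |a v - m v * N₀| ≤ ∑ _v ∈ S, (C : ℤ) :=
          Finset.sum_le_sum fun v hv => ha v (hS hv)
      _ = S.card * C := by rw [Finset.sum_const, nsmul_eq_mul]
      _ ≤ k * C := by
          have h1 : S.card ≤ k := (Finset.card_le_card hS).trans hk
          have h2 : (S.card : ℤ) ≤ k := by exact_mod_cast h1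
          exact mul_le_mul_of_nonneg_right h2 (Int.natCast_nonneg C)
  have hiff : ∀ S ⊆ X, ∀ S' ⊆ X, (∑ v ∈ S, u v = ∑ v ∈ S', u v ↔ ∑ v ∈ S, m v = ∑ v ∈ S', m v) := by
    intro S hS S' hS'
    have h1 := abs_le.1 (hsum S hS)
    have h2 := abs_le.1 (hsum S' hS')
    constructor
    · intro h
      by_contra hne
      refine (hu S hS S' hS').1 ?_ h
      have hN0 : (0 : ℤ) ≤ N₀ := by
        have h3 : (0 : ℤ) ≤ (N : ℤ) + 2 * (k * C) := by positivity
        omega
      rcases lt_or_gt_of_ne hne with hlt | hlt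
      · have h3 : (∑ v ∈ S, m v) * N₀ + N₀ ≤ (∑ v ∈ S', m v) * N₀ := by
          have h4 : ∑ v ∈ S, m v + 1 ≤ ∑ v ∈ S', m v := by omega
          nlinarith
        rw [abs_sub_comm]
        refine le_trans ?_ (le_abs_self _)
        omega
      · have h3 : (∑ v ∈ S', m v) * N₀ + N₀ ≤ (∑ v ∈ S, m v) * N₀ := by
          have h4 : ∑ v ∈ S', m v + 1 ≤ ∑ v ∈ S, m v := by omega
          nlinarith
        refine le_trans ?_ (le_abs_self _)
        omega
    · intro h
      refine (hu S hS S' hS').2 ?_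
      rw [h] at h1
      rw [abs_le]
      push_cast
      constructor <;> omega
  by_contra hnot
  obtain ⟨z, hz, hz1⟩ := hm
  apply hz1
  have hz0 : z ≠ 0 := by
    intro h0
    rw [h0, norm_zero] at hz
    exact zero_ne_one hz
  rw [PP_cc]
  have h1 : ∀ S ∈ X.powerset, (cc X S : ℂ) * ∏ v ∈ S, z ^ m v =
      (cc X S : ℂ) * z ^ ∑ v ∈ S, m v := by
    intro S _
    rw [prod_zpow_sum z hz0 m S]
  rw [Finset.sum_congr rfl h1]
  rw [← Finset.sum_fiberwise_of_maps_to (s := X.powerset)
    (t := X.powerset.image fun S => ∑ v ∈ S, u v) (g := fun S => ∑ v ∈ S, u v)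
    (fun S hS => Finset.mem_image_of_mem _ hS)]
  refine Finset.sum_eq_zero fun s hs => ?_
  rw [Finset.mem_image] at hs
  obtain ⟨S₀, hS₀, rfl⟩ := hs
  have h2 : ∀ S ∈ X.powerset.filter (fun S => ∑ v ∈ S, u v = ∑ v ∈ S₀, u v),
      (cc X S : ℂ) * z ^ ∑ v ∈ S, m v = (cc X S : ℂ) * z ^ ∑ v ∈ S₀, m v := by
    intro S hS
    rw [Finset.mem_filter, Finset.mem_powerset] at hS
    rw [(hiff S hS.1 S₀ (Finset.mem_powerset.1 hS₀)).1 hS.2]
  rw [Finset.sum_congr rfl h2, ← Finset.sum_mul]
  have h3 := level_cc X u hnot (∑ v ∈ S₀, u v)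
  have h4 : (∑ S ∈ X.powerset with ∑ v ∈ S, u v = ∑ v ∈ S₀, u v, (cc X S : ℂ)) = 0 := by
    rw [← Int.cast_sum, h3, Int.cast_zero]
  rw [h4, zero_mul]

end

end Pool.Agent.SPT
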