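import Mathlib
import Pool.Agent.SPT.Fin
import Pool.Agent.SPT.Lev

/-!
# SPT: the theorem for all patterns and all twists whose followers are nonvanishing
-/

set_option autoImplicit false

open Submodule LaurentPolynomial

namespace Pool.Agent.SPT

open Pool.Agent.Helper16.Knotoid Pool.Agent.UNI

/-- There are at most `k` different rows, not all zero, and every integral vector `u` which follows the
twists (the sums over two sets of rows of `u` are different if those of the twists differ by at least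
`N`, and equal if those of the twists differ by at most `C`) gives a nonvanishing polynomial. -/
def GoodTwists {n : ℕ} (R : Fin n → Fin n → Prop) (σ : Fin n → Bool) (k C N : ℕ) : Prop :=
  (∃ c d, R c d) ∧ (rows R).card ≤ k ∧
    ∀ u : (Fin n → ZMod 2) → ℤ, Follows (rows R) (twist R σ) u C N → NZu (rows R) u

/-- **knotoid diagrams** -/
def St_KnotoidG : Prop :=
  ∀ k C B : ℕ, ∃ N : ℕ, ∀ (n : ℕ) (D : Helper16.Knotoid.GaussDiagram n) (σ : Fin n → Bool),
    GoodTwists (D.Cut σ) σ k C N → (B : ℤ) < coeffSum D.normalizedBracket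

/-- **knot diagrams** -/
def St_KnotG : Prop :=
  ∀ k C B : ℕ, ∃ N : ℕ, ∀ (n : ℕ) (g : GaussJones.Code n) (e σ : Fin n → Bool),
    GoodTwists (GaussJones.Cut g e σ) σ k C N → (B : ℤ) < coeffSum (GaussJones.fPoly g e)

/-- **Knotoid diagrams, general criterion** -/
theorem thm_KnotoidG : St_KnotoidG := by
  classical
  intro k C B
  obtain ⟨t, ht0, ht1, ht2, ht3⟩ : ∃ t : ℝ, 0 < t ∧ t < 1 ∧ 3 ^ k * t ≤ 1 / 4 ∧
      t * (B + 1) ≤ 1 / 4 := by
    refine ⟨min (1 / 2) (min (1 / 4 / 3 ^ k) (1 / 4 / (B + 1))), ?_, ?_, ?_, ?_⟩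
    · refine lt_min (by norm_num) (lt_min ?_ ?_) <;> positivity
    · exact (min_le_left _ _).trans_lt (by norm_num)
    · rw [mul_comm, ← le_div_iff₀ (by positivity)]
      exact (min_le_right _ _).trans (min_le_left _ _)
    · rw [← le_div_iff₀ (by positivity)]
      exact (min_le_right _ _).trans (min_le_right _ _)
  obtain ⟨N, hN⟩ := thm_ClusterG k C t ht0
  refine ⟨N, fun n D σ ⟨⟨c₀, d₀, hR⟩, hk, hNV⟩ => ?_⟩
  have hrows : rows (D.Cut σ) = Finset.univ.image (D.gmat σ) := by
    unfold rows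
    exact Finset.image_congr fun c _ => row_eq D σ c
  have htw : ∀ (v : Fin n → ZMod 2) [DecidablePred fun c => D.gmat σ c = v],
      signedCount σ (Finset.univ.filter fun c => D.gmat σ c = v) = twist (D.Cut σ) σ v := by
    intro v _
    unfold twist signedCount
    refine Finset.sum_congr ?_ fun _ _ => rfl
    ext c
    rw [Finset.mem_filter, Finset.mem_filter, row_eq]
  obtain ⟨θ, hθ0, hθt, hlow⟩ := hN (Fin n → ZMod 2) (rows (D.Cut σ)) hk
    (twist (D.Cut σ) σ) hNV
  have hev := thm_Eval (Fin n) (D.gmat σ) (D.gmat_symm σ) σ θ hθ0 (by linarith)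
  simp only [htw] at hev
  rw [hrows] at hlow
  have hcard : (3 : ℝ) ^ (Finset.univ.image (D.gmat σ)).card ≤ 3 ^ k :=
    pow_le_pow_right₀ (by norm_num) (by rwa [← hrows])
  have hrank : 1 ≤ (D.gmat σ).rank := rank_pos _ c₀ d₀ (by
    rw [(cut_iff D σ c₀ d₀).1 hR]
    exact one_ne_zero)
  rw [← norm_f D σ θ] at hev
  have hle := norm_ev_le θ D.normalizedBracket
  have hpow : θ ^ (D.gmat σ).rank ≤ θ := by
    calc θ ^ (D.gmat σ).rank ≤ θ ^ 1 := pow_le_pow_of_le_one hθ0.le (by linarith) hrank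
      _ = θ := pow_one θ
  have h1 : 1 / 4 ≤ θ * ‖evθ θ D.normalizedBracket‖ := by
    have h2 : (3 : ℝ) ^ (Finset.univ.image (D.gmat σ)).card * θ ≤ 1 / 4 := by
      calc (3 : ℝ) ^ (Finset.univ.image (D.gmat σ)).card * θ ≤ 3 ^ k * t :=
            mul_le_mul hcard hθt hθ0.le (by positivity)
        _ ≤ 1 / 4 := ht2
    have h3 : θ ^ (D.gmat σ).rank * ‖evθ θ D.normalizedBracket‖ ≤
        θ * ‖evθ θ D.normalizedBracket‖ := mul_le_mul_of_nonneg_right hpow (norm_nonneg _)
    linarith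
  have h4 : t * (B + 1) ≤ t * (coeffSum D.normalizedBracket : ℝ) := by
    calc t * (B + 1) ≤ 1 / 4 := ht3
      _ ≤ θ * ‖evθ θ D.normalizedBracket‖ := h1
      _ ≤ t * (coeffSum D.normalizedBracket : ℝ) :=
          mul_le_mul hθt hle (norm_nonneg _) ht0.le
  have h5 : ((B : ℝ) + 1) ≤ (coeffSum D.normalizedBracket : ℝ) := le_of_mul_le_mul_left h4 ht0
  have h6 : ((B : ℤ) + 1) ≤ coeffSum D.normalizedBracket := by exact_mod_cast h5
  omega

/-- **Knot diagrams, general criterion** -/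
theorem thm_KnotG : St_KnotG := by
  intro k C B
  obtain ⟨N, hN⟩ := thm_KnotoidG k C B
  refine ⟨N, fun n g e σ h => ?_⟩
  have h1 : GaussJones.Cut g e σ = (cutOpen g e).Cut σ := by
    funext i j
    exact propext (cut_closed g e σ i j)
  have hn : 0 < n := by
    obtain ⟨⟨c, _⟩, _⟩ := h
    exact c.pos
  rw [h1] at h
  rw [f_closed hn]
  exact hN n _ σ h

/-- There are at most `k` different rows, not all zero, and the sum of the twists over the rows outside
of `F` is at least `N` in absolute value, for every proper closed set `F` of rows. -/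
def FarTwists {n : ℕ} (R : Fin n → Fin n → Prop) (σ : Fin n → Bool) (k N : ℕ) : Prop :=
  (∃ c d, R c d) ∧ (rows R).card ≤ k ∧ FarTop (rows R) (twist R σ) N

theorem good_of_far {n : ℕ} (R : Fin n → Fin n → Prop) (σ : Fin n → Bool) (k C N : ℕ)
    (h : FarTwists R σ k N) : GoodTwists R σ k C N :=
  ⟨h.1, h.2.1, fun u hu => NZu_FarTop (rows R) (twist R σ) u C N h.2.2 hu⟩

/-- **Knotoid diagrams far from the hyperplanes** -/
theorem thm_KnotoidFar : ∀ k B : ℕ, ∃ N : ℕ, ∀ (n : ℕ) (D : Helper16.Knotoid.GaussDiagram n)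
    (σ : Fin n → Bool), FarTwists (D.Cut σ) σ k N → (B : ℤ) < coeffSum D.normalizedBracket := by
  intro k B
  obtain ⟨N, hN⟩ := thm_KnotoidG k 0 B
  exact ⟨N, fun n D σ h => hN n D σ (good_of_far _ σ k 0 N h)⟩

/-- **Knot diagrams far from the hyperplanes** -/
theorem thm_KnotFar : ∀ k B : ℕ, ∃ N : ℕ, ∀ (n : ℕ) (g : GaussJones.Code n) (e σ : Fin n → Bool),
    FarTwists (GaussJones.Cut g e σ) σ k N → (B : ℤ) < coeffSum (GaussJones.fPoly g e) := by
  intro k B
  obtain ⟨N, hN⟩ := thm_KnotG k 0 B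
  exact ⟨N, fun n g e σ h => hN n g e σ (good_of_far _ σ k 0 N h)⟩

end Pool.Agent.SPT
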