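import Mathlib
import Pool.Agent.SPT.Defs

/-!
# SPT: positivity at weights `1` and `-1`

For a binary matroid with weights in `[-1, 1]`, without loops, the polynomial of the spanning sets has
the sign of `(-1) ^ rank`; for weights `1` and `-1` on different non-zero vectors its absolute value
does not decrease when a weight `1` is changed into `-1`.
-/

set_option autoImplicit false

open Submodule

namespace Pool.Agent.SPT.Odd

variable {V : Type} [AddCommGroup V] [Module (ZMod 2) V]

open Classical in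
/-- the sum over the subsets of `X` which span `V'` together with `K` -/
noncomputable def RR (X : Finset V) (K V' : Submodule (ZMod 2) V) (x : V → ℝ) : ℝ :=
  ∑ W ∈ X.powerset, if K ⊔ span (ZMod 2) (W : Set V) = V' then ∏ v ∈ W, (x v - 1) else 0

theorem RR_insert [DecidableEq V] (X : Finset V) (K V' : Submodule (ZMod 2) V) (x : V → ℝ) (e : V)
    (he : e ∉ X) : RR (insert e X) K V' x =
      RR X K V' x + (x e - 1) * RR X (K ⊔ span (ZMod 2) {e}) V' x := by
  classical
  unfold RR
  rw [Finset.sum_powerset_insert he, Finset.mul_sum]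
  congr 1
  refine Finset.sum_congr rfl fun W hW => ?_
  have heW : e ∉ W := fun h => he (Finset.mem_powerset.mp hW h)
  have h1 : K ⊔ span (ZMod 2) ((insert e W : Finset V) : Set V) =
      K ⊔ span (ZMod 2) {e} ⊔ span (ZMod 2) (W : Set V) := by
    rw [Finset.coe_insert, span_insert, sup_assoc]
  rw [h1]
  by_cases h : K ⊔ span (ZMod 2) {e} ⊔ span (ZMod 2) (W : Set V) = V'
  · rw [if_pos h, if_pos h, Finset.prod_insert heW]
  · rw [if_neg h, if_neg h, mul_zero]

theorem RR_congr (X : Finset V) (K V' : Submodule (ZMod 2) V) (x y : V → ℝ)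
    (h : ∀ v ∈ X, x v = y v) : RR X K V' x = RR X K V' y := by
  classical
  unfold RR
  refine Finset.sum_congr rfl fun W hW => ?_
  have h1 : ∏ v ∈ W, (x v - 1) = ∏ v ∈ W, (y v - 1) :=
    Finset.prod_congr rfl fun v hv => by rw [h v (Finset.mem_powerset.mp hW hv)]
  rw [h1]

theorem add_self_two (v : V) : v + v = 0 := by
  have h : (2 : ZMod 2) • v = v + v := two_smul _ v
  rw [← h]
  have h2 : (2 : ZMod 2) = 0 := by decide
  rw [h2, zero_smul]

theorem zmod2_cases (c : ZMod 2) : c = 0 ∨ c = 1 := by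
  revert c
  decide

theorem mem_sup_one (K : Submodule (ZMod 2) V) (e v : V) (h : v ∈ K ⊔ span (ZMod 2) {e}) :
    v ∈ K ∨ v + e ∈ K := by
  rw [mem_sup] at h
  obtain ⟨a, ha, b, hb, rfl⟩ := h
  rw [mem_span_singleton] at hb
  obtain ⟨c, rfl⟩ := hb
  have hc : c = 0 ∨ c = 1 := zmod2_cases c
  rcases hc with rfl | rfl
  · left
    rw [zero_smul, add_zero]
    exact ha
  · right
    rw [one_smul, add_assoc, add_self_two, add_zero]
    exact ha

theorem sup_eq_of_add (K : Submodule (ZMod 2) V) (e y : V) (h : y + e ∈ K) :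
    K ⊔ span (ZMod 2) {e} = K ⊔ span (ZMod 2) {y} := by
  have key : ∀ a b : V, a + b ∈ K → K ⊔ span (ZMod 2) {a} ≤ K ⊔ span (ZMod 2) {b} := by
    intro a b hab
    refine sup_le le_sup_left ?_
    rw [span_singleton_le_iff_mem]
    have h1 : a = (a + b) + b := by
      rw [add_assoc, add_self_two, add_zero]
    rw [h1]
    exact add_mem (mem_sup_left hab) (mem_sup_right (mem_span_singleton_self b))
  refine le_antisymm (key e y ?_) (key y e h)
  rw [add_comm]
  exact h

theorem RR_parallel [DecidableEq V] (X : Finset V) (K V' : Submodule (ZMod 2) V) (x : V → ℝ)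
    (e y : V) (he : e ∉ X) (hy : y ∈ X) (h : y + e ∈ K) :
    RR (insert e X) K V' x = RR X K V' (Function.update x y (x y * x e)) := by
  obtain ⟨X0, hX0, rfl⟩ : ∃ X0 : Finset V, y ∉ X0 ∧ X = insert y X0 :=
    ⟨X.erase y, Finset.notMem_erase y X, (Finset.insert_erase hy).symm⟩
  rw [RR_insert _ _ _ _ e he, RR_insert _ _ _ _ y hX0, RR_insert _ _ _ _ y hX0,
    RR_insert _ _ _ _ y hX0, Function.update_self]
  have h1 : K ⊔ span (ZMod 2) {e} = K ⊔ span (ZMod 2) {y} := sup_eq_of_add K e y h
  have h2 : K ⊔ span (ZMod 2) {e} ⊔ span (ZMod 2) {y} = K ⊔ span (ZMod 2) {y} := by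
    rw [h1, sup_assoc, sup_idem]
  have h3 : ∀ K' : Submodule (ZMod 2) V,
      RR X0 K' V' (Function.update x y (x y * x e)) = RR X0 K' V' x := fun K' =>
    RR_congr _ _ _ _ _ fun v hv => by
      rw [Function.update_of_ne]
      rintro rfl
      exact hX0 hv
  rw [h3, h3, h2, h1]
  ring

theorem finrank_sup_one (K : Submodule (ZMod 2) V) [FiniteDimensional (ZMod 2) K] (e : V)
    (he : e ∉ K) : Module.finrank (ZMod 2) (K ⊔ span (ZMod 2) {e} : Submodule (ZMod 2) V) =
      Module.finrank (ZMod 2) K + 1 := by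
  have h0 : e ≠ 0 := by
    rintro rfl
    exact he K.zero_mem
  have h1 := Submodule.finrank_sup_add_finrank_inf_eq K (span (ZMod 2) {e})
  have h2 : K ⊓ span (ZMod 2) {e} = ⊥ := by
    rw [Submodule.eq_bot_iff]
    rintro v ⟨hv1, hv2⟩
    rw [SetLike.mem_coe, mem_span_singleton] at hv2
    obtain ⟨c, rfl⟩ := hv2
    have hc : c = 0 ∨ c = 1 := zmod2_cases c
    rcases hc with rfl | rfl
    · rw [zero_smul]
    · rw [one_smul] at hv1
      exact absurd hv1 he
  rw [h2, finrank_bot, finrank_span_singleton h0] at h1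
  omega

theorem sign_RR [DecidableEq V] (n : ℕ) : ∀ (X : Finset V), X.card = n →
    ∀ (K V' : Submodule (ZMod 2) V) (x : V → ℝ), FiniteDimensional (ZMod 2) K →
    (∀ v ∈ X, v ∉ K) → (∀ v ∈ X, |x v| ≤ 1) →
    0 ≤ (-1 : ℝ) ^ (Module.finrank (ZMod 2) K + Module.finrank (ZMod 2) V') * RR X K V' x := by
  classical
  induction n with
  | zero =>
    intro X hX K V' x _ _ _
    rw [Finset.card_eq_zero] at hX
    subst hX
    unfold RR
    rw [Finset.powerset_empty, Finset.sum_singleton, Finset.coe_empty, span_empty, sup_bot_eq,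
      Finset.prod_empty]
    by_cases h : K = V'
    · rw [if_pos h, h, ← two_mul, pow_mul]
      norm_num
    · rw [if_neg h, mul_zero]
  | succ n ih =>
    intro X hX K V' x hK h1 h2
    obtain ⟨e, X', he, rfl, hX'⟩ := Finset.card_eq_succ.mp hX
    by_cases hp : ∃ y ∈ X', y + e ∈ K
    · obtain ⟨y, hy, hye⟩ := hp
      rw [RR_parallel X' K V' x e y he hy hye]
      refine ih X' hX' K V' _ hK (fun v hv => h1 v (Finset.mem_insert_of_mem hv)) fun v hv => ?_
      by_cases hvy : v = y
      · subst hvy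
        rw [Function.update_self, abs_mul]
        exact mul_le_one₀ (h2 v (Finset.mem_insert_of_mem hv)) (abs_nonneg _)
          (h2 e (Finset.mem_insert_self e X'))
      · rw [Function.update_of_ne hvy]
        exact h2 v (Finset.mem_insert_of_mem hv)
    · push Not at hp
      rw [RR_insert X' K V' x e he]
      have heK : e ∉ K := h1 e (Finset.mem_insert_self e X')
      have hA := ih X' hX' K V' x hK (fun v hv => h1 v (Finset.mem_insert_of_mem hv))
        fun v hv => h2 v (Finset.mem_insert_of_mem hv)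
      have hB := ih X' hX' (K ⊔ span (ZMod 2) {e}) V' x inferInstance (fun v hv hvK => by
          rcases mem_sup_one K e v hvK with h | h
          · exact h1 v (Finset.mem_insert_of_mem hv) h
          · exact hp v hv h) fun v hv => h2 v (Finset.mem_insert_of_mem hv)
      rw [finrank_sup_one K e heK] at hB
      have hx : 0 ≤ 1 - x e := by
        have := (abs_le.mp (h2 e (Finset.mem_insert_self e X'))).2
        linarith
      have hC := mul_nonneg hx hB
      have h3 : (-1 : ℝ) ^ (Module.finrank (ZMod 2) K + Module.finrank (ZMod 2) V') *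
          (RR X' K V' x + (x e - 1) * RR X' (K ⊔ span (ZMod 2) {e}) V' x) =
          (-1 : ℝ) ^ (Module.finrank (ZMod 2) K + Module.finrank (ZMod 2) V') * RR X' K V' x +
          (1 - x e) * ((-1 : ℝ) ^ (Module.finrank (ZMod 2) K + 1 +
            Module.finrank (ZMod 2) V') * RR X' (K ⊔ span (ZMod 2) {e}) V' x) := by
        have h4 : Module.finrank (ZMod 2) K + 1 + Module.finrank (ZMod 2) V' =
          Module.finrank (ZMod 2) K + Module.finrank (ZMod 2) V' + 1 := by omega
        rw [h4, pow_succ]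
        ring
      rw [h3]
      exact add_nonneg hA hC

theorem mono_RR [DecidableEq V] (V' : Submodule (ZMod 2) V) (B : Finset V) (C : Finset V) :
    Disjoint B C → (∀ v ∈ B, v ≠ 0) → (∀ v ∈ C, v ≠ 0) →
    (-1 : ℝ) ^ (Module.finrank (ZMod 2) V') * RR B ⊥ V' (fun _ => -1) ≤
      (-1 : ℝ) ^ (Module.finrank (ZMod 2) V') * RR (C ∪ B) ⊥ V' (fun _ => -1) := by
  classical
  induction C using Finset.induction_on with
  | empty =>
    intro _ _ _
    rw [Finset.empty_union]
  | insert e C he ih =>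
    intro hd hB hC
    rw [Finset.disjoint_insert_right] at hd
    refine (ih hd.2 hB fun v hv => hC v (Finset.mem_insert_of_mem hv)).trans ?_
    have he' : e ∉ C ∪ B := by
      rw [Finset.mem_union]
      push Not
      exact ⟨he, hd.1⟩
    rw [Finset.insert_union, RR_insert _ _ _ _ e he', bot_sup_eq]
    have hs := sign_RR (V := V) (C ∪ B).card (C ∪ B) rfl (span (ZMod 2) {e}) V' (fun _ => -1)
      inferInstance (fun v hv hve => by
        rw [mem_span_singleton] at hve
        obtain ⟨c, hc⟩ := hve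
        have hc' : c = 0 ∨ c = 1 := zmod2_cases c
        rcases hc' with rfl | rfl
        · rw [zero_smul] at hc
          rcases Finset.mem_union.mp hv with h | h
          · exact hC v (Finset.mem_insert_of_mem h) hc.symm
          · exact hB v h hc.symm
        · rw [one_smul] at hc
          exact he' (hc ▸ hv)) (fun v _ => by norm_num)
    rw [finrank_span_singleton (hC e (Finset.mem_insert_self e C)), add_comm, pow_succ] at hs
    nlinarith

theorem min_RR [DecidableEq V] (B : Finset V) (V' : Submodule (ZMod 2) V)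
    (h1 : span (ZMod 2) (B : Set V) = V')
    (h2 : ∀ W ⊆ B, span (ZMod 2) (W : Set V) = V' → W = B) :
    RR B ⊥ V' (fun _ => -1) = (-2) ^ B.card := by
  classical
  unfold RR
  rw [Finset.sum_eq_single B]
  · rw [bot_sup_eq, if_pos h1, Finset.prod_const]
    norm_num
  · intro W hW hWB
    rw [bot_sup_eq, if_neg]
    intro h
    exact hWB (h2 W (Finset.mem_powerset.mp hW) h)
  · intro h
    exact absurd (Finset.mem_powerset_self B) h

theorem one_le_RR [DecidableEq V] (Y : Finset V) (hY : ∀ v ∈ Y, v ≠ 0) :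
    1 ≤ |RR Y ⊥ (span (ZMod 2) (Y : Set V)) (fun _ => -1)| := by
  classical
  obtain ⟨B, hB, hmin⟩ : ∃ B : Finset V, (B ⊆ Y ∧ span (ZMod 2) (B : Set V) =
      span (ZMod 2) (Y : Set V)) ∧ ∀ W ⊆ B, span (ZMod 2) (W : Set V) =
      span (ZMod 2) (Y : Set V) → W = B := by
    obtain ⟨B, hB, hmin⟩ := Finset.exists_min_image
      (Y.powerset.filter fun W : Finset V => span (ZMod 2) (W : Set V) =
        span (ZMod 2) (Y : Set V))
      Finset.card ⟨Y, Finset.mem_filter.mpr ⟨Finset.mem_powerset_self Y, rfl⟩⟩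
    rw [Finset.mem_filter, Finset.mem_powerset] at hB
    refine ⟨B, hB, fun W hW hs => ?_⟩
    refine Finset.eq_of_subset_of_card_le hW (hmin W ?_)
    rw [Finset.mem_filter, Finset.mem_powerset]
    exact ⟨hW.trans hB.1, hs⟩
  have h1 := min_RR B _ hB.2 hmin
  have hB0 : ∀ v ∈ B, v ≠ 0 := fun v hv => hY v (hB.1 hv)
  have h2 := mono_RR (span (ZMod 2) (Y : Set V)) B (Y \ B) Finset.disjoint_sdiff hB0
    (fun v hv => hY v (Finset.mem_sdiff.mp hv).1)
  rw [Finset.sdiff_union_of_subset hB.1] at h2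
  have h3 := sign_RR B.card B rfl ⊥ (span (ZMod 2) (Y : Set V)) (fun _ => -1) inferInstance
    (fun v hv hv0 => hB0 v hv ((mem_bot _).mp hv0)) (fun v _ => by norm_num)
  rw [finrank_bot, zero_add] at h3
  set s : ℝ := (-1) ^ (Module.finrank (ZMod 2) (span (ZMod 2) (Y : Set V))) with hs
  have hs1 : |s| = 1 := by
    rw [hs, abs_pow]
    norm_num
  have h4 : |RR B ⊥ (span (ZMod 2) (Y : Set V)) (fun _ => -1)| = 2 ^ B.card := by
    rw [h1, abs_pow]
    norm_num
  have h5 : s * RR B ⊥ (span (ZMod 2) (Y : Set V)) (fun _ => -1) = 2 ^ B.card := by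
    rw [← h4, ← abs_of_nonneg h3, abs_mul, hs1, one_mul]
  have h6 : |RR Y ⊥ (span (ZMod 2) (Y : Set V)) (fun _ => -1)| =
      |s * RR Y ⊥ (span (ZMod 2) (Y : Set V)) (fun _ => -1)| := by
    rw [abs_mul, hs1, one_mul]
  rw [h6]
  refine le_trans ?_ (le_abs_self _)
  refine le_trans ?_ h2
  rw [h5]
  exact one_le_pow₀ (by norm_num)

theorem one_le_RR' [DecidableEq V] (Y : Finset V) :
    1 ≤ |RR Y ⊥ (span (ZMod 2) (Y : Set V)) (fun _ => -1)| := by
  classical
  by_cases h0 : (0 : V) ∈ Y
  · obtain ⟨Z, hZ, rfl⟩ : ∃ Z : Finset V, (0 : V) ∉ Z ∧ Y = insert 0 Z :=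
      ⟨Y.erase 0, Finset.notMem_erase 0 Y, (Finset.insert_erase h0).symm⟩
    rw [RR_insert _ _ _ _ 0 hZ, Finset.coe_insert, span_insert_zero, span_zero_singleton,
      sup_bot_eq]
    have h1 := one_le_RR Z fun v hv h => hZ (h ▸ hv)
    have h2 : RR Z ⊥ (span (ZMod 2) (Z : Set V)) (fun _ => -1) +
        (-1 - 1) * RR Z ⊥ (span (ZMod 2) (Z : Set V)) (fun _ => -1) =
        -RR Z ⊥ (span (ZMod 2) (Z : Set V)) (fun _ => -1) := by ring
    rw [h2, abs_neg]
    exact h1
  · exact one_le_RR Y fun v hv h => h0 (h ▸ hv)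

theorem PP_eq_RR [DecidableEq V] (X : Finset V) (x : V → ℂ) (h : ∀ v ∈ X, x v = 1 ∨ x v = -1)
    (Y : Finset V) (hY : Y = X.filter fun v => x v = -1)
    (hs : span (ZMod 2) (Y : Set V) = span (ZMod 2) (X : Set V)) :
    PP X ⊥ x = (RR Y ⊥ (span (ZMod 2) (Y : Set V)) (fun _ => -1) : ℝ) := by
  classical
  unfold PP RR
  rw [Complex.ofReal_sum]
  have hYX : Y ⊆ X := by
    rw [hY]
    exact Finset.filter_subset _ _
  have h1 : ∀ W ∈ X.powerset, W ∉ Y.powerset →
      (if Spans ⊥ X W then ∏ v ∈ W, (x v - 1) else 0) = 0 := by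
    intro W hW hWY
    rw [Finset.mem_powerset] at hW hWY
    obtain ⟨v, hv, hvY⟩ := Finset.not_subset.mp hWY
    have hx : x v = 1 := by
      rcases h v (hW hv) with h' | h'
      · exact h'
      · exact absurd (by rw [hY]; exact Finset.mem_filter.mpr ⟨hW hv, h'⟩) hvY
    rw [Finset.prod_eq_zero hv (by rw [hx, sub_self]), ite_self]
  rw [← Finset.sum_subset (Finset.powerset_mono.mpr hYX) h1]
  refine Finset.sum_congr rfl fun W hW => ?_
  rw [Finset.mem_powerset] at hW
  unfold Spans
  rw [bot_sup_eq, bot_sup_eq, hs]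
  by_cases hc : span (ZMod 2) (W : Set V) = span (ZMod 2) (X : Set V)
  · rw [if_pos hc, if_pos hc, Complex.ofReal_prod]
    refine Finset.prod_congr rfl fun v hv => ?_
    have hx : x v = -1 := by
      have := hW hv
      rw [hY] at this
      exact (Finset.mem_filter.mp this).2
    rw [hx]
    push_cast
    ring
  · rw [if_neg hc, if_neg hc, Complex.ofReal_zero]

/-- **weights `1` and `-1`, the vectors with weight `-1` span** -/
theorem odd_main (V : Type) [AddCommGroup V] [Module (ZMod 2) V] [DecidableEq V] (X : Finset V)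
    (x : V → ℂ) (h : ∀ v ∈ X, x v = 1 ∨ x v = -1)
    (hs : span (ZMod 2) {v | v ∈ X ∧ x v = -1} = span (ZMod 2) (X : Set V)) :
    1 ≤ ‖PP X ⊥ x‖ := by
  classical
  have h1 : ((X.filter fun v => x v = -1 : Finset V) : Set V) = {v | v ∈ X ∧ x v = -1} := by
    rw [Finset.coe_filter]
  have h2 := PP_eq_RR X x h _ rfl (by rw [h1]; exact hs)
  rw [h2, Complex.norm_real, Real.norm_eq_abs]
  exact one_le_RR' _

end Pool.Agent.SPT.Odd
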