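import Mathlib
import Pool.Agent.SPT.Odd
import Pool.Agent.SPT.Ne
import Pool.Agent.SPT.Lev

/-!
# SPT: relations of a weight vector with vanishing polynomial

`u` is an integral weight vector on the finite set `X` of vectors over the field with two elements, for
which the polynomial of the spanning sets vanishes on the circle.
-/

set_option autoImplicit false
set_option linter.unusedSectionVars false

open Submodule

namespace Pool.Agent.SPT.Rel

open Pool.Agent.SPT.Odd

variable {V : Type} [AddCommGroup V] [Module (ZMod 2) V] [DecidableEq V]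

/-- the sum of `u` over the set `S` -/
def su (u : V → ℤ) (S : Finset V) : ℤ := ∑ v ∈ S, u v

/-- **Odd relations**: for every spanning subset `Y` there are two sets with the same `u`-sum, the
numbers of whose elements in `Y` have different parities. -/
theorem odd_level (X : Finset V) (u : V → ℤ) (h : ¬ NZu X u) (Y : Finset V) (hY : Y ⊆ X)
    (hs : span (ZMod 2) (Y : Set V) = span (ZMod 2) (X : Set V)) :
    ∃ S ⊆ X, ∃ S' ⊆ X, su u S = su u S' ∧ Odd ((S ∩ Y).card + (S' ∩ Y).card) := by
  classical
  by_contra hno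
  push Not at hno
  obtain ⟨x, hx⟩ : ∃ x : V → ℂ, x = fun v => if v ∈ Y then -1 else 1 := ⟨_, rfl⟩
  have h1 : 1 ≤ ‖PP X ⊥ x‖ := by
    refine odd_main V X x (fun v _ => ?_) ?_
    · rw [hx]
      by_cases hv : v ∈ Y
      · right
        simp only [if_pos hv]
      · left
        simp only [if_neg hv]
    · rw [← hs]
      congr 1
      ext v
      rw [Set.mem_ofPred_eq, Finset.mem_coe, hx]
      constructor
      · rintro ⟨_, hv⟩
        by_contra hvY
        simp only [if_neg hvY] at hv
        norm_num at hv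
      · intro hv
        refine ⟨hY hv, ?_⟩
        simp only [if_pos hv]
  have hprod : ∀ S : Finset V, ∏ v ∈ S, x v = (-1) ^ (S ∩ Y).card := by
    intro S
    rw [hx, Finset.prod_ite_mem]
    rw [Finset.prod_const]
  have h2 : PP X ⊥ x = 0 := by
    rw [PP_cc]
    rw [← Finset.sum_fiberwise_of_maps_to (s := X.powerset)
      (t := X.powerset.image fun S => ∑ v ∈ S, u v) (g := fun S => ∑ v ∈ S, u v)
      (fun S hS => Finset.mem_image_of_mem _ hS)]
    refine Finset.sum_eq_zero fun s hs => ?_
    rw [Finset.mem_image] at hs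
    obtain ⟨S₀, hS₀, rfl⟩ := hs
    have h3 : ∀ S ∈ X.powerset.filter (fun S => ∑ v ∈ S, u v = ∑ v ∈ S₀, u v),
        (cc X S : ℂ) * ∏ v ∈ S, x v = (cc X S : ℂ) * (-1) ^ (S₀ ∩ Y).card := by
      intro S hS
      rw [Finset.mem_filter, Finset.mem_powerset] at hS
      rw [hprod]
      have h4 := hno S hS.1 S₀ (Finset.mem_powerset.1 hS₀) hS.2
      rw [Nat.not_odd_iff_even, Nat.even_add] at h4
      congr 1
      by_cases h5 : Even (S ∩ Y).card
      · rw [h5.neg_one_pow, (h4.1 h5).neg_one_pow]
      · rw [(Nat.not_even_iff_odd.1 h5).neg_one_pow,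
          (Nat.not_even_iff_odd.1 fun h6 => h5 (h4.2 h6)).neg_one_pow]
    rw [Finset.sum_congr rfl h3, ← Finset.sum_mul]
    have h4 := level_cc X u h (∑ v ∈ S₀, u v)
    have h5 : (∑ S ∈ X.powerset with ∑ v ∈ S, u v = ∑ v ∈ S₀, u v, (cc X S : ℂ)) = 0 := by
      rw [← Int.cast_sum, h4, Int.cast_zero]
    rw [h5, zero_mul]
  rw [h2, norm_zero] at h1
  norm_num at h1

/-! ### the sign of the coefficients -/

/-- with all weights zero the sign is strict -/
theorem pos_RR (n : ℕ) : ∀ (X : Finset V), X.card = n →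
    ∀ (K V' : Submodule (ZMod 2) V), FiniteDimensional (ZMod 2) K → (∀ v ∈ X, v ∉ K) →
    K ⊔ span (ZMod 2) (X : Set V) = V' →
    0 < (-1 : ℝ) ^ (Module.finrank (ZMod 2) K + Module.finrank (ZMod 2) V') *
      RR X K V' (fun _ => 0) := by
  classical
  induction n with
  | zero =>
    intro X hX K V' _ _ hV
    rw [Finset.card_eq_zero] at hX
    subst hX
    rw [Finset.coe_empty, span_empty, sup_bot_eq] at hV
    unfold RR
    rw [Finset.powerset_empty, Finset.sum_singleton, Finset.coe_empty, span_empty, sup_bot_eq,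
      Finset.prod_empty, if_pos hV, hV, ← two_mul, pow_mul]
    norm_num
  | succ n ih =>
    intro X hX K V' hK h1 hV
    obtain ⟨e, X', he, rfl, hX'⟩ := Finset.card_eq_succ.mp hX
    by_cases hp : ∃ y ∈ X', y + e ∈ K
    · obtain ⟨y, hy, hye⟩ := hp
      rw [RR_parallel X' K V' _ e y he hy hye]
      have h2 : Function.update (fun _ : V => (0 : ℝ)) y (0 * 0) = fun _ => 0 := by
        funext v
        by_cases hv : v = y
        · rw [hv, Function.update_self, mul_zero]
        · rw [Function.update_of_ne hv]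
      rw [h2]
      refine ih X' hX' K V' hK (fun v hv => h1 v (Finset.mem_insert_of_mem hv)) ?_
      rw [← hV]
      refine le_antisymm (sup_le_sup_left (span_mono (Finset.coe_subset.2
        (Finset.subset_insert e X'))) K) ?_
      refine sup_le le_sup_left ?_
      rw [Finset.coe_insert, span_insert]
      refine sup_le ?_ le_sup_right
      have h3 : span (ZMod 2) {e} ≤ K ⊔ span (ZMod 2) {y} := by
        rw [← sup_eq_of_add K e y hye]
        exact le_sup_right
      refine h3.trans (sup_le_sup_left ?_ K)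
      exact span_mono (Set.singleton_subset_iff.2 (Finset.mem_coe.2 hy))
    · push Not at hp
      rw [RR_insert X' K V' _ e he]
      have heK : e ∉ K := h1 e (Finset.mem_insert_self e X')
      have hA := sign_RR (V := V) n X' hX' K V' (fun _ => 0) hK
        (fun v hv => h1 v (Finset.mem_insert_of_mem hv)) fun v _ => by norm_num
      have hB := ih X' hX' (K ⊔ span (ZMod 2) {e}) V' inferInstance (fun v hv hvK => by
          rcases mem_sup_one K e v hvK with h | h
          · exact h1 v (Finset.mem_insert_of_mem hv) h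
          · exact hp v hv h) (by
          rw [← hV, Finset.coe_insert, span_insert, sup_assoc])
      rw [finrank_sup_one K e heK] at hB
      have h3 : (-1 : ℝ) ^ (Module.finrank (ZMod 2) K + Module.finrank (ZMod 2) V') *
          (RR X' K V' (fun _ => 0) + (0 - 1) * RR X' (K ⊔ span (ZMod 2) {e}) V' (fun _ => 0)) =
          (-1 : ℝ) ^ (Module.finrank (ZMod 2) K + Module.finrank (ZMod 2) V') *
            RR X' K V' (fun _ => 0) +
          ((-1 : ℝ) ^ (Module.finrank (ZMod 2) K + 1 +
            Module.finrank (ZMod 2) V') * RR X' (K ⊔ span (ZMod 2) {e}) V' (fun _ => 0)) := by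
        have h4 : Module.finrank (ZMod 2) K + 1 + Module.finrank (ZMod 2) V' =
          Module.finrank (ZMod 2) K + Module.finrank (ZMod 2) V' + 1 := by omega
        rw [h4, pow_succ]
        ring
      rw [h3]
      exact add_pos_of_nonneg_of_pos hA hB

/-- the closed subsets -/
def Flat (X F : Finset V) : Prop := F ⊆ X ∧ ∀ v ∈ X, v ∈ span (ZMod 2) (F : Set V) → v ∈ F

theorem cc_RR (X F : Finset V) (hF : F ⊆ X) :
    (cc X F : ℝ) = RR (X \ F) (span (ZMod 2) (F : Set V)) (span (ZMod 2) (X : Set V))
      (fun _ => 0) := by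
  classical
  unfold cc RR
  rw [Int.cast_sum]
  have h1 : ∀ W ∈ X.powerset, (((if Spans ⊥ X W ∧ F ⊆ W then (-1) ^ (W \ F).card else 0 : ℤ)) : ℝ) =
      if F ⊆ W then (if Spans ⊥ X W then (-1 : ℝ) ^ (W \ F).card else 0) else 0 := by
    intro W _
    by_cases h2 : F ⊆ W
    · by_cases h3 : Spans ⊥ X W
      · rw [if_pos ⟨h3, h2⟩, if_pos h2, if_pos h3]
        push_cast
        rfl
      · rw [if_neg (fun h => h3 h.1), if_pos h2, if_neg h3, Int.cast_zero]
    · rw [if_neg (fun h => h2 h.2), if_neg h2, Int.cast_zero]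
  rw [Finset.sum_congr rfl h1, ← Finset.sum_filter]
  refine Finset.sum_nbij' (fun W => W \ F) (fun T => T ∪ F) ?_ ?_ ?_ ?_ ?_
  · intro W hW
    rw [Finset.mem_filter, Finset.mem_powerset] at hW
    rw [Finset.mem_powerset]
    exact Finset.sdiff_subset_sdiff hW.1 (Finset.Subset.refl F)
  · intro T hT
    rw [Finset.mem_powerset] at hT
    rw [Finset.mem_filter, Finset.mem_powerset]
    exact ⟨Finset.union_subset (hT.trans Finset.sdiff_subset) hF, Finset.subset_union_right⟩
  · intro W hW
    rw [Finset.mem_filter] at hW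
    exact Finset.sdiff_union_of_subset hW.2
  · intro T hT
    rw [Finset.mem_powerset] at hT
    rw [Finset.union_sdiff_right]
    rw [Finset.sdiff_eq_self_iff_disjoint]
    exact Finset.disjoint_of_subset_left hT Finset.sdiff_disjoint
  · intro W hW
    rw [Finset.mem_filter] at hW
    have h2 : span (ZMod 2) (F : Set V) ⊔ span (ZMod 2) ((W \ F : Finset V) : Set V) =
        span (ZMod 2) (W : Set V) := by
      rw [← span_union, ← Finset.coe_union, Finset.union_sdiff_of_subset hW.2]
    rw [h2, Finset.prod_const]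
    have h3 : Spans ⊥ X W ↔ span (ZMod 2) (W : Set V) = span (ZMod 2) (X : Set V) := by
      unfold Spans
      rw [bot_sup_eq, bot_sup_eq]
    by_cases h4 : Spans ⊥ X W
    · rw [if_pos h4, if_pos (h3.1 h4)]
      norm_num
    · rw [if_neg h4, if_neg fun h => h4 (h3.2 h)]

theorem cc_flat (X F : Finset V) (hF : Flat X F) :
    0 < (-1 : ℤ) ^ (Module.finrank (ZMod 2) (span (ZMod 2) (F : Set V)) +
      Module.finrank (ZMod 2) (span (ZMod 2) (X : Set V))) * cc X F := by
  have h1 := pos_RR (X \ F).card (X \ F) rfl (span (ZMod 2) (F : Set V))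
    (span (ZMod 2) (X : Set V)) inferInstance (fun v hv h => by
      rw [Finset.mem_sdiff] at hv
      exact hv.2 (hF.2 v hv.1 h)) (by
      rw [← span_union, ← Finset.coe_union, Finset.union_sdiff_of_subset hF.1])
  rw [← cc_RR X F hF.1] at h1
  exact_mod_cast h1

theorem cc_nonflat (X F : Finset V) (hFX : F ⊆ X) (hF : ¬ Flat X F) : cc X F = 0 := by
  unfold Flat at hF
  push Not at hF
  obtain ⟨v, hv, hvs, hvF⟩ := hF hFX
  exact cc_zero X F v hv hvF hvs

/-- **Partner**: every flat has a flat with the same sum and a rank of the other parity. -/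
theorem partner (X : Finset V) (u : V → ℤ) (h : ¬ NZu X u) (F : Finset V) (hF : Flat X F) :
    ∃ F', Flat X F' ∧ su u F' = su u F ∧
      Odd (Module.finrank (ZMod 2) (span (ZMod 2) (F : Set V)) +
        Module.finrank (ZMod 2) (span (ZMod 2) (F' : Set V))) := by
  classical
  by_contra hno
  push Not at hno
  have h1 := level_cc X u h (su u F)
  obtain ⟨s, hs⟩ : ∃ s : ℤ, s = (-1 : ℤ) ^ (Module.finrank (ZMod 2) (span (ZMod 2) (F : Set V)) +
      Module.finrank (ZMod 2) (span (ZMod 2) (X : Set V))) := ⟨_, rfl⟩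
  have h2 : 0 < ∑ S ∈ X.powerset with ∑ v ∈ S, u v = su u F, s * cc X S := by
    refine Finset.sum_pos' (fun S hS => ?_) ⟨F, ?_, ?_⟩
    · rw [Finset.mem_filter, Finset.mem_powerset] at hS
      by_cases hfl : Flat X S
      · have h3 := hno S hfl hS.2
        rw [Nat.not_odd_iff_even] at h3
        have h4 := cc_flat X S hfl
        have h5 : s = (-1 : ℤ) ^ (Module.finrank (ZMod 2) (span (ZMod 2) (S : Set V)) +
            Module.finrank (ZMod 2) (span (ZMod 2) (X : Set V))) := by
          rw [hs, pow_add, pow_add]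
          congr 1
          rw [Nat.even_add] at h3
          by_cases h6 : Even (Module.finrank (ZMod 2) (span (ZMod 2) (F : Set V)))
          · rw [h6.neg_one_pow, (h3.1 h6).neg_one_pow]
          · rw [(Nat.not_even_iff_odd.1 h6).neg_one_pow,
              (Nat.not_even_iff_odd.1 fun h7 => h6 (h3.2 h7)).neg_one_pow]
        rw [h5]
        exact h4.le
      · rw [cc_nonflat X S hS.1 hfl, mul_zero]
    · rw [Finset.mem_filter, Finset.mem_powerset]
      exact ⟨hF.1, rfl⟩
    · rw [hs]
      exact cc_flat X F hF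
  rw [← Finset.mul_sum, h1, mul_zero] at h2
  exact lt_irrefl _ h2

end Pool.Agent.SPT.Rel
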