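import Mathlib
import Pool.Agent.SPT.Rel

/-!
# SPT: three independent relations
-/

set_option autoImplicit false
set_option linter.unusedSectionVars false

open Submodule

namespace Pool.Agent.SPT.Rel

variable {V : Type} [DecidableEq V]

/-- the indicator function -/
def ic (S : Finset V) (v : V) : ℤ := if v ∈ S then 1 else 0

theorem ic_mem (S : Finset V) (v : V) (h : v ∈ S) : ic S v = 1 := if_pos h

theorem ic_not (S : Finset V) (v : V) (h : v ∉ S) : ic S v = 0 := if_neg h

theorem ic_cases (S : Finset V) (v : V) : ic S v = 0 ∨ ic S v = 1 := by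
  by_cases h : v ∈ S
  · right
    exact ic_mem S v h
  · left
    exact ic_not S v h

theorem su_ic (X S : Finset V) (hS : S ⊆ X) (u : V → ℤ) : su u S = ∑ v ∈ X, ic S v * u v := by
  unfold su ic
  simp only [ite_mul, one_mul, zero_mul]
  rw [Finset.sum_ite_mem, Finset.inter_eq_right.2 hS]

/-- the relations of `u`: vectors with entries `-1`, `0`, `1` orthogonal to `u` -/
def IsRel (X : Finset V) (u : V → ℤ) (d : V → ℤ) : Prop :=
  (∀ v, d v = -1 ∨ d v = 0 ∨ d v = 1) ∧ (∀ v, v ∉ X → d v = 0) ∧ ∑ v ∈ X, d v * u v = 0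

theorem rel_of_su (X : Finset V) (u : V → ℤ) (S S' : Finset V) (hS : S ⊆ X) (hS' : S' ⊆ X)
    (h : su u S = su u S') : IsRel X u (fun v => ic S v - ic S' v) := by
  refine ⟨fun v => ?_, fun v hv => ?_, ?_⟩
  · change ic S v - ic S' v = -1 ∨ ic S v - ic S' v = 0 ∨ ic S v - ic S' v = 1
    rcases ic_cases S v with h1 | h1 <;> rcases ic_cases S' v with h2 | h2 <;> rw [h1, h2] <;> simp
  · change ic S v - ic S' v = 0
    rw [ic_not S v fun h => hv (hS h), ic_not S' v fun h => hv (hS' h), sub_zero]
  · simp only [sub_mul]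
    rw [Finset.sum_sub_distrib, ← su_ic X S hS u, ← su_ic X S' hS' u, h, sub_self]

theorem dep (a b c : V → ℤ) (h : ∀ l m : ℤ, (∀ v, l * a v + m * b v = 0) → l = 0 ∧ m = 0)
    (hn : ¬ LinearIndependent ℤ ![a, b, c]) :
    ∃ n l m : ℤ, 0 < n ∧ ∀ v, n * c v = l * a v + m * b v := by
  rw [Fintype.not_linearIndependent_iff] at hn
  obtain ⟨g, hg, i, hi⟩ := hn
  have h1 : ∀ v, g 0 * a v + g 1 * b v + g 2 * c v = 0 := by
    intro v
    have h2 := congrFun hg v
    rw [Finset.sum_apply, Fin.sum_univ_three] at h2
    simpa using h2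
  rcases lt_trichotomy (g 2) 0 with h2 | h2 | h2
  · refine ⟨-g 2, g 0, g 1, by omega, fun v => ?_⟩
    linarith [h1 v]
  · exfalso
    have h3 := h (g 0) (g 1) fun v => by
      have := h1 v
      rw [h2, zero_mul, add_zero] at this
      exact this
    fin_cases i
    · exact hi h3.1
    · exact hi h3.2
    · exact hi h2
  · refine ⟨g 2, -g 0, -g 1, h2, fun v => ?_⟩
    linarith [h1 v]

theorem two_elements (u : V → ℤ) (S : Finset V) (hu : ∀ v ∈ S, u v ≠ 0) (h : su u S = 0)
    (e : V) (he : e ∈ S) : ∃ f ∈ S, f ≠ e := by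
  by_contra hno
  push Not at hno
  have h1 : S = {e} := by
    ext v
    rw [Finset.mem_singleton]
    exact ⟨fun hv => hno v hv, fun hv => hv ▸ he⟩
  unfold su at h
  rw [h1, Finset.sum_singleton] at h
  exact hu e he h

section
variable [AddCommGroup V] [Module (ZMod 2) V]

theorem add_self' (v : V) : v + v = 0 := Pool.Agent.SPT.Odd.add_self_two v

theorem add_cancel' (p q r : V) (h : p = q + r) : q = p + r := by
  rw [h, add_assoc, add_self', add_zero]

/-- the closed set of two vectors -/
def line (X : Finset V) (p q : V) : Finset V := X.filter fun v => v = p ∨ v = q ∨ v = p + q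

/-- two disjoint sets -/
theorem no_two (X : Finset V) (u : V → ℤ) (hu : ∀ v ∈ X, u v ≠ 0)
    (hpair : ∀ p ∈ X, ∀ q ∈ X, p ≠ q → ∃ F ⊆ X, su u F = su u (line X p q) ∧ F ≠ line X p q)
    (P Q : Finset V) (hP : P ⊆ X) (hQ : Q ⊆ X) (hd : Disjoint P Q)
    (hP0 : su u P = 0) (hQ0 : su u Q = 0) (p q : V) (hp : p ∈ P) (hq : q ∈ Q)
    (hdep : ∀ c, IsRel X u c → ∃ n l m : ℤ, 0 < n ∧ ∀ v, n * c v = l * ic P v + m * ic Q v) :
    False := by
  have hdis : ∀ v, v ∈ P → v ∈ Q → False := fun v h1 h2 => Finset.disjoint_left.1 hd h1 h2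
  have key : ∀ p ∈ P, ∀ q ∈ Q, (∀ p' ∈ P, p' ≠ p → p' = p + q) ∨ (∀ q' ∈ Q, q' ≠ q → q' = p + q) := by
    intro p hp q hq
    have hpq : p ≠ q := fun h => hdis p hp (h ▸ hq)
    obtain ⟨F, hFX, hsu, hne⟩ := hpair p (hP hp) q (hQ hq) hpq
    have hLX : line X p q ⊆ X := Finset.filter_subset _ _
    have hpL : p ∈ line X p q := by
      unfold line
      rw [Finset.mem_filter]
      exact ⟨hP hp, Or.inl rfl⟩
    have hqL : q ∈ line X p q := by
      unfold line
      rw [Finset.mem_filter]
      exact ⟨hQ hq, Or.inr (Or.inl rfl)⟩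
    obtain ⟨n, l, m, hn, hc⟩ := hdep _ (rel_of_su X u F (line X p q) hFX hLX hsu)
    have hl : l ≤ 0 := by
      have h1 := hc p
      rw [ic_mem _ p hpL, ic_mem P p hp, ic_not Q p (fun h => hdis p hp h)] at h1
      rcases ic_cases F p with h2 | h2 <;> rw [h2] at h1 <;> omega
    have hm : m ≤ 0 := by
      have h1 := hc q
      rw [ic_mem _ q hqL, ic_mem Q q hq, ic_not P q (fun h => hdis q h hq)] at h1
      rcases ic_cases F q with h2 | h2 <;> rw [h2] at h1 <;> omega
    by_cases hl0 : l = 0
    · by_cases hm0 : m = 0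
      · exfalso
        apply hne
        ext v
        have h1 := hc v
        rw [hl0, hm0, zero_mul, zero_mul, add_zero] at h1
        have h2 : ic F v - ic (line X p q) v = 0 := by
          rcases mul_eq_zero.1 h1 with h3 | h3
          · omega
          · exact h3
        constructor
        · intro hv
          by_contra hv'
          rw [ic_mem F v hv, ic_not _ v hv'] at h2
          omega
        · intro hv
          by_contra hv'
          rw [ic_not F v hv', ic_mem _ v hv] at h2
          omega
      · right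
        intro q' hq' hne'
        have h1 := hc q'
        rw [ic_mem Q q' hq', ic_not P q' (fun h => hdis q' h hq')] at h1
        have h2 : q' ∈ line X p q := by
          by_contra hno
          rw [ic_not _ q' hno] at h1
          rcases ic_cases F q' with h3 | h3
          · rw [h3] at h1
            omega
          · rw [h3] at h1
            omega
        unfold line at h2
        rw [Finset.mem_filter] at h2
        rcases h2.2 with h3 | h3 | h3
        · exact absurd hq' fun h => hdis q' (h3 ▸ hp) h
        · exact absurd h3 hne'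
        · exact h3
    · left
      intro p' hp' hne'
      have h1 := hc p'
      rw [ic_mem P p' hp', ic_not Q p' (fun h => hdis p' hp' h)] at h1
      have h2 : p' ∈ line X p q := by
        by_contra hno
        rw [ic_not _ p' hno] at h1
        rcases ic_cases F p' with h3 | h3
        · rw [h3] at h1
          omega
        · rw [h3] at h1
          omega
      unfold line at h2
      rw [Finset.mem_filter] at h2
      rcases h2.2 with h3 | h3 | h3
      · exact absurd h3 hne'
      · exact absurd (h3 ▸ hq) fun h => hdis p' hp' h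
      · exact h3
  obtain ⟨p', hp', hpp⟩ := two_elements u P (fun v hv => hu v (hP hv)) hP0 p hp
  obtain ⟨q', hq', hqq⟩ := two_elements u Q (fun v hv => hu v (hQ hv)) hQ0 q hq
  rcases key p hp q hq with h1 | h1
  · have h2 := h1 p' hp' hpp
    rcases key p hp q' hq' with h3 | h3
    · have h4 := h3 p' hp' hpp
      rw [h4] at h2
      exact hqq (add_left_cancel h2)
    · have h4 := h3 q hq hqq.symm
      have h5 : p + q = q' := by
        rw [h4, ← add_assoc, add_self', zero_add]
      rw [h5] at h2
      exact hdis p' hp' (h2 ▸ hq')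
  · have h2 := h1 q' hq' hqq
    rcases key p' hp' q hq with h3 | h3
    · have h4 := h3 p hp hpp.symm
      have h5 : p' = p + q := by
        rw [h4, add_assoc, add_self', add_zero]
      rw [← h2] at h5
      exact hdis p' hp' (h5 ▸ hq')
    · have h4 := h3 q' hq' hqq
      rw [h4] at h2
      exact hpp (add_right_cancel h2)

/-- **Three relations**, combinatorial form. -/
theorem three_comb (X : Finset V) (u : V → ℤ) (hu : ∀ v ∈ X, u v ≠ 0)
    (hempty : ∃ A ⊆ X, su u A = 0 ∧ A ≠ ∅)
    (hpoint : ∀ e ∈ X, ∃ F ⊆ X, su u F = u e ∧ F ≠ {e})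
    (hpair : ∀ p ∈ X, ∀ q ∈ X, p ≠ q → ∃ F ⊆ X, su u F = su u (line X p q) ∧ F ≠ line X p q) :
    ∃ d : Fin 3 → V → ℤ, (∀ i, IsRel X u (d i)) ∧ LinearIndependent ℤ d := by
  by_contra hno
  push Not at hno
  have hdep : ∀ a b c : V → ℤ, IsRel X u a → IsRel X u b → IsRel X u c →
      (∀ l m : ℤ, (∀ v, l * a v + m * b v = 0) → l = 0 ∧ m = 0) →
      ∃ n l m : ℤ, 0 < n ∧ ∀ v, n * c v = l * a v + m * b v := by
    intro a b c ha hb hc h
    refine dep a b c h (hno _ fun i => ?_)
    fin_cases i
    · exact ha
    · exact hb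
    · exact hc
  obtain ⟨A, hAX, hA0, hAne⟩ := hempty
  have hrelS : ∀ S ⊆ X, su u S = 0 → IsRel X u (ic S) := by
    intro S hS h0
    have h1 := rel_of_su X u S ∅ hS (Finset.empty_subset X) (by
      rw [h0]
      unfold su
      rw [Finset.sum_empty])
    have h2 : (fun v => ic S v - ic ∅ v) = ic S := by
      funext v
      rw [ic_not ∅ v (Finset.notMem_empty v), sub_zero]
    rwa [h2] at h1
  have hsing : ∀ e, su u {e} = u e := by
    intro e
    unfold su
    rw [Finset.sum_singleton]
  have hrelF : ∀ e ∈ X, ∀ F ⊆ X, su u F = u e → IsRel X u (fun v => ic F v - ic {e} v) := by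
    intro e he F hF h
    exact rel_of_su X u F {e} hF (Finset.singleton_subset_iff.2 he) (by rw [h, hsing])
  have hic1 : ∀ e, ic ({e} : Finset V) e = 1 := fun e => ic_mem _ _ (Finset.mem_singleton_self e)
  have hic0 : ∀ e g, g ≠ e → ic ({e} : Finset V) g = 0 := fun e g h =>
    ic_not _ _ (fun h1 => h (Finset.mem_singleton.1 h1))
  obtain ⟨e₀, he₀⟩ := Finset.nonempty_iff_ne_empty.2 hAne
  by_cases hcase : ∃ e ∈ A, ∃ F ⊆ X, su u F = u e ∧ F ≠ {e} ∧ e ∈ F
  · obtain ⟨e, heA, F, hFX, hFu, hFe, heF⟩ := hcase
    obtain ⟨B, hB⟩ : ∃ B, B = F.erase e := ⟨_, rfl⟩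
    have hBX : B ⊆ X := by
      rw [hB]
      exact (Finset.erase_subset e F).trans hFX
    have heB : e ∉ B := by
      rw [hB]
      exact Finset.notMem_erase e F
    have hB0 : su u B = 0 := by
      have h1 : su u F = u e + su u B := by
        unfold su
        rw [hB, Finset.add_sum_erase F u heF]
      omega
    have hBne : B.Nonempty := by
      rw [Finset.nonempty_iff_ne_empty]
      intro h0
      apply hFe
      rw [hB] at h0
      rw [← Finset.insert_erase heF, h0]
      rfl
    obtain ⟨b₀, hb₀⟩ := hBne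
    have hLI : ∀ l m : ℤ, (∀ v, l * ic A v + m * ic B v = 0) → l = 0 ∧ m = 0 := by
      intro l m h
      have h1 := h e
      rw [ic_mem A e heA, ic_not B e heB] at h1
      have h2 := h b₀
      rw [ic_mem B b₀ hb₀] at h2
      have h3 : l = 0 := by omega
      rw [h3] at h2
      refine ⟨h3, by omega⟩
    have hall : ∀ c, IsRel X u c → ∃ n l m : ℤ, 0 < n ∧ ∀ v, n * c v = l * ic A v + m * ic B v :=
      fun c hc => hdep _ _ c (hrelS A hAX hA0) (hrelS B hBX hB0) hc hLI
    by_cases hAB : ∃ h ∈ A, h ∈ B
    · by_cases hBA : ∃ b ∈ B, b ∉ A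
      · obtain ⟨h, hhA, hhB⟩ := hAB
        obtain ⟨b, hbB, hbA⟩ := hBA
        obtain ⟨G, hGX, hGu, hGh⟩ := hpoint h (hAX hhA)
        obtain ⟨n, l, m, hn, hc⟩ := hall _ (hrelF h (hAX hhA) G hGX hGu)
        have heh : e ≠ h := fun h1 => heB (h1 ▸ hhB)
        have hbh : b ≠ h := fun h1 => hbA (h1 ▸ hhA)
        have h1 := hc e
        rw [hic0 h e heh, ic_mem A e heA, ic_not B e heB] at h1
        have h2 := hc b
        rw [hic0 h b hbh, ic_mem B b hbB, ic_not A b hbA] at h2
        have h3 := hc h
        rw [hic1, ic_mem A h hhA, ic_mem B h hhB] at h3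
        have hl : 0 ≤ l := by
          rcases ic_cases G e with h4 | h4 <;> rw [h4] at h1 <;> omega
        have hm : 0 ≤ m := by
          rcases ic_cases G b with h4 | h4 <;> rw [h4] at h2 <;> omega
        have hlm : l + m ≤ 0 := by
          rcases ic_cases G h with h4 | h4 <;> rw [h4] at h3 <;> omega
        have hl0 : l = 0 := by omega
        have hm0 : m = 0 := by omega
        apply hGh
        ext v
        have h4 := hc v
        rw [hl0, hm0, zero_mul, zero_mul, add_zero] at h4
        have h5 : ic G v - ic {h} v = 0 := by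
          rcases mul_eq_zero.1 h4 with h6 | h6
          · omega
          · exact h6
        constructor
        · intro hv
          by_contra hv'
          rw [ic_mem G v hv, ic_not _ v hv'] at h5
          omega
        · intro hv
          by_contra hv'
          rw [ic_not G v hv', ic_mem _ v hv] at h5
          omega
      · push Not at hBA
        have hsub : B ⊆ A := fun b hb => hBA b hb
        have hP0 : su u (A \ B) = 0 := by
          have h1 : su u (A \ B) + su u B = su u A := by
            unfold su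
            exact Finset.sum_sdiff hsub
          omega
        refine no_two X u hu hpair (A \ B) B (Finset.sdiff_subset.trans hAX) hBX
          Finset.sdiff_disjoint hP0 hB0 e b₀ (Finset.mem_sdiff.2 ⟨heA, heB⟩) hb₀ fun c hc => ?_
        obtain ⟨n, l, m, hn, h1⟩ := hall c hc
        refine ⟨n, l, l + m, hn, fun v => ?_⟩
        rw [h1 v]
        have h2 : ic A v = ic (A \ B) v + ic B v := by
          by_cases hvB : v ∈ B
          · rw [ic_mem A v (hsub hvB), ic_mem B v hvB,
              ic_not _ v (fun h => (Finset.mem_sdiff.1 h).2 hvB)]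
            rfl
          · by_cases hvA : v ∈ A
            · rw [ic_mem A v hvA, ic_not B v hvB, ic_mem _ v (Finset.mem_sdiff.2 ⟨hvA, hvB⟩)]
              rfl
            · rw [ic_not A v hvA, ic_not B v hvB,
                ic_not _ v (fun h => hvA (Finset.mem_sdiff.1 h).1)]
              rfl
        rw [h2]
        ring
    · push Not at hAB
      exact no_two X u hu hpair A B hAX hBX (Finset.disjoint_left.2 hAB) hA0 hB0 e b₀ heA hb₀ hall
  · push Not at hcase
    have hall : ∀ f ∈ A, u f = u e₀ := by
      intro f hf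
      by_cases hfe : f = e₀
      · rw [hfe]
      obtain ⟨E, hEX, hEu, hEe⟩ := hpoint e₀ (hAX he₀)
      obtain ⟨G, hGX, hGu, hGf⟩ := hpoint f (hAX hf)
      have heE : e₀ ∉ E := hcase e₀ he₀ E hEX hEu hEe
      have hfG : f ∉ G := hcase f hf G hGX hGu hGf
      have hLI : ∀ l m : ℤ, (∀ v, l * ic A v + m * (ic E v - ic {e₀} v) = 0) → l = 0 ∧ m = 0 := by
        intro l m h
        have h1 := h e₀
        rw [ic_mem A e₀ he₀, ic_not E e₀ heE, hic1] at h1
        have h2 := h f
        rw [ic_mem A f hf, hic0 e₀ f hfe] at h2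
        rcases ic_cases E f with h3 | h3 <;> rw [h3] at h2 <;> constructor <;> omega
      obtain ⟨n, l, m, hn, hc⟩ := hdep _ _ _ (hrelS A hAX hA0) (hrelF e₀ (hAX he₀) E hEX hEu)
        (hrelF f (hAX hf) G hGX hGu) hLI
      have h1 := hc e₀
      rw [hic0 f e₀ (Ne.symm hfe), ic_mem A e₀ he₀, ic_not E e₀ heE, hic1] at h1
      have h2 := hc f
      rw [hic1, ic_not G f hfG, ic_mem A f hf, hic0 e₀ f hfe] at h2
      have hlm : l ≤ 0 ∧ m < 0 := by
        rcases ic_cases G e₀ with h3 | h3 <;> rcases ic_cases E f with h4 | h4 <;>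
          rw [h3] at h1 <;> rw [h4] at h2 <;> constructor <;> omega
      have hE : ∀ g, g ≠ e₀ → g ≠ f → g ∉ E := by
        intro g hg1 hg2 hgE
        have h3 := hc g
        rw [hic0 f g hg2, hic0 e₀ g hg1, ic_mem E g hgE] at h3
        rcases ic_cases G g with h4 | h4 <;> rcases ic_cases A g with h5 | h5 <;>
          rw [h4, h5] at h3 <;> omega
      have hEf : E = {f} := by
        have hsub : E ⊆ {f} := by
          intro g hg
          rw [Finset.mem_singleton]
          by_contra hgf
          by_cases hge : g = e₀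
          · exact heE (hge ▸ hg)
          · exact hE g hge hgf hg
        rcases Finset.subset_singleton_iff.1 hsub with h3 | h3
        · exfalso
          rw [h3] at hEu
          unfold su at hEu
          rw [Finset.sum_empty] at hEu
          exact hu e₀ (hAX he₀) hEu.symm
        · exact h3
      rw [hEf, hsing] at hEu
      exact hEu
    have h1 : su u A = A.card * u e₀ := by
      unfold su
      rw [Finset.sum_congr rfl hall, Finset.sum_const, nsmul_eq_mul]
    rw [hA0] at h1
    rcases mul_eq_zero.1 h1.symm with h2 | h2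
    · have h3 : A.card = 0 := by exact_mod_cast h2
      exact hAne (Finset.card_eq_zero.1 h3)
    · exact hu e₀ (hAX he₀) h2

end

end Pool.Agent.SPT.Rel
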