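import Mathlib
import Pool.Agent.SPT.Rel3

/-!
# SPT: the number of independent relations is larger than the smallest cut
-/

set_option autoImplicit false
set_option linter.unusedSectionVars false

open Submodule

namespace Pool.Agent.SPT.Rel

section
variable {V : Type} [DecidableEq V]

/-- the set `W` meets the two sides of every relation in an even number of elements -/
def Code (X : Finset V) (u : V → ℤ) (W : Finset V) : Prop :=
  ∀ S ⊆ X, ∀ S' ⊆ X, su u S = su u S' → Even ((S ∩ W).card + (S' ∩ W).card)

/-- the pairs of subsets with equal sums -/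
def prs (X : Finset V) (u : V → ℤ) : Finset (Finset V × Finset V) :=
  (X.powerset ×ˢ X.powerset).filter fun p => su u p.1 = su u p.2

theorem mem_prs (X : Finset V) (u : V → ℤ) (p : Finset V × Finset V) :
    p ∈ prs X u ↔ p.1 ⊆ X ∧ p.2 ⊆ X ∧ su u p.1 = su u p.2 := by
  unfold prs
  rw [Finset.mem_filter, Finset.mem_product, Finset.mem_powerset, Finset.mem_powerset, and_assoc]

/-- the column of `v` -/
def cl (X : Finset V) (u : V → ℤ) (v : V) : prs X u → ZMod 2 :=
  fun p => ((ic p.1.1 v - ic p.1.2 v : ℤ) : ZMod 2)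

theorem sum_ic (S W : Finset V) : ∑ v ∈ W, ic S v = ((S ∩ W).card : ℤ) := by
  unfold ic
  rw [Finset.sum_boole, Finset.inter_comm, ← Finset.filter_mem_eq_inter]

theorem code_iff (X : Finset V) (u : V → ℤ) (W : Finset V) :
    Code X u W ↔ ∑ v ∈ W, cl X u v = 0 := by
  have h1 : ∀ p : prs X u, (∑ v ∈ W, cl X u v) p =
      (((p.1.1 ∩ W).card + (p.1.2 ∩ W).card : ℕ) : ZMod 2) := by
    intro p
    rw [Finset.sum_apply]
    unfold cl
    rw [← Int.cast_sum, Finset.sum_sub_distrib, sum_ic, sum_ic]
    push_cast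
    rw [CharTwo.sub_eq_add]
  constructor
  · intro h
    funext p
    rw [h1]
    have h2 := (mem_prs X u p.1).1 p.2
    have h3 := h p.1.1 h2.1 p.1.2 h2.2.1 h2.2.2
    exact (ZMod.natCast_eq_zero_iff_even).2 h3
  · intro h S hS S' hS' hu
    have h2 := h1 ⟨(S, S'), (mem_prs X u (S, S')).2 ⟨hS, hS', hu⟩⟩
    rw [h] at h2
    rw [← ZMod.natCast_eq_zero_iff_even]
    exact h2.symm

theorem z2 (c : ZMod 2) : c = 0 ∨ c = 1 := by
  revert c
  decide

/-- **linear algebra**: a basis `J` of the columns, as many independent relations -/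
theorem alg (X : Finset V) (u : V → ℤ) :
    ∃ J ⊆ X, (∃ d : Fin J.card → V → ℤ, (∀ i, IsRel X u (d i)) ∧
      LinearIndependent (ZMod 2) (fun i v => ((d i v : ℤ) : ZMod 2))) ∧
      (∀ T ⊆ X \ J, ∃ T' ⊆ J, Code X u (T ∪ T')) ∧ ∀ T ⊆ J, Code X u T → T = ∅ := by
  classical
  obtain ⟨A, hA⟩ : ∃ A : Matrix (prs X u) X (ZMod 2),
      A = fun (p : prs X u) (v : X) => cl X u v p := ⟨_, rfl⟩
  obtain ⟨κ, a, ha, hspan, hLI⟩ := exists_linearIndependent' (ZMod 2) (fun v : X => cl X u v)
  have _ : Fintype κ := Fintype.ofInjective a ha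
  obtain ⟨κ', a', ha', hspan', hLI'⟩ := exists_linearIndependent' (ZMod 2)
    (fun p : prs X u => fun v : X => cl X u v p)
  have _ : Fintype κ' := Fintype.ofInjective a' ha'
  have hcard : Fintype.card κ' = Fintype.card κ := by
    rw [← finrank_span_eq_card hLI, ← finrank_span_eq_card hLI', hspan, hspan']
    have h1 := Matrix.rank_eq_finrank_span_cols A
    have h2 := Matrix.rank_eq_finrank_span_row A
    rw [h1] at h2
    have h3 : A.col = fun v : X => cl X u v := by
      funext v p
      rw [hA]
      rfl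
    have h4 : A.row = fun p : prs X u => fun v : X => cl X u v p := by
      funext v p
      rw [hA]
      rfl
    rw [h3, h4] at h2
    exact h2.symm
  obtain ⟨J, hJ⟩ : ∃ J : Finset V, J = Finset.univ.image fun k => (a k : V) := ⟨_, rfl⟩
  have hinj : Function.Injective fun k => (a k : V) := Subtype.val_injective.comp ha
  have hJc : J.card = Fintype.card κ := by
    rw [hJ, Finset.card_image_of_injective _ hinj, Finset.card_univ]
  have hJX : J ⊆ X := by
    intro v hv
    rw [hJ, Finset.mem_image] at hv
    obtain ⟨k, _, rfl⟩ := hv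
    exact (a k).2
  have hsumJ : ∀ (f : κ → ZMod 2), ∑ k, f k • ((fun v : X => cl X u v) ∘ a) k =
      ∑ v ∈ (Finset.univ.filter fun k => f k = 1).image (fun k => (a k : V)), cl X u v := by
    intro f
    rw [Finset.sum_image fun x _ y _ h => hinj h, Finset.sum_filter]
    refine Finset.sum_congr rfl fun k _ => ?_
    rcases z2 (f k) with h | h
    · rw [h, zero_smul, if_neg zero_ne_one]
    · rw [h, one_smul, if_pos rfl]
      rfl
  refine ⟨J, hJX, ?_, ?_, ?_⟩
  · obtain ⟨e⟩ : Nonempty (Fin J.card ≃ κ') := by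
      rw [hJc, ← hcard]
      exact ⟨(Fintype.equivFin κ').symm⟩
    refine ⟨fun i v => ic (a' (e i)).1.1 v - ic (a' (e i)).1.2 v, fun i => ?_, ?_⟩
    · have h1 := (mem_prs X u _).1 (a' (e i)).2
      exact rel_of_su X u _ _ h1.1 h1.2.1 h1.2.2
    · refine LinearIndependent.of_comp (LinearMap.funLeft (ZMod 2) (ZMod 2)
        (Subtype.val : X → V)) ?_
      have h1 := hLI'.comp e e.injective
      exact h1
  · intro T hT
    have h1 : ∑ v ∈ T, cl X u v ∈ span (ZMod 2) (Set.range ((fun v : X => cl X u v) ∘ a)) := by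
      rw [hspan]
      refine Submodule.sum_mem _ fun v hv => subset_span ?_
      exact ⟨⟨v, (Finset.mem_sdiff.1 (hT hv)).1⟩, rfl⟩
    rw [Submodule.mem_span_range_iff_exists_fun] at h1
    obtain ⟨f, hf⟩ := h1
    rw [hsumJ] at hf
    refine ⟨(Finset.univ.filter fun k => f k = 1).image fun k => (a k : V), ?_, ?_⟩
    · rw [hJ]
      exact Finset.image_subset_image (Finset.filter_subset _ _)
    · rw [code_iff, Finset.sum_union, hf]
      · funext p
        exact CharTwo.add_self_eq_zero _
      · rw [Finset.disjoint_left]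
        intro v hv hv'
        refine (Finset.mem_sdiff.1 (hT hv)).2 ?_
        rw [hJ]
        exact Finset.image_subset_image (Finset.filter_subset _ _) hv'
  · intro T hT hc
    rw [code_iff] at hc
    have h1 : T = (Finset.univ.filter fun k => (if (a k : V) ∈ T then (1 : ZMod 2) else 0) = 1).image
        (fun k => (a k : V)) := by
      ext v
      rw [Finset.mem_image]
      constructor
      · intro hv
        have h2 := hT hv
        rw [hJ, Finset.mem_image] at h2
        obtain ⟨k, _, rfl⟩ := h2
        refine ⟨k, ?_, rfl⟩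
        rw [Finset.mem_filter, if_pos hv]
        exact ⟨Finset.mem_univ k, rfl⟩
      · rintro ⟨k, hk, rfl⟩
        rw [Finset.mem_filter] at hk
        by_contra hno
        rw [if_neg hno] at hk
        exact zero_ne_one hk.2
    rw [h1, ← hsumJ] at hc
    have h2 := Fintype.linearIndependent_iff.1 hLI _ hc
    rw [Finset.eq_empty_iff_forall_notMem]
    intro v hv
    have h3 := hT hv
    rw [hJ, Finset.mem_image] at h3
    obtain ⟨k, _, rfl⟩ := h3
    have h4 := h2 k
    rw [if_pos hv] at h4
    exact one_ne_zero h4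

/-- independence modulo two implies independence -/
theorem li_int {m : ℕ} (d : Fin m → V → ℤ)
    (h : LinearIndependent (ZMod 2) (fun i v => ((d i v : ℤ) : ZMod 2))) :
    LinearIndependent ℤ d := by
  rw [Fintype.linearIndependent_iff]
  rw [Fintype.linearIndependent_iff] at h
  have key : ∀ (n : ℕ) (c : Fin m → ℤ), ∑ i, c i • d i = 0 → ∀ i, (2 : ℤ) ^ n ∣ c i := by
    intro n
    induction n with
    | zero =>
      intro c _ i
      rw [pow_zero]
      exact one_dvd _
    | succ n ih =>
      intro c hc i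
      have h1 : ∀ i, (2 : ℤ) ∣ c i := by
        intro i
        have h2 := h (fun i => ((c i : ℤ) : ZMod 2)) (by
          funext v
          have h3 := congrFun hc v
          rw [Finset.sum_apply] at h3 ⊢
          simp only [Pi.smul_apply, smul_eq_mul, Pi.zero_apply] at h3 ⊢
          have h4 : ((∑ i, c i * d i v : ℤ) : ZMod 2) = 0 := by rw [h3, Int.cast_zero]
          rw [← h4]
          push_cast
          rfl) i
        rw [ZMod.intCast_zmod_eq_zero_iff_dvd] at h2
        exact_mod_cast h2
      choose c' hc' using h1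
      have h2 : ∑ i, c' i • d i = 0 := by
        funext v
        have h3 := congrFun hc v
        rw [Finset.sum_apply] at h3 ⊢
        simp only [Pi.smul_apply, smul_eq_mul, Pi.zero_apply] at h3 ⊢
        have h4 : 2 * ∑ i, c' i * d i v = 0 := by
          rw [Finset.mul_sum, ← h3]
          refine Finset.sum_congr rfl fun i _ => ?_
          rw [hc' i]
          ring
        omega
      have h3 := ih c' h2 i
      rw [hc' i, pow_succ, mul_comm]
      exact mul_dvd_mul (dvd_refl 2) h3
  intro c hc i
  by_contra hne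
  have h1 := key (c i).natAbs c hc i
  have h2 := Int.natAbs_dvd_natAbs.2 h1
  rw [Int.natAbs_pow] at h2
  have h3 := Nat.le_of_dvd (Int.natAbs_pos.2 hne) h2
  have h4 : (c i).natAbs < 2 ^ (c i).natAbs := Nat.lt_two_pow_self
  have h5 : (2 : ℤ).natAbs = 2 := rfl
  rw [h5] at h3
  omega

/-- a multiple of all powers of two is zero -/
theorem zero_of_pow (c : ℤ) (h : ∀ n : ℕ, (2 : ℤ) ^ n ∣ c) : c = 0 := by
  by_contra hne
  have h2 := Int.natAbs_dvd_natAbs.2 (h c.natAbs)
  rw [Int.natAbs_pow] at h2
  have h3 := Nat.le_of_dvd (Int.natAbs_pos.2 hne) h2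
  have h4 : c.natAbs < 2 ^ c.natAbs := Nat.lt_two_pow_self
  have h5 : (2 : ℤ).natAbs = 2 := rfl
  rw [h5] at h3
  omega

/-- a vector on `J` orthogonal to all relations is zero -/
theorem descent (X : Finset V) (u : V → ℤ) (J : Finset V)
    (hJ : ∀ T ⊆ J, Code X u T → T = ∅) (w : V → ℤ)
    (hw : ∀ S ⊆ X, ∀ S' ⊆ X, su u S = su u S' → ∑ v ∈ J, (ic S v - ic S' v) * w v = 0) :
    ∀ v ∈ J, w v = 0 := by
  classical
  have key : ∀ (n : ℕ) (w : V → ℤ), (∀ S ⊆ X, ∀ S' ⊆ X, su u S = su u S' →
      ∑ v ∈ J, (ic S v - ic S' v) * w v = 0) → ∀ v ∈ J, (2 : ℤ) ^ n ∣ w v := by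
    intro n
    induction n with
    | zero =>
      intro w _ v _
      rw [pow_zero]
      exact one_dvd _
    | succ n ih =>
      intro w hw v hv
      have h1 : J.filter (fun v => Odd (w v)) = ∅ := by
        refine hJ _ (Finset.filter_subset _ _) fun S hS S' hS' hu => ?_
        have h2 := hw S hS S' hS' hu
        have h3 : ((∑ v ∈ J, (ic S v - ic S' v) * w v : ℤ) : ZMod 2) =
            (((S ∩ J.filter (fun v => Odd (w v))).card +
              (S' ∩ J.filter (fun v => Odd (w v))).card : ℕ) : ZMod 2) := by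
          have h4 : (((S ∩ J.filter (fun v => Odd (w v))).card +
              (S' ∩ J.filter (fun v => Odd (w v))).card : ℕ) : ZMod 2) =
              ((∑ v ∈ J.filter (fun v => Odd (w v)), (ic S v - ic S' v) : ℤ) : ZMod 2) := by
            rw [Finset.sum_sub_distrib, sum_ic, sum_ic]
            push_cast
            rw [CharTwo.sub_eq_add]
          rw [h4, Finset.sum_filter, Int.cast_sum, Int.cast_sum]
          refine Finset.sum_congr rfl fun v _ => ?_
          by_cases hv : Odd (w v)
          · rw [if_pos hv]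
            have h5 : ((w v : ℤ) : ZMod 2) = 1 := by
              obtain ⟨c, hc⟩ := hv
              rw [hc]
              push_cast
              have h6 : (2 : ZMod 2) = 0 := by decide
              rw [h6, zero_mul, zero_add]
            push_cast
            rw [h5, mul_one]
          · rw [if_neg hv]
            have h5 : ((w v : ℤ) : ZMod 2) = 0 := by
              rw [Int.not_odd_iff_even] at hv
              obtain ⟨c, hc⟩ := hv
              rw [hc]
              push_cast
              exact CharTwo.add_self_eq_zero _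
            push_cast
            rw [h5, mul_zero]
        rw [h2, Int.cast_zero] at h3
        exact (ZMod.natCast_eq_zero_iff_even).1 h3.symm
      have h2 : ∀ v : V, ∃ c : ℤ, v ∈ J → w v = 2 * c := by
        intro v
        by_cases hv : v ∈ J
        · have h3 : ¬ Odd (w v) := by
            intro h4
            have h5 : v ∈ J.filter (fun v => Odd (w v)) := Finset.mem_filter.2 ⟨hv, h4⟩
            rw [h1] at h5
            exact absurd h5 (Finset.notMem_empty v)
          rw [Int.not_odd_iff_even] at h3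
          obtain ⟨c, hc⟩ := h3
          exact ⟨c, fun _ => by rw [hc]; ring⟩
        · exact ⟨0, fun h => absurd h hv⟩
      choose w' hw' using h2
      have h3 := ih w' (fun S hS S' hS' hu => by
        have h4 := hw S hS S' hS' hu
        have h5 : ∑ v ∈ J, (ic S v - ic S' v) * w v =
            2 * ∑ v ∈ J, (ic S v - ic S' v) * w' v := by
          rw [Finset.mul_sum]
          refine Finset.sum_congr rfl fun v hv => ?_
          rw [hw' v hv]
          ring
        omega) v hv
      rw [hw' v hv, pow_succ, mul_comm]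
      exact mul_dvd_mul (dvd_refl 2) h3
  intro v hv
  exact zero_of_pow _ fun n => key n w hw v hv

end

section
variable {V : Type} [AddCommGroup V] [Module (ZMod 2) V] [DecidableEq V]

/-- a set which does not span lies in the kernel of a functional -/
theorem functional (X W : Finset V) (hW : W ⊆ X)
    (h : span (ZMod 2) (W : Set V) ≠ span (ZMod 2) (X : Set V)) :
    ∃ φ : V →ₗ[ZMod 2] ZMod 2, (∀ v ∈ W, φ v = 0) ∧ ∃ v ∈ X, φ v ≠ 0 := by
  have h1 : ∃ v ∈ X, v ∉ span (ZMod 2) (W : Set V) := by
    by_contra hno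
    push Not at hno
    exact h (le_antisymm (span_mono (Finset.coe_subset.2 hW)) (span_le.2 hno))
  obtain ⟨v, hv, hvW⟩ := h1
  obtain ⟨φ, hφ, hφW⟩ := Submodule.exists_le_ker_of_notMem hvW
  exact ⟨φ, fun w hw => hφW (subset_span hw), v, hv, hφ⟩

theorem kernel (X J : Finset V) (φ : V →ₗ[ZMod 2] ZMod 2) (v : V) (hv : v ∈ X) (hφ : φ v ≠ 0)
    (hJ : ∀ w ∈ X, w ∉ J → φ w = 0) :
    span (ZMod 2) ((X \ J : Finset V) : Set V) ≠ span (ZMod 2) (X : Set V) := by
  intro h
  have h1 : v ∈ span (ZMod 2) ((X \ J : Finset V) : Set V) := by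
    rw [h]
    exact subset_span hv
  have h2 : span (ZMod 2) ((X \ J : Finset V) : Set V) ≤ LinearMap.ker φ := by
    rw [span_le]
    intro w hw
    rw [Finset.mem_coe, Finset.mem_sdiff] at hw
    exact hJ w hw.1 hw.2
  exact hφ (h2 h1)

/-- the removal of fewer than `g` elements does not change the span -/
def Cut (X : Finset V) (g : ℕ) : Prop :=
  ∀ J ⊆ X, J.card < g → span (ZMod 2) ((X \ J : Finset V) : Set V) = span (ZMod 2) (X : Set V)

theorem code_no_span (X : Finset V) (u : V → ℤ) (h : ¬ NZu X u) (W : Finset V) (hW : W ⊆ X)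
    (hc : Code X u W) : span (ZMod 2) (W : Set V) ≠ span (ZMod 2) (X : Set V) := by
  intro hs
  obtain ⟨S, hS, S', hS', hu, hodd⟩ := odd_level X u h W hW hs
  exact (Nat.not_odd_iff_even.2 (hc S hS S' hS' hu)) hodd

theorem support_eq (X : Finset V) (g : ℕ) (hg : Cut X g) (J : Finset V) (hJX : J ⊆ X)
    (hJ : J.card ≤ g) (φ : V →ₗ[ZMod 2] ZMod 2) (h0 : ∀ w ∈ X, w ∉ J → φ w = 0)
    (v : V) (hv : v ∈ X) (hφ : φ v ≠ 0) : ∀ w ∈ J, φ w ≠ 0 := by
  intro w hw hφw
  have h1 : (J.erase w).card < g := by
    rw [Finset.card_erase_of_mem hw]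
    have h2 : 0 < J.card := Finset.card_pos.2 ⟨w, hw⟩
    omega
  refine kernel X (J.erase w) φ v hv hφ (fun x hx hxJ => ?_)
    (hg _ ((Finset.erase_subset w J).trans hJX) h1)
  by_cases hxw : x = w
  · rw [hxw, hφw]
  · exact h0 x hx fun h => hxJ (Finset.mem_erase.2 ⟨hxw, h⟩)

/-- **Independent relations modulo two**: as many as the smallest cut. -/
theorem cut_mod (X : Finset V) (u : V → ℤ) (h : ¬ NZu X u) (g : ℕ) (hg : Cut X g) :
    ∃ d : Fin g → V → ℤ, (∀ i, IsRel X u (d i)) ∧
      LinearIndependent (ZMod 2) (fun i v => ((d i v : ℤ) : ZMod 2)) := by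
  classical
  obtain ⟨J, hJX, ⟨d, hd, hLI⟩, hT, _⟩ := alg X u
  have h1 : g ≤ J.card := by
    by_contra hlt
    push Not at hlt
    obtain ⟨T', hT', hc⟩ := hT (X \ J) (Finset.Subset.refl _)
    refine code_no_span X u h _ (Finset.union_subset Finset.sdiff_subset (hT'.trans hJX)) hc ?_
    refine le_antisymm (span_mono (Finset.coe_subset.2
      (Finset.union_subset Finset.sdiff_subset (hT'.trans hJX)))) ?_
    rw [← hg J hJX hlt]
    exact span_mono (Finset.coe_subset.2 Finset.subset_union_left)
  refine ⟨fun i => d (Fin.castLE h1 i), fun i => hd _, ?_⟩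
  exact hLI.comp _ (Fin.castLE_injective h1)

/-- **One more relation**, if the elements of weight zero can be removed. -/
theorem cut_more (X : Finset V) (u : V → ℤ) (h : ¬ NZu X u) (g : ℕ) (hg3 : 3 ≤ g) (hg : Cut X g)
    (hnz : ∀ J ⊆ X, (∀ v ∈ J, u v = 0) →
      span (ZMod 2) ((X \ J : Finset V) : Set V) = span (ZMod 2) (X : Set V)) :
    ∃ d : Fin (g + 1) → V → ℤ, (∀ i, IsRel X u (d i)) ∧ LinearIndependent ℤ d := by
  classical
  obtain ⟨J, hJX, ⟨d, hd, hLI⟩, hT, hJ0⟩ := alg X u
  by_cases h1 : g + 1 ≤ J.card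
  · refine ⟨fun i => d (Fin.castLE h1 i), fun i => hd _, ?_⟩
    exact (li_int d hLI).comp _ (Fin.castLE_injective h1)
  exfalso
  have hJg : J.card ≤ g := by omega
  -- the word which contains the complement of `J`
  obtain ⟨T', hT', hc⟩ := hT (X \ J) (Finset.Subset.refl _)
  have hWX : (X \ J) ∪ T' ⊆ X := Finset.union_subset Finset.sdiff_subset (hT'.trans hJX)
  obtain ⟨φ, hφ0, v, hv, hφv⟩ := functional X _ hWX (code_no_span X u h _ hWX hc)
  have hφJ := support_eq X g hg J hJX hJg φ (fun w hw hwJ => hφ0 w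
    (Finset.mem_union_left _ (Finset.mem_sdiff.2 ⟨hw, hwJ⟩))) v hv hφv
  have hT0 : T' = ∅ := by
    rw [Finset.eq_empty_iff_forall_notMem]
    intro w hw
    exact hφJ w (hT' hw) (hφ0 w (Finset.mem_union_right _ hw))
  rw [hT0, Finset.union_empty] at hc
  -- all words of one element
  have hone : ∀ i ∈ X \ J, Code X u {i} := by
    intro i hi
    obtain ⟨R, hR, hcR⟩ := hT {i} (Finset.singleton_subset_iff.2 hi)
    by_cases hRe : R = ∅
    · rw [hRe, Finset.union_empty] at hcR
      exact hcR
    exfalso
    obtain ⟨j, hj⟩ := Finset.nonempty_iff_ne_empty.2 hRe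
    have hiX := (Finset.mem_sdiff.1 hi).1
    have hiJ := (Finset.mem_sdiff.1 hi).2
    have hjJ := hR hj
    have hjX := hJX hjJ
    have hij : i ≠ j := fun h => hiJ (h ▸ hjJ)
    -- the sum of the two words
    have hcW : Code X u (((X \ J).erase i) ∪ R) := by
      rw [code_iff] at hc hcR ⊢
      have h2 : Disjoint ({i} : Finset V) R := by
        rw [Finset.disjoint_singleton_left]
        exact fun h => hiJ (hR h)
      have h3 : Disjoint ((X \ J).erase i) R := by
        rw [Finset.disjoint_left]
        intro w hw hwR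
        exact (Finset.mem_sdiff.1 (Finset.mem_of_mem_erase hw)).2 (hR hwR)
      rw [Finset.sum_union h2, Finset.sum_singleton] at hcR
      rw [Finset.sum_union h3]
      rw [← Finset.add_sum_erase _ _ hi] at hc
      have h4 : ∑ v ∈ R, cl X u v = cl X u i := by
        have h5 := hcR
        rw [add_comm] at h5
        funext p
        have h6 := congrFun h5 p
        rw [Pi.add_apply, Pi.zero_apply] at h6
        exact CharTwo.add_eq_zero.1 h6
      rw [h4, add_comm]
      exact hc
    have hW'X : ((X \ J).erase i) ∪ R ⊆ X := Finset.union_subset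
      ((Finset.erase_subset _ _).trans Finset.sdiff_subset) (hR.trans hJX)
    obtain ⟨ψ, hψ0, w, hw, hψw⟩ := functional X _ hW'X (code_no_span X u h _ hW'X hcW)
    obtain ⟨J', hJ'⟩ : ∃ J', J' = insert i (J.erase j) := ⟨_, rfl⟩
    have hJ'c : J'.card ≤ g := by
      rw [hJ']
      refine (Finset.card_insert_le _ _).trans ?_
      rw [Finset.card_erase_of_mem hjJ]
      have h2 : 0 < J.card := Finset.card_pos.2 ⟨j, hjJ⟩
      omega
    have hJ'X : J' ⊆ X := by
      rw [hJ']
      exact Finset.insert_subset hiX ((Finset.erase_subset _ _).trans hJX)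
    have hψout : ∀ x ∈ X, x ∉ J' → ψ x = 0 := by
      intro x hx hxJ'
      rw [hJ', Finset.mem_insert, Finset.mem_erase] at hxJ'
      push Not at hxJ'
      refine hψ0 x (Finset.mem_union.2 ?_)
      by_cases hxJ : x ∈ J
      · right
        have h2 : x = j := by
          by_contra hxj
          exact hxJ'.2 hxj hxJ
        rw [h2]
        exact hj
      · left
        exact Finset.mem_erase.2 ⟨hxJ'.1, Finset.mem_sdiff.2 ⟨hx, hxJ⟩⟩
    have hψJ' := support_eq X g hg J' hJ'X hJ'c ψ hψout w hw hψw
    -- the sum of the functionals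
    refine kernel X {i, j} (φ + ψ) i hiX ?_ ?_ (hg {i, j} ?_ ?_)
    · rw [LinearMap.add_apply, hφ0 i (Finset.mem_union_left _ hi), zero_add]
      exact hψJ' i (by rw [hJ']; exact Finset.mem_insert_self _ _)
    · intro x hx hxij
      rw [Finset.mem_insert, Finset.mem_singleton] at hxij
      push Not at hxij
      rw [LinearMap.add_apply]
      by_cases hxJ : x ∈ J
      · have h2 : φ x = 1 := (z2 _).resolve_left (hφJ x hxJ)
        have h3 : ψ x = 1 := (z2 _).resolve_left (hψJ' x (by
          rw [hJ']
          exact Finset.mem_insert_of_mem (Finset.mem_erase.2 ⟨hxij.2, hxJ⟩)))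
        rw [h2, h3]
        decide
      · rw [hφ0 x (Finset.mem_union_left _ (Finset.mem_sdiff.2 ⟨hx, hxJ⟩)), zero_add]
        refine hψout x hx ?_
        rw [hJ', Finset.mem_insert, Finset.mem_erase]
        push Not
        exact ⟨hxij.1, fun _ => hxJ⟩
    · intro x hx
      rw [Finset.mem_insert, Finset.mem_singleton] at hx
      rcases hx with rfl | rfl
      · exact hiX
      · exact hjX
    · rw [Finset.card_pair hij]
      omega
  -- all relations are supported on `J`
  have hu : ∀ v ∈ J, u v = 0 := by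
    refine descent X u J hJ0 u fun S hS S' hS' hSS' => ?_
    have h2 := (rel_of_su X u S S' hS hS' hSS').2.2
    rw [← Finset.sum_sdiff hJX] at h2
    have h3 : ∑ v ∈ X \ J, (ic S v - ic S' v) * u v = 0 := by
      refine Finset.sum_eq_zero fun i hi => ?_
      have h4 := hone i hi S hS S' hS' hSS'
      by_cases h5 : i ∈ S
      · by_cases h6 : i ∈ S'
        · rw [ic_mem S i h5, ic_mem S' i h6, sub_self, zero_mul]
        · exfalso
          have h7 : S ∩ {i} = {i} := Finset.inter_singleton_of_mem h5
          have h8 : S' ∩ {i} = ∅ := Finset.inter_singleton_of_notMem h6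
          rw [h7, h8, Finset.card_singleton, Finset.card_empty] at h4
          exact absurd h4 (by decide)
      · by_cases h6 : i ∈ S'
        · exfalso
          have h7 : S ∩ {i} = ∅ := Finset.inter_singleton_of_notMem h5
          have h8 : S' ∩ {i} = {i} := Finset.inter_singleton_of_mem h6
          rw [h7, h8, Finset.card_singleton, Finset.card_empty] at h4
          exact absurd h4 (by decide)
        · rw [ic_not S i h5, ic_not S' i h6, sub_self, zero_mul]
    rw [h3, zero_add] at h2
    exact h2
  have h2 := hnz J hJX hu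
  exact kernel X J φ v hv hφv (fun w hw hwJ => hφ0 w
    (Finset.mem_union_left _ (Finset.mem_sdiff.2 ⟨hw, hwJ⟩))) h2

end

end Pool.Agent.SPT.Rel
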