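import Mathlib
import Pool.Agent.SPT.RelG
import Pool.Agent.SPT.FinG

/-!
# SPT: relations between the twist numbers of the diagrams with small coefficients
-/

set_option autoImplicit false
set_option linter.unusedSectionVars false

open Submodule LaurentPolynomial

namespace Pool.Agent.SPT.Rel

section
variable {V : Type} [AddCommGroup V] [Module (ZMod 2) V] [DecidableEq V]

/-- elements of weight one can be removed -/
theorem PP_res (X Y : Finset V) (hYX : Y ⊆ X)
    (hs : span (ZMod 2) (Y : Set V) = span (ZMod 2) (X : Set V)) (x : V → ℂ)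
    (hx : ∀ v ∈ X, v ∉ Y → x v = 1) : PP X ⊥ x = PP Y ⊥ x := by
  classical
  unfold PP
  symm
  have hsp : ∀ W : Finset V, Spans ⊥ Y W ↔ Spans ⊥ X W := by
    intro W
    unfold Spans
    rw [hs]
  rw [← Finset.sum_subset (Finset.powerset_mono.2 hYX)]
  · refine Finset.sum_congr rfl fun W _ => ?_
    rw [if_congr (hsp W) rfl rfl]
  · intro W hWX hW
    split_ifs with h
    · have h1 : ¬ W ⊆ Y := fun h' => hW (Finset.mem_powerset.2 h')
      rw [Finset.not_subset] at h1
      obtain ⟨v, hv, hvY⟩ := h1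
      refine Finset.prod_eq_zero hv ?_
      rw [hx v (Finset.mem_powerset.1 hWX hv) hvY, sub_self]
    · rfl

theorem span_erase_zero (X : Finset V) :
    span (ZMod 2) ((X.erase 0 : Finset V) : Set V) = span (ZMod 2) (X : Set V) := by
  refine le_antisymm (span_mono (Finset.coe_subset.2 (Finset.erase_subset 0 X))) ?_
  rw [span_le]
  intro v hv
  by_cases h0 : v = 0
  · rw [h0]
    exact zero_mem _
  · exact subset_span (Finset.mem_coe.2 (Finset.mem_erase.2 ⟨h0, hv⟩))

theorem IsRel.mono {X Y : Finset V} {u d : V → ℤ} (hYX : Y ⊆ X) (h : IsRel Y u d) :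
    IsRel X u d := by
  refine ⟨h.1, fun v hv => h.2.1 v fun h1 => hv (hYX h1), ?_⟩
  rw [← Finset.sum_subset hYX, h.2.2]
  intro v _ hv
  rw [h.2.1 v hv, zero_mul]

/-- **Three relations** -/
theorem three_main (X : Finset V) (u : V → ℤ) (h : ¬ NZu X u)
    (hnz : ∀ J ⊆ X, (∀ v ∈ J, u v = 0) →
      span (ZMod 2) ((X \ J : Finset V) : Set V) = span (ZMod 2) (X : Set V)) :
    ∃ d : Fin 3 → V → ℤ, (∀ i, IsRel X u (d i)) ∧ LinearIndependent ℤ d := by
  classical
  obtain ⟨X₁, hX₁⟩ : ∃ X₁ : Finset V, X₁ = X.filter fun v => u v ≠ 0 := ⟨_, rfl⟩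
  have hX₁X : X₁ ⊆ X := by
    rw [hX₁]
    exact Finset.filter_subset _ _
  have hs₁ : span (ZMod 2) (X₁ : Set V) = span (ZMod 2) (X : Set V) := by
    have h1 := hnz (X.filter fun v => u v = 0) (Finset.filter_subset _ _)
      fun v hv => (Finset.mem_filter.1 hv).2
    have h2 : X \ (X.filter fun v => u v = 0) = X₁ := by
      rw [hX₁]
      ext v
      rw [Finset.mem_sdiff, Finset.mem_filter, Finset.mem_filter]
      exact ⟨fun h => ⟨h.1, fun h' => h.2 ⟨h.1, h'⟩⟩, fun h => ⟨h.1, fun h' => h.2 h'.2⟩⟩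
    rw [← h2]
    exact h1
  have hN₁ : ¬ NZu X₁ u := by
    rintro ⟨z, hz, hz1⟩
    refine h ⟨z, hz, ?_⟩
    rw [PP_res X X₁ hX₁X hs₁]
    · exact hz1
    · intro v hv hv1
      have h1 : u v = 0 := by
        by_contra hne
        apply hv1
        rw [hX₁, Finset.mem_filter]
        exact ⟨hv, hne⟩
      change z ^ u v = 1
      rw [h1, zpow_zero]
  obtain ⟨X₂, hX₂⟩ : ∃ X₂ : Finset V, X₂ = X₁.erase 0 := ⟨_, rfl⟩
  have hX₂X₁ : X₂ ⊆ X₁ := by
    rw [hX₂]
    exact Finset.erase_subset _ _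
  have hN₂ : ¬ NZu X₂ u := by
    rintro ⟨z, hz, hz1⟩
    refine hN₁ ⟨z, hz, ?_⟩
    have hz0 : z ≠ 0 := by
      intro h0
      rw [h0, norm_zero] at hz
      exact zero_ne_one hz
    by_cases h0 : (0 : V) ∈ X₁
    · have h1 : X₁ = insert 0 X₂ := by
        rw [hX₂, Finset.insert_erase h0]
      rw [h1, PP_loop X₂ ⊥ _ 0 (by rw [hX₂]; exact Finset.notMem_erase _ _) (zero_mem _)]
      exact mul_ne_zero (zpow_ne_zero _ hz0) hz1
    · have h1 : X₂ = X₁ := by
        rw [hX₂, Finset.erase_eq_of_notMem h0]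
      rw [← h1]
      exact hz1
  have h0 : ∀ v ∈ X₂, v ≠ 0 := by
    intro v hv
    rw [hX₂] at hv
    exact Finset.ne_of_mem_erase hv
  have hu : ∀ v ∈ X₂, u v ≠ 0 := by
    intro v hv
    have h1 := hX₂X₁ hv
    rw [hX₁, Finset.mem_filter] at h1
    exact h1.2
  have hflat0 : Flat X₂ ∅ := by
    refine ⟨Finset.empty_subset _, fun v hv hvs => ?_⟩
    rw [Finset.coe_empty, span_empty, mem_bot] at hvs
    exact absurd hvs (h0 v hv)
  have hflat1 : ∀ e ∈ X₂, Flat X₂ {e} := by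
    intro e he
    refine ⟨Finset.singleton_subset_iff.2 he, fun v hv hvs => ?_⟩
    rw [Finset.coe_singleton, mem_span_singleton] at hvs
    obtain ⟨c, rfl⟩ := hvs
    rcases z2 c with rfl | rfl
    · rw [zero_smul] at hv
      exact absurd rfl (h0 _ hv)
    · rw [one_smul]
      exact Finset.mem_singleton_self e
  have hflat2 : ∀ p ∈ X₂, ∀ q ∈ X₂, Flat X₂ (line X₂ p q) := by
    intro p hp q hq
    refine ⟨Finset.filter_subset _ _, fun v hv hvs => ?_⟩
    have h1 : span (ZMod 2) ((line X₂ p q : Finset V) : Set V) ≤ span (ZMod 2) {p, q} := by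
      rw [span_le]
      intro w hw
      rw [Finset.mem_coe] at hw
      unfold line at hw
      rw [Finset.mem_filter] at hw
      have hpm : p ∈ span (ZMod 2) ({p, q} : Set V) := subset_span (by simp)
      have hqm : q ∈ span (ZMod 2) ({p, q} : Set V) := subset_span (by simp)
      rcases hw.2 with rfl | rfl | rfl
      · exact hpm
      · exact hqm
      · exact add_mem hpm hqm
    have h2 := h1 hvs
    rw [mem_span_pair] at h2
    obtain ⟨a, b, hab⟩ := h2
    unfold line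
    rw [Finset.mem_filter]
    refine ⟨hv, ?_⟩
    rcases z2 a with rfl | rfl <;> rcases z2 b with rfl | rfl
    · rw [zero_smul, zero_smul, add_zero] at hab
      exact absurd hab.symm (h0 v hv)
    · rw [zero_smul, one_smul, zero_add] at hab
      exact Or.inr (Or.inl hab.symm)
    · rw [zero_smul, one_smul, add_zero] at hab
      exact Or.inl hab.symm
    · rw [one_smul, one_smul] at hab
      exact Or.inr (Or.inr hab.symm)
  have hpart : ∀ F, Flat X₂ F → ∃ F' ⊆ X₂, su u F' = su u F ∧ F' ≠ F := by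
    intro F hF
    obtain ⟨F', hF', hsu, hodd⟩ := partner X₂ u hN₂ F hF
    refine ⟨F', hF'.1, hsu, ?_⟩
    rintro rfl
    rw [← two_mul] at hodd
    exact (Nat.not_odd_iff_even.2 (even_two_mul _)) hodd
  obtain ⟨d, hd, hLI⟩ := three_comb X₂ u hu (by
      obtain ⟨A, hA, hA0, hne⟩ := hpart ∅ hflat0
      refine ⟨A, hA, ?_, hne⟩
      rw [hA0]
      unfold su
      rw [Finset.sum_empty]) (fun e he => by
      obtain ⟨A, hA, hA0, hne⟩ := hpart {e} (hflat1 e he)
      refine ⟨A, hA, ?_, hne⟩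
      rw [hA0]
      unfold su
      rw [Finset.sum_singleton]) (fun p hp q hq _ => hpart _ (hflat2 p hp q hq))
  exact ⟨d, fun i => (hd i).mono (hX₂X₁.trans hX₁X), hLI⟩

/-- **The number of independent relations** -/
theorem rel_main (X : Finset V) (u : V → ℤ) (h : ¬ NZu X u)
    (hnz : ∀ J ⊆ X, (∀ v ∈ J, u v = 0) →
      span (ZMod 2) ((X \ J : Finset V) : Set V) = span (ZMod 2) (X : Set V))
    (m : ℕ) (hm : m ≤ 3 ∨ Cut X (m - 1)) :
    ∃ d : Fin m → V → ℤ, (∀ i, IsRel X u (d i)) ∧ LinearIndependent ℤ d := by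
  by_cases h3 : m ≤ 3
  · obtain ⟨d, hd, hLI⟩ := three_main X u h hnz
    exact ⟨fun i => d (Fin.castLE h3 i), fun i => hd _, hLI.comp _ (Fin.castLE_injective h3)⟩
  · obtain ⟨g, rfl⟩ : ∃ g, m = g + 1 := ⟨m - 1, by omega⟩
    rw [Nat.add_sub_cancel] at hm
    exact cut_more X u h g (by omega) (hm.resolve_left h3) hnz

/-- The vector `d` has the entries `-1`, `0`, `1` on `X`, and `∑ d v * a v` is less than `N` in absolute
value. -/
def Small (X : Finset V) (a : V → ℤ) (N : ℕ) (d : V → ℤ) : Prop :=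
  (∀ v, d v = -1 ∨ d v = 0 ∨ d v = 1) ∧ (∀ v, v ∉ X → d v = 0) ∧ |∑ v ∈ X, d v * a v| < N

theorem small_of_rel (X : Finset V) (a u : V → ℤ) (C N : ℕ) (hF : Follows X a u C N) (d : V → ℤ)
    (hd : IsRel X u d) : Small X a N d := by
  classical
  refine ⟨hd.1, hd.2.1, ?_⟩
  have key : ∀ f : V → ℤ, ∑ v ∈ X, d v * f v =
      ∑ v ∈ X.filter (fun v => d v = 1), f v - ∑ v ∈ X.filter (fun v => d v = -1), f v := by
    intro f
    rw [Finset.sum_filter, Finset.sum_filter, ← Finset.sum_sub_distrib]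
    refine Finset.sum_congr rfl fun v _ => ?_
    rcases hd.1 v with h | h | h
    · rw [h, if_neg (by decide), if_pos rfl]
      ring
    · rw [h, if_neg (by decide), if_neg (by decide)]
      ring
    · rw [h, if_pos rfl, if_neg (by decide)]
      ring
  rw [key]
  by_contra hno
  push Not at hno
  refine (hF _ (Finset.filter_subset _ _) _ (Finset.filter_subset _ _)).1 hno ?_
  have h1 := hd.2.2
  rw [key] at h1
  omega

/-- the three conclusions -/
theorem all_of_follows (X : Finset V) (a u : V → ℤ) (C N : ℕ) (hF : Follows X a u C N)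
    (h : ¬ NZu X u) :
    (∀ Y ⊆ X, span (ZMod 2) (Y : Set V) = span (ZMod 2) (X : Set V) →
      ∃ d, Small X a N d ∧ Odd (∑ v ∈ Y, d v)) ∧
    (∀ m : ℕ, Cut X m → ∃ d : Fin m → V → ℤ, (∀ i, Small X a N (d i)) ∧
      LinearIndependent (ZMod 2) (fun i v => ((d i v : ℤ) : ZMod 2))) ∧
    (span (ZMod 2) {v | v ∈ X ∧ (N : ℤ) ≤ |a v|} = span (ZMod 2) (X : Set V) →
      ∀ m : ℕ, (m ≤ 3 ∨ Cut X (m - 1)) → ∃ d : Fin m → V → ℤ, (∀ i, Small X a N (d i)) ∧
        LinearIndependent ℤ d) := by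
  classical
  refine ⟨fun Y hY hs => ?_, fun m hm => ?_, fun hlong m hm => ?_⟩
  · obtain ⟨S, hS, S', hS', hsu, hodd⟩ := odd_level X u h Y hY hs
    refine ⟨_, small_of_rel X a u C N hF _ (rel_of_su X u S S' hS hS' hsu), ?_⟩
    rw [Finset.sum_sub_distrib, sum_ic, sum_ic]
    rw [Nat.odd_add] at hodd
    rw [Int.odd_sub, Int.odd_coe_nat, Int.even_coe_nat]
    exact hodd
  · obtain ⟨d, hd, hLI⟩ := cut_mod X u h m hm
    exact ⟨d, fun i => small_of_rel X a u C N hF _ (hd i), hLI⟩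
  · obtain ⟨d, hd, hLI⟩ := rel_main X u h (fun J hJ hJ0 => by
      refine le_antisymm (span_mono (Finset.coe_subset.2 Finset.sdiff_subset)) ?_
      rw [← hlong]
      refine span_mono fun v hv => ?_
      rw [Finset.mem_coe, Finset.mem_sdiff]
      refine ⟨hv.1, fun hvJ => ?_⟩
      refine (hF {v} (Finset.singleton_subset_iff.2 hv.1) ∅ (Finset.empty_subset X)).1 ?_ ?_
      · rw [Finset.sum_singleton, Finset.sum_empty, sub_zero]
        exact hv.2
      · rw [Finset.sum_singleton, Finset.sum_empty]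
        exact hJ0 v hvJ) m hm
    exact ⟨d, fun i => small_of_rel X a u C N hF _ (hd i), hLI⟩

end

/-- the conclusions for a relation `R` on the crossings and a state `σ` -/
def Conclusion {n : ℕ} (R : Fin n → Fin n → Prop) (σ : Fin n → Bool) (N : ℕ) : Prop :=
  (∀ Y ⊆ rows R, span (ZMod 2) (Y : Set (Fin n → ZMod 2)) = span (ZMod 2) (rows R : Set _) →
    ∃ d, Small (rows R) (twist R σ) N d ∧ Odd (∑ v ∈ Y, d v)) ∧
  (∀ m : ℕ, Cut (rows R) m → ∃ d : Fin m → (Fin n → ZMod 2) → ℤ,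
    (∀ i, Small (rows R) (twist R σ) N (d i)) ∧
      LinearIndependent (ZMod 2) (fun i v => ((d i v : ℤ) : ZMod 2))) ∧
  (span (ZMod 2) {v | v ∈ rows R ∧ (N : ℤ) ≤ |twist R σ v|} = span (ZMod 2) (rows R : Set _) →
    ∀ m : ℕ, (m ≤ 3 ∨ Cut (rows R) (m - 1)) → ∃ d : Fin m → (Fin n → ZMod 2) → ℤ,
      (∀ i, Small (rows R) (twist R σ) N (d i)) ∧ LinearIndependent ℤ d)

/-- **knotoid diagrams** -/
theorem thm_KnotoidRel : ∀ k B : ℕ, ∃ N : ℕ, ∀ (n : ℕ) (D : Helper16.Knotoid.GaussDiagram n)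
    (σ : Fin n → Bool), (∃ c d, D.Cut σ c d) → (rows (D.Cut σ)).card ≤ k →
    coeffSum D.normalizedBracket ≤ B → Conclusion (D.Cut σ) σ N := by
  intro k B
  obtain ⟨N, hN⟩ := thm_KnotoidG k 0 B
  refine ⟨N, fun n D σ hcd hk hB => ?_⟩
  by_contra hno
  refine absurd (hN n D σ ⟨hcd, hk, fun u hu => ?_⟩) (by omega)
  by_contra hnot
  exact hno (all_of_follows (rows (D.Cut σ)) (twist (D.Cut σ) σ) u 0 N hu hnot)

/-- **knot diagrams** -/
theorem thm_KnotRel : ∀ k B : ℕ, ∃ N : ℕ, ∀ (n : ℕ) (g : GaussJones.Code n) (e σ : Fin n → Bool),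
    (∃ c d, GaussJones.Cut g e σ c d) → (rows (GaussJones.Cut g e σ)).card ≤ k →
    coeffSum (GaussJones.fPoly g e) ≤ B → Conclusion (GaussJones.Cut g e σ) σ N := by
  intro k B
  obtain ⟨N, hN⟩ := thm_KnotG k 0 B
  refine ⟨N, fun n g e σ hcd hk hB => ?_⟩
  by_contra hno
  refine absurd (hN n g e σ ⟨hcd, hk, fun u hu => ?_⟩) (by omega)
  by_contra hnot
  exact hno (all_of_follows (rows (GaussJones.Cut g e σ)) (twist (GaussJones.Cut g e σ) σ) u 0 N
    hu hnot)

end Pool.Agent.SPT.Rel
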