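import Mathlib
import Pool.Agent.SPT.RelF
import Pool.Agent.C8.Main

/-!
# SPT: five independent relations

A weight vector with vanishing polynomial whose support spans has at least five independent relations.
-/

set_option autoImplicit false
set_option linter.unusedSectionVars false

open Submodule

namespace Pool.Agent.SPT.Rel

variable {V : Type} [AddCommGroup V] [Module (ZMod 2) V] [DecidableEq V]

/-- If `u'` respects all relations of `u` and the polynomial vanishes for `u` then it vanishes for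
`u'`. -/
theorem five_follow (X : Finset V) (u u' : V → ℤ) (h : ¬ NZu X u)
    (hf : ∀ d, IsRel X u d → ∑ v ∈ X, d v * u' v = 0) : ¬ NZu X u' := by
  classical
  have hsu : ∀ S ⊆ X, ∀ S' ⊆ X, su u S = su u S' → su u' S = su u' S' := by
    intro S hS S' hS' he
    have h1 := hf _ (rel_of_su X u S S' hS hS' he)
    simp only [sub_mul] at h1
    rw [Finset.sum_sub_distrib, ← su_ic X S hS u', ← su_ic X S' hS' u'] at h1
    omega
  rintro ⟨z, hz, hne⟩
  apply hne
  have hz0 : z ≠ 0 := by
    intro h0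
    rw [h0, norm_zero] at hz
    exact zero_ne_one hz
  rw [PP_cc]
  rw [← Finset.sum_fiberwise_of_maps_to (s := X.powerset)
    (t := X.powerset.image fun S => ∑ v ∈ S, u v) (g := fun S => ∑ v ∈ S, u v)
    (fun S hS => Finset.mem_image_of_mem _ hS)]
  refine Finset.sum_eq_zero fun s hs => ?_
  rw [Finset.mem_image] at hs
  obtain ⟨S₀, hS₀, rfl⟩ := hs
  have h3 : ∀ S ∈ X.powerset.filter (fun S => ∑ v ∈ S, u v = ∑ v ∈ S₀, u v),
      (cc X S : ℂ) * ∏ v ∈ S, z ^ u' v = (cc X S : ℂ) * z ^ (su u' S₀) := by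
    intro S hS
    rw [Finset.mem_filter, Finset.mem_powerset] at hS
    rw [prod_zpow_sum z hz0]
    have h4 := hsu S hS.1 S₀ (Finset.mem_powerset.1 hS₀) hS.2
    unfold su at h4 ⊢
    rw [h4]
  rw [Finset.sum_congr rfl h3, ← Finset.sum_mul]
  have h4 := level_cc X u h (∑ v ∈ S₀, u v)
  have h5 : (∑ S ∈ X.powerset with ∑ v ∈ S, u v = ∑ v ∈ S₀, u v, (cc X S : ℂ)) = 0 := by
    rw [← Int.cast_sum, h4, Int.cast_zero]
  rw [h5, zero_mul]

/-- the coordinate `v` of a rational vector on `X`, zero outside of `X` -/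
private noncomputable def five_c (X : Finset V) (v : V) : (X → ℚ) →ₗ[ℚ] ℚ :=
  if h : v ∈ X then LinearMap.proj ⟨v, h⟩ else 0

private theorem five_c_mem (X : Finset V) (v : X) (w : X → ℚ) : five_c X v w = w v := by
  unfold five_c
  rw [dif_pos v.2]
  rfl

private theorem five_c_not (X : Finset V) (v : V) (h : v ∉ X) (w : X → ℚ) :
    five_c X v w = 0 := by
  unfold five_c
  rw [dif_neg h]
  rfl

/-- the space of the weight vectors which respect the relations -/
private theorem five_space (X : Finset V) (u : V → ℤ) (m : ℕ)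
    (hno : ¬ ∃ d : Fin (m + 1) → V → ℤ, (∀ i, IsRel X u (d i)) ∧ LinearIndependent ℤ d) :
    ∃ D : Submodule ℚ (X → ℚ),
      (∀ w ∈ D, ∀ d, IsRel X u d → ∑ v : X, (d v : ℚ) * w v = 0) ∧
      (fun v : X => (u v : ℚ)) ∈ D ∧ X.card ≤ Module.finrank ℚ D + m := by
  classical
  obtain ⟨b, hbs, hspan, hli⟩ := exists_linearIndependent ℚ
    {r : X → ℚ | ∃ d, IsRel X u d ∧ ∀ v : X, r v = d v}
  have hbf : b.Finite := hli.setFinite
  have : Fintype b := hbf.fintype
  have hcard : Fintype.card b ≤ m := by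
    by_contra hlt
    push Not at hlt
    apply hno
    obtain ⟨f⟩ : Nonempty (Fin (m + 1) ↪ b) :=
      Function.Embedding.nonempty_of_card_le (by rw [Fintype.card_fin]; exact hlt)
    choose d hd1 hd2 using fun r : b => hbs r.2
    refine ⟨fun i => d (f i), fun i => hd1 _, ?_⟩
    rw [Fintype.linearIndependent_iff]
    intro g hg i
    have h1 := (Fintype.linearIndependent_iff.1 (hli.comp f f.injective)) (fun i => (g i : ℚ)) (by
      funext v
      rw [Finset.sum_apply]
      have h2 := congrFun hg v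
      rw [Finset.sum_apply] at h2
      simp only [Pi.smul_apply, smul_eq_mul, Pi.zero_apply, Function.comp_apply] at h2 ⊢
      have h3 : ∀ j, ((f j : b) : X → ℚ) v = ((d (f j) v : ℤ) : ℚ) := fun j => hd2 (f j) v
      simp only [h3]
      exact_mod_cast h2)
    exact_mod_cast h1 i
  obtain ⟨L, hL⟩ : ∃ L : (X → ℚ) →ₗ[ℚ] (b → ℚ), ∀ w r, L w r = ∑ v : X, (r : X → ℚ) v * w v := by
    refine ⟨{ toFun := fun w r => ∑ v : X, (r : X → ℚ) v * w v, map_add' := ?_, map_smul' := ?_ },
      fun _ _ => rfl⟩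
    · intro w w'
      funext r
      rw [Pi.add_apply, ← Finset.sum_add_distrib]
      refine Finset.sum_congr rfl fun v _ => ?_
      rw [Pi.add_apply]
      ring
    · intro c w
      funext r
      rw [RingHom.id_apply, Pi.smul_apply, smul_eq_mul, Finset.mul_sum]
      refine Finset.sum_congr rfl fun v _ => ?_
      rw [Pi.smul_apply, smul_eq_mul]
      ring
  refine ⟨LinearMap.ker L, fun w hw d hd => ?_, ?_, ?_⟩
  · rw [LinearMap.mem_ker] at hw
    have h1 : ∀ r ∈ span ℚ b, ∑ v : X, r v * w v = 0 := by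
      intro r hr
      induction hr using Submodule.span_induction with
      | mem r hr =>
        have h2 := congrFun hw ⟨r, hr⟩
        rw [hL] at h2
        exact h2
      | zero => simp
      | add r r' _ _ h2 h3 =>
        simp only [Pi.add_apply, add_mul]
        rw [Finset.sum_add_distrib, h2, h3, add_zero]
      | smul c r _ h2 =>
        simp only [Pi.smul_apply, smul_eq_mul, mul_assoc]
        rw [← Finset.mul_sum, h2, mul_zero]
    refine h1 (fun v : X => ((d v : ℤ) : ℚ)) ?_
    rw [hspan]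
    exact subset_span ⟨d, hd, fun v => rfl⟩
  · rw [LinearMap.mem_ker]
    funext r
    rw [hL]
    obtain ⟨d, hd, hdr⟩ := hbs r.2
    have h1 := hd.2.2
    rw [← Finset.sum_coe_sort] at h1
    have h2 : ((∑ v : X, d v * u v : ℤ) : ℚ) = 0 := by rw [h1, Int.cast_zero]
    push_cast at h2
    rw [Pi.zero_apply, ← h2]
    exact Finset.sum_congr rfl fun v _ => by rw [hdr v]
  · have h1 := LinearMap.finrank_range_add_finrank_ker L
    have h2 : Module.finrank ℚ (LinearMap.range L) ≤ m := by
      refine (Submodule.finrank_le _).trans ?_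
      rw [Module.finrank_fintype_fun_eq_card]
      exact hcard
    rw [Module.finrank_fintype_fun_eq_card, Fintype.card_coe] at h1
    omega

/-- a multiple of a rational vector is integral -/
private theorem five_int (X : Finset V) (w : X → ℚ) :
    ∃ (M : ℤ) (u' : V → ℤ), M ≠ 0 ∧ ∀ v : X, ((u' v : ℤ) : ℚ) = M * w v := by
  classical
  obtain ⟨M, hM⟩ : ∃ M : ℕ, M = ∏ v : X, (w v).den := ⟨_, rfl⟩
  have hM0 : M ≠ 0 := by
    rw [hM]
    exact Finset.prod_ne_zero_iff.2 fun v _ => (w v).den_ne_zero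
  have hint : ∀ v : X, ∃ m : ℤ, (m : ℚ) = M * w v := by
    intro v
    obtain ⟨d, hd⟩ : (w v).den ∣ M := by
      rw [hM]
      exact Finset.dvd_prod_of_mem _ (Finset.mem_univ v)
    refine ⟨d * (w v).num, ?_⟩
    have h1 := Rat.mul_den_eq_num (w v)
    rw [hd]
    push_cast
    rw [← h1]
    ring
  choose m hm using hint
  refine ⟨M, fun v => if h : v ∈ X then m ⟨v, h⟩ else 0, by exact_mod_cast hM0, fun v => ?_⟩
  beta_reduce
  rw [dif_pos v.2]
  exact_mod_cast hm v

/-- singletons -/
private theorem five_one (v : V) : NonV ({v} : Finset V) := by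
  refine thm_Rank3 V {v} ?_
  refine (finrank_span_finset_le_card _).trans ?_
  simp

/-- **Independent relations**: if the polynomial is not zero for all sets with at most `c` elements
and all weights different from zero, and `2 * m ≤ c + 2`, then there are `m` independent
relations. -/
theorem five_gen (c : ℕ) (hc : ∀ (F : Finset V), (F.erase 0).card ≤ c → NonV F) (X : Finset V)
    (h0 : (0 : V) ∉ X) (u : V → ℤ) (h : ¬ NZu X u)
    (hsupp : span (ZMod 2) ((X.filter fun v => u v ≠ 0 : Finset V) : Set V) =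
      span (ZMod 2) (X : Set V)) (m : ℕ) (hm : 2 * m ≤ c) :
    ∃ d : Fin (m + 1) → V → ℤ, (∀ i, IsRel X u (d i)) ∧ LinearIndependent ℤ d := by
  classical
  by_contra hno
  obtain ⟨D, hD, huD, hdim⟩ := five_space X u m hno
  -- the support
  obtain ⟨sp, hsp⟩ : ∃ sp : (X → ℚ) → Finset V, ∀ w, sp w = X.filter fun v => five_c X v w ≠ 0 :=
    ⟨_, fun _ => rfl⟩
  have hspX : ∀ w, sp w ⊆ X := fun w => by
    rw [hsp]
    exact Finset.filter_subset _ _
  have hmem : ∀ w v, v ∈ sp w ↔ five_c X v w ≠ 0 := by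
    intro w v
    rw [hsp, Finset.mem_filter]
    refine ⟨fun h => h.2, fun h => ⟨?_, h⟩⟩
    by_contra hv
    exact h (five_c_not X v hv w)
  have hex : ∃ n, ∃ w ∈ D, span (ZMod 2) ((sp w : Finset V) : Set V) = span (ZMod 2) (X : Set V) ∧
      (sp w).card = n := by
    refine ⟨_, _, huD, ?_, rfl⟩
    have h1 : sp (fun v : X => (u v : ℚ)) = X.filter fun v => u v ≠ 0 := by
      rw [hsp]
      refine Finset.filter_congr fun v hv => ?_
      rw [five_c_mem X ⟨v, hv⟩]
      exact_mod_cast Iff.rfl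
    rw [h1, hsupp]
  obtain ⟨w0, hw0D, hw0s, hw0c⟩ := Nat.find_spec hex
  have hmin : ∀ w ∈ D, span (ZMod 2) ((sp w : Finset V) : Set V) = span (ZMod 2) (X : Set V) →
      (sp w0).card ≤ (sp w).card := by
    intro w hw hs
    rw [hw0c]
    exact Nat.find_min' hex ⟨w, hw, hs, rfl⟩
  obtain ⟨E, hE⟩ : ∃ E, E = sp w0 := ⟨_, rfl⟩
  rw [← hE] at hw0s hmin
  have hEX : E ⊆ X := by
    rw [hE]
    exact hspX w0
  have hEm : ∀ v, v ∈ E ↔ five_c X v w0 ≠ 0 := by
    rw [hE]
    exact hmem w0
  -- the polynomial vanishes on `E`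
  have hNE : ¬ NonV E := by
    intro hN
    obtain ⟨M, u', hM, hu'⟩ := five_int X w0
    have h1 : ¬ NZu X u' := by
      refine five_follow X u u' h fun d hd => ?_
      have h2 := hD w0 hw0D d hd
      rw [← Finset.sum_coe_sort]
      have h3 : ((∑ v : X, d v * u' v : ℤ) : ℚ) = M * ∑ v : X, (d v : ℚ) * w0 v := by
        push_cast
        rw [Finset.mul_sum]
        refine Finset.sum_congr rfl fun v _ => ?_
        rw [hu' v]
        ring
      rw [h2, mul_zero] at h3
      exact_mod_cast h3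
    have hM' : (M : ℚ) ≠ 0 := by exact_mod_cast hM
    have h2 : ∀ v ∈ E, u' v ≠ 0 := by
      intro v hv h3
      have h4 := hu' ⟨v, hEX hv⟩
      rw [h3, Int.cast_zero] at h4
      have h5 := (hEm v).1 hv
      rw [five_c_mem X ⟨v, hEX hv⟩] at h5
      exact mul_ne_zero hM' h5 h4.symm
    obtain ⟨z, hz, hzE⟩ := hN u' fun v hv _ => h2 v hv
    apply h1
    refine ⟨z, hz, ?_⟩
    rw [PP_res X E hEX hw0s]
    · exact hzE
    · intro v hv hvE
      have h3 : u' v = 0 := by
        have h4 := hu' ⟨v, hv⟩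
        have h5 : five_c X v w0 = 0 := by
          by_contra h6
          exact hvE ((hEm v).2 h6)
        rw [five_c_mem X ⟨v, hv⟩] at h5
        rw [h5, mul_zero] at h4
        exact_mod_cast h4
      rw [h3, zpow_zero]
  -- the minimal set `F`
  have hex2 : ∃ n, ∃ F ⊆ E, ¬ NonV F ∧
      (∀ c ∈ E, c ∉ F → c ∉ span (ZMod 2) ((E.erase c : Finset V) : Set V)) ∧ F.card = n :=
    ⟨_, E, Finset.Subset.refl E, hNE, fun c hc hcE => absurd hc hcE, rfl⟩
  obtain ⟨F, hFE, hNF, hFc, hFn⟩ := Nat.find_spec hex2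
  have hFmin : ∀ F' ⊆ E, ¬ NonV F' →
      (∀ c ∈ E, c ∉ F' → c ∉ span (ZMod 2) ((E.erase c : Finset V) : Set V)) →
      F.card ≤ F'.card := by
    intro F' h1 h2 h3
    rw [hFn]
    exact Nat.find_min' hex2 ⟨F', h1, h2, h3, rfl⟩
  have hF0 : (0 : V) ∉ F := fun h1 => h0 (hEX (hFE h1))
  have hFcard : c + 1 ≤ F.card := by
    by_contra hlt
    apply hNF
    refine hc F ?_
    rw [Finset.erase_eq_of_notMem hF0]
    omega
  have hnotcoloop : ∀ e ∈ F, e ∈ span (ZMod 2) ((E.erase e : Finset V) : Set V) := by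
    intro e he
    by_contra hco
    have h1 : ¬ NonV (F.erase e) := by
      intro hN
      apply hNF
      have h2 : F = {e} ∪ F.erase e := by
        rw [← Finset.insert_eq, Finset.insert_erase he]
      rw [h2]
      refine thm_Sum V {e} (F.erase e) ?_ (five_one e) hN
      rw [Submodule.disjoint_def]
      intro x hx hx'
      rw [Finset.coe_singleton, mem_span_singleton] at hx
      obtain ⟨a, rfl⟩ := hx
      rcases z2 a with rfl | rfl
      · exact zero_smul _ _
      · exfalso
        apply hco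
        rw [one_smul] at hx'
        exact span_mono (Finset.coe_subset.2 (Finset.erase_subset_erase e hFE)) hx'
    have h2 := hFmin (F.erase e) ((Finset.erase_subset e F).trans hFE) h1 fun c hcE hcF => by
      by_cases hce : c = e
      · rw [hce]
        exact hco
      · exact hFc c hcE fun h3 => hcF (Finset.mem_erase.2 ⟨hce, h3⟩)
    rw [Finset.card_erase_of_mem he] at h2
    have h3 : 0 < F.card := Finset.card_pos.2 ⟨e, he⟩
    omega
  -- the weight vectors supported on `E`
  obtain ⟨K, hK⟩ : ∃ K : Submodule ℚ (X → ℚ), ∀ w, w ∈ K ↔ ∀ v ∉ E, five_c X v w = 0 := by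
    refine ⟨⨅ v : {v : V // v ∉ E}, LinearMap.ker (five_c X v), fun w => ?_⟩
    rw [Submodule.mem_iInf]
    constructor
    · intro h1 v hv
      exact h1 ⟨v, hv⟩
    · intro h1 v
      exact h1 v v.2
  have hKdim : E.card ≤ Module.finrank ℚ K := by
    -- functions on `E` extended by zero
    obtain ⟨T, hT⟩ : ∃ T : (E → ℚ) →ₗ[ℚ] (X → ℚ),
        ∀ f v, T f v = if h : (v : V) ∈ E then f ⟨v, h⟩ else 0 := by
      refine ⟨{ toFun := fun f v => if h : (v : V) ∈ E then f ⟨v, h⟩ else 0,
                map_add' := ?_, map_smul' := ?_ }, fun _ _ => rfl⟩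
      · intro f g
        funext v
        rw [Pi.add_apply]
        by_cases hv : (v : V) ∈ E
        · rw [dif_pos hv, dif_pos hv, dif_pos hv, Pi.add_apply]
        · rw [dif_neg hv, dif_neg hv, dif_neg hv, add_zero]
      · intro a f
        funext v
        rw [RingHom.id_apply, Pi.smul_apply, smul_eq_mul]
        by_cases hv : (v : V) ∈ E
        · rw [dif_pos hv, dif_pos hv, Pi.smul_apply, smul_eq_mul]
        · rw [dif_neg hv, dif_neg hv, mul_zero]
    have hTK : ∀ f, T f ∈ K := by
      intro f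
      rw [hK]
      intro v hv
      by_cases hvX : v ∈ X
      · rw [five_c_mem X ⟨v, hvX⟩, hT, dif_neg hv]
      · exact five_c_not X v hvX _
    have hTi : Function.Injective (T.codRestrict K hTK) := by
      intro f g hfg
      funext v
      have h1 : T f ⟨v, hEX v.2⟩ = T g ⟨v, hEX v.2⟩ :=
        congrFun (congrArg Subtype.val hfg) ⟨v, hEX v.2⟩
      rw [hT, hT, dif_pos v.2, dif_pos v.2] at h1
      exact h1
    have h1 := LinearMap.finrank_le_finrank_of_injective hTi
    rw [Module.finrank_fintype_fun_eq_card, Fintype.card_coe] at h1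
    exact h1
  obtain ⟨D', hD'⟩ : ∃ D', D' = D ⊓ K := ⟨_, rfl⟩
  have hD'm : ∀ w, w ∈ D' ↔ w ∈ D ∧ ∀ v ∉ E, five_c X v w = 0 := by
    intro w
    rw [hD', Submodule.mem_inf, hK]
  have hw0D' : w0 ∈ D' := by
    rw [hD'm]
    refine ⟨hw0D, fun v hv => ?_⟩
    by_contra h1
    exact hv ((hEm v).2 h1)
  have hD'dim : E.card ≤ Module.finrank ℚ D' + m := by
    have h1 := Submodule.finrank_sup_add_finrank_inf_eq D K
    have h2 : Module.finrank ℚ ↥(D ⊔ K) ≤ X.card := by
      refine (Submodule.finrank_le _).trans ?_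
      rw [Module.finrank_fintype_fun_eq_card, Fintype.card_coe]
    rw [← hD'] at h1
    omega
  -- partners
  have hpartner : ∀ e ∈ F, ∃ f ∈ E, f ≠ e ∧ ∀ w ∈ D', (five_c X e w = 0 ↔ five_c X f w = 0) := by
    intro e he
    by_contra hcon
    push Not at hcon
    have h1 : ∀ f : (E.erase e : Finset V), ∃ w ∈ D' ⊓ LinearMap.ker (five_c X e),
        five_c X f w ≠ 0 := by
      intro f
      obtain ⟨hfe, hfE⟩ := Finset.mem_erase.1 f.2
      obtain ⟨w, hw, hiff⟩ := hcon f hfE hfe
      rcases hiff with ⟨h2, h3⟩ | ⟨h2, h3⟩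
      · exact ⟨w, Submodule.mem_inf.2 ⟨hw, h2⟩, h3⟩
      · have he0 := (hEm e).1 (hFE he)
        have hf0 := (hEm f).1 hfE
        refine ⟨w - (five_c X e w / five_c X e w0) • w0, Submodule.mem_inf.2
          ⟨Submodule.sub_mem _ hw (Submodule.smul_mem _ _ hw0D'), ?_⟩, ?_⟩
        · rw [LinearMap.mem_ker, map_sub, map_smul, smul_eq_mul, div_mul_cancel₀ _ he0, sub_self]
        · rw [map_sub, map_smul, h3, zero_sub, neg_ne_zero, smul_eq_mul]
          exact mul_ne_zero (div_ne_zero h2 he0) hf0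
    obtain ⟨w, hw, hwf⟩ := Module.Dual.exists_forall_mem_ne_zero_of_forall_exists
      (D' ⊓ LinearMap.ker (five_c X e)) (fun f : (E.erase e : Finset V) => five_c X f) h1
    obtain ⟨hwD', hwe⟩ := Submodule.mem_inf.1 hw
    rw [LinearMap.mem_ker] at hwe
    have hspw : sp w = E.erase e := by
      ext v
      rw [hmem, Finset.mem_erase]
      constructor
      · intro h2
        refine ⟨?_, ?_⟩
        · rintro rfl
          exact h2 hwe
        · by_contra h3
          exact h2 (((hD'm w).1 hwD').2 v h3)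
      · rintro ⟨h2, h3⟩
        exact hwf ⟨v, Finset.mem_erase.2 ⟨h2, h3⟩⟩
    have h2 := hmin w ((hD'm w).1 hwD').1 (by
      rw [hspw, ← hw0s]
      refine le_antisymm (span_mono (Finset.coe_subset.2 (Finset.erase_subset e E))) ?_
      rw [span_le]
      intro v hv
      by_cases hve : v = e
      · rw [hve]
        exact hnotcoloop e he
      · exact subset_span (Finset.mem_coe.2 (Finset.mem_erase.2 ⟨hve, hv⟩)))
    rw [hspw, Finset.card_erase_of_mem (hFE he)] at h2
    have h3 : 0 < E.card := Finset.card_pos.2 ⟨e, hFE he⟩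
    omega
  -- the classes
  obtain ⟨cls, hcls⟩ : ∃ cls : V → Finset V, ∀ e, cls e =
      E.filter fun f => ∀ w ∈ D', (five_c X e w = 0 ↔ five_c X f w = 0) := ⟨_, fun _ => rfl⟩
  have hcls1 : ∀ e f, f ∈ cls e ↔ f ∈ E ∧ ∀ w ∈ D', (five_c X e w = 0 ↔ five_c X f w = 0) := by
    intro e f
    rw [hcls, Finset.mem_filter]
  have hcls2 : ∀ e f, f ∈ cls e → cls f = cls e := by
    intro e f hf
    ext x
    rw [hcls1, hcls1]
    have h1 := ((hcls1 e f).1 hf).2
    constructor
    · rintro ⟨h2, h3⟩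
      exact ⟨h2, fun w hw => (h1 w hw).trans (h3 w hw)⟩
    · rintro ⟨h2, h3⟩
      exact ⟨h2, fun w hw => (h1 w hw).symm.trans (h3 w hw)⟩
  have hcls3 : ∀ e ∈ E, e ∈ cls e := fun e he => (hcls1 e e).2 ⟨he, fun _ _ => Iff.rfl⟩
  obtain ⟨T, hT⟩ : ∃ T : Finset (Finset V), T = E.image cls := ⟨_, rfl⟩
  have hTdim : Module.finrank ℚ D' ≤ T.card := by
    have h1 : ∀ t : T, ∃ e ∈ E, cls e = t := by
      intro t
      have h2 : (t : Finset V) ∈ E.image cls := by
        rw [← hT]
        exact t.2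
      obtain ⟨e, he, h3⟩ := Finset.mem_image.1 h2
      exact ⟨e, he, h3⟩
    choose rep hrep1 hrep2 using h1
    obtain ⟨L, hL⟩ : ∃ L : D' →ₗ[ℚ] (T → ℚ), ∀ w t, L w t = five_c X (rep t) w := by
      refine ⟨LinearMap.pi fun t => (five_c X (rep t)).domRestrict D', fun w t => rfl⟩
    have hLi : Function.Injective L := by
      rw [← LinearMap.ker_eq_bot, LinearMap.ker_eq_bot']
      intro w hw
      apply Subtype.ext
      funext v
      change (w : X → ℚ) v = 0
      rw [← five_c_mem X v (w : X → ℚ)]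
      by_cases hv : (v : V) ∈ E
      · obtain ⟨t, ht⟩ : ∃ t : T, (t : Finset V) = cls v := by
          refine ⟨⟨cls v, ?_⟩, rfl⟩
          rw [hT]
          exact Finset.mem_image_of_mem _ hv
        have h2 : (v : V) ∈ cls (rep t) := by
          rw [hrep2, ht]
          exact hcls3 v hv
        have h3 := ((hcls1 _ _).1 h2).2 w w.2
        rw [← h3, ← hL, hw]
        rfl
      · exact ((hD'm w).1 w.2).2 v hv
    have h2 := LinearMap.finrank_le_finrank_of_injective hLi
    rw [Module.finrank_fintype_fun_eq_card, Fintype.card_coe] at h2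
    exact h2
  have hsum1 : F.card = ∑ t ∈ T, (F.filter fun e => cls e = t).card :=
    Finset.card_eq_sum_card_fiberwise fun e he => by
      rw [hT]
      exact Finset.mem_coe.2 (Finset.mem_image_of_mem _ (hFE he))
  have hsum2 : (E \ F).card = ∑ t ∈ T, ((E \ F).filter fun e => cls e = t).card :=
    Finset.card_eq_sum_card_fiberwise fun e he => by
      rw [hT]
      exact Finset.mem_coe.2 (Finset.mem_image_of_mem _ (Finset.mem_sdiff.1 he).1)
  have hcount : 2 * T.card ≤ F.card + 2 * (E \ F).card := by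
    rw [hsum1, hsum2, Finset.mul_sum, ← Finset.sum_add_distrib]
    have h1 : ∑ t ∈ T, 2 = 2 * T.card := by
      rw [Finset.sum_const, smul_eq_mul, mul_comm]
    rw [← h1]
    refine Finset.sum_le_sum fun t ht => ?_
    rw [hT] at ht
    obtain ⟨e, he, rfl⟩ := Finset.mem_image.1 ht
    have h2 : ∀ x ∈ E, x ∉ F → cls x = cls e →
        0 < ((E \ F).filter fun y => cls y = cls e).card := fun x hx hxF hxe =>
      Finset.card_pos.2 ⟨x, Finset.mem_filter.2 ⟨Finset.mem_sdiff.2 ⟨hx, hxF⟩, hxe⟩⟩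
    by_cases heF : e ∈ F
    · obtain ⟨f, hfE, hfe, hf⟩ := hpartner e heF
      have h3 : cls f = cls e := hcls2 e f ((hcls1 e f).2 ⟨hfE, hf⟩)
      by_cases hfF : f ∈ F
      · have h4 : 1 < (F.filter fun y => cls y = cls e).card := by
          rw [Finset.one_lt_card]
          exact ⟨e, Finset.mem_filter.2 ⟨heF, rfl⟩, f, Finset.mem_filter.2 ⟨hfF, h3⟩, hfe.symm⟩
        omega
      · have h4 := h2 f hfE hfF h3
        omega
    · have h4 := h2 e he heF rfl
      omega
  have hFE' : (E \ F).card + F.card = E.card := by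
    rw [Finset.card_sdiff_of_subset hFE]
    have := Finset.card_le_card hFE
    omega
  omega

/-- **Five independent relations** -/
theorem five_main (X : Finset V) (u : V → ℤ) (h : ¬ NZu X u)
    (hnz : ∀ J ⊆ X, (∀ v ∈ J, u v = 0) →
      span (ZMod 2) ((X \ J : Finset V) : Set V) = span (ZMod 2) (X : Set V)) :
    ∃ d : Fin 5 → V → ℤ, (∀ i, IsRel X u (d i)) ∧ LinearIndependent ℤ d := by
  classical
  obtain ⟨X₂, hX₂⟩ : ∃ X₂ : Finset V, X₂ = X.erase 0 := ⟨_, rfl⟩
  have hX₂X : X₂ ⊆ X := by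
    rw [hX₂]
    exact Finset.erase_subset _ _
  have hs₂ : span (ZMod 2) (X₂ : Set V) = span (ZMod 2) (X : Set V) := by
    rw [hX₂]
    exact span_erase_zero X
  have hN₂ : ¬ NZu X₂ u := by
    rintro ⟨z, hz, hz1⟩
    refine h ⟨z, hz, ?_⟩
    have hz0 : z ≠ 0 := by
      intro h0
      rw [h0, norm_zero] at hz
      exact zero_ne_one hz
    by_cases h0 : (0 : V) ∈ X
    · have h1 : X = insert 0 X₂ := by
        rw [hX₂, Finset.insert_erase h0]
      rw [h1, PP_loop X₂ ⊥ _ 0 (by rw [hX₂]; exact Finset.notMem_erase _ _) (zero_mem _)]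
      exact mul_ne_zero (zpow_ne_zero _ hz0) hz1
    · have h1 : X₂ = X := by
        rw [hX₂, Finset.erase_eq_of_notMem h0]
      rw [← h1]
      exact hz1
  have hsupp : span (ZMod 2) ((X₂.filter fun v => u v ≠ 0 : Finset V) : Set V) =
      span (ZMod 2) (X₂ : Set V) := by
    have h1 := hnz (X.filter fun v => u v = 0) (Finset.filter_subset _ _)
      fun v hv => (Finset.mem_filter.1 hv).2
    have h2 : X₂.filter (fun v => u v ≠ 0) = (X \ (X.filter fun v => u v = 0)).erase 0 := by
      rw [hX₂]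
      ext v
      simp only [Finset.mem_filter, Finset.mem_erase, Finset.mem_sdiff]
      tauto
    rw [h2, span_erase_zero, h1, hs₂]
  obtain ⟨d, hd, hLI⟩ := five_gen 8 (C8.thm_Card8 V) X₂ (by rw [hX₂]; exact Finset.notMem_erase _ _)
    u hN₂ hsupp 4 (by norm_num)
  exact ⟨d, fun i => (hd i).mono hX₂X, hLI⟩

end Pool.Agent.SPT.Rel
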