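import Mathlib
import Pool.Agent.SPT.CluG

/-!
# SPT: the general cluster lemma with an explicit constant
-/

set_option autoImplicit false
set_option linter.unusedSectionVars false

open Submodule MeasureTheory

namespace Pool.Agent.SPT

/-- the integral vectors with entries `-1`, `0`, `1` -/
private def CluX_T {k : ℕ} (x : Fin k → ℚ) : Prop :=
  ∃ z : Fin k → ℤ, (∀ j, |z j| ≤ 1) ∧ x = fun j => (z j : ℚ)

private theorem CluX_dif {k : ℕ} (p : Finset (Fin k) × Finset (Fin k)) : CluX_T (dif p) := by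
  refine ⟨fun j => (if j ∈ p.1 then 1 else 0) - if j ∈ p.2 then 1 else 0, fun j => ?_, ?_⟩
  · beta_reduce
    split_ifs <;> norm_num
  · funext j
    unfold dif ind
    rw [Pi.sub_apply]
    push_cast
    rfl

private theorem CluX_single {k : ℕ} (i : Fin k) : CluX_T (Pi.single i (1 : ℚ)) := by
  refine ⟨Pi.single i 1, fun j => ?_, ?_⟩
  · by_cases h : j = i
    · rw [h, Pi.single_eq_same]
      norm_num
    · rw [Pi.single_eq_of_ne h]
      norm_num
  · funext j
    by_cases h : j = i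
    · rw [h, Pi.single_eq_same, Pi.single_eq_same]
      norm_num
    · rw [Pi.single_eq_of_ne h, Pi.single_eq_of_ne h]
      norm_num

/-- a basis of vectors with small entries, a part of which spans the relations -/
private theorem CluX_basis {k : ℕ} (s : Set (Fin k → ℚ)) (hs : ∀ x ∈ s, CluX_T x) :
    ∃ (B : Module.Basis (Fin k) ℚ (Fin k → ℚ)) (I : Set (Fin k)),
      (∀ i, CluX_T (B i)) ∧ (∀ i ∈ I, B i ∈ s) ∧ span ℚ s ≤ span ℚ (B '' I) := by
  classical
  obtain ⟨b, hbs, hspan, hli⟩ := exists_linearIndependent ℚ s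
  obtain ⟨t, ht⟩ : ∃ t : Set (Fin k → ℚ), t = b ∪ Set.range fun i => Pi.single i (1 : ℚ) :=
    ⟨_, rfl⟩
  have hbt : b ⊆ t := by
    rw [ht]
    exact Set.subset_union_left
  have hli' : LinearIndepOn ℚ id b := hli
  have hb1 := hli'.subset_extend hbt
  have hb2 := hli'.extend_subset hbt
  have hb3 := hli'.linearIndepOn_extend hbt
  have hb4 := hli'.subset_span_extend hbt
  set b' := hli'.extend hbt with hb'
  have htop : ⊤ ≤ span ℚ (Set.range fun x : b' => (x : Fin k → ℚ)) := by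
    rw [Subtype.range_coe]
    intro x _
    have h1 : x = ∑ i, x i • (Pi.single i (1 : ℚ) : Fin k → ℚ) := by
      funext j
      rw [Finset.sum_apply]
      simp only [Pi.smul_apply, Pi.single_apply, smul_eq_mul, mul_ite, mul_one, mul_zero]
      rw [Finset.sum_ite_eq]
      simp
    rw [h1]
    refine Submodule.sum_mem _ fun i _ => Submodule.smul_mem _ _ ?_
    apply hb4
    rw [ht]
    exact Or.inr ⟨i, rfl⟩
  obtain ⟨B0, hB0⟩ : ∃ B0 : Module.Basis b' ℚ (Fin k → ℚ), ∀ x, B0 x = (x : Fin k → ℚ) :=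
    ⟨Module.Basis.mk hb3 htop, fun x => Module.Basis.mk_apply _ _ _⟩
  have : Fintype b' := FiniteDimensional.fintypeBasisIndex B0
  have hcard : Fintype.card b' = k := by
    rw [← Module.finrank_eq_card_basis B0, Module.finrank_fin_fun]
  obtain ⟨e⟩ : Nonempty (b' ≃ Fin k) := ⟨Fintype.equivFinOfCardEq hcard⟩
  have hB : ∀ i, B0.reindex e i = ((e.symm i : b') : Fin k → ℚ) := by
    intro i
    rw [Module.Basis.reindex_apply, hB0]
  refine ⟨B0.reindex e, {i | B0.reindex e i ∈ b}, fun i => ?_, fun i hi => hbs hi, ?_⟩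
  · rw [hB]
    have h1 := hb2 (e.symm i).2
    rw [ht] at h1
    rcases h1 with h1 | ⟨j, hj⟩
    · exact hs _ (hbs h1)
    · rw [← hj]
      exact CluX_single j
  · rw [← hspan]
    refine span_mono fun x hx => ?_
    refine ⟨e ⟨x, hb1 hx⟩, ?_, ?_⟩
    · change B0.reindex e (e ⟨x, hb1 hx⟩) ∈ b
      rw [hB, Equiv.symm_apply_apply]
      exact hx
    · rw [hB, Equiv.symm_apply_apply]

/-- the constant of the linear algebra is `k * k!` -/
theorem CluX_LA (k : ℕ) (R : Finset (Finset (Fin k) × Finset (Fin k)))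
    (w : Finset (Fin k) × Finset (Fin k)) (hw : dif w ∈ span ℚ (dif '' (R : Set _)))
    (a : Fin k → ℝ) (δ : ℝ) (hδ : 0 ≤ δ)
    (ha : ∀ p ∈ R, |∑ j ∈ p.1, a j - ∑ j ∈ p.2, a j| ≤ δ) :
    |∑ j ∈ w.1, a j - ∑ j ∈ w.2, a j| ≤ (k * k.factorial : ℕ) * δ := by
  classical
  have hd : ∀ p : Finset (Fin k) × Finset (Fin k), ∑ j ∈ p.1, a j - ∑ j ∈ p.2, a j =
      ∑ j, ((dif p j : ℚ) : ℝ) * a j := by
    intro p
    rw [sum_ind p.1 a, sum_ind p.2 a, ← Finset.sum_sub_distrib]
    refine Finset.sum_congr rfl fun j _ => ?_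
    unfold dif
    rw [Pi.sub_apply]
    push_cast
    ring
  obtain ⟨B, I, hBT, hBI, hspan⟩ := CluX_basis (dif '' (R : Set (Finset (Fin k) × Finset (Fin k)))) (by
    rintro _ ⟨p, -, rfl⟩
    exact CluX_dif p)
  choose z hz1 hz2 using hBT
  obtain ⟨y, hy1, hy2⟩ := CluX_dif w
  -- the matrix with the columns `z i`
  obtain ⟨A, hA⟩ : ∃ A : Matrix (Fin k) (Fin k) ℤ, A = Matrix.of fun j i => z i j := ⟨_, rfl⟩
  have hBA : ∀ i j, B i j = (A j i : ℚ) := by
    intro i j
    rw [hA, hz2 i]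
    rfl
  have hdet : A.det ≠ 0 := by
    intro h0
    have h1 : (A.map (Int.cast : ℤ → ℚ)).det = 0 := by
      have h2 := (Int.castRingHom ℚ).map_det A
      rw [h0, map_zero] at h2
      exact h2.symm
    have h3 : ¬ IsUnit (A.map (Int.cast : ℤ → ℚ)) := by
      rw [Matrix.isUnit_iff_isUnit_det, h1]
      exact not_isUnit_zero
    apply h3
    rw [← Matrix.linearIndependent_cols_iff_isUnit]
    have h4 : (A.map (Int.cast : ℤ → ℚ)).col = B := by
      funext i j
      rw [hBA]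
      rfl
    rw [h4]
    exact B.linearIndependent
  have hq : ∀ i, |A.cramer y i| ≤ k.factorial := by
    intro i
    rw [Matrix.cramer_apply]
    have h1 := Matrix.det_le (A := A.updateCol i y) (abv := AbsoluteValue.abs) (x := (1 : ℤ))
      (fun p q => by
        rw [AbsoluteValue.abs_apply]
        by_cases h : q = i
        · rw [h, Matrix.updateCol_self]
          exact hy1 p
        · rw [Matrix.updateCol_ne h, hA]
          exact hz1 q p)
    rw [AbsoluteValue.abs_apply, one_pow, Fintype.card_fin, nsmul_eq_mul, mul_one] at h1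
    exact h1
  have hcr := Matrix.mulVec_cramer A y
  have hsum : ∑ i, ((A.cramer y i : ℤ) : ℚ) • B i = ((A.det : ℤ) : ℚ) • dif w := by
    funext j
    have h1 := congrFun hcr j
    unfold Matrix.mulVec dotProduct at h1
    rw [Finset.sum_apply, hy2]
    simp only [Pi.smul_apply, smul_eq_mul, hBA] at h1 ⊢
    rw [← Int.cast_mul, ← h1]
    push_cast
    refine Finset.sum_congr rfl fun i _ => by ring
  have hzero : ∀ i ∉ I, A.cramer y i = 0 := by
    intro i hi
    have h1 : ((A.det : ℤ) : ℚ) • dif w ∈ span ℚ (B '' I) :=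
      Submodule.smul_mem _ _ (hspan hw)
    rw [← hsum, Module.Basis.mem_span_image] at h1
    by_contra h2
    apply hi
    apply h1
    rw [Finset.mem_coe, Finsupp.mem_support_iff, Module.Basis.repr_sum_self]
    exact_mod_cast h2
  have hBa : ∀ i ∈ I, |∑ j, ((B i j : ℚ) : ℝ) * a j| ≤ δ := by
    intro i hi
    obtain ⟨p, hp, hpi⟩ := hBI i hi
    rw [← hpi, ← hd]
    exact ha p hp
  have h1 : ((A.det : ℤ) : ℝ) * ∑ j, ((dif w j : ℚ) : ℝ) * a j =
      ∑ i, ((A.cramer y i : ℤ) : ℝ) * ∑ j, ((B i j : ℚ) : ℝ) * a j := by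
    have h2 : ∀ j, ((A.det : ℤ) : ℝ) * ((dif w j : ℚ) : ℝ) =
        ∑ i, ((A.cramer y i : ℤ) : ℝ) * ((B i j : ℚ) : ℝ) := by
      intro j
      have h3 := congrFun hsum j
      rw [Finset.sum_apply] at h3
      simp only [Pi.smul_apply, smul_eq_mul] at h3
      have h4 : ((((A.det : ℤ) : ℚ) * dif w j : ℚ) : ℝ) =
          ((∑ i, ((A.cramer y i : ℤ) : ℚ) * B i j : ℚ) : ℝ) := by rw [h3]
      simp only [Rat.cast_mul, Rat.cast_sum, Rat.cast_intCast] at h4
      exact h4
    simp only [Finset.mul_sum]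
    rw [Finset.sum_comm]
    refine Finset.sum_congr rfl fun j _ => ?_
    rw [← mul_assoc, h2 j, Finset.sum_mul]
    refine Finset.sum_congr rfl fun i _ => by ring
  have h2 : |∑ i, ((A.cramer y i : ℤ) : ℝ) * ∑ j, ((B i j : ℚ) : ℝ) * a j| ≤
      (k * k.factorial : ℕ) * δ := by
    refine (Finset.abs_sum_le_sum_abs _ _).trans ?_
    have h3 : ∀ i ∈ (Finset.univ : Finset (Fin k)),
        |((A.cramer y i : ℤ) : ℝ) * ∑ j, ((B i j : ℚ) : ℝ) * a j| ≤ k.factorial * δ := by
      intro i _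
      by_cases hi : i ∈ I
      · rw [abs_mul]
        refine mul_le_mul ?_ (hBa i hi) (abs_nonneg _) (Nat.cast_nonneg _)
        exact_mod_cast hq i
      · rw [hzero i hi, Int.cast_zero, zero_mul, abs_zero]
        positivity
    refine (Finset.sum_le_sum h3).trans (le_of_eq ?_)
    rw [Finset.sum_const, Finset.card_univ, Fintype.card_fin, nsmul_eq_mul]
    push_cast
    ring
  rw [hd w]
  have h3 : (1 : ℝ) ≤ |((A.det : ℤ) : ℝ)| := by
    have : (1 : ℤ) ≤ |A.det| := Int.one_le_abs hdet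
    exact_mod_cast this
  rw [← h1, abs_mul] at h2
  have h4 : 0 ≤ |∑ j, ((dif w j : ℚ) : ℝ) * a j| := abs_nonneg _
  nlinarith

/-- the first scale of the cluster lemma, `ε` -/
noncomputable def CluX_e (k : ℕ) : ℝ := 1 / (16 * 4 ^ k)

/-- a number of scales suffices -/
noncomputable def CluX_N (k C : ℕ) (τ : ℝ) : ℝ :=
  (k * k.factorial : ℕ) *
    (CluX_e k / (min τ (CluX_e k / (C + 1)) * CluX_e k ^ (2 * 4 ^ k)))

theorem CluX_core (k C : ℕ) (τ : ℝ) (hτ : 0 < τ) (N : ℕ) (hN : CluX_N k C τ < N) :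
    ∀ (c : Finset (Fin k) → ℤ), (∀ S, |c S| ≤ 2 ^ k) → ∀ a : Fin k → ℤ,
      (∃ θ : ℝ, 0 < θ ∧ θ ≤ τ ∧ 1 / 2 ≤ ‖trig c a θ‖) ∨
      ∃ u : Fin k → ℤ,
        (∀ S S' : Finset (Fin k), (N : ℤ) ≤ |∑ i ∈ S, a i - ∑ i ∈ S', a i| →
          ∑ i ∈ S, u i ≠ ∑ i ∈ S', u i) ∧
        (∀ S S' : Finset (Fin k), |∑ i ∈ S, a i - ∑ i ∈ S', a i| ≤ (C : ℤ) →
          ∑ i ∈ S, u i = ∑ i ∈ S', u i) ∧
        ∀ z : ℂ, ∑ S, (c S : ℂ) * z ^ (∑ i ∈ S, u i) = 0 := by
  classical
  obtain ⟨K, hKd⟩ : ∃ K : ℝ, K = ((k * k.factorial : ℕ) : ℝ) := ⟨_, rfl⟩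
  have hK0 : 0 ≤ K := by
    rw [hKd]
    exact Nat.cast_nonneg _
  obtain ⟨ε, hεd, hε, hεk⟩ : ∃ ε : ℝ, ε = CluX_e k ∧ 0 < ε ∧ 16 * 4 ^ k * ε ≤ 1 :=
    ⟨CluX_e k, rfl, by unfold CluX_e; positivity, by
      unfold CluX_e
      rw [mul_one_div, div_self (by positivity)]⟩
  have h4k : (1 : ℝ) ≤ 4 ^ k := one_le_pow₀ (by norm_num)
  have hε16 : 16 * ε ≤ 1 := by nlinarith
  have hε1 : ε < 1 := by linarith
  -- the first scale
  obtain ⟨τ', hτd, hτ', hττ, hCτ⟩ : ∃ τ' : ℝ, τ' = min τ (ε / (C + 1)) ∧ 0 < τ' ∧ τ' ≤ τ ∧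
      C * τ' ≤ ε := by
    refine ⟨min τ (ε / (C + 1)), rfl, lt_min hτ (by positivity), min_le_left _ _, ?_⟩
    calc (C : ℝ) * min τ (ε / (C + 1)) ≤ C * (ε / (C + 1)) :=
          mul_le_mul_of_nonneg_left (min_le_right _ _) (Nat.cast_nonneg C)
      _ = (C / (C + 1)) * ε := by ring
      _ ≤ 1 * ε := by
          refine mul_le_mul_of_nonneg_right ?_ hε.le
          rw [div_le_one (by positivity)]
          linarith
      _ = ε := one_mul ε
  replace hN : K * (ε / (τ' * ε ^ (2 * 4 ^ k))) < N := by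
    rw [hKd, hτd, hεd]
    exact hN
  intro c hc a
  obtain ⟨j, hj, hD⟩ := Clu_scale ε τ' hε hε1 hτ'
    ((Finset.univ : Finset (Finset (Fin k) × Finset (Fin k))).image
      fun p => |sm a p.1 - sm a p.2|) (4 ^ k) (by
      refine Finset.card_image_le.trans ?_
      rw [Finset.card_univ, Fintype.card_prod, Fintype.card_finset, Fintype.card_fin, ← mul_pow]
      norm_num) (by
      intro d hd
      rw [Finset.mem_image] at hd
      obtain ⟨p, -, rfl⟩ := hd
      exact abs_nonneg _)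
  obtain ⟨t, ht⟩ : ∃ t : ℝ, t = τ' * ε ^ (2 * j) := ⟨_, rfl⟩
  rw [← ht] at hD
  have ht0 : 0 < t := by
    rw [ht]
    positivity
  have htτ : t ≤ τ' := by
    rw [ht]
    exact mul_le_of_le_one_right hτ'.le (pow_le_one₀ hε.le hε1.le)
  have htJ : τ' * ε ^ (2 * 4 ^ k) ≤ t := by
    rw [ht]
    exact mul_le_mul_of_nonneg_left (pow_le_pow_of_le_one hε.le hε1.le (by omega)) hτ'.le
  have hD' : ∀ S S', |sm a S - sm a S'| * t ≤ ε ∨ ε⁻¹ ≤ |sm a S - sm a S'| * t :=
    fun S S' => hD _ (Finset.mem_image.2 ⟨(S, S'), Finset.mem_univ _, rfl⟩)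
  have hεi : 2 * ε < ε⁻¹ := by
    rw [lt_inv_comm₀ (by positivity) hε]
    rw [mul_inv]
    have h5 : (2 : ℝ)⁻¹ * ε⁻¹ = ε⁻¹ / 2 := by ring
    have h6 : (16 : ℝ) ≤ ε⁻¹ := by
      rw [le_inv_comm₀ (by norm_num) hε]
      linarith
    rw [h5]
    linarith
  by_cases hall : ∀ S₀, ∑ S with |sm a S - sm a S₀| * t ≤ ε, c S = 0
  · right
    obtain ⟨u, hu, hu'⟩ := CluG_u {p | |sm a p.1 - sm a p.2| * t ≤ ε}
      (Finset.univ.filter fun w => (N : ℤ) ≤ |∑ i ∈ w.1, a i - ∑ i ∈ w.2, a i|) (by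
        intro w hw hspan
        rw [Finset.mem_filter] at hw
        have h1 := CluX_LA k (Finset.univ.filter fun p => |sm a p.1 - sm a p.2| * t ≤ ε) w (by
            rw [Finset.coe_filter]
            simpa using hspan) (fun i => (a i : ℝ)) (ε / t) (by positivity) (by
            intro p hp
            rw [Finset.mem_filter] at hp
            rw [le_div_iff₀ ht0]
            exact hp.2)
        rw [← hKd] at h1
        have h2 : (N : ℝ) ≤ |∑ i ∈ w.1, (a i : ℝ) - ∑ i ∈ w.2, (a i : ℝ)| := by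
          exact_mod_cast hw.2
        have h3 : K * (ε / t) ≤ K * (ε / (τ' * ε ^ (2 * 4 ^ k))) := by
          refine mul_le_mul_of_nonneg_left ?_ hK0
          exact div_le_div_of_nonneg_left hε.le (by positivity) htJ
        linarith)
    refine ⟨u, fun S S' hS => hu (S, S') (Finset.mem_filter.2 ⟨Finset.mem_univ _, hS⟩),
      fun S S' hS => hu' (S, S') ?_, fun z => ?_⟩
    · change |sm a S - sm a S'| * t ≤ ε
      have h1 : |sm a S - sm a S'| ≤ (C : ℝ) := by
        unfold sm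
        exact_mod_cast hS
      calc |sm a S - sm a S'| * t ≤ C * τ' :=
            mul_le_mul h1 htτ ht0.le (Nat.cast_nonneg C)
        _ ≤ ε := hCτ
    let st : Setoid (Finset (Fin k)) :=
      { r := fun S S' => |sm a S - sm a S'| * t ≤ ε
        iseqv := by
          refine ⟨?_, ?_, ?_⟩
          · intro S
            simp [hε.le]
          · intro S S' h
            rwa [abs_sub_comm]
          · intro S S' S'' h h'
            rcases hD' S S'' with h1 | h1
            · exact h1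
            · exfalso
              have h2 : |sm a S - sm a S''| ≤ |sm a S - sm a S'| + |sm a S' - sm a S''| :=
                abs_sub_le _ _ _
              have h3 := mul_le_mul_of_nonneg_right h2 ht0.le
              rw [add_mul] at h3
              linarith }
    rw [← Finset.sum_fiberwise (s := Finset.univ) (g := fun S => (Quotient.mk st S))]
    refine Finset.sum_eq_zero fun q _ => ?_
    induction q using Quotient.inductionOn with
    | h S₀ =>
      have h1 : ∀ S, Quotient.mk st S = Quotient.mk st S₀ ↔ |sm a S - sm a S₀| * t ≤ ε := by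
        intro S
        exact Quotient.eq
      have h2 : ∑ S with Quotient.mk st S = Quotient.mk st S₀, (c S : ℂ) * z ^ (∑ i ∈ S, u i) =
          (∑ S with Quotient.mk st S = Quotient.mk st S₀, (c S : ℂ)) * z ^ (∑ i ∈ S₀, u i) := by
        rw [Finset.sum_mul]
        refine Finset.sum_congr rfl fun S hS => ?_
        rw [Finset.mem_filter, h1] at hS
        rw [hu' (S, S₀) hS.2]
      rw [h2]
      have h3 := hall S₀
      simp only [h1]
      have h4 : (∑ S with |sm a S - sm a S₀| * t ≤ ε, (c S : ℂ)) = 0 := by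
        have h5 : ((∑ S with |sm a S - sm a S₀| * t ≤ ε, c S : ℤ) : ℂ) = 0 := by
          rw [h3, Int.cast_zero]
        rw [← h5]
        push_cast
        rfl
      rw [h4, zero_mul]
  · left
    push Not at hall
    obtain ⟨S₀, hS₀⟩ := hall
    obtain ⟨θ, hθ, hθt, h⟩ := trig_large c hc a ε t hε hεk ht0 S₀
      (fun S => |sm a S - sm a S₀| * t ≤ ε) (fun S h => h)
      (fun S h => (hD' S S₀).resolve_left h) hS₀
    exact ⟨θ, hθ, (hθt.trans htτ).trans hττ, h⟩

/-- the general cluster lemma, explicit constant -/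
theorem clusterX (k C : ℕ) (τ : ℝ) (hτ : 0 < τ) (N : ℕ) (hN : ∀ m ≤ k, CluX_N m C τ < N)
    (V : Type) [AddCommGroup V] [Module (ZMod 2) V] [DecidableEq V]
    (X : Finset V) (hk : X.card ≤ k) (a : V → ℤ)
    (hNV : ∀ u : V → ℤ, Follows X a u C N → NZu X u) :
    ∃ θ : ℝ, 0 < θ ∧ θ ≤ τ ∧
      1 / 2 ≤ ‖PP X ⊥ (fun v => Complex.exp (((a v * θ : ℝ) : ℂ) * Complex.I))‖ := by
  classical
  obtain ⟨m, hm⟩ : ∃ m, m = X.card := ⟨_, rfl⟩
  obtain ⟨g, hg⟩ : ∃ g : Fin m ↪ V, Finset.univ.map g = X := by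
    refine ⟨(X.equivFinOfCardEq hm.symm).symm.toEmbedding.trans
      (Function.Embedding.subtype _), ?_⟩
    ext v
    simp only [Finset.mem_map, Finset.mem_univ, true_and, Function.Embedding.trans_apply,
      Equiv.coe_toEmbedding, Function.Embedding.subtype_apply]
    constructor
    · rintro ⟨i, rfl⟩
      exact ((X.equivFinOfCardEq hm.symm).symm i).2
    · intro hv
      exact ⟨X.equivFinOfCardEq hm.symm ⟨v, hv⟩, by rw [Equiv.symm_apply_apply]⟩
  rcases CluX_core m C τ hτ N (hN m (by omega)) (cf g X) (cf_le g X) (fun i => a (g i)) with ⟨θ, hθ, hθτ, h⟩ | ⟨u, hu, hu2, hz⟩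
  · refine ⟨θ, hθ, hθτ, ?_⟩
    rw [PP_map g X hg]
    unfold trig at h
    have h1 : ∀ T : Finset (Fin m), ∏ i ∈ T, Complex.exp (((a (g i) * θ : ℝ) : ℂ) * Complex.I) =
        Complex.exp (((sm (fun i => a (g i)) T * θ : ℝ) : ℂ) * Complex.I) := by
      intro T
      rw [← Complex.exp_sum]
      congr 1
      unfold sm
      push_cast
      rw [Finset.sum_mul, Finset.sum_mul]
    simp only [h1]
    exact h
  · exfalso
    obtain ⟨u', hu'⟩ : ∃ u' : V → ℤ, ∀ i, u' (g i) = u i :=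
      ⟨Function.extend g u 0, fun i => g.injective.extend_apply u 0 i⟩
    have hfol : Follows X a u' C N := by
      intro S hS S' hS'
      rw [← hg] at hS hS'
      obtain ⟨T, _, rfl⟩ := Finset.subset_map_iff.1 hS
      obtain ⟨T', _, rfl⟩ := Finset.subset_map_iff.1 hS'
      simp only [Finset.sum_map, hu']
      exact ⟨fun h => hu T T' h, fun h => hu2 T T' h⟩
    obtain ⟨z, hz1, hzY⟩ := hNV u' hfol
    apply hzY
    have hz0 : z ≠ 0 := by
      intro h0
      rw [h0, norm_zero] at hz1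
      exact zero_ne_one hz1
    rw [PP_map g X hg]
    rw [← hz z]
    refine Finset.sum_congr rfl fun T _ => ?_
    congr 1
    simp only [hu']
    exact prod_zpow_sum z hz0 u T

end Pool.Agent.SPT
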