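import Mathlib
import Pool.Agent.SPT.CluX
import Pool.Agent.SPT.FinG

/-!
# SPT: the general criterion with an explicit constant
-/

set_option autoImplicit false

open Submodule LaurentPolynomial

namespace Pool.Agent.SPT

open Pool.Agent.Helper16.Knotoid Pool.Agent.UNI

/-- the constant -/
def NX (k C B : ℕ) : ℕ := (B + 1) * (C + 1) * 2 ^ 8 ^ (k + 1)

private theorem FinX_exp (k : ℕ) (hk : 1 ≤ k) :
    k * (k + 1) + (4 + 2 * k) + (4 + 2 * k) * (2 * 4 ^ k) < 8 ^ (k + 1) := by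
  have h1 : k + 1 ≤ 2 ^ k := Nat.lt_two_pow_self
  have h2 : 1 + k * 3 ≤ 4 ^ k := by
    have h3 := one_add_mul_le_pow (R := ℤ) (a := 3) (by norm_num) k
    have h4 : (1 : ℤ) + (k : ℤ) * 3 ≤ 4 ^ k := by
      calc (1 : ℤ) + (k : ℤ) * 3 ≤ (1 + 3) ^ k := h3
        _ = 4 ^ k := by norm_num
    exact_mod_cast h4
  have h5 : 8 ^ (k + 1) = 8 * (2 ^ k * 4 ^ k) := by
    rw [pow_succ, ← mul_pow]
    ring
  rw [h5]
  have h6 : (k + 1) * 4 ^ k ≤ 2 ^ k * 4 ^ k := Nat.mul_le_mul_right _ h1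
  have h7 : k * (1 + k * 3) ≤ k * 4 ^ k := Nat.mul_le_mul_left _ h2
  nlinarith

private theorem FinX_fact (m : ℕ) : m * m.factorial ≤ 2 ^ (m * (m + 1)) := by
  have h1 : m ≤ 2 ^ m := Nat.lt_two_pow_self.le
  have h2 : m.factorial ≤ m ^ m := Nat.factorial_le_pow m
  calc m * m.factorial ≤ 2 ^ m * (2 ^ m) ^ m :=
        Nat.mul_le_mul h1 (h2.trans (Nat.pow_le_pow_left h1 m))
    _ = 2 ^ (m * (m + 1)) := by
        rw [← pow_mul, ← pow_add]
        congr 1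
        ring

private theorem FinX_num (k C B m : ℕ) (hk : 1 ≤ k) (hm : m ≤ k) :
    CluX_N m C (1 / (4 * 3 ^ k * (B + 1))) < NX k C B := by
  obtain ⟨ε, hε⟩ : ∃ ε : ℝ, ε = CluX_e m := ⟨_, rfl⟩
  obtain ⟨J, hJ⟩ : ∃ J : ℕ, J = 2 * 4 ^ m := ⟨_, rfl⟩
  obtain ⟨τ', hτ'⟩ : ∃ τ' : ℝ, τ' = min (1 / (4 * 3 ^ k * ((B : ℝ) + 1))) (ε / (C + 1)) :=
    ⟨_, rfl⟩
  have hεe : ε = 1 / (16 * 4 ^ m) := hε
  have hε0 : 0 < ε := by
    rw [hεe]
    positivity
  have h4m : (1 : ℝ) ≤ 4 ^ m := one_le_pow₀ (by norm_num)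
  have hε1 : ε ≤ 1 := by
    rw [hεe, div_le_one (by positivity)]
    linarith
  have h4mk : (4 : ℝ) ^ m ≤ 4 ^ k := pow_le_pow_right₀ (by norm_num) hm
  have h3k : (3 : ℝ) ^ k ≤ 4 ^ k := pow_le_pow_left₀ (by norm_num) (by norm_num) k
  have hB : (1 : ℝ) ≤ (B : ℝ) + 1 := by
    have : (0 : ℝ) ≤ B := Nat.cast_nonneg B
    linarith
  have hC : (1 : ℝ) ≤ (C : ℝ) + 1 := by
    have : (0 : ℝ) ≤ C := Nat.cast_nonneg C
    linarith
  have h4k0 : (0 : ℝ) < 4 ^ k := by positivity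
  have hτ1 : 1 / (16 * 4 ^ k * ((B : ℝ) + 1) * (C + 1)) ≤ τ' := by
    rw [hτ']
    refine le_min ?_ ?_
    · refine one_div_le_one_div_of_le (by positivity) ?_
      have h5 : 4 * (3 : ℝ) ^ k * ((B : ℝ) + 1) ≤ 16 * 4 ^ k * ((B : ℝ) + 1) :=
        mul_le_mul_of_nonneg_right (by linarith) (by linarith)
      have h6 : 16 * (4 : ℝ) ^ k * ((B : ℝ) + 1) * 1 ≤ 16 * 4 ^ k * ((B : ℝ) + 1) * (C + 1) :=
        mul_le_mul_of_nonneg_left hC (by positivity)
      linarith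
    · rw [hεe, div_div]
      refine one_div_le_one_div_of_le (by positivity) ?_
      have h5 : 16 * (4 : ℝ) ^ m * (C + 1) ≤ 16 * 4 ^ k * (C + 1) :=
        mul_le_mul_of_nonneg_right (by linarith) (by linarith)
      have h6 : 16 * (4 : ℝ) ^ k * (C + 1) * 1 ≤ 16 * (4 : ℝ) ^ k * (C + 1) * ((B : ℝ) + 1) :=
        mul_le_mul_of_nonneg_left hB (by positivity)
      linarith
  have hτ0 : 0 < τ' := lt_of_lt_of_le (by positivity) hτ1
  have hεJ : ε ^ J = 1 / (16 * 4 ^ m) ^ J := by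
    rw [hεe, one_div_pow]
  have h1 : ε / (τ' * ε ^ J) ≤ 16 * 4 ^ k * ((B : ℝ) + 1) * (C + 1) * (16 * 4 ^ k) ^ (2 * 4 ^ k) := by
    rw [div_le_iff₀ (by positivity), hεJ]
    have h2 : (1 : ℝ) ≤ 16 * 4 ^ k * ((B : ℝ) + 1) * (C + 1) * τ' := by
      rw [div_le_iff₀ (by positivity)] at hτ1
      linarith
    have h3 : ((16 : ℝ) * 4 ^ m) ^ J ≤ (16 * 4 ^ k) ^ (2 * 4 ^ k) := by
      calc ((16 : ℝ) * 4 ^ m) ^ J ≤ (16 * 4 ^ k) ^ J :=
            pow_le_pow_left₀ (by positivity) (by linarith) J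
        _ ≤ (16 * 4 ^ k) ^ (2 * 4 ^ k) := by
            refine pow_le_pow_right₀ ?_ ?_
            · have : (1 : ℝ) ≤ 4 ^ k := one_le_pow₀ (by norm_num)
              linarith
            · rw [hJ]
              exact Nat.mul_le_mul_left _ (Nat.pow_le_pow_right (by norm_num) hm)
    have h4 : (1 : ℝ) ≤ (16 * 4 ^ k) ^ (2 * 4 ^ k) * (1 / (16 * 4 ^ m) ^ J) := by
      rw [mul_one_div, one_le_div (by positivity)]
      exact h3
    calc ε ≤ 1 * 1 := by linarith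
      _ ≤ (16 * 4 ^ k * ((B : ℝ) + 1) * (C + 1) * τ') *
          ((16 * 4 ^ k) ^ (2 * 4 ^ k) * (1 / (16 * 4 ^ m) ^ J)) :=
          mul_le_mul h2 h4 (by norm_num) (by positivity)
      _ = _ := by ring
  have h2 : CluX_N m C (1 / (4 * 3 ^ k * (B + 1))) =
      ((m * m.factorial : ℕ) : ℝ) * (ε / (τ' * ε ^ J)) := by
    rw [hτ', hε, hJ]
    rfl
  rw [h2]
  have h3 : ((m * m.factorial : ℕ) : ℝ) ≤ 2 ^ (k * (k + 1)) := by
    have h4 : m * m.factorial ≤ 2 ^ (k * (k + 1)) :=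
      (FinX_fact m).trans (Nat.pow_le_pow_right (by norm_num)
        (Nat.mul_le_mul hm (by omega)))
    exact_mod_cast h4
  calc ((m * m.factorial : ℕ) : ℝ) * (ε / (τ' * ε ^ J))
      ≤ 2 ^ (k * (k + 1)) *
        (16 * 4 ^ k * ((B : ℝ) + 1) * (C + 1) * (16 * 4 ^ k) ^ (2 * 4 ^ k)) :=
        mul_le_mul h3 h1 (by positivity) (by positivity)
    _ = ((B : ℝ) + 1) * (C + 1) *
        2 ^ (k * (k + 1) + (4 + 2 * k) + (4 + 2 * k) * (2 * 4 ^ k)) := by
        have h5 : (16 : ℝ) * 4 ^ k = 2 ^ (4 + 2 * k) := by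
          rw [pow_add, pow_mul]
          norm_num
        rw [h5, ← pow_mul, pow_add, pow_add]
        ring
    _ < ((B : ℝ) + 1) * (C + 1) * 2 ^ 8 ^ (k + 1) := by
        refine mul_lt_mul_of_pos_left ?_ (by positivity)
        exact pow_lt_pow_right₀ (by norm_num) (FinX_exp k hk)
    _ = ((NX k C B : ℕ) : ℝ) := by
        unfold NX
        push_cast
        ring

/-- **Knotoid diagrams, general criterion**, explicit constant -/
theorem knotoidGX (k C B n : ℕ) (D : GaussDiagram n) (σ : Fin n → Bool)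
    (h : GoodTwists (D.Cut σ) σ k C (NX k C B)) : (B : ℤ) < coeffSum D.normalizedBracket := by
  classical
  obtain ⟨⟨c₀, d₀, hR⟩, hk, hNV⟩ := h
  obtain ⟨t, htd⟩ : ∃ t : ℝ, t = 1 / (4 * 3 ^ k * ((B : ℝ) + 1)) := ⟨_, rfl⟩
  have hB : (1 : ℝ) ≤ (B : ℝ) + 1 := by
    have : (0 : ℝ) ≤ B := Nat.cast_nonneg B
    linarith
  have h3k1 : (1 : ℝ) ≤ 3 ^ k := one_le_pow₀ (by norm_num)
  have ht0 : 0 < t := by
    rw [htd]
    positivity
  have ht1 : t < 1 := by
    rw [htd, div_lt_one (by positivity)]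
    nlinarith
  have ht2 : 3 ^ k * t ≤ 1 / 4 := by
    rw [htd, mul_one_div, div_le_div_iff₀ (by positivity) (by norm_num)]
    nlinarith
  have ht3 : t * (B + 1) ≤ 1 / 4 := by
    rw [htd, one_div_mul_eq_div, div_le_div_iff₀ (by positivity) (by norm_num)]
    nlinarith
  have hrows : rows (D.Cut σ) = Finset.univ.image (D.gmat σ) := by
    unfold rows
    exact Finset.image_congr fun c _ => row_eq D σ c
  have hk1 : 1 ≤ k := by
    refine le_trans ?_ hk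
    rw [Nat.one_le_iff_ne_zero, Ne, Finset.card_eq_zero, hrows]
    intro h0
    have h1 : D.gmat σ c₀ ∈ Finset.univ.image (D.gmat σ) :=
      Finset.mem_image_of_mem _ (Finset.mem_univ _)
    rw [h0] at h1
    exact absurd h1 (Finset.notMem_empty _)
  have htw : ∀ (v : Fin n → ZMod 2) [DecidablePred fun c => D.gmat σ c = v],
      SPT.signedCount σ (Finset.univ.filter fun c => D.gmat σ c = v) = twist (D.Cut σ) σ v := by
    intro v _
    unfold twist SPT.signedCount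
    refine Finset.sum_congr ?_ fun _ _ => rfl
    ext c
    rw [Finset.mem_filter, Finset.mem_filter, row_eq]
  obtain ⟨θ, hθ0, hθt, hlow⟩ := clusterX k C t ht0 (NX k C B) (fun m hm => by
    rw [htd]
    exact FinX_num k C B m hk1 hm) (Fin n → ZMod 2) (rows (D.Cut σ)) hk
    (twist (D.Cut σ) σ) hNV
  have hev := thm_Eval (Fin n) (D.gmat σ) (D.gmat_symm σ) σ θ hθ0 (by linarith)
  simp only [htw] at hev
  rw [hrows] at hlow
  have hcard : (3 : ℝ) ^ (Finset.univ.image (D.gmat σ)).card ≤ 3 ^ k :=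
    pow_le_pow_right₀ (by norm_num) (by rwa [← hrows])
  have hrank : 1 ≤ (D.gmat σ).rank := rank_pos _ c₀ d₀ (by
    rw [(cut_iff D σ c₀ d₀).1 hR]
    exact one_ne_zero)
  rw [← norm_f D σ θ] at hev
  have hle := norm_ev_le θ D.normalizedBracket
  have hpow : θ ^ (D.gmat σ).rank ≤ θ := by
    calc θ ^ (D.gmat σ).rank ≤ θ ^ 1 := pow_le_pow_of_le_one hθ0.le (by linarith) hrank
      _ = θ := pow_one θ
  have h1 : 1 / 4 ≤ θ * ‖evθ θ D.normalizedBracket‖ := by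
    have h2 : (3 : ℝ) ^ (Finset.univ.image (D.gmat σ)).card * θ ≤ 1 / 4 := by
      calc (3 : ℝ) ^ (Finset.univ.image (D.gmat σ)).card * θ ≤ 3 ^ k * t :=
            mul_le_mul hcard hθt hθ0.le (by positivity)
        _ ≤ 1 / 4 := ht2
    have h3 : θ ^ (D.gmat σ).rank * ‖evθ θ D.normalizedBracket‖ ≤
        θ * ‖evθ θ D.normalizedBracket‖ := mul_le_mul_of_nonneg_right hpow (norm_nonneg _)
    linarith
  have h4 : t * (B + 1) ≤ t * (coeffSum D.normalizedBracket : ℝ) := by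
    calc t * (B + 1) ≤ 1 / 4 := ht3
      _ ≤ θ * ‖evθ θ D.normalizedBracket‖ := h1
      _ ≤ t * (coeffSum D.normalizedBracket : ℝ) :=
          mul_le_mul hθt hle (norm_nonneg _) ht0.le
  have h5 : ((B : ℝ) + 1) ≤ (coeffSum D.normalizedBracket : ℝ) := le_of_mul_le_mul_left h4 ht0
  have h6 : ((B : ℤ) + 1) ≤ coeffSum D.normalizedBracket := by exact_mod_cast h5
  omega

/-- **Knot diagrams, general criterion**, explicit constant -/
theorem knotGX (k C B n : ℕ) (g : GaussJones.Code n) (e σ : Fin n → Bool)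
    (h : GoodTwists (GaussJones.Cut g e σ) σ k C (NX k C B)) :
    (B : ℤ) < coeffSum (GaussJones.fPoly g e) := by
  have h1 : GaussJones.Cut g e σ = (cutOpen g e).Cut σ := by
    funext i j
    exact propext (cut_closed g e σ i j)
  have hn : 0 < n := by
    obtain ⟨⟨c, _⟩, _⟩ := h
    exact c.pos
  rw [h1] at h
  rw [f_closed hn]
  exact knotoidGX k C B n _ σ h

end Pool.Agent.SPT
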