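import Mathlib
import Pool.Agent.SPT.RelF
import Pool.Agent.SPT.FinX

/-!
# SPT: relations between the twist numbers, explicit constant
-/

set_option autoImplicit false

open Submodule LaurentPolynomial

namespace Pool.Agent.SPT.Rel

/-- **knotoid diagrams**, explicit constant -/
theorem knotoidRelX (k B n : ℕ) (D : Helper16.Knotoid.GaussDiagram n) (σ : Fin n → Bool)
    (hcd : ∃ c d, D.Cut σ c d) (hk : (rows (D.Cut σ)).card ≤ k)
    (hB : coeffSum D.normalizedBracket ≤ B) : Conclusion (D.Cut σ) σ (NX k 0 B) := by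
  by_contra hno
  refine absurd (knotoidGX k 0 B n D σ ⟨hcd, hk, fun u hu => ?_⟩) (by omega)
  by_contra hnot
  exact hno (all_of_follows (rows (D.Cut σ)) (twist (D.Cut σ) σ) u 0 _ hu hnot)

/-- **knot diagrams**, explicit constant -/
theorem knotRelX (k B n : ℕ) (g : GaussJones.Code n) (e σ : Fin n → Bool)
    (hcd : ∃ c d, GaussJones.Cut g e σ c d) (hk : (rows (GaussJones.Cut g e σ)).card ≤ k)
    (hB : coeffSum (GaussJones.fPoly g e) ≤ B) :
    Conclusion (GaussJones.Cut g e σ) σ (NX k 0 B) := by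
  by_contra hno
  refine absurd (knotGX k 0 B n g e σ ⟨hcd, hk, fun u hu => ?_⟩) (by omega)
  by_contra hnot
  exact hno (all_of_follows (rows (GaussJones.Cut g e σ)) (twist (GaussJones.Cut g e σ) σ) u 0 _
    hu hnot)

end Pool.Agent.SPT.Rel
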