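import Mathlib
import Pool.Agent.SPT.Five
import Pool.Agent.SPT.RelX

/-!
# SPT: relations between the twist numbers, at least five, explicit constant
-/

set_option autoImplicit false

open Submodule LaurentPolynomial

namespace Pool.Agent.SPT.Rel

section
variable {V : Type} [AddCommGroup V] [Module (ZMod 2) V] [DecidableEq V]

/-- **The number of independent relations** -/
theorem rel_main5 (X : Finset V) (u : V → ℤ) (h : ¬ NZu X u)
    (hnz : ∀ J ⊆ X, (∀ v ∈ J, u v = 0) →
      span (ZMod 2) ((X \ J : Finset V) : Set V) = span (ZMod 2) (X : Set V))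
    (m : ℕ) (hm : m ≤ 5 ∨ Cut X (m - 1)) :
    ∃ d : Fin m → V → ℤ, (∀ i, IsRel X u (d i)) ∧ LinearIndependent ℤ d := by
  by_cases h5 : m ≤ 5
  · obtain ⟨d, hd, hLI⟩ := five_main X u h hnz
    exact ⟨fun i => d (Fin.castLE h5 i), fun i => hd _, hLI.comp _ (Fin.castLE_injective h5)⟩
  · obtain ⟨g, rfl⟩ : ∃ g, m = g + 1 := ⟨m - 1, by omega⟩
    rw [Nat.add_sub_cancel] at hm
    exact cut_more X u h g (by omega) (hm.resolve_left h5) hnz

end

/-- the conclusions for a relation `R` on the crossings and a state `σ`, with at least five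
relations -/
def Conclusion5 {n : ℕ} (R : Fin n → Fin n → Prop) (σ : Fin n → Bool) (N : ℕ) : Prop :=
  (∀ Y ⊆ rows R, span (ZMod 2) (Y : Set (Fin n → ZMod 2)) = span (ZMod 2) (rows R : Set _) →
    ∃ d, Small (rows R) (twist R σ) N d ∧ Odd (∑ v ∈ Y, d v)) ∧
  (∀ m : ℕ, Cut (rows R) m → ∃ d : Fin m → (Fin n → ZMod 2) → ℤ,
    (∀ i, Small (rows R) (twist R σ) N (d i)) ∧
      LinearIndependent (ZMod 2) (fun i v => ((d i v : ℤ) : ZMod 2))) ∧
  (span (ZMod 2) {v | v ∈ rows R ∧ (N : ℤ) ≤ |twist R σ v|} = span (ZMod 2) (rows R : Set _) →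
    ∀ m : ℕ, (m ≤ 5 ∨ Cut (rows R) (m - 1)) → ∃ d : Fin m → (Fin n → ZMod 2) → ℤ,
      (∀ i, Small (rows R) (twist R σ) N (d i)) ∧ LinearIndependent ℤ d)

theorem conclusion5_of_follows {n : ℕ} (R : Fin n → Fin n → Prop) (σ : Fin n → Bool)
    (u : (Fin n → ZMod 2) → ℤ) (C N : ℕ) (hF : Follows (rows R) (twist R σ) u C N)
    (h : ¬ NZu (rows R) u) : Conclusion5 R σ N := by
  classical
  obtain ⟨h1, h2, -⟩ := all_of_follows (rows R) (twist R σ) u C N hF h
  refine ⟨h1, h2, fun hlong m hm => ?_⟩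
  obtain ⟨d, hd, hLI⟩ := rel_main5 (rows R) u h (fun J hJ hJ0 => by
    refine le_antisymm (span_mono (Finset.coe_subset.2 Finset.sdiff_subset)) ?_
    rw [← hlong]
    refine span_mono fun v hv => ?_
    rw [Finset.mem_coe, Finset.mem_sdiff]
    refine ⟨hv.1, fun hvJ => ?_⟩
    refine (hF {v} (Finset.singleton_subset_iff.2 hv.1) ∅ (Finset.empty_subset _)).1 ?_ ?_
    · rw [Finset.sum_singleton, Finset.sum_empty, sub_zero]
      exact hv.2
    · rw [Finset.sum_singleton, Finset.sum_empty]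
      exact hJ0 v hvJ) m hm
  exact ⟨d, fun i => small_of_rel (rows R) (twist R σ) u C N hF _ (hd i), hLI⟩

/-- **knotoid diagrams**, explicit constant, at least five relations -/
theorem knotoidRel5 (k B n : ℕ) (D : Helper16.Knotoid.GaussDiagram n) (σ : Fin n → Bool)
    (hcd : ∃ c d, D.Cut σ c d) (hk : (rows (D.Cut σ)).card ≤ k)
    (hB : coeffSum D.normalizedBracket ≤ B) : Conclusion5 (D.Cut σ) σ (NX k 0 B) := by
  by_contra hno
  refine absurd (knotoidGX k 0 B n D σ ⟨hcd, hk, fun u hu => ?_⟩) (by omega)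
  by_contra hnot
  exact hno (conclusion5_of_follows _ σ u 0 _ hu hnot)

/-- **knot diagrams**, explicit constant, at least five relations -/
theorem knotRel5 (k B n : ℕ) (g : GaussJones.Code n) (e σ : Fin n → Bool)
    (hcd : ∃ c d, GaussJones.Cut g e σ c d) (hk : (rows (GaussJones.Cut g e σ)).card ≤ k)
    (hB : coeffSum (GaussJones.fPoly g e) ≤ B) :
    Conclusion5 (GaussJones.Cut g e σ) σ (NX k 0 B) := by
  by_contra hno
  refine absurd (knotGX k 0 B n g e σ ⟨hcd, hk, fun u hu => ?_⟩) (by omega)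
  by_contra hnot
  exact hno (conclusion5_of_follows _ σ u 0 _ hu hnot)

end Pool.Agent.SPT.Rel
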