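import Mathlib
import Pool.Agent.UNI.Cor

/-!
# SPT, module LinC: sums of determinants over the field with two elements
-/

set_option autoImplicit false
set_option linter.unusedSectionVars false

open Matrix Pool.Agent.UNI

namespace Pool.Agent.SPT.Lin

section

variable {E : Type} [Fintype E] [DecidableEq E]

theorem z2 (c : ZMod 2) : c = 0 ∨ c = 1 := by
  fin_cases c
  · exact Or.inl rfl
  · exact Or.inr rfl

theorem det_MW (M : Matrix E E (ZMod 2)) (W : Finset E) :
    (0 : ZMod 2) ^ Module.finrank (ZMod 2) (LinearMap.ker (MW M W).mulVecLin) =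
      (MW M W).det := by
  rw [zero_pow_eq]
  by_cases h : (MW M W).det = 0
  · rw [h, if_neg]
    rw [Submodule.finrank_eq_zero]
    intro hk
    obtain ⟨v, hv, hv1⟩ := Matrix.exists_mulVec_eq_zero_iff.2 h
    have h1 : v ∈ LinearMap.ker (MW M W).mulVecLin := by
      rw [LinearMap.mem_ker, Matrix.mulVecLin_apply, hv1]
    rw [hk, Submodule.mem_bot] at h1
    exact hv h1
  · rw [(z2 _).resolve_left h, if_pos]
    rw [Submodule.finrank_eq_zero, Submodule.eq_bot_iff]
    intro v hv
    by_contra hv0
    apply h
    rw [LinearMap.mem_ker, Matrix.mulVecLin_apply] at hv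
    exact Matrix.exists_mulVec_eq_zero_iff.1 ⟨v, hv0, hv⟩

theorem sign_z2 (π : Equiv.Perm E) : (((Equiv.Perm.sign π : ℤˣ) : ℤ) : ZMod 2) = 1 := by
  rcases Int.units_eq_one_or (Equiv.Perm.sign π) with h | h <;> rw [h] <;> decide

/-- the columns in `J` of `M`, the other columns of the identity -/
def NJ (M : Matrix E E (ZMod 2)) (J : Finset E) (i j : E) : ZMod 2 :=
  if j ∈ J then M i j else if i = j then 1 else 0

private theorem LinC_perm (M : Matrix E E (ZMod 2)) (J : Finset E) (π : Equiv.Perm E) :
    ∑ W ∈ (Finset.univ : Finset E).powerset.filter (fun W => J ⊆ W),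
      ∏ i, (MW M W) (π i) i = ∏ i, NJ M J (π i) i := by
  obtain ⟨a, ha⟩ : ∃ a : E → ZMod 2, a = fun i => M (π i) i := ⟨_, rfl⟩
  obtain ⟨b, hb⟩ : ∃ b : E → ZMod 2, b = fun i => if i ∈ J then 0 else
    M (π i) i + if π i = i then 1 else 0 := ⟨_, rfl⟩
  have h1 : ∀ i, NJ M J (π i) i = a i + b i := by
    intro i
    rw [ha, hb]
    unfold NJ
    by_cases hi : i ∈ J
    · simp only [if_pos hi, add_zero]
    · simp only [if_neg hi]
      rw [← add_assoc, CharTwo.add_self_eq_zero, zero_add]
  rw [Finset.prod_congr rfl fun i _ => h1 i, Finset.prod_add]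
  rw [Finset.sum_filter]
  refine Finset.sum_congr rfl fun W _ => ?_
  by_cases hJ : J ⊆ W
  · rw [if_pos hJ]
    have h2 : ∀ i, (MW M W) (π i) i = if i ∈ W then a i else b i := by
      intro i
      unfold MW
      rw [Matrix.add_apply, Matrix.diagonal_apply, ha, hb]
      by_cases hiW : i ∈ W
      · simp only [if_pos hiW]
        by_cases hπ : π i = i
        · rw [if_pos hπ, hπ, if_pos hiW, add_zero]
        · rw [if_neg hπ, add_zero]
      · simp only [if_neg hiW]
        rw [if_neg fun h => hiW (hJ h)]
        by_cases hπ : π i = i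
        · rw [if_pos hπ, if_pos hπ, hπ, if_neg hiW]
        · rw [if_neg hπ, if_neg hπ]
    rw [Finset.prod_congr rfl fun i _ => h2 i, Finset.prod_ite]
    congr 1
    · refine Finset.prod_congr ?_ fun _ _ => rfl
      ext i
      simp
    · refine Finset.prod_congr ?_ fun _ _ => rfl
      ext i
      simp
  · rw [if_neg hJ]
    rw [Finset.not_subset] at hJ
    obtain ⟨i, hi, hiW⟩ := hJ
    symm
    apply mul_eq_zero_of_right
    refine Finset.prod_eq_zero (Finset.mem_sdiff.2 ⟨Finset.mem_univ i, hiW⟩) ?_
    rw [hb]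
    simp only [if_pos hi]

/-- **The sum of the determinants** -/
theorem sum_det (M : Matrix E E (ZMod 2)) (J : Finset E) :
    ∑ W ∈ (Finset.univ : Finset E).powerset.filter (fun W => J ⊆ W), (MW M W).det =
      ∑ π : Equiv.Perm E, ∏ i, NJ M J (π i) i := by
  have h1 : ∀ W, (MW M W).det = ∑ π : Equiv.Perm E, ∏ i, (MW M W) (π i) i := by
    intro W
    rw [Matrix.det_apply']
    refine Finset.sum_congr rfl fun π _ => ?_
    rw [sign_z2, one_mul]
  rw [Finset.sum_congr rfl fun W _ => h1 W, Finset.sum_comm]
  exact Finset.sum_congr rfl fun π _ => LinC_perm M J π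

private theorem LinC_zero (M : Matrix E E (ZMod 2)) (J : Finset E) (π : Equiv.Perm E) (i : E)
    (hi : i ∉ J) (hπ : π i ≠ i) : ∏ i, NJ M J (π i) i = 0 := by
  refine Finset.prod_eq_zero (Finset.mem_univ i) ?_
  unfold NJ
  rw [if_neg hi, if_neg hπ]

private theorem LinC_fix (M : Matrix E E (ZMod 2)) (J : Finset E) (π : Equiv.Perm E)
    (hπ : ∀ i ∉ J, π i = i) : ∏ i, NJ M J (π i) i = ∏ i ∈ J, M (π i) i := by
  rw [← Finset.prod_subset (Finset.subset_univ J)]
  · refine Finset.prod_congr rfl fun i hi => ?_
    unfold NJ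
    rw [if_pos hi]
  · intro i _ hi
    unfold NJ
    rw [if_neg hi, if_pos (hπ i hi)]

/-- one crossing -/
theorem sum_det_one (M : Matrix E E (ZMod 2)) (c : E) :
    ∑ W ∈ (Finset.univ : Finset E).powerset.filter (fun W => {c} ⊆ W), (MW M W).det = M c c := by
  rw [sum_det, Finset.sum_eq_single (1 : Equiv.Perm E)]
  · rw [LinC_fix M {c} 1 fun i _ => rfl, Finset.prod_singleton]
    rfl
  · intro π _ hπ
    by_contra h
    apply hπ
    have h1 : ∀ i, i ≠ c → π i = i := by
      intro i hi
      by_contra h2
      exact h (LinC_zero M {c} π i (by rwa [Finset.mem_singleton]) h2)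
    ext i
    by_cases hi : i = c
    · rw [hi]
      by_contra h2
      have h3 : π c ≠ c := h2
      have h4 := h1 (π c) h3
      exact h3 (π.injective h4)
    · exact h1 i hi
  · intro h
    exact absurd (Finset.mem_univ _) h

/-- two crossings -/
theorem sum_det_two (M : Matrix E E (ZMod 2)) (c c' : E) (hcc : c ≠ c') :
    ∑ W ∈ (Finset.univ : Finset E).powerset.filter (fun W => {c, c'} ⊆ W), (MW M W).det =
      M c c * M c' c' + M c' c * M c c' := by
  have hne : (1 : Equiv.Perm E) ≠ Equiv.swap c c' := by
    intro h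
    have h1 : (1 : Equiv.Perm E) c = Equiv.swap c c' c := by rw [← h]
    rw [Equiv.swap_apply_left] at h1
    exact hcc h1
  rw [sum_det, ← Finset.sum_subset (Finset.subset_univ {1, Equiv.swap c c'}),
    Finset.sum_pair hne]
  · rw [LinC_fix M {c, c'} 1 fun i _ => rfl, LinC_fix M {c, c'} (Equiv.swap c c') fun i hi => by
      rw [Finset.mem_insert, Finset.mem_singleton, not_or] at hi
      exact Equiv.swap_apply_of_ne_of_ne hi.1 hi.2, Finset.prod_pair hcc, Finset.prod_pair hcc,
      Equiv.swap_apply_left, Equiv.swap_apply_right]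
    rfl
  · intro π _ hπ
    by_contra h
    rw [Finset.mem_insert, Finset.mem_singleton, not_or] at hπ
    have h1 : ∀ i, i ≠ c → i ≠ c' → π i = i := by
      intro i hi hi'
      by_contra h2
      refine h (LinC_zero M {c, c'} π i ?_ h2)
      rw [Finset.mem_insert, Finset.mem_singleton, not_or]
      exact ⟨hi, hi'⟩
    have hin : ∀ i, (i = c ∨ i = c') → (π i = c ∨ π i = c') := by
      intro i hi
      by_contra h2
      rw [not_or] at h2
      have h3 := h1 (π i) h2.1 h2.2
      have h4 := π.injective h3
      rw [h4] at h2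
      rcases hi with rfl | rfl
      · exact h2.1 rfl
      · exact h2.2 rfl
    rcases hin c (Or.inl rfl) with h2 | h2
    · have h3 : π c' = c' := by
        rcases hin c' (Or.inr rfl) with h4 | h4
        · exact absurd (π.injective (h4.trans h2.symm)) (Ne.symm hcc)
        · exact h4
      apply hπ.1
      ext i
      by_cases hi : i = c
      · rw [hi]
        exact h2
      · by_cases hi' : i = c'
        · rw [hi']
          exact h3
        · exact h1 i hi hi'
    · have h3 : π c' = c := by
        rcases hin c' (Or.inr rfl) with h4 | h4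
        · exact h4
        · exact absurd (π.injective (h4.trans h2.symm)) (Ne.symm hcc)
      apply hπ.2
      ext i
      by_cases hi : i = c
      · rw [hi, Equiv.swap_apply_left]
        exact h2
      · by_cases hi' : i = c'
        · rw [hi', Equiv.swap_apply_right]
          exact h3
        · rw [Equiv.swap_apply_of_ne_of_ne hi hi']
          exact h1 i hi hi'

end

end Pool.Agent.SPT.Lin
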