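import Mathlib

/-!
# SPT, module LinA: merging, expansion and partial sums over a commutative ring
-/

set_option autoImplicit false
set_option linter.unusedSectionVars false

namespace Pool.Agent.SPT.Lin

section

variable {R : Type} [CommRing R] {E κ : Type} [DecidableEq E] [DecidableEq κ]

/-- the product of the weights over a class -/
def pw (cls : E → κ) (y : E → R) (s : Finset E) (k : κ) : R :=
  ∏ c ∈ s.filter (fun c => cls c = k), y c

private theorem LinA_ne (cls : E → κ) (w : E → R)
    (s : Finset E) (a : E) (k : κ) (hk : k ≠ cls a) :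
    pw cls w (insert a s) k = pw cls w s k := by
  unfold pw
  rw [Finset.filter_insert, if_neg fun h => hk h.symm]

private theorem LinA_eq (cls : E → κ) (w : E → R)
    (s : Finset E) (a : E) (ha : a ∉ s) :
    pw cls w (insert a s) (cls a) = w a * pw cls w s (cls a) := by
  unfold pw
  rw [Finset.filter_insert, if_pos rfl, Finset.prod_insert fun h => ha (Finset.mem_filter.1 h).1]

private theorem LinA_prod (cls : E → κ) (w : E → R)
    (s : Finset E) (a : E) (U : Finset κ) (hU : cls a ∉ U) :
    ∏ k ∈ U, (pw cls w (insert a s) k - 1) = ∏ k ∈ U, (pw cls w s k - 1) :=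
  Finset.prod_congr rfl fun k hk => by rw [LinA_ne cls w s a k fun h => hU (h ▸ hk)]

/-- merging of the classes -/
theorem merge (cls : E → κ) (w : E → R)
    (s : Finset E) : ∀ f : Finset κ → R,
      ∑ W ∈ s.powerset, (∏ c ∈ W, (w c - 1)) * f (W.image cls) =
        ∑ U ∈ (s.image cls).powerset, (∏ k ∈ U, (pw cls w s k - 1)) * f U := by
  induction s using Finset.induction_on with
  | empty =>
    intro f
    simp
  | insert a s ha ih =>
    intro f
    rw [Finset.sum_powerset_insert ha]
    have h1 : ∑ W ∈ s.powerset, (∏ c ∈ insert a W, (w c - 1)) * f ((insert a W).image cls) =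
        (w a - 1) * ∑ W ∈ s.powerset, (∏ c ∈ W, (w c - 1)) *
          (fun V => f (insert (cls a) V)) (W.image cls) := by
      rw [Finset.mul_sum]
      refine Finset.sum_congr rfl fun W hW => ?_
      rw [Finset.prod_insert fun h => ha (Finset.mem_powerset.1 hW h), Finset.image_insert,
        mul_assoc]
    rw [h1, ih f, ih fun V => f (insert (cls a) V), Finset.image_insert]
    by_cases hk : cls a ∈ s.image cls
    · rw [Finset.insert_eq_of_mem hk]
      obtain ⟨R, hR, hR'⟩ : ∃ R, cls a ∉ R ∧ s.image cls = insert (cls a) R :=
        ⟨(s.image cls).erase (cls a), Finset.notMem_erase _ _, (Finset.insert_erase hk).symm⟩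
      rw [hR', Finset.sum_powerset_insert hR, Finset.sum_powerset_insert hR,
        Finset.sum_powerset_insert hR, mul_add, Finset.mul_sum, Finset.mul_sum,
        ← Finset.sum_add_distrib, ← Finset.sum_add_distrib, ← Finset.sum_add_distrib,
        ← Finset.sum_add_distrib]
      refine Finset.sum_congr rfl fun U hU => ?_
      have hU' : cls a ∉ U := fun h => hR (Finset.mem_powerset.1 hU h)
      rw [Finset.prod_insert hU', Finset.prod_insert hU', LinA_prod cls w s a U hU',
        LinA_eq cls w s a ha, Finset.insert_idem]
      ring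
    · rw [Finset.sum_powerset_insert hk, Finset.mul_sum, ← Finset.sum_add_distrib,
        ← Finset.sum_add_distrib]
      refine Finset.sum_congr rfl fun U hU => ?_
      have hU' : cls a ∉ U := fun h => hk (Finset.mem_powerset.1 hU h)
      have h2 : pw cls w s (cls a) = 1 := by
        unfold pw
        rw [Finset.filter_eq_empty_iff.2 fun c hc h => hk (Finset.mem_image.2 ⟨c, hc, h⟩),
          Finset.prod_empty]
      rw [Finset.prod_insert hU', LinA_prod cls w s a U hU', LinA_eq cls w s a ha, h2]
      ring

/-- the coefficients of the expansion at zero -/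
def KK (X : Finset κ) (φ : Finset κ → R) (F : Finset κ) : R :=
  ∑ U ∈ X.powerset.filter (fun U => F ⊆ U), (-1) ^ (U \ F).card * φ U

/-- expansion at zero -/
theorem expand (X : Finset κ) (x : κ → R) (φ : Finset κ → R) :
    ∑ U ∈ X.powerset, (∏ k ∈ U, (x k - 1)) * φ U =
      ∑ F ∈ X.powerset, (∏ k ∈ F, x k) * KK X φ F := by
  have h1 : ∀ U : Finset κ, ∏ k ∈ U, (x k - 1) =
      ∑ F ∈ U.powerset, (∏ k ∈ F, x k) * (-1) ^ (U \ F).card := by
    intro U
    have h2 : ∀ k, x k - 1 = x k + (-1) := fun k => sub_eq_add_neg _ _
    rw [Finset.prod_congr rfl fun k _ => h2 k, Finset.prod_add]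
    refine Finset.sum_congr rfl fun F _ => ?_
    rw [Finset.prod_const]
  have h2 : ∀ F ∈ X.powerset, (∏ k ∈ F, x k) * KK X φ F =
      ∑ U ∈ X.powerset.filter (fun U => F ⊆ U), (∏ k ∈ F, x k) * (-1) ^ (U \ F).card * φ U := by
    intro F _
    unfold KK
    rw [Finset.mul_sum]
    refine Finset.sum_congr rfl fun U _ => ?_
    ring
  rw [Finset.sum_congr rfl h2, Finset.sum_congr rfl fun U _ => by rw [h1 U, Finset.sum_mul]]
  refine Finset.sum_comm' fun U F => ?_
  rw [Finset.mem_powerset, Finset.mem_powerset, Finset.mem_filter, Finset.mem_powerset,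
    Finset.mem_powerset]
  exact ⟨fun h => ⟨⟨h.1, h.2⟩, h.2.trans h.1⟩, fun h => ⟨h.1.1, h.1.2⟩⟩

/-- the terms of the expansion -/
def GG (cls : E → κ) (y : E → R) (s : Finset E) (φ : Finset κ → R) (F : Finset κ) : R :=
  (∏ k ∈ F, pw cls y s k) * KK (s.image cls) φ F

theorem sum_GG (cls : E → κ) (y : E → R) (s : Finset E) (φ : Finset κ → R) :
    ∑ W ∈ s.powerset, (∏ c ∈ W, (y c - 1)) * φ (W.image cls) =
      ∑ F ∈ (s.image cls).powerset, GG cls y s φ F := by
  rw [merge, expand]
  rfl

/-- the partial sums at the level of the crossings -/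
def HH (cls : E → κ) (y : E → R) (s : Finset E) (φ : Finset κ → R) (J : Finset E) : R :=
  ∑ W ∈ s.powerset.filter (fun W => J ⊆ W),
    (∏ c ∈ J, y c) * (∏ c ∈ W \ J, (y c - 1)) * φ (W.image cls)

/-- the weight of one crossing set to zero -/
theorem GG_zero (cls : E → κ) (y : E → R) (s : Finset E) (φ : Finset κ → R) (F : Finset κ)
    (c : E) (hc : c ∈ s) : GG cls y s φ F - GG cls (Function.update y c 0) s φ F =
      if cls c ∈ F then GG cls y s φ F else 0 := by
  unfold GG
  by_cases h : cls c ∈ F
  · rw [if_pos h]
    have h1 : ∏ k ∈ F, pw cls (Function.update y c 0) s k = 0 := by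
      refine Finset.prod_eq_zero h ?_
      unfold pw
      refine Finset.prod_eq_zero (Finset.mem_filter.2 ⟨hc, rfl⟩) ?_
      rw [Function.update_self]
    rw [h1, zero_mul, sub_zero]
  · rw [if_neg h]
    have h1 : ∏ k ∈ F, pw cls (Function.update y c 0) s k = ∏ k ∈ F, pw cls y s k := by
      refine Finset.prod_congr rfl fun k hk => ?_
      unfold pw
      refine Finset.prod_congr rfl fun c' hc' => ?_
      rw [Function.update_of_ne]
      rintro rfl
      rw [Finset.mem_filter] at hc'
      exact h (hc'.2 ▸ hk)
    rw [h1, sub_self]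

/-- **Partial sums** -/
theorem sum_HH (cls : E → κ) (s : Finset E) (φ : Finset κ → R) (J : Finset E) (hJ : J ⊆ s)
    (hinj : Set.InjOn cls (J : Set E)) : ∀ y : E → R,
    ∑ F ∈ (s.image cls).powerset.filter (fun F => J.image cls ⊆ F), GG cls y s φ F =
      HH cls y s φ J := by
  induction J using Finset.induction_on with
  | empty =>
    intro y
    unfold HH
    have h1 : (s.image cls).powerset.filter (fun F => (∅ : Finset E).image cls ⊆ F) =
        (s.image cls).powerset := by
      rw [Finset.filter_true_of_mem]
      intro F _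
      rw [Finset.image_empty]
      exact Finset.empty_subset F
    have h2 : s.powerset.filter (fun W => (∅ : Finset E) ⊆ W) = s.powerset := by
      rw [Finset.filter_true_of_mem]
      intro F _
      exact Finset.empty_subset F
    rw [h1, h2, ← sum_GG]
    refine Finset.sum_congr rfl fun W _ => ?_
    rw [Finset.prod_empty, one_mul, Finset.sdiff_empty]
  | insert c J hc ih =>
    intro y
    have hcs : c ∈ s := hJ (Finset.mem_insert_self c J)
    have hJs : J ⊆ s := (Finset.subset_insert c J).trans hJ
    have hiJ : Set.InjOn cls (J : Set E) := hinj.mono (by simp)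
    have hcJ : cls c ∉ J.image cls := by
      intro h
      obtain ⟨c', hc', he⟩ := Finset.mem_image.1 h
      have h1 := hinj (Finset.mem_coe.2 (Finset.mem_insert_of_mem hc'))
        (Finset.mem_coe.2 (Finset.mem_insert_self c J)) he
      exact hc (h1 ▸ hc')
    have h1 := ih hJs hiJ y
    have h2 := ih hJs hiJ (Function.update y c 0)
    have h3 : ∑ F ∈ (s.image cls).powerset.filter (fun F => (insert c J).image cls ⊆ F),
        GG cls y s φ F = HH cls y s φ J - HH cls (Function.update y c 0) s φ J := by
      rw [← h1, ← h2, ← Finset.sum_sub_distrib,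
        Finset.sum_congr rfl fun F _ => GG_zero cls y s φ F c hcs, ← Finset.sum_filter,
        Finset.filter_filter]
      refine Finset.sum_congr ?_ fun _ _ => rfl
      ext F
      rw [Finset.mem_filter, Finset.mem_filter, Finset.image_insert, Finset.insert_subset_iff]
      tauto
    rw [h3]
    unfold HH
    rw [← Finset.sum_sub_distrib]
    have h4 : ∀ W ∈ s.powerset.filter (fun W => J ⊆ W),
        (∏ c ∈ J, y c) * (∏ c ∈ W \ J, (y c - 1)) * φ (W.image cls) -
          (∏ c' ∈ J, Function.update y c 0 c') * (∏ c' ∈ W \ J, (Function.update y c 0 c' - 1)) *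
            φ (W.image cls) =
        if c ∈ W then (∏ c' ∈ insert c J, y c') * (∏ c' ∈ W \ insert c J, (y c' - 1)) *
          φ (W.image cls) else 0 := by
      intro W hW
      have h5 : ∏ c' ∈ J, Function.update y c 0 c' = ∏ c' ∈ J, y c' := by
        refine Finset.prod_congr rfl fun c' hc' => ?_
        rw [Function.update_of_ne]
        rintro rfl
        exact hc hc'
      rw [h5]
      by_cases hcW : c ∈ W
      · rw [if_pos hcW]
        have h6 : W \ J = insert c (W \ insert c J) := by
          ext a
          rw [Finset.mem_insert, Finset.mem_sdiff, Finset.mem_sdiff, Finset.mem_insert, not_or]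
          constructor
          · intro h
            by_cases hac : a = c
            · exact Or.inl hac
            · exact Or.inr ⟨h.1, hac, h.2⟩
          · rintro (rfl | h)
            · exact ⟨hcW, hc⟩
            · exact ⟨h.1, h.2.2⟩
        have h7 : c ∉ W \ insert c J := by
          rw [Finset.mem_sdiff, not_and, not_not]
          exact fun _ => Finset.mem_insert_self c J
        have h8 : ∏ c' ∈ W \ insert c J, (Function.update y c 0 c' - 1) =
            ∏ c' ∈ W \ insert c J, (y c' - 1) := by
          refine Finset.prod_congr rfl fun c' hc' => ?_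
          rw [Function.update_of_ne]
          rintro rfl
          exact h7 hc'
        rw [h6, Finset.prod_insert h7, Finset.prod_insert h7, Finset.prod_insert hc, h8,
          Function.update_self]
        ring
      · rw [if_neg hcW]
        have h8 : ∏ c' ∈ W \ J, (Function.update y c 0 c' - 1) =
            ∏ c' ∈ W \ J, (y c' - 1) := by
          refine Finset.prod_congr rfl fun c' hc' => ?_
          rw [Function.update_of_ne]
          rintro rfl
          exact hcW (Finset.mem_sdiff.1 hc').1
        rw [h8, sub_self]
    rw [Finset.sum_congr rfl h4, ← Finset.sum_filter, Finset.filter_filter]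
    refine Finset.sum_congr ?_ fun _ _ => rfl
    ext W
    rw [Finset.mem_filter, Finset.mem_filter, Finset.insert_subset_iff]
    tauto

end

end Pool.Agent.SPT.Lin
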