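import Mathlib
import Pool.Agent.SPT.LinA
import Pool.Agent.UNI.Abs

/-!
# SPT, module LinD: the state sum in the Laurent polynomials
-/

set_option autoImplicit false
set_option linter.unusedSectionVars false

open Module Matrix Submodule Pool.Agent.UNI LaurentPolynomial

namespace Pool.Agent.SPT.Lin

/-! ### the exponents -/

section

variable {E : Type} [Fintype E] [DecidableEq E]

open Classical in
/-- the functional of a row -/
noncomputable def psi (M : Matrix E E (ZMod 2)) (v : E → ZMod 2) : Dual (ZMod 2) (Im M) :=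
  if h : ∃ c, M c = v then co M h.choose else 0

theorem psi_row (M : Matrix E E (ZMod 2)) (c : E) : psi M (M c) = co M c := by
  unfold psi
  have h : ∃ c', M c' = M c := ⟨c, rfl⟩
  rw [dif_pos h]
  exact (co_eq_iff _ _).2 h.choose_spec

open Classical in
theorem image_psi (M : Matrix E E (ZMod 2)) (W : Finset E) :
    (W.image M).image (psi M) = W.image (co M) := by
  ext u
  simp only [Finset.mem_image]
  constructor
  · rintro ⟨_, ⟨c, hc, rfl⟩, rfl⟩
    exact ⟨c, hc, (psi_row M c).symm⟩
  · rintro ⟨c, hc, rfl⟩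
    exact ⟨_, ⟨c, hc, rfl⟩, psi_row M c⟩

open Classical in
/-- the exponent -/
noncomputable def ex (M : Matrix E E (ZMod 2)) (U : Finset (E → ZMod 2)) : ℕ :=
  finrank (ZMod 2) (ck (U.image (psi M))) +
    finrank (ZMod 2) (rad (fo M) (ck (U.image (psi M))))

theorem ex_le (M : Matrix E E (ZMod 2)) (U : Finset (E → ZMod 2)) : ex M U ≤ 2 * M.rank := by
  classical
  have h0 : finrank (ZMod 2) (Im M) = M.rank := rfl
  have h1 := Submodule.finrank_le (ck (U.image (psi M)))
  have h2 := Submodule.finrank_le (rad (fo M) (ck (U.image (psi M))))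
  unfold ex
  omega

theorem ex_zero (M : Matrix E E (ZMod 2))
    (U : Finset (E → ZMod 2)) : ex M (insert 0 U) = ex M U := by
  classical
  have h1 : psi M 0 = 0 := by
    unfold psi
    split_ifs with h
    · have h2 := h.choose_spec
      ext y
      rw [LinearMap.zero_apply, co_apply]
      obtain ⟨x, hx⟩ := y.2
      have hx' : M *ᵥ x = y := hx
      rw [← hx']
      change M h.choose ⬝ᵥ x = 0
      rw [h2, zero_dotProduct]
    · rfl
  have h2 : ck ((insert 0 U).image (psi M)) = ck (U.image (psi M)) := by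
    rw [Finset.image_insert, h1]
    ext y
    constructor
    · intro h u hu
      exact h u (Finset.mem_insert_of_mem hu)
    · intro h u hu
      rw [Finset.mem_insert] at hu
      rcases hu with rfl | hu
      · exact LinearMap.zero_apply y
      · exact h u hu
  unfold ex
  rw [h2]

/-- the corank -/
noncomputable def kap (M : Matrix E E (ZMod 2)) (W : Finset E) : ℕ :=
  finrank (ZMod 2) (LinearMap.ker (MW M W).mulVecLin)

theorem kap_ex (M : Matrix E E (ZMod 2)) (hM : ∀ i j, M i j = M j i) (W : Finset E) :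
    kap M W + M.rank = W.card + ex M (W.image M) := by
  classical
  have h4 := finrank_ker_MW hM W
  have h5 : finrank (ZMod 2) (Im M) = M.rank := rfl
  rw [← image_psi M W, add_assoc, h5] at h4
  unfold kap ex
  exact h4

end

/-! ### the weights -/

section

variable {K : Type} [CommRing K]

/-- `-A ^ 2 - A ^ (-2)` -/
noncomputable def dl (K : Type) [CommRing K] : K[T;T⁻¹] := -T 2 - T (-2)

/-- `A` or its inverse -/
noncomputable def al (K : Type) [CommRing K] (b : Bool) : K[T;T⁻¹] := if b then T 1 else T (-1)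

/-- `-A ^ 4` or its inverse -/
noncomputable def qu (K : Type) [CommRing K] (b : Bool) : K[T;T⁻¹] :=
  if b then -T 4 else -T (-4)

theorem qu_sub (b : Bool) : qu K b - 1 = al K b ^ 2 * dl K := by
  unfold qu al dl
  cases b
  · simp only [Bool.false_eq_true, if_false]
    rw [T_pow, mul_sub, mul_neg, ← T_add, ← T_add]
    norm_num
    ring
  · simp only [if_true]
    rw [T_pow, mul_sub, mul_neg, ← T_add, ← T_add]
    norm_num

theorem al_not (b : Bool) : al K b = al K (!b) * al K b ^ 2 := by
  unfold al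
  cases b
  · simp only [Bool.false_eq_true, if_false, Bool.not_false, if_true]
    rw [T_pow, ← T_add]
    norm_num
  · simp only [if_true, Bool.not_true, Bool.false_eq_true, if_false]
    rw [T_pow, ← T_add]
    norm_num

variable {E : Type} [Fintype E] [DecidableEq E]

theorem sum_st' {R : Type} [CommRing R] (σ : E → Bool) (f : (E → Bool) → R) :
    ∑ s : E → Bool, f s = ∑ W ∈ (Finset.univ : Finset E).powerset, f (st σ W) := by
  refine Finset.sum_bij' (fun s _ => Finset.univ.filter fun c => s c = σ c)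
    (fun W _ => st σ W) (fun s _ => Finset.mem_powerset.2 (Finset.subset_univ _))
    (fun W _ => Finset.mem_univ _) (fun s _ => st_filter σ s) ?_ ?_
  · intro W _
    ext c
    rw [Finset.mem_filter, st_iff]
    exact ⟨fun h => h.2, fun h => ⟨Finset.mem_univ c, h⟩⟩
  · intro s _
    rw [st_filter]

/-- the factor -/
noncomputable def PF (K : Type) [CommRing K] (σ : E → Bool) : K[T;T⁻¹] := ∏ c, al K (!σ c)

/-- the state sum -/
noncomputable def SS (K : Type) [CommRing K] (M : Matrix E E (ZMod 2)) (σ : E → Bool) : K[T;T⁻¹] :=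
  ∑ s : E → Bool, (∏ c, al K (s c)) *
    dl K ^ finrank (ZMod 2) (LinearMap.ker (SM M σ s).mulVecLin)

/-- the weight of a set of classes -/
noncomputable def ph (K : Type) [CommRing K] (M : Matrix E E (ZMod 2))
    (U : Finset (E → ZMod 2)) : K[T;T⁻¹] := dl K ^ ex M U

private theorem LinD_prod (σ : E → Bool) (W : Finset E) :
    ∏ c, al K (st σ W c) = PF K σ * ∏ c ∈ W, al K (σ c) ^ 2 := by
  have h6 : ∀ c, al K (st σ W c) = al K (!σ c) * (if c ∈ W then al K (σ c) ^ 2 else 1) := by
    intro c
    unfold st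
    by_cases hc : c ∈ W
    · rw [if_pos hc, if_pos hc]
      exact al_not (σ c)
    · rw [if_neg hc, if_neg hc, mul_one]
  unfold PF
  rw [Finset.prod_congr rfl fun c _ => h6 c, Finset.prod_mul_distrib,
    Finset.prod_ite_mem, Finset.univ_inter]

/-- **The state sum in terms of the classes** -/
theorem SS_eq (M : Matrix E E (ZMod 2)) (hM : ∀ i j, M i j = M j i) (σ : E → Bool) :
    dl K ^ M.rank * SS K M σ = PF K σ * ∑ F ∈ (Finset.univ.image M).powerset,
      GG M (fun c => qu K (σ c)) Finset.univ (ph K M) F := by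
  rw [← sum_GG, Finset.mul_sum]
  unfold SS
  rw [sum_st' σ, Finset.mul_sum]
  refine Finset.sum_congr rfl fun W _ => ?_
  rw [SM_st, LinD_prod]
  have h1 : ∏ c ∈ W, (qu K (σ c) - 1) = (∏ c ∈ W, al K (σ c) ^ 2) * dl K ^ W.card := by
    rw [Finset.prod_congr rfl fun c _ => qu_sub (σ c), Finset.prod_mul_distrib,
      Finset.prod_const]
  rw [h1]
  unfold ph
  have h2 : dl K ^ M.rank * dl K ^ finrank (ZMod 2) (LinearMap.ker (MW M W).mulVecLin) =
      dl K ^ W.card * dl K ^ ex M (W.image M) := by
    rw [← pow_add, ← pow_add, ← kap_ex M hM W, add_comm]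
    rfl
  calc dl K ^ M.rank * (PF K σ * (∏ c ∈ W, al K (σ c) ^ 2) *
        dl K ^ finrank (ZMod 2) (LinearMap.ker (MW M W).mulVecLin))
      = PF K σ * (∏ c ∈ W, al K (σ c) ^ 2) * (dl K ^ M.rank *
        dl K ^ finrank (ZMod 2) (LinearMap.ker (MW M W).mulVecLin)) := by ring
    _ = _ := by
      rw [h2]
      ring

/-- the reduced partial sums -/
noncomputable def gg (K : Type) [CommRing K] (M : Matrix E E (ZMod 2)) (σ : E → Bool)
    (J : Finset E) : K[T;T⁻¹] :=
  ∑ W ∈ (Finset.univ : Finset E).powerset.filter (fun W => J ⊆ W),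
    (∏ c ∈ J, qu K (σ c)) * (∏ c ∈ W \ J, al K (σ c) ^ 2) * dl K ^ kap M W

theorem HH_eq (M : Matrix E E (ZMod 2)) (hM : ∀ i j, M i j = M j i) (σ : E → Bool)
    (J : Finset E) : dl K ^ J.card * HH M (fun c => qu K (σ c)) Finset.univ (ph K M) J =
      dl K ^ M.rank * gg K M σ J := by
  unfold HH gg
  rw [Finset.mul_sum, Finset.mul_sum]
  refine Finset.sum_congr rfl fun W hW => ?_
  have hJW : J ⊆ W := (Finset.mem_filter.1 hW).2
  have h1 : ∏ c ∈ W \ J, (qu K (σ c) - 1) =
      (∏ c ∈ W \ J, al K (σ c) ^ 2) * dl K ^ (W \ J).card := by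
    rw [Finset.prod_congr rfl fun c _ => qu_sub (σ c), Finset.prod_mul_distrib,
      Finset.prod_const]
  rw [h1]
  unfold ph
  have h2 : dl K ^ J.card * (dl K ^ (W \ J).card * dl K ^ ex M (W.image M)) =
      dl K ^ M.rank * dl K ^ kap M W := by
    rw [← pow_add, ← pow_add, ← pow_add, add_comm M.rank, kap_ex M hM W]
    congr 1
    have h3 := Finset.card_sdiff_add_card_eq_card hJW
    omega
  calc dl K ^ J.card * ((∏ c ∈ J, qu K (σ c)) * ((∏ c ∈ W \ J, al K (σ c) ^ 2) *
        dl K ^ (W \ J).card) * dl K ^ ex M (W.image M))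
      = (∏ c ∈ J, qu K (σ c)) * (∏ c ∈ W \ J, al K (σ c) ^ 2) * (dl K ^ J.card *
        (dl K ^ (W \ J).card * dl K ^ ex M (W.image M))) := by ring
    _ = _ := by
      rw [h2]
      ring

/-- the terms without the loop vanish -/
theorem KK_loop (M : Matrix E E (ZMod 2))
    (X F : Finset (E → ZMod 2)) (h0 : (0 : E → ZMod 2) ∈ X) (hF : (0 : E → ZMod 2) ∉ F) :
    KK X (ph K M) F = 0 := by
  obtain ⟨Y, hY, hXY⟩ : ∃ Y : Finset (E → ZMod 2), (0 : E → ZMod 2) ∉ Y ∧ X = insert 0 Y :=
    ⟨X.erase 0, Finset.notMem_erase _ _, (Finset.insert_erase h0).symm⟩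
  unfold KK
  rw [Finset.sum_filter, hXY, Finset.sum_powerset_insert hY, ← Finset.sum_add_distrib]
  refine Finset.sum_eq_zero fun U hU => ?_
  have hU0 : (0 : E → ZMod 2) ∉ U := fun h => hY (Finset.mem_powerset.1 hU h)
  have h1 : F ⊆ insert 0 U ↔ F ⊆ U := by
    constructor
    · intro h v hv
      rcases Finset.mem_insert.1 (h hv) with rfl | h2
      · exact absurd hv hF
      · exact h2
    · exact fun h => h.trans (Finset.subset_insert _ _)
  by_cases h2 : F ⊆ U
  · rw [if_pos h2, if_pos (h1.2 h2)]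
    have h3 : (insert 0 U \ F).card = (U \ F).card + 1 := by
      rw [Finset.insert_sdiff_of_notMem _ hF, Finset.card_insert_of_notMem]
      exact fun h => hU0 (Finset.mem_sdiff.1 h).1
    unfold ph
    rw [h3, ex_zero M, pow_succ]
    ring
  · rw [if_neg h2, if_neg fun h => h2 (h1.1 h), add_zero]

end

end Pool.Agent.SPT.Lin
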