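import Mathlib
import Pool.Agent.SPT.LinB
import Pool.Agent.SPT.LinC
import Pool.Agent.SPT.LinD
import Pool.Agent.SPT.RelF

/-!
# SPT, module LinE: the annihilator of the short vectors is totally isotropic
-/

set_option autoImplicit false
set_option linter.unusedSectionVars false

open Module Matrix Submodule Pool.Agent.UNI LaurentPolynomial

namespace Pool.Agent.SPT.Lin

/-! ### the value at one -/

/-- the value at one -/
noncomputable def ev1 : (ZMod 2)[T;T⁻¹] →+* ZMod 2 :=
  LaurentPolynomial.eval₂ (RingHom.id (ZMod 2)) 1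

theorem ev1_T (n : ℤ) : ev1 (T n) = 1 := by
  unfold ev1
  rw [eval₂_T, _root_.one_zpow, Units.val_one]

theorem ev1_C (a : ZMod 2) : ev1 (C a) = a := by
  unfold ev1
  rw [eval₂_C]
  rfl

theorem ev1_dl : ev1 (dl (ZMod 2)) = 0 := by
  unfold dl
  rw [map_sub, map_neg, ev1_T, ev1_T]
  decide

theorem ev1_al (b : Bool) : ev1 (al (ZMod 2) b) = 1 := by
  unfold al
  cases b
  · simp only [Bool.false_eq_true, if_false]
    exact ev1_T _
  · simp only [if_true]
    exact ev1_T _

theorem ev1_qu (b : Bool) : ev1 (qu (ZMod 2) b) = 1 := by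
  unfold qu
  cases b
  · simp only [Bool.false_eq_true, if_false]
    rw [map_neg, ev1_T]
    decide
  · simp only [if_true]
    rw [map_neg, ev1_T]
    decide

theorem dl_ne : dl (ZMod 2) ≠ 0 := by
  intro h
  have h1 : (dl (ZMod 2)).coeff 2 = 0 := by
    rw [h, AddMonoidAlgebra.coeff_zero, Finsupp.zero_apply]
  unfold dl at h1
  rw [AddMonoidAlgebra.coeff_sub, AddMonoidAlgebra.coeff_neg, Finsupp.sub_apply,
    Finsupp.neg_apply, T_apply, T_apply, if_pos rfl, if_neg (by decide)] at h1
  exact absurd h1 (by decide)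

section

variable {E : Type} [Fintype E] [DecidableEq E]

theorem ev1_gg (M : Matrix E E (ZMod 2)) (σ : E → Bool) (J : Finset E) :
    ev1 (gg (ZMod 2) M σ J) =
      ∑ W ∈ (Finset.univ : Finset E).powerset.filter (fun W => J ⊆ W), (MW M W).det := by
  unfold gg
  rw [map_sum]
  refine Finset.sum_congr rfl fun W _ => ?_
  rw [map_mul, map_mul, map_prod, map_prod, map_pow, ev1_dl, ← det_MW]
  rw [Finset.prod_congr rfl fun c _ => ev1_qu (σ c), Finset.prod_const_one, one_mul]
  have h1 : ∏ c ∈ W \ J, ev1 (al (ZMod 2) (σ c) ^ 2) = 1 := by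
    refine Finset.prod_eq_one fun c _ => ?_
    rw [map_pow, ev1_al, one_pow]
  rw [h1, one_mul]
  rfl

end

/-! ### the exponents -/

section

variable {K : Type} [CommRing K]

theorem Sup_one : Sup (fun n => n = 0) (1 : K[T;T⁻¹]) := by
  have h := Sup.C (K := K) 1
  rwa [map_one] at h

theorem Sup_dl (e : ℕ) : Sup (fun n => -(2 * (e : ℤ)) ≤ n ∧ n ≤ 2 * e) (dl K ^ e) := by
  induction e with
  | zero =>
    rw [pow_zero]
    exact Sup_one.mono fun n hn => by
      subst hn
      constructor <;> norm_num
  | succ e ih =>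
    rw [pow_succ]
    have h1 : Sup (fun n => -2 ≤ n ∧ n ≤ 2) (dl K) := by
      unfold dl
      refine Sup.sub (Sup.neg ((Sup.T 2).mono fun n hn => ?_)) ((Sup.T (-2)).mono fun n hn => ?_)
      · constructor <;> omega
      · constructor <;> omega
    refine Sup.mul ih h1 fun a b ha hb => ?_
    push_cast
    constructor <;> omega

theorem Sup_qu (b : Bool) : Sup (fun n => n = 4 * (if b then 1 else -1)) (qu K b) := by
  unfold qu
  cases b
  · simp only [Bool.false_eq_true, if_false]
    exact Sup.neg ((Sup.T (-4)).mono fun n hn => by omega)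
  · simp only [if_true]
    exact Sup.neg ((Sup.T 4).mono fun n hn => by omega)

theorem Sup_prod {ι : Type} [DecidableEq ι] (s : Finset ι) (f : ι → K[T;T⁻¹]) (e : ι → ℤ)
    (h : ∀ i ∈ s, Sup (fun n => n = e i) (f i)) :
    Sup (fun n => n = ∑ i ∈ s, e i) (∏ i ∈ s, f i) := by
  induction s using Finset.induction_on with
  | empty =>
    rw [Finset.prod_empty, Finset.sum_empty]
    exact Sup_one
  | insert a s ha ih =>
    rw [Finset.prod_insert ha, Finset.sum_insert ha]
    refine Sup.mul (h a (Finset.mem_insert_self a s))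
      (ih fun i hi => h i (Finset.mem_insert_of_mem hi)) fun x y hx hy => ?_
    rw [hx, hy]

variable {E : Type} [Fintype E] [DecidableEq E]

theorem PF_eq (σ : E → Bool) : ∃ m : ℤ, PF K σ = T m := by
  unfold PF
  have key : ∀ s : Finset E, ∃ m : ℤ, ∏ c ∈ s, al K (!σ c) = T m := by
    intro s
    induction s using Finset.induction_on with
    | empty => exact ⟨0, by rw [Finset.prod_empty, T_zero]⟩
    | insert a s ha ih =>
      obtain ⟨m, hm⟩ := ih
      rw [Finset.prod_insert ha, hm]
      unfold al
      cases σ a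
      · exact ⟨1 + m, by simp only [Bool.not_false, if_true]; rw [← T_add]⟩
      · exact ⟨-1 + m, by
          simp only [Bool.not_true, Bool.false_eq_true, if_false]; rw [← T_add]⟩
  exact key Finset.univ

/-- the exponents of the terms -/
theorem Sup_GG (M : Matrix E E (ZMod 2)) (σ : E → Bool) (F : Finset (E → ZMod 2)) :
    Sup (fun n => 4 * (∑ v ∈ F, signedCount σ (Finset.univ.filter fun c => M c = v)) -
        4 * (M.rank : ℤ) ≤ n ∧
      n ≤ 4 * (∑ v ∈ F, signedCount σ (Finset.univ.filter fun c => M c = v)) + 4 * (M.rank : ℤ))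
      (GG M (fun c => qu K (σ c)) Finset.univ (ph K M) F) := by
  unfold GG
  have h1 : Sup (fun n => n = ∑ v ∈ F, 4 * signedCount σ (Finset.univ.filter fun c => M c = v))
      (∏ k ∈ F, pw M (fun c => qu K (σ c)) Finset.univ k) := by
    refine Sup_prod F _ _ fun v _ => ?_
    unfold pw signedCount
    refine (Sup_prod _ _ _ fun c _ => Sup_qu (σ c)).mono fun n hn => ?_
    rw [hn, Finset.mul_sum]
  have h2 : Sup (fun n => -(4 * (M.rank : ℤ)) ≤ n ∧ n ≤ 4 * (M.rank : ℤ))
      (KK (Finset.univ.image M) (ph K M) F) := by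
    unfold KK
    refine Sup.sum _ _ fun U _ => ?_
    have h3 : Sup (fun n => n = 0) ((-1 : K[T;T⁻¹]) ^ (U \ F).card) := by
      rcases neg_one_pow_eq_or K[T;T⁻¹] (U \ F).card with h | h
      · rw [h]
        exact Sup_one
      · rw [h]
        exact Sup.neg Sup_one
    unfold ph
    have h4 := ex_le M U
    refine Sup.mul h3 (Sup_dl (ex M U)) fun a b ha hb => ?_
    constructor <;> omega
  refine Sup.mul h1 h2 fun a b ha hb => ?_
  rw [ha, ← Finset.mul_sum]
  constructor <;> omega

end

/-! ### partial sums -/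

section

variable {E : Type} [Fintype E] [DecidableEq E]

/-- the sum over the sets which contain a class -/
theorem sum_one (M : Matrix E E (ZMod 2)) (σ : E → Bool) (c : E) :
    dl (ZMod 2) ^ 2 * ∑ F ∈ (Finset.univ.image M).powerset.filter (fun F => M c ∈ F),
      GG M (fun c => qu (ZMod 2) (σ c)) Finset.univ (ph (ZMod 2) M) F =
    dl (ZMod 2) * (dl (ZMod 2) * HH M (fun c => qu (ZMod 2) (σ c)) Finset.univ (ph (ZMod 2) M) {c}) := by
  have h1 := sum_HH M Finset.univ (ph (ZMod 2) M) {c} (Finset.subset_univ _) (by simp)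
    (fun c => qu (ZMod 2) (σ c))
  rw [← h1]
  have h2 : (Finset.univ.image M).powerset.filter (fun F => M c ∈ F) =
      (Finset.univ.image M).powerset.filter (fun F => ({c} : Finset E).image M ⊆ F) := by
    refine Finset.filter_congr fun F _ => ?_
    rw [Finset.image_singleton, Finset.singleton_subset_iff]
  rw [h2]
  ring

theorem sum_two (M : Matrix E E (ZMod 2)) (σ : E → Bool) (c c' : E) (hcc : M c ≠ M c') :
    ∑ F ∈ (Finset.univ.image M).powerset.filter (fun F => M c ∈ F ∧ M c' ∈ F),
      GG M (fun c => qu (ZMod 2) (σ c)) Finset.univ (ph (ZMod 2) M) F =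
    HH M (fun c => qu (ZMod 2) (σ c)) Finset.univ (ph (ZMod 2) M) {c, c'} := by
  have h1 := sum_HH M Finset.univ (ph (ZMod 2) M) {c, c'} (Finset.subset_univ _) (by
      intro a ha b hb hab
      rw [Finset.mem_coe, Finset.mem_insert, Finset.mem_singleton] at ha hb
      rcases ha with rfl | rfl <;> rcases hb with rfl | rfl
      · rfl
      · exact absurd hab hcc
      · exact absurd hab.symm hcc
      · rfl) (fun c => qu (ZMod 2) (σ c))
  rw [← h1]
  refine Finset.sum_congr (Finset.filter_congr fun F _ => ?_) fun _ _ => rfl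
  rw [Finset.image_insert, Finset.image_singleton, Finset.insert_subset_iff,
    Finset.singleton_subset_iff]

end

end Pool.Agent.SPT.Lin
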