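import Mathlib
import Pool.Agent.SPT.LinE

/-!
# SPT, module LinF: the annihilator of the short vectors is totally isotropic
-/

set_option autoImplicit false
set_option linter.unusedSectionVars false

open Module Matrix Submodule Pool.Agent.UNI LaurentPolynomial Pool.Agent.SPT.Rel

namespace Pool.Agent.SPT.Lin

section

variable {E : Type} [Fintype E] [DecidableEq E]

/-- the sets of rows which contain the zero row if it is a row -/
def II (M : Matrix E E (ZMod 2)) : Finset (Finset (E → ZMod 2)) :=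
  (Finset.univ.image M).powerset.filter
    (fun F => (0 : E → ZMod 2) ∈ F ∨ (0 : E → ZMod 2) ∉ Finset.univ.image M)

/-- the signed sizes -/
def tw (M : Matrix E E (ZMod 2)) (σ : E → Bool) (v : E → ZMod 2) : ℤ :=
  signedCount σ (Finset.univ.filter fun c => M c = v)

/-- **The cluster lemma for the state sum** -/
theorem LinF_cluster (M : Matrix E E (ZMod 2)) (hM : ∀ i j, M i j = M j i) (σ : E → Bool)
    (B : ℕ) (hB : (SS (ZMod 2) M σ).coeff.support.card ≤ B) (ψ : Finset (E → ZMod 2) → ZMod 2)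
    (hψ : ∀ F ∈ II M, ∀ F' ∈ II M,
      |∑ v ∈ F, tw M σ v - ∑ v ∈ F', tw M σ v| < 2 * ((B : ℤ) + 2) * (M.rank + 1) → ψ F = ψ F') :
    ∃ t, ∑ F ∈ (Finset.univ.image M).powerset, C (ψ F) *
      GG M (fun c => qu (ZMod 2) (σ c)) Finset.univ (ph (ZMod 2) M) F =
        dl (ZMod 2) ^ M.rank * t := by
  classical
  obtain ⟨m, hm⟩ := PF_eq (K := ZMod 2) σ
  obtain ⟨G, hG⟩ : ∃ G : Finset (E → ZMod 2) → (ZMod 2)[T;T⁻¹], ∀ F, G F =
      GG M (fun c => qu (ZMod 2) (σ c)) Finset.univ (ph (ZMod 2) M) F := ⟨_, fun _ => rfl⟩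
  have h0 : ∀ F ∈ (Finset.univ.image M).powerset, F ∉ II M → G F = 0 := by
    intro F hF hFI
    unfold II at hFI
    rw [Finset.mem_filter, not_and, not_or, not_not] at hFI
    obtain ⟨h1, h2⟩ := hFI hF
    rw [hG]
    unfold GG
    rw [KK_loop M _ F h2 h1, mul_zero]
  have hsub : II M ⊆ (Finset.univ.image M).powerset := Finset.filter_subset _ _
  have hsum : ∀ χ : Finset (E → ZMod 2) → ZMod 2, ∑ F ∈ (Finset.univ.image M).powerset,
      C (χ F) * G F = ∑ F ∈ II M, C (χ F) * G F := by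
    intro χ
    symm
    refine Finset.sum_subset hsub fun F hF hFI => ?_
    rw [h0 F hF hFI, mul_zero]
  have hSS := SS_eq (K := ZMod 2) M hM σ
  have hsum1 : ∑ F ∈ (Finset.univ.image M).powerset, G F = ∑ F ∈ II M, G F := by
    symm
    exact Finset.sum_subset hsub h0
  have hD : dl (ZMod 2) ^ M.rank * SS (ZMod 2) M σ = ∑ F ∈ II M, T m * G F := by
    rw [hSS, hm, ← Finset.mul_sum, ← hsum1]
    rw [Finset.sum_congr rfl fun F _ => hG F]
  obtain ⟨t, ht⟩ := cluster (dl (ZMod 2) ^ M.rank) (4 * (M.rank : ℤ)) (by positivity)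
    ((Sup_dl M.rank).mono fun n hn => by constructor <;> omega) B (fun F => T m * G F)
    (fun F => m + 4 * ∑ v ∈ F, tw M σ v) ψ ((B + 1) * (2 * (4 * (M.rank : ℤ)) + 1) +
      2 * (4 * (M.rank : ℤ))) le_rfl (II M).card (II M) le_rfl (by
      intro F _
      have h1 := Sup_GG (K := ZMod 2) M σ F
      rw [← hG] at h1
      refine Sup.mul (Sup.T m) h1 fun a b ha hb => ?_
      unfold tw
      constructor <;> omega) _ hB hD (by
      intro F hF F' hF' habs
      refine hψ F hF F' hF' ?_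
      obtain ⟨x, hx⟩ : ∃ x : ℤ, x = ∑ v ∈ F, tw M σ v - ∑ v ∈ F', tw M σ v := ⟨_, rfl⟩
      have h1 : m + 4 * ∑ v ∈ F, tw M σ v - (m + 4 * ∑ v ∈ F', tw M σ v) = 4 * x := by
        rw [hx]
        ring
      rw [h1, abs_mul] at habs
      rw [← hx]
      have h2 : |(4 : ℤ)| = 4 := by norm_num
      rw [h2] at habs
      have h3 : 2 * ((B : ℤ) + 2) * (M.rank + 1) =
          2 * ((B : ℤ) * M.rank) + 2 * B + 4 * M.rank + 4 := by ring
      have h4 : ((B : ℤ) + 1) * (2 * (4 * (M.rank : ℤ)) + 1) =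
          8 * ((B : ℤ) * M.rank) + 8 * M.rank + B + 1 := by ring
      rw [h4] at habs
      rw [h3]
      have h5 : 0 ≤ (B : ℤ) * M.rank := by positivity
      omega)
  refine ⟨T (-m) * t, ?_⟩
  have h6 : ∑ F ∈ II M, C (ψ F) * (T m * G F) = T m * ∑ F ∈ II M, C (ψ F) * G F := by
    rw [Finset.mul_sum]
    refine Finset.sum_congr rfl fun F _ => ?_
    ring
  rw [h6, ← hsum] at ht
  have h7 : T (-m) * (T m * ∑ F ∈ (Finset.univ.image M).powerset, C (ψ F) * G F) =
      T (-m) * (dl (ZMod 2) ^ M.rank * t) := by rw [ht]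
  rw [← mul_assoc, ← T_add, neg_add_cancel, T_zero, one_mul] at h7
  rw [Finset.sum_congr rfl fun F _ => by rw [← hG F], h7]
  ring

/-- expansion of a linear function -/
theorem sum_linear {κ R : Type} [DecidableEq κ] [CommRing R] (X : Finset κ) (w : κ → R)
    (G : Finset κ → R) : ∑ F ∈ X.powerset, (∑ v ∈ F, w v) * G F =
      ∑ v ∈ X, w v * ∑ F ∈ X.powerset.filter (fun F => v ∈ F), G F := by
  rw [Finset.sum_congr rfl fun F _ => Finset.sum_mul F w (G F),
    Finset.sum_congr rfl fun v _ => Finset.mul_sum _ _ (w v)]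
  refine Finset.sum_comm' fun F v => ?_
  rw [Finset.mem_filter, Finset.mem_powerset]
  exact ⟨fun h => ⟨⟨h.1, h.2⟩, h.1 h.2⟩, fun h => ⟨h.1.1, h.1.2⟩⟩

/-- expansion of a product of two linear functions -/
theorem sum_bilinear {κ R : Type} [DecidableEq κ] [CommRing R] (X : Finset κ) (w w' : κ → R)
    (G : Finset κ → R) : ∑ F ∈ X.powerset, ((∑ v ∈ F, w v) * (∑ v ∈ F, w' v)) * G F =
      ∑ u ∈ X, ∑ v ∈ X, w u * w' v *
        ∑ F ∈ X.powerset.filter (fun F => u ∈ F ∧ v ∈ F), G F := by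
  have h1 : ∀ F ∈ X.powerset, ((∑ v ∈ F, w v) * (∑ v ∈ F, w' v)) * G F =
      ∑ u ∈ X, ∑ v ∈ X, if u ∈ F ∧ v ∈ F then w u * w' v * G F else 0 := by
    intro F hF
    have hFX := Finset.mem_powerset.1 hF
    have h2 : ∀ x : κ → R, ∑ v ∈ F, x v = ∑ v ∈ X, if v ∈ F then x v else 0 := by
      intro x
      rw [← Finset.sum_filter]
      refine Finset.sum_congr ?_ fun _ _ => rfl
      ext v
      rw [Finset.mem_filter]
      exact ⟨fun h => ⟨hFX h, h⟩, fun h => h.2⟩
    rw [h2 w, h2 w', Finset.sum_mul_sum, Finset.sum_mul]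
    refine Finset.sum_congr rfl fun u _ => ?_
    rw [Finset.sum_mul]
    refine Finset.sum_congr rfl fun v _ => ?_
    by_cases hu : u ∈ F <;> by_cases hv : v ∈ F <;> simp [hu, hv]
  rw [Finset.sum_congr rfl h1, Finset.sum_comm]
  refine Finset.sum_congr rfl fun u _ => ?_
  rw [Finset.sum_comm]
  refine Finset.sum_congr rfl fun v _ => ?_
  rw [← Finset.sum_filter, Finset.mul_sum]

/-- the difference of two indicators -/
def di {κ : Type} [DecidableEq κ] (F F' : Finset κ) (v : κ) : ℤ :=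
  (if v ∈ F then 1 else 0) - (if v ∈ F' then 1 else 0)

theorem sum_di {κ R : Type} [DecidableEq κ] [CommRing R] (X F F' : Finset κ) (hF : F ⊆ X)
    (hF' : F' ⊆ X) (x : κ → R) :
    ∑ v ∈ X, x v * ((di F F' v : ℤ) : R) = ∑ v ∈ F, x v - ∑ v ∈ F', x v := by
  have h2 : ∀ F : Finset κ, F ⊆ X → ∑ v ∈ F, x v = ∑ v ∈ X, if v ∈ F then x v else 0 := by
    intro F hF
    rw [← Finset.sum_filter]
    refine Finset.sum_congr ?_ fun _ _ => rfl
    ext v
    rw [Finset.mem_filter]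
    exact ⟨fun h => ⟨hF h, h⟩, fun h => h.2⟩
  rw [h2 F hF, h2 F' hF', ← Finset.sum_sub_distrib]
  refine Finset.sum_congr rfl fun v _ => ?_
  unfold di
  by_cases h : v ∈ F <;> by_cases h' : v ∈ F' <;> simp [h, h']

/-- a function orthogonal to the short vectors is constant on the close pairs -/
theorem LinF_psi (M : Matrix E E (ZMod 2)) (σ : E → Bool) (N : ℕ)
    (w : (E → ZMod 2) → ZMod 2)
    (hw : ∀ d, Small ((Finset.univ.image M).erase 0) (tw M σ) N d →
      ∑ v ∈ (Finset.univ.image M).erase 0, w v * ((d v : ℤ) : ZMod 2) = 0)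
    (F : Finset (E → ZMod 2)) (hF : F ∈ II M) (F' : Finset (E → ZMod 2)) (hF' : F' ∈ II M)
    (h : |∑ v ∈ F, tw M σ v - ∑ v ∈ F', tw M σ v| < (N : ℤ)) :
    ∑ v ∈ F, (if v = 0 then 0 else w v) = ∑ v ∈ F', (if v = 0 then 0 else w v) := by
  classical
  unfold II at hF hF'
  rw [Finset.mem_filter, Finset.mem_powerset] at hF hF'
  have hd0 : ∀ v, v ∉ (Finset.univ.image M).erase 0 → di F F' v = 0 := by
    intro v hv
    rw [Finset.mem_erase, not_and_or, not_not] at hv
    unfold di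
    rcases hv with rfl | hv
    · by_cases h0 : (0 : E → ZMod 2) ∈ Finset.univ.image M
      · rw [if_pos (hF.2.resolve_right (not_not.2 h0)), if_pos (hF'.2.resolve_right (not_not.2 h0)),
          sub_self]
      · rw [if_neg fun h1 => h0 (hF.1 h1), if_neg fun h1 => h0 (hF'.1 h1), sub_self]
    · rw [if_neg fun h1 => hv (hF.1 h1), if_neg fun h1 => hv (hF'.1 h1), sub_self]
  have hsub : (Finset.univ.image M).erase 0 ⊆ Finset.univ.image M := Finset.erase_subset _ _
  have hS : Small ((Finset.univ.image M).erase 0) (tw M σ) N (di F F') := by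
    refine ⟨fun v => ?_, hd0, ?_⟩
    · unfold di
      by_cases h1 : v ∈ F <;> by_cases h2 : v ∈ F' <;> simp [h1, h2]
    · have h1 := sum_di (Finset.univ.image M) F F' hF.1 hF'.1 (tw M σ)
      simp only [Int.cast_id] at h1
      have h2 : ∑ v ∈ (Finset.univ.image M).erase 0, di F F' v * tw M σ v =
          ∑ v ∈ Finset.univ.image M, tw M σ v * di F F' v := by
        rw [← Finset.sum_subset hsub fun v _ hv => by rw [hd0 v hv, mul_zero]]
        exact Finset.sum_congr rfl fun v _ => mul_comm _ _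
      rw [h2, h1]
      exact h
  have h1 := hw _ hS
  have h2 := sum_di (Finset.univ.image M) F F' hF.1 hF'.1 (fun v => if v = 0 then 0 else w v)
  rw [← Finset.sum_subset hsub] at h2
  · have h3 : ∑ v ∈ (Finset.univ.image M).erase 0, (if v = 0 then 0 else w v) *
        ((di F F' v : ℤ) : ZMod 2) =
        ∑ v ∈ (Finset.univ.image M).erase 0, w v * ((di F F' v : ℤ) : ZMod 2) := by
      refine Finset.sum_congr rfl fun v hv => ?_
      rw [if_neg (Finset.ne_of_mem_erase hv)]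
    rw [h3, h1] at h2
    exact (sub_eq_zero.1 h2.symm)
  · intro v _ hv
    rw [hd0 v hv, Int.cast_zero, mul_zero]

/-- **Isotropy** -/
theorem iso_main (M : Matrix E E (ZMod 2)) (hM : ∀ i j, M i j = M j i) (σ : E → Bool)
    (B : ℕ) (hB : (SS (ZMod 2) M σ).coeff.support.card ≤ B) (ρ : (E → ZMod 2) → E)
    (hρ : ∀ v ∈ (Finset.univ.image M).erase 0, M (ρ v) = v) (w w' : (E → ZMod 2) → ZMod 2)
    (hw : ∀ d, Small ((Finset.univ.image M).erase 0) (tw M σ) (2 * (B + 2) * (M.rank + 1)) d →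
      ∑ v ∈ (Finset.univ.image M).erase 0, w v * ((d v : ℤ) : ZMod 2) = 0)
    (hw' : ∀ d, Small ((Finset.univ.image M).erase 0) (tw M σ) (2 * (B + 2) * (M.rank + 1)) d →
      ∑ v ∈ (Finset.univ.image M).erase 0, w' v * ((d v : ℤ) : ZMod 2) = 0) :
    ∑ u ∈ (Finset.univ.image M).erase 0, ∑ v ∈ (Finset.univ.image M).erase 0,
      w u * w' v * M (ρ u) (ρ v) = 0 := by
  classical
  obtain ⟨X, hX⟩ : ∃ X, X = Finset.univ.image M := ⟨_, rfl⟩
  obtain ⟨G, hG⟩ : ∃ G : Finset (E → ZMod 2) → (ZMod 2)[T;T⁻¹], ∀ F, G F =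
      GG M (fun c => qu (ZMod 2) (σ c)) Finset.univ (ph (ZMod 2) M) F := ⟨_, fun _ => rfl⟩
  obtain ⟨x, hx⟩ : ∃ x : (E → ZMod 2) → ZMod 2, ∀ v, x v = if v = 0 then 0 else w v :=
    ⟨_, fun _ => rfl⟩
  obtain ⟨x', hx'⟩ : ∃ x : (E → ZMod 2) → ZMod 2, ∀ v, x v = if v = 0 then 0 else w' v :=
    ⟨_, fun _ => rfl⟩
  have hcast : ((2 * (B + 2) * (M.rank + 1) : ℕ) : ℤ) = 2 * ((B : ℤ) + 2) * (M.rank + 1) := by
    push_cast
    ring
  have hψ : ∀ F ∈ II M, ∀ F' ∈ II M,
      |∑ v ∈ F, tw M σ v - ∑ v ∈ F', tw M σ v| < 2 * ((B : ℤ) + 2) * (M.rank + 1) →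
      ∑ v ∈ F, x v = ∑ v ∈ F', x v := by
    intro F hF F' hF' h
    rw [← hcast] at h
    have h1 := LinF_psi M σ _ w hw F hF F' hF' h
    rw [Finset.sum_congr rfl fun v _ => hx v, Finset.sum_congr rfl fun v _ => hx v]
    exact h1
  have hψ' : ∀ F ∈ II M, ∀ F' ∈ II M,
      |∑ v ∈ F, tw M σ v - ∑ v ∈ F', tw M σ v| < 2 * ((B : ℤ) + 2) * (M.rank + 1) →
      ∑ v ∈ F, x' v = ∑ v ∈ F', x' v := by
    intro F hF F' hF' h
    rw [← hcast] at h
    have h1 := LinF_psi M σ _ w' hw' F hF F' hF' h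
    rw [Finset.sum_congr rfl fun v _ => hx' v, Finset.sum_congr rfl fun v _ => hx' v]
    exact h1
  have hd := dl_ne
  have hrow : ∀ v ∈ X, v ≠ 0 → M (ρ v) = v := by
    intro v hv h0
    refine hρ v (Finset.mem_erase.2 ⟨h0, ?_⟩)
    rw [← hX]
    exact hv
  -- one class
  have hone : ∀ v ∈ X, v ≠ 0 → dl (ZMod 2) * ∑ F ∈ X.powerset.filter (fun F => v ∈ F), G F =
      dl (ZMod 2) ^ M.rank * gg (ZMod 2) M σ {ρ v} := by
    intro v hv h0
    have h1 := sum_one M σ (ρ v)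
    have h2 := HH_eq (K := ZMod 2) M hM σ {ρ v}
    rw [Finset.card_singleton, pow_one] at h2
    rw [h2] at h1
    have h3 : ∑ F ∈ X.powerset.filter (fun F => v ∈ F), G F =
        ∑ F ∈ (Finset.univ.image M).powerset.filter (fun F => M (ρ v) ∈ F),
          GG M (fun c => qu (ZMod 2) (σ c)) Finset.univ (ph (ZMod 2) M) F := by
      rw [hrow v hv h0, ← hX]
      exact Finset.sum_congr rfl fun F _ => hG F
    rw [h3]
    have h4 : dl (ZMod 2) * (dl (ZMod 2) *
        ∑ F ∈ (Finset.univ.image M).powerset.filter (fun F => M (ρ v) ∈ F),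
          GG M (fun c => qu (ZMod 2) (σ c)) Finset.univ (ph (ZMod 2) M) F) =
        dl (ZMod 2) * (dl (ZMod 2) ^ M.rank * gg (ZMod 2) M σ {ρ v}) := by
      rw [← h1]
      ring
    exact mul_left_cancel₀ hd h4
  have htwo : ∀ u ∈ X, u ≠ 0 → ∀ v ∈ X, v ≠ 0 → u ≠ v →
      dl (ZMod 2) ^ 2 * ∑ F ∈ X.powerset.filter (fun F => u ∈ F ∧ v ∈ F), G F =
      dl (ZMod 2) ^ M.rank * gg (ZMod 2) M σ {ρ u, ρ v} := by
    intro u hu hu0 v hv hv0 huv
    have hne : M (ρ u) ≠ M (ρ v) := by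
      rw [hrow u hu hu0, hrow v hv hv0]
      exact huv
    have h1 := sum_two M σ (ρ u) (ρ v) hne
    have h2 := HH_eq (K := ZMod 2) M hM σ {ρ u, ρ v}
    rw [Finset.card_pair fun h => hne (by rw [h])] at h2
    rw [← h2, ← h1]
    have h3 : ∑ F ∈ X.powerset.filter (fun F => u ∈ F ∧ v ∈ F), G F =
        ∑ F ∈ (Finset.univ.image M).powerset.filter (fun F => M (ρ u) ∈ F ∧ M (ρ v) ∈ F),
          GG M (fun c => qu (ZMod 2) (σ c)) Finset.univ (ph (ZMod 2) M) F := by
      rw [hrow u hu hu0, hrow v hv hv0, ← hX]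
      exact Finset.sum_congr rfl fun F _ => hG F
    rw [h3]
  -- first condition
  have hC1 : ∀ y : (E → ZMod 2) → ZMod 2, y 0 = 0 → (∀ F ∈ II M, ∀ F' ∈ II M,
      |∑ v ∈ F, tw M σ v - ∑ v ∈ F', tw M σ v| < 2 * ((B : ℤ) + 2) * (M.rank + 1) →
      ∑ v ∈ F, y v = ∑ v ∈ F', y v) → ∑ v ∈ X, y v * M (ρ v) (ρ v) = 0 := by
    intro y hy0 hy
    obtain ⟨t, ht⟩ := LinF_cluster M hM σ B hB (fun F => ∑ v ∈ F, y v) hy
    have h1 : ∑ F ∈ X.powerset, (∑ v ∈ F, C (y v)) * G F = dl (ZMod 2) ^ M.rank * t := by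
      rw [← ht, ← hX]
      refine Finset.sum_congr rfl fun F _ => ?_
      rw [map_sum, hG]
    rw [sum_linear X (fun v => C (y v)) G] at h1
    have h2 : dl (ZMod 2) ^ M.rank * ∑ v ∈ X, C (y v) * gg (ZMod 2) M σ {ρ v} =
        dl (ZMod 2) ^ M.rank * (dl (ZMod 2) * t) := by
      have h3 : dl (ZMod 2) * ∑ v ∈ X, C (y v) * ∑ F ∈ X.powerset.filter (fun F => v ∈ F), G F =
          dl (ZMod 2) ^ M.rank * ∑ v ∈ X, C (y v) * gg (ZMod 2) M σ {ρ v} := by
        rw [Finset.mul_sum, Finset.mul_sum]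
        refine Finset.sum_congr rfl fun v hv => ?_
        by_cases h0 : v = 0
        · rw [h0, hy0, map_zero]
          ring
        · have h4 := hone v hv h0
          calc dl (ZMod 2) * (C (y v) * ∑ F ∈ X.powerset.filter (fun F => v ∈ F), G F)
              = C (y v) * (dl (ZMod 2) * ∑ F ∈ X.powerset.filter (fun F => v ∈ F), G F) := by ring
            _ = _ := by
              rw [h4]
              ring
      rw [← h3, h1]
      ring
    have h3 := mul_left_cancel₀ (pow_ne_zero _ hd) h2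
    have h4 := congrArg ev1 h3
    rw [map_mul, ev1_dl, zero_mul, map_sum] at h4
    rw [← h4]
    refine Finset.sum_congr rfl fun v _ => ?_
    rw [map_mul, ev1_C, ev1_gg, sum_det_one]
  -- second condition
  obtain ⟨t, ht⟩ := LinF_cluster M hM σ B hB (fun F => (∑ v ∈ F, x v) * ∑ v ∈ F, x' v)
    (fun F hF F' hF' h => by
      rw [hψ F hF F' hF' h, hψ' F hF F' hF' h])
  have hx0 : x 0 = 0 := by rw [hx, if_pos rfl]
  have hx0' : x' 0 = 0 := by rw [hx', if_pos rfl]
  have h1 : ∑ F ∈ X.powerset, ((∑ v ∈ F, C (x v)) * (∑ v ∈ F, C (x' v))) * G F =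
      dl (ZMod 2) ^ M.rank * t := by
    rw [← ht, ← hX]
    refine Finset.sum_congr rfl fun F _ => ?_
    rw [map_mul, map_sum, map_sum, hG]
  rw [sum_bilinear X (fun v => C (x v)) (fun v => C (x' v)) G] at h1
  have h2 : dl (ZMod 2) ^ M.rank * ∑ u ∈ X, ∑ v ∈ X, C (x u) * C (x' v) *
      (if u = v then dl (ZMod 2) * gg (ZMod 2) M σ {ρ u} else gg (ZMod 2) M σ {ρ u, ρ v}) =
      dl (ZMod 2) ^ M.rank * (dl (ZMod 2) ^ 2 * t) := by
    have h3 : dl (ZMod 2) ^ 2 * ∑ u ∈ X, ∑ v ∈ X, C (x u) * C (x' v) *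
        ∑ F ∈ X.powerset.filter (fun F => u ∈ F ∧ v ∈ F), G F =
        dl (ZMod 2) ^ M.rank * ∑ u ∈ X, ∑ v ∈ X, C (x u) * C (x' v) *
      (if u = v then dl (ZMod 2) * gg (ZMod 2) M σ {ρ u} else gg (ZMod 2) M σ {ρ u, ρ v}) := by
      rw [Finset.mul_sum, Finset.mul_sum]
      refine Finset.sum_congr rfl fun u hu => ?_
      rw [Finset.mul_sum, Finset.mul_sum]
      refine Finset.sum_congr rfl fun v hv => ?_
      by_cases hu0 : u = 0
      · rw [hu0, hx0, map_zero]
        ring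
      by_cases hv0 : v = 0
      · rw [hv0, hx0', map_zero]
        ring
      by_cases huv : u = v
      · rw [if_pos huv, ← huv]
        have h4 := hone u hu hu0
        have h5 : X.powerset.filter (fun F => u ∈ F ∧ u ∈ F) =
            X.powerset.filter (fun F => u ∈ F) := by
          refine Finset.filter_congr fun F _ => ?_
          exact and_self_iff
        rw [h5]
        calc dl (ZMod 2) ^ 2 * (C (x u) * C (x' u) *
              ∑ F ∈ X.powerset.filter (fun F => u ∈ F), G F)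
            = C (x u) * C (x' u) * dl (ZMod 2) *
              (dl (ZMod 2) * ∑ F ∈ X.powerset.filter (fun F => u ∈ F), G F) := by ring
          _ = _ := by
            rw [h4]
            ring
      · rw [if_neg huv]
        have h4 := htwo u hu hu0 v hv hv0 huv
        calc dl (ZMod 2) ^ 2 * (C (x u) * C (x' v) *
              ∑ F ∈ X.powerset.filter (fun F => u ∈ F ∧ v ∈ F), G F)
            = C (x u) * C (x' v) *
              (dl (ZMod 2) ^ 2 * ∑ F ∈ X.powerset.filter (fun F => u ∈ F ∧ v ∈ F), G F) := by ring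
          _ = _ := by
            rw [h4]
            ring
    rw [← h3, h1]
    ring
  have h3 := mul_left_cancel₀ (pow_ne_zero _ hd) h2
  have h4 := congrArg ev1 h3
  rw [map_mul, map_pow, ev1_dl] at h4
  have h5 : ev1 (∑ u ∈ X, ∑ v ∈ X, C (x u) * C (x' v) *
      (if u = v then dl (ZMod 2) * gg (ZMod 2) M σ {ρ u} else gg (ZMod 2) M σ {ρ u, ρ v})) =
      ∑ u ∈ X, ∑ v ∈ X, x u * x' v * (M (ρ u) (ρ u) * M (ρ v) (ρ v) + M (ρ u) (ρ v)) := by
    rw [map_sum]
    refine Finset.sum_congr rfl fun u hu => ?_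
    rw [map_sum]
    refine Finset.sum_congr rfl fun v hv => ?_
    rw [map_mul, map_mul, ev1_C, ev1_C]
    by_cases hu0 : u = 0
    · rw [hu0, hx0]
      ring
    by_cases hv0 : v = 0
    · rw [hv0, hx0']
      ring
    congr 1
    by_cases huv : u = v
    · rw [if_pos huv, ← huv, map_mul, ev1_dl, zero_mul]
      rcases z2 (M (ρ u) (ρ u)) with h | h <;> rw [h] <;> decide
    · have hne : ρ u ≠ ρ v := by
        intro h
        apply huv
        rw [← hrow u hu hu0, ← hrow v hv hv0, h]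
      rw [if_neg huv, ev1_gg, sum_det_two M _ _ hne, hM (ρ v) (ρ u)]
      rcases z2 (M (ρ u) (ρ v)) with h | h <;> rw [h] <;> ring
  rw [h5] at h4
  have h6 : ∑ u ∈ X, ∑ v ∈ X, x u * x' v * (M (ρ u) (ρ u) * M (ρ v) (ρ v) + M (ρ u) (ρ v)) =
      (∑ u ∈ X, x u * M (ρ u) (ρ u)) * (∑ v ∈ X, x' v * M (ρ v) (ρ v)) +
        ∑ u ∈ X, ∑ v ∈ X, x u * x' v * M (ρ u) (ρ v) := by
    rw [Finset.sum_mul_sum, ← Finset.sum_add_distrib]
    refine Finset.sum_congr rfl fun u _ => ?_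
    rw [← Finset.sum_add_distrib]
    refine Finset.sum_congr rfl fun v _ => ?_
    ring
  rw [h6, hC1 x hx0 hψ, zero_mul, zero_add] at h4
  have h7 : ∑ u ∈ X.erase 0, ∑ v ∈ X.erase 0, w u * w' v * M (ρ u) (ρ v) =
      ∑ u ∈ X, ∑ v ∈ X, x u * x' v * M (ρ u) (ρ v) := by
    symm
    rw [← Finset.sum_subset (Finset.erase_subset 0 X)]
    · refine Finset.sum_congr rfl fun u hu => ?_
      rw [← Finset.sum_subset (Finset.erase_subset 0 X)]
      · refine Finset.sum_congr rfl fun v hv => ?_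
        rw [hx, hx', if_neg (Finset.ne_of_mem_erase hu), if_neg (Finset.ne_of_mem_erase hv)]
      · intro v hvX hv
        have hv0 : v = 0 := by
          by_contra h
          exact hv (Finset.mem_erase.2 ⟨h, hvX⟩)
        rw [hv0, hx0', mul_zero, zero_mul]
    · intro u huX hu
      have hu0 : u = 0 := by
        by_contra h
        exact hu (Finset.mem_erase.2 ⟨h, huX⟩)
      refine Finset.sum_eq_zero fun v _ => ?_
      rw [hu0, hx0, zero_mul, zero_mul]
  rw [← hX, h7, h4]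
  ring

end

end Pool.Agent.SPT.Lin
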