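import Mathlib
import Pool.Agent.SPT.LinF
import Pool.Agent.SPT.Fin

/-!
# SPT, module LinG: knots and knotoids, the annihilator of the short vectors is totally isotropic
-/

set_option autoImplicit false
set_option linter.unusedSectionVars false

open Module Matrix Submodule Pool.Agent.UNI LaurentPolynomial Pool.Agent.SPT.Rel

namespace Pool.Agent.SPT.Lin

open Pool.Agent.Helper16.Knotoid

/-! ### reduction modulo two -/

/-- reduction modulo two -/
noncomputable def red : ℤ[T;T⁻¹] →+* (ZMod 2)[T;T⁻¹] :=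
  AddMonoidAlgebra.mapRingHom ℤ (Int.castRingHom (ZMod 2))

theorem red_coeff (f : ℤ[T;T⁻¹]) (n : ℤ) : (red f).coeff n = ((f.coeff n : ℤ) : ZMod 2) := by
  unfold red
  rw [AddMonoidAlgebra.coeff_mapRingHom]
  rfl

theorem red_T (n : ℤ) : red (T n) = T n := by
  apply LaurentPolynomial.ext
  intro m
  rw [red_coeff, T_apply, T_apply]
  split_ifs <;> simp

/-- the number of the odd coefficients is at most the coefficient sum -/
theorem red_card (f : ℤ[T;T⁻¹]) : ((red f).coeff.support.card : ℤ) ≤ coeffSum f := by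
  have h1 : (red f).coeff.support ⊆ f.coeff.support := by
    intro n hn
    rw [Finsupp.mem_support_iff, red_coeff] at hn
    rw [Finsupp.mem_support_iff]
    intro h
    apply hn
    rw [h, Int.cast_zero]
  unfold coeffSum
  calc ((red f).coeff.support.card : ℤ) ≤ f.coeff.support.card := by
        exact_mod_cast Finset.card_le_card h1
    _ = ∑ i ∈ f.coeff.support, (1 : ℤ) := by simp
    _ ≤ ∑ i ∈ f.coeff.support, |f.coeff i| := by
        refine Finset.sum_le_sum fun i hi => ?_
        exact Int.one_le_abs (Finsupp.mem_support_iff.1 hi)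

/-! ### knotoid diagrams -/

theorem T_sum' {K α : Type} [CommRing K] (s : Finset α) (f : α → ℤ) :
    (T (∑ c ∈ s, f c) : K[T;T⁻¹]) = ∏ c ∈ s, T (f c) := by
  classical
  induction s using Finset.induction_on with
  | empty => rw [Finset.sum_empty, Finset.prod_empty, T_zero]
  | insert a s ha ih => rw [Finset.sum_insert ha, Finset.prod_insert ha, T_add, ih]

variable {n : ℕ}

theorem red_bracket (D : GaussDiagram n) (σ : Fin n → Bool) :
    red D.bracket = SS (ZMod 2) (D.gmat σ) σ := by
  unfold GaussDiagram.bracket GaussDiagram.stateSign SS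
  rw [map_sum]
  refine Finset.sum_congr rfl fun s _ => ?_
  rw [map_mul, map_pow, map_sub, map_neg, red_T, red_T, red_T, D.comps_eq, gmat_SM D σ s,
    Nat.add_sub_cancel_left, T_sum']
  have h1 : ∏ c, T (if s c then (1 : ℤ) else -1) = ∏ c, al (ZMod 2) (s c) := by
    refine Finset.prod_congr rfl fun c _ => ?_
    unfold al
    cases s c
    · simp only [Bool.false_eq_true, if_false]
    · simp only [if_true]
  rw [h1]
  rfl

/-- the supports of `f` and of the product with a monomial have the same size -/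
theorem card_mul_T (f : (ZMod 2)[T;T⁻¹]) (m : ℤ) :
    f.coeff.support.card ≤ (T m * f).coeff.support.card := by
  have h1 : ∀ j, (T m * f).coeff (m + j) = f.coeff j := by
    intro j
    have h2 := AddMonoidAlgebra.coeff_mul (T m : (ZMod 2)[T;T⁻¹]) f (m + j)
    rw [h2]
    unfold LaurentPolynomial.T
    rw [AddMonoidAlgebra.coeff_single, Finsupp.sum_single_index]
    · simp only [add_right_inj, one_mul]
      rw [Finsupp.sum_ite_eq']
      split_ifs with h
      · rfl
      · rw [Finsupp.mem_support_iff, not_not] at h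
        exact h.symm
    · simp
  refine Finset.card_le_card_of_injOn (fun j => m + j) ?_ ?_
  · intro j hj
    rw [Finset.mem_coe, Finsupp.mem_support_iff] at hj ⊢
    rw [h1]
    exact hj
  · intro a _ b _ h
    exact add_left_cancel h

theorem card_SS (D : GaussDiagram n) (σ : Fin n → Bool) (B : ℕ)
    (hB : (red D.normalizedBracket).coeff.support.card ≤ B) :
    (SS (ZMod 2) (D.gmat σ) σ).coeff.support.card ≤ B := by
  refine le_trans ?_ hB
  unfold GaussDiagram.normalizedBracket
  rw [map_mul, map_mul, map_pow, map_neg, map_one, red_T, red_bracket D σ]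
  have h1 : (-1 : (ZMod 2)[T;T⁻¹]) = 1 := by
    rw [← map_one (C : ZMod 2 →+* _), ← map_neg]
    congr 1
  rw [h1, one_pow, one_mul]
  exact card_mul_T _ _

/-- **Isotropy, knotoid diagrams**: the annihilator of the short vectors is totally isotropic for the
cut matrix; only the number of the odd coefficients matters -/
theorem knotoidIso' (D : GaussDiagram n) (σ : Fin n → Bool) (B N : ℕ)
    (hB : (red D.normalizedBracket).coeff.support.card ≤ B)
    (hN : 2 * (B + 2) * ((D.gmat σ).rank + 1) ≤ N) (ρ : (Fin n → ZMod 2) → Fin n)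
    (hρ : ∀ v ∈ (rows (D.Cut σ)).erase 0, row (D.Cut σ) (ρ v) = v)
    (w w' : (Fin n → ZMod 2) → ZMod 2)
    (hw : ∀ d, Small ((rows (D.Cut σ)).erase 0) (twist (D.Cut σ) σ) N d →
      ∑ v ∈ (rows (D.Cut σ)).erase 0, w v * ((d v : ℤ) : ZMod 2) = 0)
    (hw' : ∀ d, Small ((rows (D.Cut σ)).erase 0) (twist (D.Cut σ) σ) N d →
      ∑ v ∈ (rows (D.Cut σ)).erase 0, w' v * ((d v : ℤ) : ZMod 2) = 0) :
    ∑ u ∈ (rows (D.Cut σ)).erase 0, ∑ v ∈ (rows (D.Cut σ)).erase 0,
      w u * w' v * D.gmat σ (ρ u) (ρ v) = 0 := by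
  classical
  have hrows : rows (D.Cut σ) = Finset.univ.image (D.gmat σ) := by
    unfold rows
    exact Finset.image_congr fun c _ => row_eq D σ c
  have htw : ∀ v, twist (D.Cut σ) σ v = tw (D.gmat σ) σ v := by
    intro v
    unfold twist tw signedCount
    refine Finset.sum_congr ?_ fun _ _ => rfl
    ext c
    rw [Finset.mem_filter, Finset.mem_filter, row_eq]
  have htw' : twist (D.Cut σ) σ = tw (D.gmat σ) σ := funext htw
  rw [hrows, htw'] at hw hw'
  rw [hrows] at hρ ⊢
  have hmono : ∀ d, Small ((Finset.univ.image (D.gmat σ)).erase 0) (tw (D.gmat σ) σ)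
      (2 * (B + 2) * ((D.gmat σ).rank + 1)) d →
      Small ((Finset.univ.image (D.gmat σ)).erase 0) (tw (D.gmat σ) σ) N d := by
    intro d hd
    refine ⟨hd.1, hd.2.1, hd.2.2.trans_le ?_⟩
    exact_mod_cast hN
  exact iso_main (D.gmat σ) (D.gmat_symm σ) σ B (card_SS D σ B hB) ρ
    (fun v hv => by rw [← row_eq]; exact hρ v hv) w w' (fun d hd => hw d (hmono d hd))
    (fun d hd => hw' d (hmono d hd))

/-- **Isotropy, knotoid diagrams** -/
theorem knotoidIso (D : GaussDiagram n) (σ : Fin n → Bool) (B N : ℕ)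
    (hB : coeffSum D.normalizedBracket ≤ B)
    (hN : 2 * (B + 2) * ((D.gmat σ).rank + 1) ≤ N) (ρ : (Fin n → ZMod 2) → Fin n)
    (hρ : ∀ v ∈ (rows (D.Cut σ)).erase 0, row (D.Cut σ) (ρ v) = v)
    (w w' : (Fin n → ZMod 2) → ZMod 2)
    (hw : ∀ d, Small ((rows (D.Cut σ)).erase 0) (twist (D.Cut σ) σ) N d →
      ∑ v ∈ (rows (D.Cut σ)).erase 0, w v * ((d v : ℤ) : ZMod 2) = 0)
    (hw' : ∀ d, Small ((rows (D.Cut σ)).erase 0) (twist (D.Cut σ) σ) N d →
      ∑ v ∈ (rows (D.Cut σ)).erase 0, w' v * ((d v : ℤ) : ZMod 2) = 0) :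
    ∑ u ∈ (rows (D.Cut σ)).erase 0, ∑ v ∈ (rows (D.Cut σ)).erase 0,
      w u * w' v * D.gmat σ (ρ u) (ρ v) = 0 := by
  refine knotoidIso' D σ B N ?_ hN ρ hρ w w' hw hw'
  have h1 := red_card D.normalizedBracket
  have h2 : ((red D.normalizedBracket).coeff.support.card : ℤ) ≤ B := h1.trans hB
  exact_mod_cast h2

end Pool.Agent.SPT.Lin
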