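import Mathlib
import Pool.Agent.SPT.LinG

/-!
# SPT, module LinH: knots, the annihilator of the short vectors is totally isotropic
-/

set_option autoImplicit false
set_option linter.unusedSectionVars false

open Module Matrix Submodule Pool.Agent.UNI LaurentPolynomial Pool.Agent.SPT.Rel

namespace Pool.Agent.SPT.Lin

open Pool.Agent.Helper16.Knotoid

variable {n : ℕ}

/-- **Isotropy, knot diagrams**, with the number of the odd coefficients -/
theorem knotIso' (g : GaussJones.Code n) (e σ : Fin n → Bool) (B N : ℕ)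
    (hB : (red (GaussJones.fPoly g e)).coeff.support.card ≤ B)
    (hN : 2 * (B + 2) * (((cutOpen g e).gmat σ).rank + 1) ≤ N) (ρ : (Fin n → ZMod 2) → Fin n)
    (hρ : ∀ v ∈ (rows (GaussJones.Cut g e σ)).erase 0, row (GaussJones.Cut g e σ) (ρ v) = v)
    (w w' : (Fin n → ZMod 2) → ZMod 2)
    (hw : ∀ d, Small ((rows (GaussJones.Cut g e σ)).erase 0) (twist (GaussJones.Cut g e σ) σ) N d →
      ∑ v ∈ (rows (GaussJones.Cut g e σ)).erase 0, w v * ((d v : ℤ) : ZMod 2) = 0)
    (hw' : ∀ d, Small ((rows (GaussJones.Cut g e σ)).erase 0) (twist (GaussJones.Cut g e σ) σ) N d →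
      ∑ v ∈ (rows (GaussJones.Cut g e σ)).erase 0, w' v * ((d v : ℤ) : ZMod 2) = 0) :
    ∑ u ∈ (rows (GaussJones.Cut g e σ)).erase 0, ∑ v ∈ (rows (GaussJones.Cut g e σ)).erase 0,
      w u * w' v * (cutOpen g e).gmat σ (ρ u) (ρ v) = 0 := by
  rcases Nat.eq_zero_or_pos n with hn | hn
  · subst hn
    have h1 : rows (GaussJones.Cut g e σ) = ∅ := by
      unfold rows
      rw [Finset.univ_eq_empty, Finset.image_empty]
    rw [h1, Finset.erase_empty, Finset.sum_empty]
  · have h1 : GaussJones.Cut g e σ = (cutOpen g e).Cut σ := by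
      funext i j
      exact propext (cut_closed g e σ i j)
    rw [h1] at hρ hw hw' ⊢
    rw [f_closed hn] at hB
    exact knotoidIso' (cutOpen g e) σ B N hB hN ρ hρ w w' hw hw'

/-- **Isotropy, knot diagrams** -/
theorem knotIso (g : GaussJones.Code n) (e σ : Fin n → Bool) (B N : ℕ)
    (hB : coeffSum (GaussJones.fPoly g e) ≤ B)
    (hN : 2 * (B + 2) * (((cutOpen g e).gmat σ).rank + 1) ≤ N) (ρ : (Fin n → ZMod 2) → Fin n)
    (hρ : ∀ v ∈ (rows (GaussJones.Cut g e σ)).erase 0, row (GaussJones.Cut g e σ) (ρ v) = v)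
    (w w' : (Fin n → ZMod 2) → ZMod 2)
    (hw : ∀ d, Small ((rows (GaussJones.Cut g e σ)).erase 0) (twist (GaussJones.Cut g e σ) σ) N d →
      ∑ v ∈ (rows (GaussJones.Cut g e σ)).erase 0, w v * ((d v : ℤ) : ZMod 2) = 0)
    (hw' : ∀ d, Small ((rows (GaussJones.Cut g e σ)).erase 0) (twist (GaussJones.Cut g e σ) σ) N d →
      ∑ v ∈ (rows (GaussJones.Cut g e σ)).erase 0, w' v * ((d v : ℤ) : ZMod 2) = 0) :
    ∑ u ∈ (rows (GaussJones.Cut g e σ)).erase 0, ∑ v ∈ (rows (GaussJones.Cut g e σ)).erase 0,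
      w u * w' v * (cutOpen g e).gmat σ (ρ u) (ρ v) = 0 := by
  refine knotIso' g e σ B N ?_ hN ρ hρ w w' hw hw'
  have h1 := red_card (GaussJones.fPoly g e)
  have h2 : ((red (GaussJones.fPoly g e)).coeff.support.card : ℤ) ≤ B := h1.trans hB
  exact_mod_cast h2

end Pool.Agent.SPT.Lin
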