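import Mathlib
import Pool.Agent.SPT.Stmt

/-!
# SPT: all patterns, with a condition on the cuts
-/

set_option autoImplicit false

open Submodule LaurentPolynomial

namespace Pool.Agent.SPT

open Classical in
/-- the set of the crossings which are in relation `R` with an odd number of elements of `Y` -/
noncomputable def cut {n : ℕ} (R : Fin n → Fin n → Prop) (Y : Finset (Fin n)) : Finset (Fin n) :=
  Finset.univ.filter fun c => Odd (Y.filter fun d => R c d).card

open Classical in
/-- the cuts -/
noncomputable def cuts {n : ℕ} (R : Fin n → Fin n → Prop) : Finset (Finset (Fin n)) :=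
  Finset.univ.image (cut R)

/-- There are at most `k` different rows, not all zero, and for some integer `s` the signed counts of an
odd number of cuts differ from `s` by at most `d`, while those of all other cuts differ from `s` by at
least `N`. -/
def OddCut {n : ℕ} (R : Fin n → Fin n → Prop) (σ : Fin n → Bool) (k d N : ℕ) : Prop :=
  (∃ c c', R c c') ∧ (rows R).card ≤ k ∧ ∃ s : ℤ,
    Odd ((cuts R).filter fun C => |signedCount σ C - s| ≤ d).card ∧
    ∀ C ∈ cuts R, |signedCount σ C - s| ≤ d ∨ (N : ℤ) ≤ |signedCount σ C - s|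

/-- **knotoid diagrams** -/
def St_KnotoidC : Prop :=
  ∀ k d B : ℕ, ∃ N : ℕ, ∀ (n : ℕ) (D : Helper16.Knotoid.GaussDiagram n) (σ : Fin n → Bool),
    OddCut (D.Cut σ) σ k d N → (B : ℤ) < coeffSum D.normalizedBracket

/-- **knot diagrams** -/
def St_KnotC : Prop :=
  ∀ k d B : ℕ, ∃ N : ℕ, ∀ (n : ℕ) (g : GaussJones.Code n) (e σ : Fin n → Bool),
    OddCut (GaussJones.Cut g e σ) σ k d N → (B : ℤ) < coeffSum (GaussJones.fPoly g e)

end Pool.Agent.SPT
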