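import Mathlib
import Pool.Agent.SPT.Clu
import Pool.Agent.SPT.CutSt

/-!
# SPT: the cluster lemma with differences of sums over subsets
-/

set_option autoImplicit false
set_option linter.unusedSectionVars false

open Submodule MeasureTheory

namespace Pool.Agent.SPT

theorem CluT_LA_one {k : ℕ} (R : Finset (Finset (Fin k) × Finset (Fin k)))
    (T : Finset (Fin k) × Finset (Fin k)) :
    ∃ K : ℝ, 0 ≤ K ∧ (dif T ∈ span ℚ (dif '' (R : Set _)) →
      ∀ (a : Fin k → ℝ) (δ : ℝ), (∀ p ∈ R, |∑ j ∈ p.1, a j - ∑ j ∈ p.2, a j| ≤ δ) →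
        |∑ j ∈ T.1, a j - ∑ j ∈ T.2, a j| ≤ K * δ) := by
  by_cases h : dif T ∈ span ℚ (dif '' (R : Set _))
  · rw [Submodule.mem_span_image_finset_iff_exists_fun] at h
    obtain ⟨c, hc⟩ := h
    refine ⟨∑ p : R, |((c p : ℚ) : ℝ)|, Finset.sum_nonneg fun _ _ => abs_nonneg _, ?_⟩
    intro _ a δ ha
    have hd : ∀ p : Finset (Fin k) × Finset (Fin k), ∑ j ∈ p.1, a j - ∑ j ∈ p.2, a j =
        ∑ j, ((dif p j : ℚ) : ℝ) * a j := by
      intro p
      have hp1 := sum_ind p.1 a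
      have hp2 := sum_ind p.2 a
      rw [hp1, hp2, ← Finset.sum_sub_distrib]
      refine Finset.sum_congr rfl fun j _ => ?_
      unfold dif
      rw [Pi.sub_apply]
      push_cast
      ring
    have h1 : ∑ j ∈ T.1, a j - ∑ j ∈ T.2, a j =
        ∑ p : R, ((c p : ℚ) : ℝ) * (∑ j ∈ p.1.1, a j - ∑ j ∈ p.1.2, a j) := by
      have h3 : ∀ j, ((dif T j : ℚ) : ℝ) =
          ∑ p : R, ((c p : ℚ) : ℝ) * ((dif p.1 j : ℚ) : ℝ) := by
        intro j
        rw [← hc, Finset.sum_apply]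
        push_cast
        refine Finset.sum_congr rfl fun p _ => ?_
        simp only [Pi.smul_apply, smul_eq_mul]
        push_cast
        rfl
      rw [hd T]
      simp only [h3]
      simp only [Finset.sum_mul]
      rw [Finset.sum_comm]
      refine Finset.sum_congr rfl fun p _ => ?_
      rw [hd p.1, Finset.mul_sum]
      refine Finset.sum_congr rfl fun j _ => ?_
      ring
    rw [h1]
    refine (Finset.abs_sum_le_sum_abs _ _).trans ?_
    rw [Finset.sum_mul]
    refine Finset.sum_le_sum fun p _ => ?_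
    rw [abs_mul]
    exact mul_le_mul_of_nonneg_left (ha p.1 p.2) (abs_nonneg _)
  · exact ⟨0, le_refl _, fun h1 => absurd h1 h⟩

theorem CluT_LA (k : ℕ) : ∃ K : ℝ, 0 ≤ K ∧
    ∀ (R : Finset (Finset (Fin k) × Finset (Fin k))) (T : Finset (Fin k) × Finset (Fin k)),
      dif T ∈ span ℚ (dif '' (R : Set _)) →
      ∀ (a : Fin k → ℝ) (δ : ℝ), 0 ≤ δ →
        (∀ p ∈ R, |∑ j ∈ p.1, a j - ∑ j ∈ p.2, a j| ≤ δ) →
        |∑ j ∈ T.1, a j - ∑ j ∈ T.2, a j| ≤ K * δ := by
  classical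
  choose K hK0 hK using fun (q : Finset (Finset (Fin k) × Finset (Fin k)) ×
      (Finset (Fin k) × Finset (Fin k))) =>
    CluT_LA_one q.1 q.2
  refine ⟨∑ q, K q, Finset.sum_nonneg fun q _ => hK0 q, fun R i h a δ hδ ha => ?_⟩
  refine (hK (R, i) h a δ ha).trans ?_
  exact mul_le_mul_of_nonneg_right
    (Finset.single_le_sum (f := K) (fun q _ => hK0 q) (Finset.mem_univ (R, i))) hδ

/-- an integral vector which respects the relations of `R` and violates those of `F` -/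
theorem CluT_u {k : ℕ} (R : Set (Finset (Fin k) × Finset (Fin k)))
    (F : Finset (Finset (Fin k) × Finset (Fin k)))
    (h : ∀ T ∈ F, dif T ∉ span ℚ (dif '' R)) :
    ∃ u : Fin k → ℤ, (∀ T ∈ F, ∑ i ∈ T.1, u i ≠ ∑ i ∈ T.2, u i) ∧
      ∀ p ∈ R, ∑ i ∈ p.1, u i = ∑ i ∈ p.2, u i := by
  classical
  obtain ⟨φ, hφ, hφ0⟩ := Module.Dual.exists_forall_mem_ne_zero_of_forall_exists
    (K := ℚ) (ι := F) (span ℚ (dif '' R)).dualAnnihilator
    (fun T => Module.Dual.eval ℚ (Fin k → ℚ)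
      (dif (T : Finset (Fin k) × Finset (Fin k)))) (fun T => by
      obtain ⟨f, hf, hf'⟩ := Submodule.exists_dual_map_eq_bot_of_notMem (h T T.2) inferInstance
      refine ⟨f, ?_, hf⟩
      rw [Submodule.mem_dualAnnihilator]
      intro w hw
      have h1 : f w ∈ (span ℚ (dif '' R)).map f := ⟨w, hw, rfl⟩
      rw [hf'] at h1
      exact h1)
  rw [Submodule.mem_dualAnnihilator] at hφ
  obtain ⟨M, hM⟩ : ∃ M : ℕ, M = ∏ i : Fin k, (φ (Pi.single i 1)).den := ⟨_, rfl⟩
  have hM0 : M ≠ 0 := by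
    rw [hM]
    exact Finset.prod_ne_zero_iff.2 fun i _ => (φ (Pi.single i 1)).den_ne_zero
  have hint : ∀ i : Fin k, ∃ m : ℤ, (m : ℚ) = M * φ (Pi.single i 1) := by
    intro i
    obtain ⟨d, hd⟩ : (φ (Pi.single i 1)).den ∣ M := by
      rw [hM]
      exact Finset.dvd_prod_of_mem _ (Finset.mem_univ i)
    refine ⟨d * (φ (Pi.single i 1)).num, ?_⟩
    have h1 := Rat.mul_den_eq_num (φ (Pi.single i 1))
    rw [hd]
    push_cast
    rw [← h1]
    ring
  choose u hu using hint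
  have hS : ∀ S : Finset (Fin k), ((∑ i ∈ S, u i : ℤ) : ℚ) = M * φ (ind S) := by
    intro S
    push_cast
    have h2 : ind S = ∑ i ∈ S, Pi.single i (1 : ℚ) := by
      funext j
      unfold ind
      rw [Finset.sum_apply]
      simp only [Pi.single_apply]
      rw [Finset.sum_ite_eq]
    rw [h2, map_sum, Finset.mul_sum]
    exact Finset.sum_congr rfl fun i _ => hu i
  refine ⟨u, fun T hT => ?_, fun p hp => ?_⟩
  · intro h0
    have h1 : (M : ℚ) * φ (dif T) = 0 := by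
      have h2 : ((∑ i ∈ T.1, u i : ℤ) : ℚ) - ((∑ i ∈ T.2, u i : ℤ) : ℚ) = 0 := by
        rw [h0, sub_self]
      rw [hS, hS, ← mul_sub, ← map_sub] at h2
      exact h2
    rw [mul_eq_zero] at h1
    rcases h1 with h1 | h1
    · exact hM0 (by exact_mod_cast h1)
    · exact hφ0 ⟨T, hT⟩ h1
  · have h3 : φ (ind p.1) = φ (ind p.2) := by
      have h4 := hφ (dif p) (subset_span ⟨p, hp, rfl⟩)
      unfold dif at h4
      rw [map_sub] at h4
      exact sub_eq_zero.1 h4
    have h5 : ((∑ i ∈ p.1, u i : ℤ) : ℚ) = ((∑ i ∈ p.2, u i : ℤ) : ℚ) := by rw [hS, hS, h3]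
    exact_mod_cast h5

theorem CluT_core (k C : ℕ) (τ : ℝ) (hτ : 0 < τ) : ∃ N : ℕ,
    ∀ (c : Finset (Fin k) → ℤ), (∀ S, |c S| ≤ 2 ^ k) → ∀ a : Fin k → ℤ,
      (∃ θ : ℝ, 0 < θ ∧ θ ≤ τ ∧ 1 / 2 ≤ ‖trig c a θ‖) ∨
      ∃ u : Fin k → ℤ, (∀ S S' : Finset (Fin k), (N : ℤ) ≤ |∑ i ∈ S, a i - ∑ i ∈ S', a i| →
          ∑ i ∈ S, u i ≠ ∑ i ∈ S', u i) ∧
        (∀ S S' : Finset (Fin k), |∑ i ∈ S, a i - ∑ i ∈ S', a i| ≤ C →
          ∑ i ∈ S, u i = ∑ i ∈ S', u i) ∧
        ∀ h : ℤ → ℤ, ∑ S, c S * h (∑ i ∈ S, u i) = 0 := by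
  classical
  obtain ⟨K, hK0, hK⟩ := CluT_LA k
  obtain ⟨ε, hε, hεk⟩ : ∃ ε : ℝ, 0 < ε ∧ 16 * 4 ^ k * ε ≤ 1 :=
    ⟨1 / (16 * 4 ^ k), by positivity, by
      rw [mul_one_div, div_self (by positivity)]⟩
  have h4k : (1 : ℝ) ≤ 4 ^ k := one_le_pow₀ (by norm_num)
  have hε16 : 16 * ε ≤ 1 := by nlinarith
  have hε1 : ε < 1 := by linarith
  obtain ⟨τ', hτ', hττ, hCτ⟩ : ∃ τ' : ℝ, 0 < τ' ∧ τ' ≤ τ ∧ C * τ' ≤ ε := by
    refine ⟨min τ (ε / (C + 1)), lt_min hτ (by positivity), min_le_left _ _, ?_⟩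
    calc C * min τ (ε / (C + 1)) ≤ (C + 1) * (ε / (C + 1)) :=
          mul_le_mul (by linarith) (min_le_right _ _) (by positivity) (by positivity)
      _ = ε := by field_simp
  obtain ⟨N, hN⟩ := exists_nat_gt (K * (ε / (τ' * ε ^ (2 * 4 ^ k))))
  refine ⟨N, fun c hc a => ?_⟩
  obtain ⟨j, hj, hD⟩ := Clu_scale ε τ' hε hε1 hτ'
    ((Finset.univ : Finset (Finset (Fin k) × Finset (Fin k))).image
      fun p => |sm a p.1 - sm a p.2|) (4 ^ k) (by
      refine Finset.card_image_le.trans ?_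
      rw [Finset.card_univ, Fintype.card_prod, Fintype.card_finset, Fintype.card_fin, ← mul_pow]
      norm_num) (by
      intro d hd
      rw [Finset.mem_image] at hd
      obtain ⟨p, -, rfl⟩ := hd
      exact abs_nonneg _)
  obtain ⟨t, ht⟩ : ∃ t : ℝ, t = τ' * ε ^ (2 * j) := ⟨_, rfl⟩
  rw [← ht] at hD
  have ht0 : 0 < t := by
    rw [ht]
    positivity
  have htτ' : t ≤ τ' := by
    rw [ht]
    exact mul_le_of_le_one_right hτ'.le (pow_le_one₀ hε.le hε1.le)
  have htτ : t ≤ τ := htτ'.trans hττ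
  have htJ : τ' * ε ^ (2 * 4 ^ k) ≤ t := by
    rw [ht]
    exact mul_le_mul_of_nonneg_left (pow_le_pow_of_le_one hε.le hε1.le (by omega)) hτ'.le
  have hD' : ∀ S S', |sm a S - sm a S'| * t ≤ ε ∨ ε⁻¹ ≤ |sm a S - sm a S'| * t :=
    fun S S' => hD _ (Finset.mem_image.2 ⟨(S, S'), Finset.mem_univ _, rfl⟩)
  have hεi : 2 * ε < ε⁻¹ := by
    rw [lt_inv_comm₀ (by positivity) hε]
    rw [mul_inv]
    have h5 : (2 : ℝ)⁻¹ * ε⁻¹ = ε⁻¹ / 2 := by ring
    have h6 : (16 : ℝ) ≤ ε⁻¹ := by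
      rw [le_inv_comm₀ (by norm_num) hε]
      linarith
    rw [h5]
    linarith
  by_cases hall : ∀ S₀, ∑ S with |sm a S - sm a S₀| * t ≤ ε, c S = 0
  · right
    obtain ⟨u, hu, hu'⟩ := CluT_u {p | |sm a p.1 - sm a p.2| * t ≤ ε}
      (Finset.univ.filter fun T : Finset (Fin k) × Finset (Fin k) =>
        (N : ℤ) ≤ |∑ i ∈ T.1, a i - ∑ i ∈ T.2, a i|) (by
        intro T hT hspan
        rw [Finset.mem_filter] at hT
        have h1 := hK (Finset.univ.filter fun p => |sm a p.1 - sm a p.2| * t ≤ ε) T (by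
            rw [Finset.coe_filter]
            simpa using hspan) (fun i => (a i : ℝ)) (ε / t) (by positivity) (by
            intro p hp
            rw [Finset.mem_filter] at hp
            rw [le_div_iff₀ ht0]
            exact hp.2)
        have h2 : (N : ℝ) ≤ |∑ i ∈ T.1, (a i : ℝ) - ∑ i ∈ T.2, (a i : ℝ)| := by
          exact_mod_cast hT.2
        have h3 : K * (ε / t) ≤ K * (ε / (τ' * ε ^ (2 * 4 ^ k))) := by
          refine mul_le_mul_of_nonneg_left ?_ hK0
          exact div_le_div_of_nonneg_left hε.le (by positivity) htJ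
        linarith)
    refine ⟨u, fun S S' hT => hu (S, S') (Finset.mem_filter.2 ⟨Finset.mem_univ _, hT⟩),
      fun S S' hT => hu' (S, S') (by
        have h1 : |sm a S - sm a S'| ≤ C := by
          unfold sm
          exact_mod_cast hT
        show |sm a S - sm a S'| * t ≤ ε
        calc |sm a S - sm a S'| * t ≤ C * τ' := mul_le_mul h1 htτ' ht0.le (Nat.cast_nonneg C)
          _ ≤ ε := hCτ), fun h => ?_⟩
    let st : Setoid (Finset (Fin k)) :=
      { r := fun S S' => |sm a S - sm a S'| * t ≤ ε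
        iseqv := by
          refine ⟨?_, ?_, ?_⟩
          · intro S
            simp [hε.le]
          · intro S S' h
            rwa [abs_sub_comm]
          · intro S S' S'' h h'
            rcases hD' S S'' with h1 | h1
            · exact h1
            · exfalso
              have h2 : |sm a S - sm a S''| ≤ |sm a S - sm a S'| + |sm a S' - sm a S''| :=
                abs_sub_le _ _ _
              have h3 := mul_le_mul_of_nonneg_right h2 ht0.le
              rw [add_mul] at h3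
              linarith }
    rw [← Finset.sum_fiberwise (s := Finset.univ) (g := fun S => (Quotient.mk st S))]
    refine Finset.sum_eq_zero fun q _ => ?_
    induction q using Quotient.inductionOn with
    | h S₀ =>
      have h1 : ∀ S, Quotient.mk st S = Quotient.mk st S₀ ↔ |sm a S - sm a S₀| * t ≤ ε := by
        intro S
        exact Quotient.eq
      have h2 : ∑ S with Quotient.mk st S = Quotient.mk st S₀, c S * h (∑ i ∈ S, u i) =
          (∑ S with Quotient.mk st S = Quotient.mk st S₀, c S) * h (∑ i ∈ S₀, u i) := by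
        rw [Finset.sum_mul]
        refine Finset.sum_congr rfl fun S hS => ?_
        rw [Finset.mem_filter, h1] at hS
        rw [hu' (S, S₀) hS.2]
      rw [h2]
      have h3 := hall S₀
      simp only [h1]
      rw [h3, zero_mul]
  · left
    push Not at hall
    obtain ⟨S₀, hS₀⟩ := hall
    obtain ⟨θ, hθ, hθt, h⟩ := trig_large c hc a ε t hε hεk ht0 S₀
      (fun S => |sm a S - sm a S₀| * t ≤ ε) (fun S h => h)
      (fun S h => (hD' S S₀).resolve_left h) hS₀
    exact ⟨θ, hθ, hθt.trans htτ, h⟩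

end Pool.Agent.SPT
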