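import Mathlib
import Pool.Agent.SPT.CluT
import Pool.Agent.SPT.Fin

/-!
# SPT: all patterns, with large cut sums: the parity of the coefficients
-/

set_option autoImplicit false
set_option linter.unusedSectionVars false

open Submodule LaurentPolynomial

namespace Pool.Agent.SPT

section
variable {V : Type} [AddCommGroup V] [Module (ZMod 2) V] [DecidableEq V]

theorem card_odd {W : Type} [AddCommGroup W] [Module (ZMod 2) W] [Finite W]
    (U : Submodule (ZMod 2) W) : (Nat.card U : ZMod 2) = if U = ⊥ then 1 else 0 := by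
  classical
  have : Module.Finite (ZMod 2) U := Module.Finite.of_finite
  rw [Module.natCard_eq_pow_finrank (K := ZMod 2)]
  rw [Nat.card_eq_fintype_card, ZMod.card]
  split_ifs with h
  · rw [h, finrank_bot, pow_zero, Nat.cast_one]
  · have h1 : Module.finrank (ZMod 2) U ≠ 0 := by
      intro h2
      exact h (Submodule.finrank_eq_zero.1 h2)
    push_cast
    have h2 : (2 : ZMod 2) = 0 := rfl
    rw [h2, zero_pow h1]

/-- the elements of `X` as elements of their span -/
def gi {m : ℕ} (g : Fin m ↪ V) (X : Finset V) (hX : Finset.univ.map g = X) (i : Fin m) :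
    span (ZMod 2) (X : Set V) :=
  ⟨g i, subset_span (by rw [← hX]; simp)⟩

theorem spans_iff {m : ℕ} (g : Fin m ↪ V) (X : Finset V) (hX : Finset.univ.map g = X)
    (S : Finset (Fin m)) : Spans ⊥ X (S.map g) ↔ span (ZMod 2) (gi g X hX '' (S : Set (Fin m))) = ⊤ := by
  have h1 : (span (ZMod 2) (gi g X hX '' (S : Set (Fin m)))).map
      (span (ZMod 2) (X : Set V)).subtype = span (ZMod 2) ((S.map g : Finset V) : Set V) := by
    rw [Submodule.map_span, ← Set.image_comp]
    congr 1
    ext v
    simp [gi]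
  unfold Spans
  rw [bot_sup_eq, bot_sup_eq]
  constructor
  · intro h
    apply Submodule.map_injective_of_injective (span (ZMod 2) (X : Set V)).injective_subtype
    rw [h1, h, Submodule.map_top, Submodule.range_subtype]
  · intro h
    rw [← h1, h, Submodule.map_top, Submodule.range_subtype]

theorem bot_iff {m : ℕ} (g : Fin m ↪ V) (X : Finset V) (hX : Finset.univ.map g = X)
    (S : Finset (Fin m)) :
    (span (ZMod 2) (gi g X hX '' (S : Set (Fin m)))).dualAnnihilator = ⊥ ↔
      Spans ⊥ X (S.map g) := by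
  rw [spans_iff g X hX S]
  have : Module.Finite (ZMod 2) (span (ZMod 2) (X : Set V)) := by
    apply Module.Finite.span_of_finite
    exact X.finite_toSet
  constructor
  · intro h
    have h1 := Subspace.dualAnnihilator_dualCoannihilator_eq
      (W := span (ZMod 2) (gi g X hX '' (S : Set (Fin m))))
    rw [h, Submodule.dualCoannihilator_bot] at h1
    exact h1.symm
  · intro h
    rw [h, Submodule.dualAnnihilator_top]

open Classical in
/-- the zero set of a functional -/
noncomputable def zset {m : ℕ} (g : Fin m ↪ V) (X : Finset V) (hX : Finset.univ.map g = X)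
    (l : Module.Dual (ZMod 2) (span (ZMod 2) (X : Set V))) : Finset (Fin m) :=
  Finset.univ.filter fun i => l (gi g X hX i) = 0

theorem mem_annih {m : ℕ} (g : Fin m ↪ V) (X : Finset V) (hX : Finset.univ.map g = X)
    (S : Finset (Fin m)) (l : Module.Dual (ZMod 2) (span (ZMod 2) (X : Set V))) :
    l ∈ (span (ZMod 2) (gi g X hX '' (S : Set (Fin m)))).dualAnnihilator ↔
      S ⊆ zset g X hX l := by
  rw [Submodule.mem_dualAnnihilator]
  constructor
  · intro h i hi
    unfold zset
    rw [Finset.mem_filter]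
    exact ⟨Finset.mem_univ _, h _ (subset_span ⟨i, hi, rfl⟩)⟩
  · intro h w hw
    have h1 : span (ZMod 2) (gi g X hX '' (S : Set (Fin m))) ≤ LinearMap.ker l := by
      rw [Submodule.span_le]
      rintro _ ⟨i, hi, rfl⟩
      have h2 := h hi
      unfold zset at h2
      rw [Finset.mem_filter] at h2
      exact h2.2
    exact h1 hw

open Classical in
/-- the parity of the coefficients -/
theorem cf_parity {m : ℕ} (g : Fin m ↪ V) (X : Finset V) (hX : Finset.univ.map g = X)
    [Fintype (Module.Dual (ZMod 2) (span (ZMod 2) (X : Set V)))] (T : Finset (Fin m)) :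
    ((cf g X T : ℤ) : ZMod 2) = ∑ l : Module.Dual (ZMod 2) (span (ZMod 2) (X : Set V)),
      if zset g X hX l = T then 1 else 0 := by
  have h0 : ∀ S : Finset (Fin m), (if Spans ⊥ X (S.map g) then (1 : ZMod 2) else 0) =
      ∑ l : Module.Dual (ZMod 2) (span (ZMod 2) (X : Set V)),
        if S ⊆ zset g X hX l then 1 else 0 := by
    intro S
    have h1 := card_odd (span (ZMod 2) (gi g X hX '' (S : Set (Fin m)))).dualAnnihilator
    have h1' : (Nat.card (span (ZMod 2) (gi g X hX '' (S : Set (Fin m)))).dualAnnihilator : ZMod 2) =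
        if Spans ⊥ X (S.map g) then (1 : ZMod 2) else 0 := by
      rw [h1]
      exact if_congr (bot_iff g X hX S) rfl rfl
    rw [← h1', Nat.card_eq_fintype_card, Finset.sum_boole, Fintype.card_subtype]
    congr 2
    ext l
    simp only [Finset.mem_filter, Finset.mem_univ, true_and]
    exact mem_annih g X hX S l
  have h2 : ((cf g X T : ℤ) : ZMod 2) = ∑ S : Finset (Fin m),
      (if T ⊆ S then (1 : ZMod 2) else 0) * (if Spans ⊥ X (S.map g) then (1 : ZMod 2) else 0) := by
    unfold cf
    push_cast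
    refine Finset.sum_congr rfl fun S _ => ?_
    by_cases hT : T ⊆ S
    · by_cases hS : Spans ⊥ X (S.map g)
      · rw [if_pos ⟨hS, hT⟩, if_pos hT, if_pos hS]
        have h3 : (-1 : ZMod 2) = 1 := rfl
        rw [h3, one_pow, mul_one]
      · rw [if_neg (fun h => hS h.1), if_neg hS, mul_zero]
    · rw [if_neg (fun h => hT h.2), if_neg hT, zero_mul]
  rw [h2]
  simp only [h0]
  simp only [Finset.mul_sum]
  rw [Finset.sum_comm]
  refine Finset.sum_congr rfl fun l _ => ?_
  have h3 : ∀ S : Finset (Fin m), (if T ⊆ S then (1 : ZMod 2) else 0) *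
      (if S ⊆ zset g X hX l then 1 else 0) =
      if S ∈ Finset.Icc T (zset g X hX l) then 1 else 0 := by
    intro S
    have hiff : S ∈ Finset.Icc T (zset g X hX l) ↔ T ⊆ S ∧ S ⊆ zset g X hX l := Finset.mem_Icc
    by_cases h4 : T ⊆ S <;> by_cases h5 : S ⊆ zset g X hX l
    · rw [if_pos h4, if_pos h5, if_pos (hiff.2 ⟨h4, h5⟩), mul_one]
    · rw [if_neg h5, if_neg (fun h => h5 (hiff.1 h).2), mul_zero]
    · rw [if_neg h4, if_neg (fun h => h4 (hiff.1 h).1), zero_mul]
    · rw [if_neg h4, if_neg (fun h => h4 (hiff.1 h).1), zero_mul]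
  simp only [h3]
  rw [Finset.sum_boole]
  have h6 : (Finset.univ.filter fun S => S ∈ Finset.Icc T (zset g X hX l)) =
      Finset.Icc T (zset g X hX l) := by
    ext S
    simp
  rw [h6]
  by_cases h7 : T ⊆ zset g X hX l
  · rw [Finset.card_Icc_finset h7]
    by_cases h8 : zset g X hX l = T
    · rw [if_pos h8, h8, Nat.sub_self, pow_zero, Nat.cast_one]
    · rw [if_neg h8]
      have h9 : (zset g X hX l).card - T.card ≠ 0 := by
        have h10 := Finset.card_lt_card (Finset.ssubset_iff_subset_ne.2 ⟨h7, Ne.symm h8⟩)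
        omega
      push_cast
      have h11 : (2 : ZMod 2) = 0 := rfl
      rw [h11, zero_pow h9]
  · rw [Finset.Icc_eq_empty (by exact h7), Finset.card_empty, Nat.cast_zero, if_neg]
    intro h8
    exact h7 h8.symm.subset

end

open Classical in
/-- the supports of the functionals on `X` -/
noncomputable def supps {V : Type} [AddCommGroup V] [Module (ZMod 2) V] (X : Finset V) :
    Finset (Finset V) :=
  X.powerset.filter fun T => ∃ φ : V →ₗ[ZMod 2] ZMod 2, T = X.filter fun v => φ v ≠ 0

/-- clusters, with a condition on the cuts -/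
def St_ClusterC : Prop :=
  ∀ (k d : ℕ) (τ : ℝ), 0 < τ → ∃ N : ℕ,
    ∀ (V : Type) [AddCommGroup V] [Module (ZMod 2) V] (X : Finset V), X.card ≤ k →
      ∀ (a : V → ℤ) (s : ℤ), Odd ((supps X).filter fun T => |∑ v ∈ T, a v - s| ≤ d).card →
        (∀ T ∈ supps X, |∑ v ∈ T, a v - s| ≤ d ∨ (N : ℤ) ≤ |∑ v ∈ T, a v - s|) →
        ∃ θ : ℝ, 0 < θ ∧ θ ≤ τ ∧
          1 / 2 ≤ ‖PP X ⊥ (fun v => Complex.exp (((a v * θ : ℝ) : ℂ) * Complex.I))‖

theorem zset_compl {V : Type} [AddCommGroup V] [Module (ZMod 2) V] {m : ℕ} (g : Fin m ↪ V)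
    (X : Finset V) (hX : Finset.univ.map g = X)
    (l : Module.Dual (ZMod 2) (span (ZMod 2) (X : Set V))) (φ : V →ₗ[ZMod 2] ZMod 2)
    (hφ : φ.comp (span (ZMod 2) (X : Set V)).subtype = l) (p : V → Prop) [DecidablePred p]
    (hp : ∀ v, p v ↔ φ v ≠ 0) :
    (X.filter p) = ((zset g X hX l)ᶜ).map g := by
  classical
  have hφ' : ∀ i, φ (g i) = l (gi g X hX i) := by
    intro i
    rw [← hφ]
    rfl
  ext v
  simp only [Finset.mem_filter, Finset.mem_map, Finset.mem_compl]
  constructor
  · rintro ⟨hv, hv0⟩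
    rw [← hX, Finset.mem_map] at hv
    obtain ⟨i, _, rfl⟩ := hv
    refine ⟨i, ?_, rfl⟩
    intro h10
    unfold zset at h10
    rw [Finset.mem_filter] at h10
    exact (hp _).1 hv0 (by rw [hφ' i]; exact h10.2)
  · rintro ⟨i, hi, rfl⟩
    refine ⟨by rw [← hX]; simp, (hp _).2 fun h10 => hi ?_⟩
    unfold zset
    rw [Finset.mem_filter]
    exact ⟨Finset.mem_univ _, by rw [← hφ' i]; exact h10⟩

theorem zset_mem {V : Type} [AddCommGroup V] [Module (ZMod 2) V] {m : ℕ} (g : Fin m ↪ V)
    (X : Finset V) (hX : Finset.univ.map g = X)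
    (l : Module.Dual (ZMod 2) (span (ZMod 2) (X : Set V))) :
    ((zset g X hX l)ᶜ).map g ∈ supps X := by
  classical
  obtain ⟨φ, hφ⟩ := LinearMap.exists_extend l
  unfold supps
  rw [Finset.mem_filter, Finset.mem_powerset]
  constructor
  · exact (Finset.map_subset_map.2 (Finset.subset_univ _)).trans hX.subset
  · refine ⟨φ, ?_⟩
    symm
    exact zset_compl g X hX l φ hφ _ (fun v => Iff.rfl)

theorem zset_inj {V : Type} [AddCommGroup V] [Module (ZMod 2) V] {m : ℕ} (g : Fin m ↪ V)
    (X : Finset V) (hX : Finset.univ.map g = X)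
    (l l' : Module.Dual (ZMod 2) (span (ZMod 2) (X : Set V)))
    (h : zset g X hX l = zset g X hX l') : l = l' := by
  classical
  have h1 : ∀ i, l (gi g X hX i) = l' (gi g X hX i) := by
    intro i
    by_cases h2 : i ∈ zset g X hX l
    · have h3 := h2
      rw [h] at h3
      unfold zset at h2 h3
      rw [Finset.mem_filter] at h2 h3
      rw [h2.2, h3.2]
    · have h3 := h2
      rw [h] at h3
      unfold zset at h2 h3
      rw [Finset.mem_filter] at h2 h3
      rcases zm2 (l (gi g X hX i)) with h4 | h4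
      · exact absurd ⟨Finset.mem_univ _, h4⟩ h2
      · rcases zm2 (l' (gi g X hX i)) with h5 | h5
        · exact absurd ⟨Finset.mem_univ _, h5⟩ h3
        · rw [h4, h5]
  ext ⟨w, hw⟩
  induction hw using Submodule.span_induction with
  | mem v hv =>
    rw [← hX, Finset.coe_map] at hv
    obtain ⟨i, _, rfl⟩ := hv
    exact h1 i
  | zero =>
    have h2 : (⟨0, Submodule.zero_mem _⟩ : span (ZMod 2) (X : Set V)) = 0 := rfl
    rw [h2, map_zero, map_zero]
  | add v w hv hw ihv ihw =>
    have h2 : (⟨v + w, Submodule.add_mem _ hv hw⟩ : span (ZMod 2) (X : Set V)) =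
      ⟨v, hv⟩ + ⟨w, hw⟩ := rfl
    rw [h2, map_add, map_add, ihv, ihw]
  | smul c v hv ihv =>
    have h2 : (⟨c • v, Submodule.smul_mem _ c hv⟩ : span (ZMod 2) (X : Set V)) = c • ⟨v, hv⟩ := rfl
    rw [h2, map_smul, map_smul, ihv]

theorem thm_ClusterC : St_ClusterC := by
  classical
  intro k d τ hτ
  choose N hN using fun m => CluT_core m (2 * d) τ hτ
  refine ⟨∑ m ∈ Finset.range (k + 1), N m + d, ?_⟩
  intro V _ _ X hk a s hodd hfar
  obtain ⟨m, hm⟩ : ∃ m, m = X.card := ⟨_, rfl⟩
  have hNm : ((N m : ℕ) : ℤ) ≤ ∑ m ∈ Finset.range (k + 1), ((N m : ℕ) : ℤ) := by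
    exact_mod_cast Finset.single_le_sum (f := N) (fun _ _ => Nat.zero_le _)
      (Finset.mem_range.2 (by omega : m < k + 1))
  obtain ⟨g, hg⟩ : ∃ g : Fin m ↪ V, Finset.univ.map g = X := by
    refine ⟨(X.equivFinOfCardEq hm.symm).symm.toEmbedding.trans
      (Function.Embedding.subtype _), ?_⟩
    ext v
    simp only [Finset.mem_map, Finset.mem_univ, true_and, Function.Embedding.trans_apply,
      Equiv.coe_toEmbedding, Function.Embedding.subtype_apply]
    constructor
    · rintro ⟨i, rfl⟩
      exact ((X.equivFinOfCardEq hm.symm).symm i).2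
    · intro hv
      exact ⟨X.equivFinOfCardEq hm.symm ⟨v, hv⟩, by rw [Equiv.symm_apply_apply]⟩
  rcases hN m (cf g X) (cf_le g X) (fun i => a (g i)) with ⟨θ, hθ, hθτ, h⟩ | ⟨u, hu, hu', hz⟩
  · refine ⟨θ, hθ, hθτ, ?_⟩
    rw [PP_map g X hg]
    unfold trig at h
    have h1 : ∀ T : Finset (Fin m), ∏ i ∈ T, Complex.exp (((a (g i) * θ : ℝ) : ℂ) * Complex.I) =
        Complex.exp (((sm (fun i => a (g i)) T * θ : ℝ) : ℂ) * Complex.I) := by
      intro T
      rw [← Complex.exp_sum]
      congr 1
      unfold sm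
      push_cast
      rw [Finset.sum_mul, Finset.sum_mul]
    simp only [h1]
    exact h
  · exfalso
    have : Module.Finite (ZMod 2) (span (ZMod 2) (X : Set V)) := by
      apply Module.Finite.span_of_finite
      exact X.finite_toSet
    have : Finite (span (ZMod 2) (X : Set V)) := Module.finite_of_finite (ZMod 2)
    have : Finite (Module.Dual (ZMod 2) (span (ZMod 2) (X : Set V))) :=
      Module.finite_of_finite (ZMod 2)
    let _ : Fintype (Module.Dual (ZMod 2) (span (ZMod 2) (X : Set V))) := Fintype.ofFinite _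
    -- the functionals with sum `s`
    obtain ⟨Ls, hLs⟩ : ∃ Ls, Ls = (Finset.univ.filter fun
        l : Module.Dual (ZMod 2) (span (ZMod 2) (X : Set V)) =>
          |∑ i ∈ (zset g X hg l)ᶜ, a (g i) - s| ≤ d) := ⟨_, rfl⟩
    have hcard : Ls.card = ((supps X).filter fun T => |∑ v ∈ T, a v - s| ≤ d).card := by
      apply Finset.card_bij (fun l _ => ((zset g X hg l)ᶜ).map g)
      · intro l hl
        rw [hLs, Finset.mem_filter] at hl
        rw [Finset.mem_filter]
        refine ⟨zset_mem g X hg l, ?_⟩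
        rw [Finset.sum_map]
        exact hl.2
      · intro l _ l' _ h1
        apply zset_inj g X hg
        have h2 := Finset.map_injective g h1
        exact compl_injective h2
      · intro T hT
        rw [Finset.mem_filter] at hT
        obtain ⟨hT1, hT2⟩ := hT
        unfold supps at hT1
        rw [Finset.mem_filter] at hT1
        obtain ⟨_, φ, hφ⟩ := hT1
        have h1 := zset_compl g X hg (φ.comp (span (ZMod 2) (X : Set V)).subtype) φ rfl
          (fun v => φ v ≠ 0) (fun v => Iff.rfl)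
        rw [← hφ] at h1
        refine ⟨φ.comp (span (ZMod 2) (X : Set V)).subtype, ?_, h1.symm⟩
        rw [hLs, Finset.mem_filter]
        refine ⟨Finset.mem_univ _, ?_⟩
        rw [h1, Finset.sum_map] at hT2
        exact hT2
    rw [← hcard] at hodd
    obtain ⟨l₀, hl₀⟩ : Ls.Nonempty := by
      rw [← Finset.card_pos]
      exact hodd.pos
    rw [hLs, Finset.mem_filter] at hl₀
    have hcompl : ∀ (b : Fin m → ℤ) (Z : Finset (Fin m)),
        ∑ i ∈ Z, b i = ∑ i, b i - ∑ i ∈ Zᶜ, b i := by
      intro b Z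
      have h10 := Finset.sum_add_sum_compl Z b
      linarith
    have hlevel : ∀ l : Module.Dual (ZMod 2) (span (ZMod 2) (X : Set V)),
        ∑ i ∈ zset g X hg l, u i = ∑ i ∈ zset g X hg l₀, u i ↔ l ∈ Ls := by
      intro l
      rw [hLs, Finset.mem_filter]
      constructor
      · intro h1
        refine ⟨Finset.mem_univ _, ?_⟩
        have h2 := hfar _ (zset_mem g X hg l)
        rw [Finset.sum_map] at h2
        rcases h2 with h2 | h2
        · exact h2
        · exfalso
          apply hu (zset g X hg l) (zset g X hg l₀) _ h1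
          rw [hcompl (fun i => a (g i)) (zset g X hg l),
            hcompl (fun i => a (g i)) (zset g X hg l₀)]
          have h3 : ∑ i, a (g i) - ∑ i ∈ (zset g X hg l)ᶜ, a (g i) -
              (∑ i, a (g i) - ∑ i ∈ (zset g X hg l₀)ᶜ, a (g i)) =
              (∑ i ∈ (zset g X hg l₀)ᶜ, a (g i) - s) - (∑ i ∈ (zset g X hg l)ᶜ, a (g i) - s) := by
            ring
          rw [h3, abs_sub_comm (∑ i ∈ (zset g X hg l₀)ᶜ, a (g i) - s)]
          have h4 := abs_sub_abs_le_abs_sub (∑ i ∈ (zset g X hg l)ᶜ, a (g i) - s)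
            (∑ i ∈ (zset g X hg l₀)ᶜ, a (g i) - s)
          have h5 := hl₀.2
          push_cast at h2
          linarith
      · rintro ⟨_, h1⟩
        apply hu'
        rw [hcompl (fun i => a (g i)) (zset g X hg l),
            hcompl (fun i => a (g i)) (zset g X hg l₀)]
        have h3 : ∑ i, a (g i) - ∑ i ∈ (zset g X hg l)ᶜ, a (g i) -
              (∑ i, a (g i) - ∑ i ∈ (zset g X hg l₀)ᶜ, a (g i)) =
              (∑ i ∈ (zset g X hg l₀)ᶜ, a (g i) - s) - (∑ i ∈ (zset g X hg l)ᶜ, a (g i) - s) := by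
          ring
        rw [h3]
        have h4 := abs_sub (∑ i ∈ (zset g X hg l₀)ᶜ, a (g i) - s)
          (∑ i ∈ (zset g X hg l)ᶜ, a (g i) - s)
        have h5 := hl₀.2
        push_cast
        linarith
    have h1 := hz (fun s => if s = ∑ i ∈ zset g X hg l₀, u i then 1 else 0)
    have h2 : ((∑ S, cf g X S * (if ∑ i ∈ S, u i = ∑ i ∈ zset g X hg l₀, u i then 1 else 0) : ℤ) :
        ZMod 2) = 0 := by
      rw [h1, Int.cast_zero]
    push_cast at h2
    simp only [cf_parity g X hg, Finset.sum_mul] at h2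
    rw [Finset.sum_comm] at h2
    have h3 : ∀ l : Module.Dual (ZMod 2) (span (ZMod 2) (X : Set V)),
        ∑ S, (if zset g X hg l = S then (1 : ZMod 2) else 0) *
          (if ∑ i ∈ S, u i = ∑ i ∈ zset g X hg l₀, u i then 1 else 0) =
        if l ∈ Ls then 1 else 0 := by
      intro l
      rw [Finset.sum_eq_single (zset g X hg l)]
      · rw [if_pos rfl, one_mul]
        exact if_congr (hlevel l) rfl rfl
      · intro S _ hS
        rw [if_neg (Ne.symm hS), zero_mul]
      · intro h4
        exact absurd (Finset.mem_univ _) h4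
    rw [Finset.sum_congr rfl fun l _ => h3 l, Finset.sum_boole] at h2
    have h4 : (Finset.univ.filter fun l => l ∈ Ls) = Ls := by
      ext l
      simp
    rw [h4, ZMod.natCast_eq_zero_iff_even] at h2
    exact (Nat.not_even_iff_odd.2 hodd) h2

end Pool.Agent.SPT
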