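import Mathlib
import Pool.Agent.SPT.Fin
import Pool.Agent.SPT.CutL

/-!
# SPT: all patterns, a condition on the cuts, assembly
-/

set_option autoImplicit false

open Submodule LaurentPolynomial

namespace Pool.Agent.SPT

open Pool.Agent.Helper16.Knotoid Pool.Agent.UNI

theorem zm_ne (a : ZMod 2) : a ≠ 0 ↔ a = 1 := by
  revert a
  decide

/-- a functional on the rows is given by a set of crossings -/
theorem phi_row {n : ℕ} (R : Fin n → Fin n → Prop) (φ : (Fin n → ZMod 2) →ₗ[ZMod 2] ZMod 2) :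
    ∃ Y : Finset (Fin n), ∀ c, φ (row R c) ≠ 0 ↔ c ∈ cut R Y := by
  classical
  refine ⟨Finset.univ.filter fun d => φ (Pi.single d 1) ≠ 0, fun c => ?_⟩
  have h1 : φ (row R c) = ∑ d, row R c d * φ (Pi.single d 1) := by
    conv_lhs => rw [← Finset.univ_sum_single (row R c)]
    rw [map_sum]
    refine Finset.sum_congr rfl fun d _ => ?_
    have h2 : (Pi.single d (row R c d) : Fin n → ZMod 2) = row R c d • Pi.single d 1 := by
      rw [← Pi.single_smul, smul_eq_mul, mul_one]
    rw [h2, map_smul, smul_eq_mul]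
  have h2 : φ (row R c) =
      (((Finset.univ.filter fun d => φ (Pi.single d 1) ≠ 0).filter fun d => R c d).card : ZMod 2) := by
    rw [h1, Finset.card_filter, Nat.cast_sum, Finset.sum_filter]
    refine Finset.sum_congr rfl fun d _ => ?_
    unfold row
    by_cases h3 : φ (Pi.single d 1) ≠ 0
    · rw [if_pos h3, (zm_ne _).1 h3, mul_one]
      split_ifs <;> simp
    · rw [if_neg h3]
      push Not at h3
      rw [h3, mul_zero]
  rw [h2, zm_ne, ZMod.natCast_eq_one_iff_odd]
  unfold cut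
  rw [Finset.mem_filter]
  constructor
  · intro h
    refine ⟨Finset.mem_univ _, ?_⟩
    convert h
  · rintro ⟨_, h⟩
    convert h

open Classical in
theorem sum_twist {n : ℕ} (R : Fin n → Fin n → Prop) (σ : Fin n → Bool)
    (φ : (Fin n → ZMod 2) →ₗ[ZMod 2] ZMod 2) (Y : Finset (Fin n))
    (hY : ∀ c, φ (row R c) ≠ 0 ↔ c ∈ cut R Y) :
    ∑ v ∈ rows R with φ v ≠ 0, twist R σ v = signedCount σ (cut R Y) := by
  have h1 : cut R Y = Finset.univ.filter fun c => φ (row R c) ≠ 0 := by
    ext c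
    rw [Finset.mem_filter, hY c]
    simp
  rw [h1]
  unfold signedCount twist
  rw [Finset.sum_filter, Finset.sum_filter]
  have h2 : ∀ c ∈ (Finset.univ : Finset (Fin n)), row R c ∈ rows R := by
    intro c _
    unfold rows
    exact Finset.mem_image_of_mem _ (Finset.mem_univ c)
  rw [← Finset.sum_fiberwise_of_maps_to h2]
  refine Finset.sum_congr rfl fun v _ => ?_
  split_ifs with h3
  · refine Finset.sum_congr rfl fun c hc => ?_
    rw [Finset.mem_filter] at hc
    have h4 : φ (row R c) ≠ 0 := by rw [hc.2]; exact h3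
    exact (if_pos h4).symm
  · symm
    refine Finset.sum_eq_zero fun c hc => ?_
    rw [Finset.mem_filter] at hc
    have h4 : ¬ φ (row R c) ≠ 0 := by rw [hc.2]; exact h3
    exact if_neg h4

open Classical in
theorem row_filter {n : ℕ} (R : Fin n → Fin n → Prop) (φ : (Fin n → ZMod 2) →ₗ[ZMod 2] ZMod 2)
    (Y : Finset (Fin n)) (hY : ∀ c, φ (row R c) ≠ 0 ↔ c ∈ cut R Y) :
    ((rows R).filter fun v => φ v ≠ 0) = (cut R Y).image (row R) := by
  ext v
  rw [Finset.mem_filter, Finset.mem_image]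
  constructor
  · rintro ⟨hv, hv0⟩
    unfold rows at hv
    obtain ⟨c, _, rfl⟩ := Finset.mem_image.1 hv
    exact ⟨c, (hY c).1 hv0, rfl⟩
  · rintro ⟨c, hc, rfl⟩
    refine ⟨?_, (hY c).2 hc⟩
    unfold rows
    exact Finset.mem_image_of_mem _ (Finset.mem_univ c)

/-- every set of crossings gives a functional -/
theorem row_phi {n : ℕ} (R : Fin n → Fin n → Prop) (Y : Finset (Fin n)) :
    ∃ φ : (Fin n → ZMod 2) →ₗ[ZMod 2] ZMod 2, ∀ c, φ (row R c) ≠ 0 ↔ c ∈ cut R Y := by
  classical
  refine ⟨∑ d ∈ Y, LinearMap.proj d, fun c => ?_⟩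
  have h2 : (∑ d ∈ Y, LinearMap.proj (R := ZMod 2) (φ := fun _ : Fin n => ZMod 2) d) (row R c) =
      ((Y.filter fun d => R c d).card : ZMod 2) := by
    rw [LinearMap.sum_apply, Finset.card_filter, Nat.cast_sum]
    refine Finset.sum_congr rfl fun d _ => ?_
    rw [LinearMap.proj_apply]
    unfold row
    split_ifs <;> simp
  rw [h2, zm_ne, ZMod.natCast_eq_one_iff_odd]
  unfold cut
  rw [Finset.mem_filter]
  constructor
  · intro h
    refine ⟨Finset.mem_univ _, ?_⟩
    convert h
  · rintro ⟨_, h⟩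
    convert h

/-- the cuts and the supports of the functionals on the rows -/
theorem cuts_supps {n : ℕ} (R : Fin n → Fin n → Prop) (σ : Fin n → Bool) (s d : ℤ) :
    ((supps (rows R)).filter fun T => |∑ v ∈ T, twist R σ v - s| ≤ d).card =
      ((cuts R).filter fun C => |signedCount σ C - s| ≤ d).card := by
  classical
  symm
  have hsum : ∀ Y, ∑ v ∈ (cut R Y).image (row R), twist R σ v = signedCount σ (cut R Y) := by
    intro Y
    obtain ⟨φ, hφ⟩ := row_phi R Y
    rw [← row_filter R φ Y hφ]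
    exact sum_twist R σ φ Y hφ
  have hback : ∀ Y, cut R Y = Finset.univ.filter fun c => row R c ∈ (cut R Y).image (row R) := by
    intro Y
    obtain ⟨φ, hφ⟩ := row_phi R Y
    ext c
    rw [Finset.mem_filter, Finset.mem_image]
    constructor
    · intro hc
      exact ⟨Finset.mem_univ _, c, hc, rfl⟩
    · rintro ⟨_, c', hc', h⟩
      rw [← hφ] at hc' ⊢
      rw [← h]
      exact hc'
  apply Finset.card_bij (fun C _ => C.image (row R))
  · intro C hC
    rw [Finset.mem_filter] at hC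
    obtain ⟨hC1, hC2⟩ := hC
    unfold cuts at hC1
    obtain ⟨Y, _, rfl⟩ := Finset.mem_image.1 hC1
    obtain ⟨φ, hφ⟩ := row_phi R Y
    rw [Finset.mem_filter]
    refine ⟨?_, by rw [hsum Y]; exact hC2⟩
    unfold supps
    rw [Finset.mem_filter, ← row_filter R φ Y hφ, Finset.mem_powerset]
    exact ⟨Finset.filter_subset _ _, φ, rfl⟩
  · intro C hC C' hC' h
    rw [Finset.mem_filter] at hC hC'
    have h1 := hC.1
    have h2 := hC'.1
    unfold cuts at h1 h2
    obtain ⟨Y, _, rfl⟩ := Finset.mem_image.1 h1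
    obtain ⟨Y', _, rfl⟩ := Finset.mem_image.1 h2
    have h' : (cut R Y).image (row R) = (cut R Y').image (row R) := h
    rw [hback Y, hback Y', h']
  · intro T hT
    rw [Finset.mem_filter] at hT
    obtain ⟨hT1, hT2⟩ := hT
    unfold supps at hT1
    rw [Finset.mem_filter] at hT1
    obtain ⟨_, φ, rfl⟩ := hT1
    obtain ⟨Y, hY⟩ := phi_row R φ
    refine ⟨cut R Y, ?_, ?_⟩
    · rw [Finset.mem_filter]
      refine ⟨by unfold cuts; exact Finset.mem_image_of_mem _ (Finset.mem_univ Y), ?_⟩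
      rw [← sum_twist R σ φ Y hY]
      exact hT2
    · exact (row_filter R φ Y hY).symm

/-- **Knotoid diagrams with an odd isolated cut value** -/
theorem thm_KnotoidC : St_KnotoidC := by
  classical
  intro k d B
  obtain ⟨t, ht0, ht1, ht2, ht3⟩ : ∃ t : ℝ, 0 < t ∧ t < 1 ∧ 3 ^ k * t ≤ 1 / 4 ∧
      t * (B + 1) ≤ 1 / 4 := by
    refine ⟨min (1 / 2) (min (1 / 4 / 3 ^ k) (1 / 4 / (B + 1))), ?_, ?_, ?_, ?_⟩
    · refine lt_min (by norm_num) (lt_min ?_ ?_) <;> positivity
    · exact (min_le_left _ _).trans_lt (by norm_num)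
    · rw [mul_comm, ← le_div_iff₀ (by positivity)]
      exact (min_le_right _ _).trans (min_le_left _ _)
    · rw [← le_div_iff₀ (by positivity)]
      exact (min_le_right _ _).trans (min_le_right _ _)
  obtain ⟨N, hN⟩ := thm_ClusterC k d t ht0
  refine ⟨N, fun n D σ ⟨⟨c₀, d₀, hR⟩, hk, s, hodd, hfar⟩ => ?_⟩
  have hrows : rows (D.Cut σ) = Finset.univ.image (D.gmat σ) := by
    unfold rows
    exact Finset.image_congr fun c _ => row_eq D σ c
  have htw : ∀ v, twist (D.Cut σ) σ v =
      signedCount σ (Finset.univ.filter fun c => D.gmat σ c = v) := by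
    intro v
    unfold twist signedCount
    refine Finset.sum_congr ?_ fun _ _ => rfl
    ext c
    rw [Finset.mem_filter, Finset.mem_filter, row_eq]
  obtain ⟨θ, hθ0, hθt, hlow⟩ := hN (Fin n → ZMod 2) (rows (D.Cut σ)) hk (twist (D.Cut σ) σ) s (by
      rw [cuts_supps (D.Cut σ) σ s d]
      exact hodd) (by
      intro T hT
      unfold supps at hT
      rw [Finset.mem_filter] at hT
      obtain ⟨_, φ, rfl⟩ := hT
      obtain ⟨Y, hY⟩ := phi_row (D.Cut σ) φ
      have h1 := sum_twist (D.Cut σ) σ φ Y hY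
      rw [h1]
      exact hfar _ (by unfold cuts; exact Finset.mem_image_of_mem _ (Finset.mem_univ Y)))
  have hev := thm_Eval (Fin n) (D.gmat σ) (D.gmat_symm σ) σ θ hθ0 (by linarith)
  simp only [htw] at hlow
  rw [hrows] at hlow
  have hcard : (3 : ℝ) ^ (Finset.univ.image (D.gmat σ)).card ≤ 3 ^ k :=
    pow_le_pow_right₀ (by norm_num) (by rwa [← hrows])
  have hrank : 1 ≤ (D.gmat σ).rank := rank_pos _ c₀ d₀ (by
    rw [(cut_iff D σ c₀ d₀).1 hR]
    exact one_ne_zero)
  rw [← norm_f D σ θ] at hev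
  have hle := norm_ev_le θ D.normalizedBracket
  have hpow : θ ^ (D.gmat σ).rank ≤ θ := by
    calc θ ^ (D.gmat σ).rank ≤ θ ^ 1 := pow_le_pow_of_le_one hθ0.le (by linarith) hrank
      _ = θ := pow_one θ
  have h1 : 1 / 4 ≤ θ * ‖evθ θ D.normalizedBracket‖ := by
    have h2 : (3 : ℝ) ^ (Finset.univ.image (D.gmat σ)).card * θ ≤ 1 / 4 := by
      calc (3 : ℝ) ^ (Finset.univ.image (D.gmat σ)).card * θ ≤ 3 ^ k * t :=
            mul_le_mul hcard hθt hθ0.le (by positivity)
        _ ≤ 1 / 4 := ht2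
    have h3 : θ ^ (D.gmat σ).rank * ‖evθ θ D.normalizedBracket‖ ≤
        θ * ‖evθ θ D.normalizedBracket‖ := mul_le_mul_of_nonneg_right hpow (norm_nonneg _)
    linarith
  have h4 : t * (B + 1) ≤ t * (coeffSum D.normalizedBracket : ℝ) := by
    calc t * (B + 1) ≤ 1 / 4 := ht3
      _ ≤ θ * ‖evθ θ D.normalizedBracket‖ := h1
      _ ≤ t * (coeffSum D.normalizedBracket : ℝ) :=
          mul_le_mul hθt hle (norm_nonneg _) ht0.le
  have h5 : ((B : ℝ) + 1) ≤ (coeffSum D.normalizedBracket : ℝ) := le_of_mul_le_mul_left h4 ht0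
  have h6 : ((B : ℤ) + 1) ≤ coeffSum D.normalizedBracket := by exact_mod_cast h5
  omega

/-- **Knot diagrams with an odd isolated cut value** -/
theorem thm_KnotC : St_KnotC := by
  intro k d B
  obtain ⟨N, hN⟩ := thm_KnotoidC k d B
  refine ⟨N, fun n g e σ h => ?_⟩
  have h1 : GaussJones.Cut g e σ = (cutOpen g e).Cut σ := by
    funext i j
    exact propext (cut_closed g e σ i j)
  have hn : 0 < n := by
    obtain ⟨⟨c, _⟩, _⟩ := h
    exact c.pos
  rw [h1] at h
  rw [f_closed hn]
  exact hN n _ σ h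

end Pool.Agent.SPT
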