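import Mathlib
import Pool.Agent.SPT.Fin

/-!
# SPT: all patterns, twists near multiples of one scale (idea of helper75)
-/

set_option autoImplicit false

open Submodule LaurentPolynomial

namespace Pool.Agent.SPT

open Pool.Agent.Helper16.Knotoid Pool.Agent.UNI

/-- **Module ODD**: weights `1` and `-1`, the vectors with weight `-1` span -/
def St_Odd : Prop :=
  ∀ (V : Type) [AddCommGroup V] [Module (ZMod 2) V] [DecidableEq V] (X : Finset V) (x : V → ℂ),
    (∀ v ∈ X, x v = 1 ∨ x v = -1) →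
    span (ZMod 2) {v | v ∈ X ∧ x v = -1} = span (ZMod 2) (X : Set V) → 1 ≤ ‖PP X ⊥ x‖

/-- There are at most `k` different rows, not all zero; every twist number is within `M / (20 * k * 3 ^ k)`
of an integral multiple of `M`, and the rows for which this multiple is odd span all rows. -/
def OneScale {n : ℕ} (R : Fin n → Fin n → Prop) (σ : Fin n → Bool) (k : ℕ) (M : ℝ) : Prop :=
  (∃ c d, R c d) ∧ (rows R).card ≤ k ∧ ∃ m : (Fin n → ZMod 2) → ℤ,
    (∀ v ∈ rows R, |(twist R σ v : ℝ) - m v * M| ≤ M / (20 * k * 3 ^ k)) ∧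
    span (ZMod 2) {v | v ∈ rows R ∧ Odd (m v)} = span (ZMod 2) (rows R : Set _)

/-- **knotoid diagrams** -/
def St_KnotoidScale : Prop :=
  ∀ k B : ℕ, ∃ N : ℝ, ∀ M : ℝ, N ≤ M → ∀ (n : ℕ) (D : Helper16.Knotoid.GaussDiagram n)
    (σ : Fin n → Bool), OneScale (D.Cut σ) σ k M → (B : ℤ) < coeffSum D.normalizedBracket

/-- **knot diagrams** -/
def St_KnotScale : Prop :=
  ∀ k B : ℕ, ∃ N : ℝ, ∀ M : ℝ, N ≤ M → ∀ (n : ℕ) (g : GaussJones.Code n) (e σ : Fin n → Bool),
    OneScale (GaussJones.Cut g e σ) σ k M → (B : ℤ) < coeffSum (GaussJones.fPoly g e)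

theorem prod_lip {ι : Type} [DecidableEq ι] (W : Finset ι) (a b : ι → ℂ) (δ : ℝ) (hδ : 0 ≤ δ)
    (ha : ∀ v ∈ W, ‖a v‖ ≤ 2) (hb : ∀ v ∈ W, ‖b v‖ ≤ 2) (h : ∀ v ∈ W, ‖a v - b v‖ ≤ δ) :
    ‖∏ v ∈ W, a v - ∏ v ∈ W, b v‖ ≤ W.card * 2 ^ W.card * δ := by
  induction W using Finset.induction_on with
  | empty => simp
  | insert v W hv ih =>
    rw [Finset.prod_insert hv, Finset.prod_insert hv, Finset.card_insert_of_notMem hv]
    have ih' := ih (fun w hw => ha w (Finset.mem_insert_of_mem hw))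
      (fun w hw => hb w (Finset.mem_insert_of_mem hw))
      (fun w hw => h w (Finset.mem_insert_of_mem hw))
    have hp : ‖∏ w ∈ W, b w‖ ≤ 2 ^ W.card := by
      rw [norm_prod]
      calc ∏ w ∈ W, ‖b w‖ ≤ ∏ _w ∈ W, (2 : ℝ) :=
            Finset.prod_le_prod (fun w _ => norm_nonneg _)
              fun w hw => hb w (Finset.mem_insert_of_mem hw)
        _ = 2 ^ W.card := by rw [Finset.prod_const]
    have h1 : a v * ∏ w ∈ W, a w - b v * ∏ w ∈ W, b w =
        a v * (∏ w ∈ W, a w - ∏ w ∈ W, b w) + (a v - b v) * ∏ w ∈ W, b w := by ring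
    rw [h1]
    calc ‖a v * (∏ w ∈ W, a w - ∏ w ∈ W, b w) + (a v - b v) * ∏ w ∈ W, b w‖ ≤
          ‖a v‖ * ‖∏ w ∈ W, a w - ∏ w ∈ W, b w‖ + ‖a v - b v‖ * ‖∏ w ∈ W, b w‖ := by
          refine (norm_add_le _ _).trans ?_
          rw [norm_mul, norm_mul]
      _ ≤ 2 * (W.card * 2 ^ W.card * δ) + δ * 2 ^ W.card := by
          refine add_le_add ?_ ?_
          · exact mul_le_mul (ha v (Finset.mem_insert_self v W)) ih' (norm_nonneg _) (by norm_num)
          · exact mul_le_mul (h v (Finset.mem_insert_self v W)) hp (norm_nonneg _) hδ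
      _ ≤ ((W.card + 1 : ℕ) : ℝ) * 2 ^ (W.card + 1) * δ := by
          push_cast
          rw [pow_succ]
          have h2 : (0 : ℝ) ≤ 2 ^ W.card * δ := by positivity
          nlinarith

open Classical in
theorem PP_lip {V : Type} [AddCommGroup V] [Module (ZMod 2) V] (X : Finset V) (x y : V → ℂ) (δ : ℝ)
    (hδ : 0 ≤ δ) (hx : ∀ v ∈ X, ‖x v‖ ≤ 1) (hy : ∀ v ∈ X, ‖y v‖ ≤ 1)
    (h : ∀ v ∈ X, ‖x v - y v‖ ≤ δ) : ‖PP X ⊥ x - PP X ⊥ y‖ ≤ X.card * 3 ^ X.card * δ := by
  unfold PP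
  rw [← Finset.sum_sub_distrib]
  refine (norm_sum_le _ _).trans ?_
  have h1 : ∀ W ∈ X.powerset, ‖(if Spans ⊥ X W then ∏ v ∈ W, (x v - 1) else 0) -
      (if Spans ⊥ X W then ∏ v ∈ W, (y v - 1) else 0)‖ ≤ X.card * δ * 2 ^ W.card := by
    intro W hW
    rw [Finset.mem_powerset] at hW
    by_cases hs : Spans ⊥ X W
    · rw [if_pos hs, if_pos hs]
      have h2 := prod_lip W (fun v => x v - 1) (fun v => y v - 1) δ hδ (fun v hv => by
          calc ‖x v - 1‖ ≤ ‖x v‖ + ‖(1 : ℂ)‖ := norm_sub_le _ _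
            _ ≤ 1 + 1 := by
                rw [norm_one]
                exact add_le_add (hx v (hW hv)) le_rfl
            _ = 2 := by norm_num) (fun v hv => by
          calc ‖y v - 1‖ ≤ ‖y v‖ + ‖(1 : ℂ)‖ := norm_sub_le _ _
            _ ≤ 1 + 1 := by
                rw [norm_one]
                exact add_le_add (hy v (hW hv)) le_rfl
            _ = 2 := by norm_num) (fun v hv => by
          have h3 : x v - 1 - (y v - 1) = x v - y v := by ring
          rw [h3]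
          exact h v (hW hv))
      refine h2.trans ?_
      have h4 : (W.card : ℝ) ≤ X.card := by exact_mod_cast Finset.card_le_card hW
      have h5 : (0 : ℝ) ≤ 2 ^ W.card * δ := by positivity
      nlinarith
    · rw [if_neg hs, if_neg hs, sub_zero, norm_zero]
      positivity
  refine (Finset.sum_le_sum h1).trans ?_
  rw [← Finset.mul_sum]
  have h6 : ∑ W ∈ X.powerset, (2 : ℝ) ^ W.card = 3 ^ X.card := by
    have h7 := Finset.prod_add (fun _ : V => (2 : ℝ)) (fun _ => (1 : ℝ)) X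
    rw [Finset.prod_const] at h7
    norm_num at h7
    exact h7.symm
  rw [h6]
  apply le_of_eq
  ring

/-- **Knotoid diagrams** -/
theorem thm_KnotoidScale (hO : St_Odd) : St_KnotoidScale := by
  classical
  intro k B
  obtain ⟨t, ht0, ht1, ht2, ht3⟩ : ∃ t : ℝ, 0 < t ∧ t < 1 ∧ 3 ^ k * t ≤ 1 / 4 ∧
      t * (B + 1) ≤ 1 / 4 := by
    refine ⟨min (1 / 2) (min (1 / 4 / 3 ^ k) (1 / 4 / (B + 1))), ?_, ?_, ?_, ?_⟩
    · refine lt_min (by norm_num) (lt_min ?_ ?_) <;> positivity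
    · exact (min_le_left _ _).trans_lt (by norm_num)
    · rw [mul_comm, ← le_div_iff₀ (by positivity)]
      exact (min_le_right _ _).trans (min_le_left _ _)
    · rw [← le_div_iff₀ (by positivity)]
      exact (min_le_right _ _).trans (min_le_right _ _)
  refine ⟨Real.pi / t, fun M hM n D σ ⟨⟨c₀, d₀, hR⟩, hk, m, hm, hspan⟩ => ?_⟩
  have hMpos : 0 < M := lt_of_lt_of_le (div_pos Real.pi_pos ht0) hM
  obtain ⟨θ, hθ⟩ : ∃ θ : ℝ, θ = Real.pi / M := ⟨_, rfl⟩
  have hθ0 : 0 < θ := by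
    rw [hθ]
    exact div_pos Real.pi_pos hMpos
  have hθt : θ ≤ t := by
    rw [hθ, div_le_iff₀ hMpos]
    rw [div_le_iff₀ ht0] at hM
    linarith
  have hθM : θ * M = Real.pi := by
    rw [hθ, div_mul_cancel₀ _ hMpos.ne']
  have hrows : rows (D.Cut σ) = Finset.univ.image (D.gmat σ) := by
    unfold rows
    exact Finset.image_congr fun c _ => row_eq D σ c
  have htw : ∀ (v : Fin n → ZMod 2) [DecidablePred fun c => D.gmat σ c = v],
      signedCount σ (Finset.univ.filter fun c => D.gmat σ c = v) = twist (D.Cut σ) σ v := by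
    intro v _
    unfold twist signedCount
    refine Finset.sum_congr ?_ fun _ _ => rfl
    ext c
    rw [Finset.mem_filter, Finset.mem_filter, row_eq]
  obtain ⟨x, hx⟩ : ∃ x : (Fin n → ZMod 2) → ℂ, x = fun v =>
      Complex.exp (((twist (D.Cut σ) σ v * θ : ℝ) : ℂ) * Complex.I) := ⟨_, rfl⟩
  obtain ⟨y, hy⟩ : ∃ y : (Fin n → ZMod 2) → ℂ, y = fun v => (-1) ^ m v := ⟨_, rfl⟩
  have hy1 : ∀ v, y v = 1 ∨ y v = -1 := by
    intro v
    rw [hy]
    rcases Int.even_or_odd (m v) with h | h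
    · left
      exact h.neg_one_zpow
    · right
      exact h.neg_one_zpow
  have hy2 : ∀ v, y v = -1 ↔ Odd (m v) := by
    intro v
    constructor
    · intro h
      by_contra h1
      rw [Int.not_odd_iff_even] at h1
      rw [hy] at h
      have h2 : ((-1 : ℂ)) ^ m v = 1 := h1.neg_one_zpow
      have h3 : ((-1 : ℂ)) ^ m v = -1 := h
      rw [h2] at h3
      norm_num at h3
    · intro h
      rw [hy]
      exact h.neg_one_zpow
  have hlow1 : 1 ≤ ‖PP (rows (D.Cut σ)) ⊥ y‖ := by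
    refine hO (Fin n → ZMod 2) (rows (D.Cut σ)) y (fun v _ => hy1 v) ?_
    rw [← hspan]
    congr 1
    ext v
    rw [Set.mem_ofPred_eq, Set.mem_ofPred_eq, hy2]
  have hkpos : 0 < k := by
    refine lt_of_lt_of_le ?_ hk
    refine Finset.card_pos.2 ⟨row (D.Cut σ) c₀, ?_⟩
    unfold rows
    exact Finset.mem_image_of_mem _ (Finset.mem_univ _)
  have hkR : (0 : ℝ) < k := by exact_mod_cast hkpos
  obtain ⟨δ, hδ⟩ : ∃ δ : ℝ, δ = Real.pi / (20 * k * 3 ^ k) := ⟨_, rfl⟩
  have hδ0 : 0 ≤ δ := by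
    rw [hδ]
    positivity
  have hxy : ∀ v ∈ rows (D.Cut σ), ‖x v - y v‖ ≤ δ := by
    intro v hv
    have h1 := hm v hv
    obtain ⟨b, hb⟩ : ∃ b : ℝ, b = (twist (D.Cut σ) σ v : ℝ) - m v * M := ⟨_, rfl⟩
    rw [← hb] at h1
    have h2 : x v = y v * Complex.exp (((b * θ : ℝ) : ℂ) * Complex.I) := by
      rw [hx, hy]
      have h3 : ((twist (D.Cut σ) σ v * θ : ℝ) : ℂ) * Complex.I =
          (m v : ℂ) * ((Real.pi : ℂ) * Complex.I) + ((b * θ : ℝ) : ℂ) * Complex.I := by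
        have h4 : (twist (D.Cut σ) σ v * θ : ℝ) = m v * Real.pi + b * θ := by
          rw [hb, ← hθM]
          ring
        rw [h4]
        push_cast
        ring
      change Complex.exp (((twist (D.Cut σ) σ v * θ : ℝ) : ℂ) * Complex.I) =
        (-1) ^ m v * Complex.exp (((b * θ : ℝ) : ℂ) * Complex.I)
      rw [h3, Complex.exp_add, Complex.exp_int_mul, Complex.exp_pi_mul_I]
    have h5 : ‖y v‖ = 1 := by
      rcases hy1 v with h | h <;> rw [h] <;> simp
    have h6 : x v - y v = y v * (Complex.exp (((b * θ : ℝ) : ℂ) * Complex.I) - 1) := by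
      rw [h2]
      ring
    rw [h6, norm_mul, h5, one_mul]
    have h7 : ‖Complex.exp (((b * θ : ℝ) : ℂ) * Complex.I) - 1‖ ≤ |b * θ| := by
      have h8 := Real.norm_exp_I_mul_ofReal_sub_one_le (x := b * θ)
      rw [mul_comm Complex.I] at h8
      exact h8
    refine h7.trans ?_
    rw [abs_mul, abs_of_pos hθ0, hδ]
    calc |b| * θ ≤ (M / (20 * k * 3 ^ k)) * θ := mul_le_mul_of_nonneg_right h1 hθ0.le
      _ = Real.pi / (20 * k * 3 ^ k) := by
          rw [div_mul_eq_mul_div, mul_comm M θ, hθM]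
  have hlip := PP_lip (rows (D.Cut σ)) x y δ hδ0 (fun v _ => by
      rw [hx, Complex.norm_exp]
      simp) (fun v _ => by
      rcases hy1 v with h | h <;> rw [h] <;> simp) hxy
  have hlow : 1 / 2 ≤ ‖PP (rows (D.Cut σ)) ⊥ x‖ := by
    have h1 : ((rows (D.Cut σ)).card : ℝ) * 3 ^ (rows (D.Cut σ)).card * δ ≤ k * 3 ^ k * δ := by
      refine mul_le_mul_of_nonneg_right ?_ hδ0
      refine mul_le_mul (by exact_mod_cast hk) (pow_le_pow_right₀ (by norm_num) hk) (by positivity)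
        hkR.le
    have h2 : (k : ℝ) * 3 ^ k * δ = Real.pi / 20 := by
      rw [hδ]
      field_simp
    have h3 : Real.pi / 20 ≤ 1 / 2 := by
      have := Real.pi_le_four
      linarith
    have h4 : ‖PP (rows (D.Cut σ)) ⊥ y‖ ≤ ‖PP (rows (D.Cut σ)) ⊥ x‖ +
        ‖PP (rows (D.Cut σ)) ⊥ x - PP (rows (D.Cut σ)) ⊥ y‖ := by
      have h5 := norm_sub_norm_le (PP (rows (D.Cut σ)) ⊥ y) (PP (rows (D.Cut σ)) ⊥ x)
      rw [norm_sub_rev] at h5
      linarith
    linarith
  rw [hx] at hlow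
  have hev := thm_Eval (Fin n) (D.gmat σ) (D.gmat_symm σ) σ θ hθ0 (by linarith)
  simp only [htw] at hev
  rw [hrows] at hlow
  have hcard : (3 : ℝ) ^ (Finset.univ.image (D.gmat σ)).card ≤ 3 ^ k :=
    pow_le_pow_right₀ (by norm_num) (by rwa [← hrows])
  have hrank : 1 ≤ (D.gmat σ).rank := rank_pos _ c₀ d₀ (by
    rw [(cut_iff D σ c₀ d₀).1 hR]
    exact one_ne_zero)
  rw [← norm_f D σ θ] at hev
  have hle := norm_ev_le θ D.normalizedBracket
  have hpow : θ ^ (D.gmat σ).rank ≤ θ := by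
    calc θ ^ (D.gmat σ).rank ≤ θ ^ 1 := pow_le_pow_of_le_one hθ0.le (by linarith) hrank
      _ = θ := pow_one θ
  have h1 : 1 / 4 ≤ θ * ‖evθ θ D.normalizedBracket‖ := by
    have h2 : (3 : ℝ) ^ (Finset.univ.image (D.gmat σ)).card * θ ≤ 1 / 4 := by
      calc (3 : ℝ) ^ (Finset.univ.image (D.gmat σ)).card * θ ≤ 3 ^ k * t :=
            mul_le_mul hcard hθt hθ0.le (by positivity)
        _ ≤ 1 / 4 := ht2
    have h3 : θ ^ (D.gmat σ).rank * ‖evθ θ D.normalizedBracket‖ ≤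
        θ * ‖evθ θ D.normalizedBracket‖ := mul_le_mul_of_nonneg_right hpow (norm_nonneg _)
    linarith
  have h4 : t * (B + 1) ≤ t * (coeffSum D.normalizedBracket : ℝ) := by
    calc t * (B + 1) ≤ 1 / 4 := ht3
      _ ≤ θ * ‖evθ θ D.normalizedBracket‖ := h1
      _ ≤ t * (coeffSum D.normalizedBracket : ℝ) :=
          mul_le_mul hθt hle (norm_nonneg _) ht0.le
  have h5 : ((B : ℝ) + 1) ≤ (coeffSum D.normalizedBracket : ℝ) := le_of_mul_le_mul_left h4 ht0
  have h6 : ((B : ℤ) + 1) ≤ coeffSum D.normalizedBracket := by exact_mod_cast h5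
  omega

/-- **Knot diagrams** -/
theorem thm_KnotScale (hO : St_Odd) : St_KnotScale := by
  intro k B
  obtain ⟨N, hN⟩ := thm_KnotoidScale hO k B
  refine ⟨N, fun M hM n g e σ h => ?_⟩
  have h1 : GaussJones.Cut g e σ = (cutOpen g e).Cut σ := by
    funext i j
    exact propext (cut_closed g e σ i j)
  have hn : 0 < n := by
    obtain ⟨⟨c, _⟩, _⟩ := h
    exact c.pos
  rw [h1] at h
  rw [f_closed hn]
  exact hN M hM n _ σ h

end Pool.Agent.SPT
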