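import Mathlib
import Pool.Agent.SPT.Odd
import Pool.Agent.SPT.Scale

/-!
# SPT: module ODD and the one scale theorems without hypotheses
-/

set_option autoImplicit false

namespace Pool.Agent.SPT

theorem thm_Odd : St_Odd := Odd.odd_main

theorem thm_KnotoidScale' : St_KnotoidScale := thm_KnotoidScale thm_Odd

theorem thm_KnotScale' : St_KnotScale := thm_KnotScale thm_Odd

end Pool.Agent.SPT
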