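import Mathlib
import Pool.Agent.SPT.RelX

/-!
# SPT: patterns with nonvanishing polynomials, explicit constant
-/

set_option autoImplicit false

open Submodule LaurentPolynomial

namespace Pool.Agent.SPT.Rel

/-- nonvanishing for all sets between the long rows and all rows -/
theorem good_of_long {n : ℕ} (R : Fin n → Fin n → Prop) (σ : Fin n → Bool) (k C N : ℕ)
    (h : LongPattern R σ k N) : GoodTwists R σ k C N := by
  classical
  obtain ⟨hcd, hk, hlong, hNV⟩ := h
  refine ⟨hcd, hk, fun u hu => ?_⟩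
  obtain ⟨Y, hY⟩ : ∃ Y : Finset (Fin n → ZMod 2), Y = (rows R).filter fun v => u v ≠ 0 := ⟨_, rfl⟩
  have hYX : Y ⊆ rows R := by
    rw [hY]
    exact Finset.filter_subset _ _
  have hlY : ∀ v ∈ rows R, (N : ℤ) ≤ |twist R σ v| → v ∈ Y := by
    intro v hv hl
    rw [hY, Finset.mem_filter]
    refine ⟨hv, fun h0 => ?_⟩
    refine (hu {v} (Finset.singleton_subset_iff.2 hv) ∅ (Finset.empty_subset _)).1 ?_ ?_
    · rw [Finset.sum_singleton, Finset.sum_empty, sub_zero]
      exact hl
    · rw [Finset.sum_singleton, Finset.sum_empty]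
      exact h0
  have hs : span (ZMod 2) (Y : Set (Fin n → ZMod 2)) = span (ZMod 2) (rows R : Set _) := by
    refine le_antisymm (span_mono (Finset.coe_subset.2 hYX)) ?_
    rw [← hlong]
    exact span_mono fun v hv => hlY v hv.1 hv.2
  obtain ⟨z, hz, hz1⟩ := hNV Y hYX hlY u fun v hv _ => by
    rw [hY, Finset.mem_filter] at hv
    exact hv.2
  refine ⟨z, hz, ?_⟩
  rw [PP_res (rows R) Y hYX hs]
  · exact hz1
  · intro v hv hvY
    have h0 : u v = 0 := by
      by_contra hne
      apply hvY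
      rw [hY, Finset.mem_filter]
      exact ⟨hv, hne⟩
    change z ^ u v = 1
    rw [h0, zpow_zero]

/-- **knotoid diagrams** -/
theorem knotoidNX (k B n : ℕ) (D : Helper16.Knotoid.GaussDiagram n) (σ : Fin n → Bool)
    (h : LongPattern (D.Cut σ) σ k (NX k 0 B)) : (B : ℤ) < coeffSum D.normalizedBracket :=
  knotoidGX k 0 B n D σ (good_of_long _ σ k 0 _ h)

/-- **knot diagrams** -/
theorem knotNX (k B n : ℕ) (g : GaussJones.Code n) (e σ : Fin n → Bool)
    (h : LongPattern (GaussJones.Cut g e σ) σ k (NX k 0 B)) :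
    (B : ℤ) < coeffSum (GaussJones.fPoly g e) :=
  knotGX k 0 B n g e σ (good_of_long _ σ k 0 _ h)

end Pool.Agent.SPT.Rel
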