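import Mathlib
import Pool.Agent.SPT.NZ
import Pool.Agent.SPT.Ne

/-!
# SPT, module SN: series-parallel sets are nonvanishing
-/

set_option autoImplicit false

open Submodule

namespace Pool.Agent.SPT

private theorem SN_exp (m : ℤ) (hm : m ≠ 0) : Complex.exp Complex.I ^ m ≠ 1 := by
  intro h
  rw [← Complex.exp_int_mul, Complex.exp_eq_one_iff] at h
  obtain ⟨n, hn⟩ := h
  have h1 : (m : ℂ) = n * (2 * Real.pi) := by
    have h2 : (m : ℂ) * Complex.I = (n * (2 * Real.pi)) * Complex.I := by
      rw [hn]
      ring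
    exact mul_right_cancel₀ Complex.I_ne_zero h2
  have h2 : (m : ℝ) = n * (2 * Real.pi) := by
    exact_mod_cast h1
  have hn0 : (n : ℝ) ≠ 0 := by
    intro h0
    rw [h0, zero_mul] at h2
    exact hm (by exact_mod_cast h2)
  refine irrational_pi ⟨(m : ℚ) / (n * 2), ?_⟩
  push_cast
  rw [h2]
  field_simp

theorem thm_SPNonV : St_SPNonV := by
  classical
  intro V _ _ _ X L hX hL Y hLY hYX u hu
  refine ⟨Complex.exp Complex.I, ?_, ?_⟩
  · rw [Complex.norm_exp]
    simp
  set z : ℂ := Complex.exp Complex.I with hz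
  have hz1 : ‖z‖ = 1 := by
    rw [hz, Complex.norm_exp]
    simp
  have hspan : span (ZMod 2) (Y : Set V) = span (ZMod 2) (X : Set V) := by
    refine le_antisymm (span_mono (Finset.coe_subset.2 hYX)) ?_
    rw [← hL]
    exact span_mono (Finset.coe_subset.2 hLY)
  set x : V → ℂ := fun v => if v ∈ Y then z ^ u v else 1 with hx
  have hxn : ∀ v, ‖x v‖ = 1 := by
    intro v
    rw [hx]
    by_cases hv : v ∈ Y
    · simp only [if_pos hv]
      rw [norm_zpow, hz1, one_zpow]
    · simp only [if_neg hv, norm_one]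
  have hPP : PP X ⊥ x = PP Y ⊥ (fun v => z ^ u v) := by
    unfold PP
    symm
    have hsp : ∀ W : Finset V, Spans ⊥ Y W ↔ Spans ⊥ X W := by
      intro W
      unfold Spans
      rw [hspan]
    rw [← Finset.sum_subset (Finset.powerset_mono.2 hYX)]
    · refine Finset.sum_congr rfl fun W hW => ?_
      rw [if_congr (hsp W) rfl rfl]
      congr 1
      refine Finset.prod_congr rfl fun v hv => ?_
      rw [hx]
      simp only [if_pos (Finset.mem_powerset.1 hW hv)]
    · intro W _ hW
      split_ifs with h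
      · have h1 : ¬ W ⊆ Y := fun h' => hW (Finset.mem_powerset.2 h')
        rw [Finset.not_subset] at h1
        obtain ⟨v, hv, hvY⟩ := h1
        refine Finset.prod_eq_zero hv ?_
        rw [hx]
        simp only [if_neg hvY, sub_self]
      · rfl
  rw [← hPP]
  refine thm_Ne V X ⊥ hX x ⟨?_, ?_, ?_, ?_⟩
  · intro v _
    rw [hxn]
  · intro v _ _ h0
    have h1 := hxn v
    rw [h0, norm_zero] at h1
    exact zero_ne_one h1
  · intro v hv
    have h1 : v ∈ span (ZMod 2) (L : Set V) := by
      rw [hL]
      exact subset_span hv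
    refine mem_sup_right ?_
    refine (span_le.2 ?_ : span (ZMod 2) (L : Set V) ≤ _) h1
    intro w hw
    by_cases hw0 : w = 0
    · rw [hw0]
      exact zero_mem _
    · refine subset_span ⟨hYX (hLY hw), ?_⟩
      rw [hx]
      simp only [if_pos (hLY hw)]
      exact SN_exp _ (hu w (hLY hw) hw0)
  · intro v _ w _ hvw _ h
    exfalso
    apply hvw
    have h1 : v + w = 0 := (mem_bot _).1 h
    rw [← add_zero v, ← aself w, ← add_assoc, h1, zero_add]

end Pool.Agent.SPT
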